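import Pool.Agent.Lib.P07318h.Defs
import Pool.Agent.Lib.P07318s.E1

/-!
# Fubini in one coordinate, and product functions, on a box

PROOF. `fub_r`: `MeasureTheory.measurePreserving_piFinSuccAbove` (write `n = m + 1`, `r : Fin (m+1)`); the box is the product of `[β r, β r + H]` and the box of the other coordinates, of volume `H^m`. See `FinalAux.fub` in
P07318s/Final.lean (same decomposition for volumes). For the other coordinates `w` in their box the point `insertNth r u w` equals `Function.update h r u` with `h = insertNth r (β r) w ∈ Icc β (β + H)` (`H ≥ 0`).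
`prod_box`: the restriction of `volume` to the box is `Measure.pi` of the restrictions (`Measure.restrict_pi_pi`, `Set.pi_univ_Icc`), then `e1_lint_prod` (P07318s/E1.lean).
-/

set_option autoImplicit false

namespace Pool.Agent.P07318h

open MeasureTheory Complex Pool.Agent.P07318s Pool.Agent.P07318f

theorem fub_r {n : ℕ} (r : Fin n) (β : Fin n → ℝ) {H : ℝ} (hH : 0 ≤ H) (f : (Fin n → ℝ) → ENNReal) (hf : Measurable f)
    (K : ENNReal) (hK : ∀ h ∈ Set.Icc β (fun j => β j + H),
      ∫⁻ u in Set.Icc (β r) (β r + H), f (Function.update h r u) ≤ K) :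
    ∫⁻ h in Set.Icc β (fun j => β j + H), f h ≤ K * ENNReal.ofReal (H ^ (n - 1)) := by
  obtain _ | m := n
  · exact r.elim0
  set e := MeasurableEquiv.piFinSuccAbove (fun _ : Fin (m + 1) => ℝ) r with he
  have hesymm : ∀ (u : ℝ) (w : Fin m → ℝ), e.symm (u, w) = (r.insertNth u w : Fin (m + 1) → ℝ) :=
    fun _ _ => rfl
  set F : (Fin (m + 1) → ℝ) → ENNReal := (Set.Icc β (fun j => β j + H)).indicator f with hF
  have hFm : Measurable F := hf.indicator measurableSet_Icc
  set Bw : Set (Fin m → ℝ) := Set.Icc (fun j => β (r.succAbove j))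
    (fun j => β (r.succAbove j) + H) with hBw
  have hmem : ∀ (u : ℝ) (w : Fin m → ℝ),
      (r.insertNth u w : Fin (m + 1) → ℝ) ∈ Set.Icc β (fun j => β j + H) ↔
        u ∈ Set.Icc (β r) (β r + H) ∧ w ∈ Bw := fun u w => Fin.insertNth_mem_Icc
  have hinner : ∀ w : Fin m → ℝ, ∫⁻ u, F (e.symm (u, w)) ≤ Bw.indicator (fun _ => K) w := by
    intro w
    by_cases hw : w ∈ Bw
    · rw [Set.indicator_of_mem hw]
      have hh : (r.insertNth (β r) w : Fin (m + 1) → ℝ) ∈ Set.Icc β (fun j => β j + H) :=
        (hmem _ _).2 ⟨⟨le_rfl, by linarith⟩, hw⟩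
      refine le_trans (le_of_eq ?_) (hK _ hh)
      rw [← lintegral_indicator measurableSet_Icc]
      refine lintegral_congr fun u => ?_
      rw [hesymm, hF]
      by_cases hu : u ∈ Set.Icc (β r) (β r + H)
      · rw [Set.indicator_of_mem ((hmem u w).2 ⟨hu, hw⟩), Set.indicator_of_mem hu,
          Fin.update_insertNth]
      · rw [Set.indicator_of_notMem (fun h => hu ((hmem u w).1 h).1), Set.indicator_of_notMem hu]
    · rw [Set.indicator_of_notMem hw]
      have h0 : ∀ u, F (e.symm (u, w)) = 0 := by
        intro u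
        rw [hesymm, hF, Set.indicator_of_notMem (fun h => hw ((hmem u w).1 h).2)]
      simp only [h0, lintegral_zero, le_refl]
  calc ∫⁻ h in Set.Icc β (fun j => β j + H), f h = ∫⁻ h, F h :=
        (lintegral_indicator measurableSet_Icc f).symm
    _ = ∫⁻ p, F (e.symm p) := by
        have h1 := (volume_preserving_piFinSuccAbove (fun _ : Fin (m + 1) => ℝ) r).symm e
        exact (h1.lintegral_comp hFm).symm
    _ = ∫⁻ w, ∫⁻ u, F (e.symm (u, w)) :=
        lintegral_prod_symm' _ (hFm.comp e.symm.measurable)
    _ ≤ ∫⁻ w, Bw.indicator (fun _ => K) w := lintegral_mono hinner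
    _ = K * volume Bw := by rw [hBw, lintegral_indicator_const measurableSet_Icc]
    _ = K * ENNReal.ofReal (H ^ (m + 1 - 1)) := by
        rw [hBw, Real.volume_Icc_pi]
        congr 1
        have : ∀ i : Fin m, ENNReal.ofReal (β (r.succAbove i) + H - β (r.succAbove i)) =
            ENNReal.ofReal H := by
          intro i
          congr 1
          ring
        simp only [this, Finset.prod_const, Finset.card_univ, Fintype.card_fin,
          Nat.add_sub_cancel]
        rw [ENNReal.ofReal_pow hH]

theorem prod_box {n : ℕ} (β : Fin n → ℝ) (H : ℝ) (f : Fin n → ℝ → ENNReal) (hf : ∀ j, Measurable (f j)) :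
    ∫⁻ h in Set.Icc β (fun j => β j + H), ∏ j, f j (h j) = ∏ j, ∫⁻ u in Set.Icc (β j) (β j + H), f j u := by
  have hvol : (volume : Measure (Fin n → ℝ)).restrict (Set.Icc β (fun j => β j + H)) =
      Measure.pi (fun i => volume.restrict (Set.Icc (β i) (β i + H))) := by
    rw [← Set.pi_univ_Icc, volume_pi, Measure.restrict_pi_pi]
  rw [hvol]
  exact e1_lint_prod n _ f hf

end Pool.Agent.P07318h
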