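import Pool.Agent.Lib.P07318h.Wls
import Pool.Agent.Lib.P07318f.FourSep
import Pool.Agent.Lib.P07318f.DKer

/-!
# Mean square of the small heights in short windows

PROOF. `x ∈ [U, 16U]`, so `fS Y x = FdSmall Y x` (`fS_eq`) `= ∑_{hgt q ≤ Y} hgt^(-1/2) Om (hgt q) x ex x q` (finite sum). `four_sep`: `Om (hgt q) x = ∑_k ω_k(hgt q) ek U k x`, `‖ω_k(h)‖ ≤ C pk k · kap δ U h`.
Cauchy-Schwarz over `k` with the weights `pk k`: `‖fS‖² ≤ (∑ pk) ∑_k (pk k)⁻¹ ‖∑_{hgt q ≤ Y} ω_k hgt^(-1/2) ex x q‖²`; `wls` with `H := L`, `B q = C pk k` if `hgt q ≤ Y`, `0` otherwise: the integral is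
`≤ C U^(4δ) ∑_k pk k ∑_{hgt q ≤ Y} kap (L h⁻¹ + 1)`, and `∑_{hgt q ≤ Y} kap (L h⁻¹ + 1) ≤ (L + Y) ∑_q kap h⁻¹ ≤ C (L + Y) U^δ` (`dk_trivial` in P07318f/DKer.lean).
-/

set_option autoImplicit false

namespace Pool.Agent.P07318h

open MeasureTheory Complex Pool.Agent.P07318s Pool.Agent.P07318f

namespace SmallMSAux

/-- the coefficients after the separation -/
noncomputable def co (Y : ℝ) (ω : ℤ → ℝ → ℂ) (k : ℤ) (q : Q) : ℂ :=
  if Y < hgt q.1 then 0 else (((hgt q.1) ^ (-(1 / 2) : ℝ) : ℝ) : ℂ) * ω k (hgt q.1)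

/-- the term of `FdSmall` -/
noncomputable def st (Y x : ℝ) (q : Q) : ℂ :=
  if Y < hgt q.1 then 0 else (((hgt q.1) ^ (-(1 / 2) : ℝ) * Om (hgt q.1) x : ℝ) : ℂ) * ex x q.1

/-- the bound -/
noncomputable def Bk (Y C : ℝ) (k : ℤ) (q : Q) : ℝ := if Y < hgt q.1 then 0 else C * pk k

lemma pk_summable : Summable pk := LongPartAux.pk_summable

lemma Bk_nonneg {Y C : ℝ} (hC : 0 ≤ C) (k : ℤ) (q : Q) : 0 ≤ Bk Y C k q := by
  unfold Bk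
  split_ifs
  · exact le_rfl
  · exact mul_nonneg hC (pk_pos k).le

lemma Bk_le {Y C : ℝ} (hC : 0 ≤ C) (k : ℤ) (q : Q) : Bk Y C k q ≤ C * pk k := by
  unfold Bk
  split_ifs
  · exact mul_nonneg hC (pk_pos k).le
  · exact le_rfl

lemma co_norm {Y δ U C : ℝ} {ω : ℤ → ℝ → ℂ}
    (hω : ∀ (k : ℤ) (h : ℝ), 1 ≤ h → ‖ω k h‖ ≤ C / (1 + (k : ℝ) ^ 2) * kap δ U h) (k : ℤ) (q : Q) :
    ‖co Y ω k q‖ ≤ kap δ U (hgt q.1) * (hgt q.1) ^ (-(1 / 2) : ℝ) * Bk Y C k q := by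
  unfold co Bk
  split_ifs
  · rw [norm_zero, mul_zero]
  · rw [norm_mul, Complex.norm_real, Real.norm_of_nonneg (Real.rpow_nonneg (hgt_pos q.1).le _)]
    have h1 := hω k (hgt q.1) (one_le_hgt q.1)
    calc (hgt q.1) ^ (-(1 / 2) : ℝ) * ‖ω k (hgt q.1)‖ ≤
          (hgt q.1) ^ (-(1 / 2) : ℝ) * (C / (1 + (k : ℝ) ^ 2) * kap δ U (hgt q.1)) :=
          mul_le_mul_of_nonneg_left h1 (Real.rpow_nonneg (hgt_pos q.1).le _)
      _ = kap δ U (hgt q.1) * (hgt q.1) ^ (-(1 / 2) : ℝ) * (C * pk k) := by unfold pk; ring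

lemma co_norm' {Y δ U C : ℝ} {ω : ℤ → ℝ → ℂ} (hC : 0 ≤ C) (hU : 0 ≤ U)
    (hω : ∀ (k : ℤ) (h : ℝ), 1 ≤ h → ‖ω k h‖ ≤ C / (1 + (k : ℝ) ^ 2) * kap δ U h) (k : ℤ) (q : Q) :
    ‖co Y ω k q‖ ≤ C * pk k * ww δ U q := by
  refine (co_norm hω k q).trans ?_
  have h1 : 0 ≤ kap δ U (hgt q.1) * (hgt q.1) ^ (-(1 / 2) : ℝ) :=
    mul_nonneg (kap_nonneg hU (hgt_pos q.1).le) (Real.rpow_nonneg (hgt_pos q.1).le _)
  refine (mul_le_mul_of_nonneg_left (Bk_le hC k q) h1).trans (le_of_eq ?_)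
  unfold ww
  ring

lemma small_hasSum {Y δ U C x : ℝ} {ω : ℤ → ℝ → ℂ} (hδ : 0 < δ) (hδ2 : δ ≤ 1 / 2) (hU : 1 ≤ U) (hC : 0 ≤ C)
    (hω : ∀ (k : ℤ) (h : ℝ), 1 ≤ h → ‖ω k h‖ ≤ C / (1 + (k : ℝ) ^ 2) * kap δ U h)
    (hs : ∀ h : ℝ, 1 ≤ h → HasSum (fun k : ℤ => ω k h * ek U k x) (Om h x : ℂ)) :
    HasSum (fun z : Q × ℤ => co Y ω z.2 z.1 * (ek U z.2 x * ex x z.1.1)) (FdSmall Y x) := by
  have hw := ww_summable hδ hδ2 hU
  have hsum : Summable (fun z : Q × ℤ => co Y ω z.2 z.1 * (ek U z.2 x * ex x z.1.1)) := by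
    have h1 : Summable (fun z : Q × ℤ => ww δ U z.1 * (C * pk z.2)) :=
      Summable.mul_of_nonneg hw (pk_summable.mul_left C) (fun q => ww_nonneg (by linarith) q)
        (fun k => mul_nonneg hC (pk_pos k).le)
    refine Summable.of_norm_bounded h1 (fun z => ?_)
    rw [norm_mul, norm_mul, norm_ek, norm_ex, mul_one, mul_one]
    refine (co_norm' hC (by linarith) hω z.2 z.1).trans (le_of_eq (by ring))
  have hfib : ∀ q : Q, HasSum (fun k : ℤ => co Y ω k q * (ek U k x * ex x q.1)) (st Y x q) := by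
    intro q
    unfold co st
    split_ifs
    · simp
    · have h1 := ((hs (hgt q.1) (one_le_hgt q.1)).mul_left
        (((hgt q.1) ^ (-(1 / 2) : ℝ) : ℝ) : ℂ)).mul_right (ex x q.1)
      have h2 : (((hgt q.1) ^ (-(1 / 2) : ℝ) * Om (hgt q.1) x : ℝ) : ℂ) * ex x q.1 =
          (((hgt q.1) ^ (-(1 / 2) : ℝ) : ℝ) : ℂ) * (Om (hgt q.1) x : ℂ) * ex x q.1 := by
        push_cast
        ring
      rw [h2]
      refine h1.congr_fun ?_
      intro k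
      ring
  have h1 := hsum.hasSum.prod_fiberwise hfib
  have h2 : FdSmall Y x = ∑' z : Q × ℤ, co Y ω z.2 z.1 * (ek U z.2 x * ex x z.1.1) := by
    have h3 : FdSmall Y x = ∑' q, st Y x q := rfl
    rw [h3, h1.tsum_eq]
  rw [h2]
  exact hsum.hasSum

/-- the inner sums -/
noncomputable def Ak (Y : ℝ) (ω : ℤ → ℝ → ℂ) (k : ℤ) (x : ℝ) : ℂ :=
  ∑' q : Q, co Y ω k q * ex x q.1

lemma co_summable {Y δ U C : ℝ} {ω : ℤ → ℝ → ℂ} (hδ : 0 < δ) (hδ2 : δ ≤ 1 / 2) (hU : 1 ≤ U)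
    (hC : 0 ≤ C) (hω : ∀ (k : ℤ) (h : ℝ), 1 ≤ h → ‖ω k h‖ ≤ C / (1 + (k : ℝ) ^ 2) * kap δ U h)
    (k : ℤ) : Summable (fun q : Q => ‖co Y ω k q‖) :=
  Summable.of_nonneg_of_le (fun q => norm_nonneg _) (fun q => co_norm' hC (by linarith) hω k q)
    ((ww_summable hδ hδ2 hU).mul_left (C * pk k))

lemma Ak_cont {Y δ U C : ℝ} {ω : ℤ → ℝ → ℂ} (hδ : 0 < δ) (hδ2 : δ ≤ 1 / 2) (hU : 1 ≤ U)
    (hC : 0 ≤ C) (hω : ∀ (k : ℤ) (h : ℝ), 1 ≤ h → ‖ω k h‖ ≤ C / (1 + (k : ℝ) ^ 2) * kap δ U h)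
    (k : ℤ) : Continuous (Ak Y ω k) := by
  unfold Ak
  refine continuous_tsum (fun q => continuous_const.mul (LongPartAux.ex_cont q.1))
    (co_summable (Y := Y) hδ hδ2 hU hC hω k) (fun q h => ?_)
  rw [norm_mul, norm_ex, mul_one]

lemma small_bound {Y δ U C x : ℝ} {ω : ℤ → ℝ → ℂ} (hδ : 0 < δ) (hδ2 : δ ≤ 1 / 2) (hU : 1 ≤ U)
    (hC : 0 ≤ C) (hω : ∀ (k : ℤ) (h : ℝ), 1 ≤ h → ‖ω k h‖ ≤ C / (1 + (k : ℝ) ^ 2) * kap δ U h)
    (hs : ∀ h : ℝ, 1 ≤ h → HasSum (fun k : ℤ => ω k h * ek U k x) (Om h x : ℂ)) :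
    ‖FdSmall Y x‖ₑ ≤ ∑' k : ℤ, ‖Ak Y ω k x‖ₑ := by
  have h1 := small_hasSum (Y := Y) hδ hδ2 hU hC hω hs
  have h2 : HasSum (fun z : ℤ × Q => co Y ω z.1 z.2 * (ek U z.1 x * ex x z.2.1)) (FdSmall Y x) := by
    have h3 := (Equiv.prodComm ℤ Q).hasSum_iff.2 h1
    exact h3
  have hfib : ∀ k : ℤ, HasSum (fun q : Q => co Y ω k q * (ek U k x * ex x q.1))
      (ek U k x * Ak Y ω k x) := by
    intro k
    have hs2 : Summable (fun q : Q => co Y ω k q * ex x q.1) := by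
      refine Summable.of_norm_bounded (co_summable (Y := Y) hδ hδ2 hU hC hω k) (fun q => ?_)
      rw [norm_mul, norm_ex, mul_one]
    have h4 := hs2.hasSum.mul_left (ek U k x)
    refine h4.congr_fun ?_
    intro q
    ring
  have h5 := h2.prod_fiberwise hfib
  rw [← h5.tsum_eq]
  refine enorm_tsum_le_tsum_enorm.trans (le_of_eq ?_)
  refine tsum_congr fun k => ?_
  rw [enorm_mul]
  have h6 : ‖ek U k x‖ₑ = 1 := by
    rw [← ofReal_norm, norm_ek, ENNReal.ofReal_one]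
  rw [h6, one_mul]

end SmallMSAux

open SmallMSAux in
theorem small_ms (δ : ℝ) (hδ : 0 < δ) (hδ2 : δ ≤ 1 / 4) : ∃ C : ℝ, 0 < C ∧ ∀ U Y L b : ℝ, 1 ≤ U → 1 ≤ Y → 0 ≤ L →
    L ≤ 8 * U → U ≤ b → b + L ≤ 16 * U →
    ∫⁻ x in Set.Icc b (b + L), ‖fS Y x‖ₑ ^ 2 ≤ ENNReal.ofReal (C * U ^ (5 * δ) * (L + Y)) := by
  have hδ' : δ ≤ 1 / 2 := by linarith
  obtain ⟨C1, hC1, hsep⟩ := four_sep δ hδ hδ'
  obtain ⟨C2, hC2, hls⟩ := wls δ hδ hδ'
  obtain ⟨C3, hC3, hdk⟩ := dk_trivial δ hδ hδ'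
  set P : ℝ := ∑' k : ℤ, pk k with hP
  have hP0 : 0 ≤ P := tsum_nonneg fun k => (pk_pos k).le
  refine ⟨P ^ 2 * (C2 * (C1 ^ 2 * C3)) + 1, by positivity, ?_⟩
  intro U Y L b hU hY hL hLU hb hbL
  have hU0 : 0 < U := by linarith
  obtain ⟨ω, hω, hs⟩ := hsep U hU
  obtain ⟨hks, hkb⟩ := hdk U hU
  have hAm : ∀ k : ℤ, Measurable fun x => ‖Ak Y ω k x‖ₑ ^ 2 := fun k =>
    ((Ak_cont (Y := Y) hδ hδ' hU hC1.le hω k).measurable.enorm).pow_const _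
  -- one character
  have hone : ∀ k : ℤ, ∫⁻ x in Set.Icc b (b + L), ‖Ak Y ω k x‖ₑ ^ 2 ≤
      ENNReal.ofReal (pk k) ^ 2 * ENNReal.ofReal (C2 * U ^ (4 * δ) * (C1 ^ 2 * ((L + Y) * (C3 * U ^ δ)))) := by
    intro k
    have h1 := (hls U L b hU hL hLU (co Y ω k) (Bk Y C1 k) (C1 * pk k) (Bk_nonneg hC1.le k)
      (Bk_le hC1.le k) (co_norm hω k)).2
    refine (le_trans (le_of_eq rfl) h1).trans ?_
    have hterm : ∀ q : Q, ENNReal.ofReal (kap δ U (hgt q.1) * (L * (hgt q.1)⁻¹ + 1) * Bk Y C1 k q ^ 2) ≤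
        ENNReal.ofReal (pk k ^ 2 * (C1 ^ 2 * (L + Y))) * ENNReal.ofReal (kap δ U (hgt q.1) * (hgt q.1)⁻¹) := by
      intro q
      have hh := hgt_pos q.1
      have hk0 : 0 ≤ kap δ U (hgt q.1) := kap_nonneg hU0.le hh.le
      have hLY : 0 ≤ L + Y := by linarith
      rw [← ENNReal.ofReal_mul (by positivity)]
      apply ENNReal.ofReal_le_ofReal
      unfold Bk
      split_ifs with h2
      · have : 0 ≤ pk k ^ 2 * (C1 ^ 2 * (L + Y)) * (kap δ U (hgt q.1) * (hgt q.1)⁻¹) := by positivity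
        simpa using this
      · push Not at h2
        have h3 : L * (hgt q.1)⁻¹ + 1 ≤ (L + Y) * (hgt q.1)⁻¹ := by
          have h4 : 1 ≤ Y * (hgt q.1)⁻¹ := by
            rw [← div_eq_mul_inv, one_le_div hh]
            exact h2
          linarith [add_mul L Y (hgt q.1)⁻¹]
        have h5 : 0 ≤ kap δ U (hgt q.1) * (C1 * pk k) ^ 2 := by positivity
        calc kap δ U (hgt q.1) * (L * (hgt q.1)⁻¹ + 1) * (C1 * pk k) ^ 2 =
              kap δ U (hgt q.1) * (C1 * pk k) ^ 2 * (L * (hgt q.1)⁻¹ + 1) := by ring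
          _ ≤ kap δ U (hgt q.1) * (C1 * pk k) ^ 2 * ((L + Y) * (hgt q.1)⁻¹) :=
              mul_le_mul_of_nonneg_left h3 h5
          _ = pk k ^ 2 * (C1 ^ 2 * (L + Y)) * (kap δ U (hgt q.1) * (hgt q.1)⁻¹) := by ring
    have hkn : ∀ q : Q, 0 ≤ kap δ U (hgt q.1) * (hgt q.1)⁻¹ := fun q =>
      mul_nonneg (kap_nonneg hU0.le (hgt_pos q.1).le) (inv_nonneg.2 (hgt_pos q.1).le)
    have h2 : ∑' q : Q, ENNReal.ofReal (kap δ U (hgt q.1) * (L * (hgt q.1)⁻¹ + 1) * Bk Y C1 k q ^ 2) ≤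
        ENNReal.ofReal (pk k ^ 2 * (C1 ^ 2 * (L + Y))) * ENNReal.ofReal (C3 * U ^ δ) := by
      refine (ENNReal.tsum_le_tsum hterm).trans ?_
      rw [ENNReal.tsum_mul_left, ← ENNReal.ofReal_tsum_of_nonneg hkn hks]
      gcongr
    have hLY : 0 ≤ L + Y := by linarith
    calc ENNReal.ofReal (C2 * U ^ (4 * δ)) *
          ∑' q : Q, ENNReal.ofReal (kap δ U (hgt q.1) * (L * (hgt q.1)⁻¹ + 1) * Bk Y C1 k q ^ 2) ≤
          ENNReal.ofReal (C2 * U ^ (4 * δ)) *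
            (ENNReal.ofReal (pk k ^ 2 * (C1 ^ 2 * (L + Y))) * ENNReal.ofReal (C3 * U ^ δ)) := by gcongr
      _ = ENNReal.ofReal (pk k) ^ 2 *
          ENNReal.ofReal (C2 * U ^ (4 * δ) * (C1 ^ 2 * ((L + Y) * (C3 * U ^ δ)))) := by
          rw [← ENNReal.ofReal_pow (pk_pos k).le, ← ENNReal.ofReal_mul (by positivity),
            ← ENNReal.ofReal_mul (by positivity), ← ENNReal.ofReal_mul (by positivity)]
          congr 1
          ring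
  set M : ENNReal := ENNReal.ofReal (C2 * U ^ (4 * δ) * (C1 ^ 2 * ((L + Y) * (C3 * U ^ δ)))) with hM
  have hp0 : ∀ k : ℤ, ENNReal.ofReal (pk k) ≠ 0 := fun k => by simpa using pk_pos k
  have hp1 : ∀ k : ℤ, ENNReal.ofReal (pk k) ≠ ⊤ := fun k => ENNReal.ofReal_ne_top
  have hPs : ∑' k : ℤ, ENNReal.ofReal (pk k) = ENNReal.ofReal P := by
    rw [hP, ENNReal.ofReal_tsum_of_nonneg (fun k => (pk_pos k).le) pk_summable]
  have hpt : ∀ x ∈ Set.Icc b (b + L), ‖fS Y x‖ₑ ^ 2 ≤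
      (∑' k : ℤ, ENNReal.ofReal (pk k)) * ∑' k : ℤ, (ENNReal.ofReal (pk k))⁻¹ * ‖Ak Y ω k x‖ₑ ^ 2 := by
    intro x hx
    have hxU : U ≤ x := hb.trans hx.1
    have hx16 : x ≤ 16 * U := hx.2.trans hbL
    rw [fS_eq (by linarith)]
    refine le_trans ?_ (LongPartAux.cs (fun k => ENNReal.ofReal (pk k)) (fun k => ‖Ak Y ω k x‖ₑ) hp0 hp1)
    exact pow_le_pow_left' (small_bound (Y := Y) hδ hδ' hU hC1.le hω fun h hh => hs h hh x hxU hx16) 2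
  calc ∫⁻ x in Set.Icc b (b + L), ‖fS Y x‖ₑ ^ 2 ≤ ∫⁻ x in Set.Icc b (b + L),
        (∑' k : ℤ, ENNReal.ofReal (pk k)) * ∑' k : ℤ, (ENNReal.ofReal (pk k))⁻¹ * ‖Ak Y ω k x‖ₑ ^ 2 :=
        setLIntegral_mono' measurableSet_Icc hpt
    _ = (∑' k : ℤ, ENNReal.ofReal (pk k)) * ∑' k : ℤ, (ENNReal.ofReal (pk k))⁻¹ *
          ∫⁻ x in Set.Icc b (b + L), ‖Ak Y ω k x‖ₑ ^ 2 := by
        rw [lintegral_const_mul _ (Measurable.ennreal_tsum fun k => (hAm k).const_mul _),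
          lintegral_tsum fun k => ((hAm k).const_mul _).aemeasurable]
        congr 1
        refine tsum_congr fun k => ?_
        rw [lintegral_const_mul _ (hAm k)]
    _ ≤ (∑' k : ℤ, ENNReal.ofReal (pk k)) * ∑' k : ℤ, (ENNReal.ofReal (pk k))⁻¹ *
          (ENNReal.ofReal (pk k) ^ 2 * M) := by
        gcongr with k
        exact hone k
    _ = (∑' k : ℤ, ENNReal.ofReal (pk k)) * ((∑' k : ℤ, ENNReal.ofReal (pk k)) * M) := by
        congr 1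
        rw [← ENNReal.tsum_mul_right]
        refine tsum_congr fun k => ?_
        rw [sq, ← mul_assoc, ← mul_assoc, ENNReal.inv_mul_cancel (hp0 k) (hp1 k), one_mul]
    _ = ENNReal.ofReal (P ^ 2 * (C2 * (C1 ^ 2 * C3)) * U ^ (5 * δ) * (L + Y)) := by
        rw [hPs, hM, ← ENNReal.ofReal_mul hP0, ← ENNReal.ofReal_mul hP0]
        congr 1
        have h5 : U ^ (5 * δ) = U ^ (4 * δ) * U ^ δ := by
          rw [← Real.rpow_add hU0]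
          congr 1
          ring
        rw [h5]
        ring
    _ ≤ ENNReal.ofReal ((P ^ 2 * (C2 * (C1 ^ 2 * C3)) + 1) * U ^ (5 * δ) * (L + Y)) := by
        apply ENNReal.ofReal_le_ofReal
        have hLY : 0 ≤ L + Y := by linarith
        gcongr
        linarith

end Pool.Agent.P07318h
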