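import Pool.Agent.Lib.P07318h.Clus
import Pool.Agent.Lib.P07318h.SmallMS
import Pool.Agent.Lib.P07318h.Fub

/-!
# The contribution of the large values

PROOF. `B h = ∫⁻_{t ∈ [0, 2U]} ofReal (bi (U^κ) Y α t h)`, measurable (`bi` is measurable in `(t, h)` jointly: `gz`, `fz Y` are continuous, the set `Bd` is open; `Measurable.lintegral_prod_right'`). By Tonelli the integral is
`∫⁻_t ∫⁻_h`. Let `ε = min(δ₀, κ)/(8(n+2))`, `N = ⌊2U/H⌋ + 1` (`N H ≤ 3U`), `I_r = [rH, (r+1)H]`, `r < N`, these cover `[0, 2U]`. Put `b 0 = α`, `b (j+1) = β j`, `V_j(r) = wm (b j) H r / H`.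
(1) For `t ∈ I_r`, `h j ∈ [β j, β j + H]`: `t + h j ∈ w_j := [β j + rH, β j + rH + 2H]`, and `t + α ∈ [α + rH, α + rH + 2H]`. For nonnegative measurable `f_j`: `∫_{box} ∏_j f_j(t + h j) dh = ∏_j ∫_{[β j, β j+H]} f_j(t+u) du ≤ ∏_j ∫_{w_j} f_j`
(`prod_box`). `∫_{w_j} fz Y ≤ wm (β j) H r + (2H)^(1/2) (∫_{w_j} ‖fS Y‖²)^(1/2) ≤ H (V_j(r) + C U^ε)` (`small_ms`, `L = 2H`, `Y ≤ H`, `δ` small).
(2) Bad windows: some `V_j(r) > C U^ε` (`j = 0..n`): `∫_{I_r} ∫_box bi ≤ H^n · H · ∏_{j=0}^n (V_j + C U^ε) = H^(n+1) cb (C U^ε) H b r`; the sum over `r` is `≤ H^n C U^(1-δ₀/2)` by `clus_n` (take the same constant `C`,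
large enough for (1), (2): `cb K` with a larger `K`: use `clus_n` with its own constant `C₀` for the definition of bad windows and `C ≥ C₀`: if some `V_j > C U^ε` then `V_j > C₀ U^ε` and
`∏ (V_j + C U^ε) ≤ (C/C₀)^(n+1) ∏ (V_j + C₀ U^ε)`).
(3) Good windows (all `V_j(r) ≤ C U^ε`), `M = U^κ`. On `Bd` either `gz(t+α) > M`: then `gz(t+α) ≤ gz(t+α)²/M` and, as the integral over the box of `∏ fz` is `≤ H^n (2C U^ε)^n`, the sum over `r` is
`≤ H^n (2C U^ε)^n M^(-1) ∫_{[α, α+3U]} gz² ≤ C H^n U^(nε) U^(1+ε) M^(-1)` (`∫_{[2U, 12U]} |ζ|⁴ ≤ C U^(1+ε)`: `LongPartAux.fourth_long`). Or `fz Y (t + h i) > M` for some `i`: then `fz ≤ fz²/M` for this factor, and the integral over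
`I_r × box` is `≤ (∫_{I_r} gz(t+α)) (H · 2C U^ε)^(n-1) M^(-1) ∫_{w_i} fz² ≤ H^n C U^(nε) M^(-1) ∫_{w_i} fz²` (`∫_{I_r} gz(t+α) ≤ H V_0 ≤ C H U^ε`). Every point lies in at most 3 windows `w_i(r)`, so the sum over `r` is
`≤ C H^n U^(nε) M^(-1) ∫_{[β i, β i + 5U]} fz² ≤ C H^n U^(nε) M^(-1) U^(1+2ε)` (`fz² ≤ 2 gz² + 2 ‖fS‖²`, `∫ ‖fS‖² ≤ C U^ε (5U + Y)`, `small_ms`).
Total `≤ C H^n (U^(1-δ₀/2) + U^(1+(n+2)ε-κ))`; `η = min(δ₀/2, κ/2)`.
-/

set_option autoImplicit false

namespace Pool.Agent.P07318h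

open MeasureTheory Complex Pool.Agent.P07318s Pool.Agent.P07318f


namespace BadIAux

lemma tr (f : ℝ → ENNReal) (A S : Set ℝ) (hA : MeasurableSet A) (hS : MeasurableSet S) (t : ℝ)
    (h : ∀ u ∈ A, t + u ∈ S) : ∫⁻ u in A, f (t + u) ≤ ∫⁻ x in S, f x := by
  have h1 : ∫⁻ u in A, f (t + u) = ∫⁻ u in A, S.indicator f (t + u) := by
    refine setLIntegral_congr_fun hA fun u hu => ?_
    simp only [Set.indicator_of_mem (h u hu)]
  rw [h1]
  refine (setLIntegral_le_lintegral _ _).trans (le_of_eq ?_)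
  rw [lintegral_add_left_eq_self (fun x => S.indicator f x) t, lintegral_indicator hS]

lemma sum_ico (f : ℝ → ENNReal) {H : ℝ} (hH : 0 ≤ H) (b : ℝ) (N : ℕ) :
    ∑ r ∈ Finset.range N, ∫⁻ t in Set.Ico (b + r * H) (b + (r + 1) * H), f t =
      ∫⁻ t in Set.Ico b (b + N * H), f t := by
  induction N with
  | zero => simp
  | succ N ih =>
    rw [Finset.sum_range_succ, ih, ← lintegral_union measurableSet_Ico]
    · congr 2
      push_cast
      refine Set.Ico_union_Ico_eq_Ico ?_ ?_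
      · have : 0 ≤ (N : ℝ) * H := by positivity
        linarith
      · nlinarith
    · refine Set.disjoint_left.2 fun x hx hx' => ?_
      exact absurd hx.2 (not_lt.2 hx'.1)

lemma sum_win (f : ℝ → ENNReal) {H : ℝ} (hH : 0 ≤ H) (b : ℝ) (N : ℕ) :
    ∑ r ∈ Finset.range N, ∫⁻ t in Set.Icc (b + r * H) (b + r * H + 2 * H), f t ≤
      2 * ∫⁻ t in Set.Icc b (b + (N + 1) * H), f t := by
  have h0 : ∀ r : ℕ, ∫⁻ t in Set.Icc (b + r * H) (b + r * H + 2 * H), f t =
      (∫⁻ t in Set.Ico (b + r * H) (b + (r + 1) * H), f t) +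
        ∫⁻ t in Set.Ico (b + ((r + 1 : ℕ) : ℝ) * H) (b + (((r + 1 : ℕ) : ℝ) + 1) * H), f t := by
    intro r
    rw [← lintegral_union measurableSet_Ico]
    · have e1 : Set.Ico (b + r * H) (b + (r + 1) * H) ∪
          Set.Ico (b + ((r + 1 : ℕ) : ℝ) * H) (b + (((r + 1 : ℕ) : ℝ) + 1) * H) =
          Set.Ico (b + r * H) (b + r * H + 2 * H) := by
        push_cast
        rw [Set.Ico_union_Ico_eq_Ico]
        · congr 1
          ring
        · nlinarith
        · nlinarith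
      rw [e1]
      exact setLIntegral_congr Ico_ae_eq_Icc.symm
    · refine Set.disjoint_left.2 fun x hx hx' => ?_
      have := hx'.1
      push_cast at this
      exact absurd hx.2 (not_lt.2 this)
  have h1 : ∑ r ∈ Finset.range N, ∫⁻ t in Set.Ico (b + r * H) (b + (r + 1) * H), f t ≤
      ∫⁻ t in Set.Icc b (b + (N + 1) * H), f t := by
    rw [sum_ico f hH b N]
    refine lintegral_mono_set ?_
    intro x hx
    refine ⟨hx.1, hx.2.le.trans ?_⟩
    nlinarith
  have h2 : ∑ r ∈ Finset.range N, ∫⁻ t in Set.Ico (b + ((r + 1 : ℕ) : ℝ) * H)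
      (b + (((r + 1 : ℕ) : ℝ) + 1) * H), f t ≤ ∫⁻ t in Set.Icc b (b + (N + 1) * H), f t := by
    have h3 := sum_ico f hH b (N + 1)
    rw [Finset.sum_range_succ'] at h3
    refine (le_self_add.trans_eq h3).trans ?_
    refine lintegral_mono_set ?_
    intro x hx
    refine ⟨hx.1, hx.2.le.trans ?_⟩
    push_cast
    exact le_rfl
  simp only [h0]
  rw [Finset.sum_add_distrib, two_mul]
  exact add_le_add h1 h2

lemma gz_int (a b : ℝ) : IntervalIntegrable gz volume a b := gz_cont.intervalIntegrable a b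

lemma lint_gz {a L : ℝ} (hL : 0 ≤ L) : ∫⁻ x in Set.Icc a (a + L), ENNReal.ofReal (gz x) =
    ENNReal.ofReal (∫ x in a..(a + L), gz x) := by
  rw [intervalIntegral.integral_of_le (by linarith), ← integral_Icc_eq_integral_Ioc,
    ofReal_integral_eq_lintegral_ofReal gz_cont.continuousOn.integrableOn_Icc
      (Filter.Eventually.of_forall fun x => gz_nonneg x)]

lemma lint_gz2 (ε : ℝ) (hε : 0 < ε) (hε1 : ε ≤ 1) : ∃ C : ℝ, 0 < C ∧ ∀ U a b : ℝ, 1 ≤ U → U ≤ a → b ≤ 12 * U →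
    ∫⁻ x in Set.Icc a b, ENNReal.ofReal (gz x) ^ 2 ≤ ENNReal.ofReal (C * U ^ (1 + ε)) := by
  obtain ⟨C, hC, h⟩ := LongPartAux.fourth_long ε hε hε1
  refine ⟨C, hC, fun U a b hU ha hb => ?_⟩
  have h1 : ∫⁻ x in Set.Icc a b, ENNReal.ofReal (gz x) ^ 2 ≤
      ∫⁻ x in Set.Icc U (12 * U), ENNReal.ofReal (gz x) ^ 2 :=
    lintegral_mono_set (Set.Icc_subset_Icc ha hb)
  refine h1.trans ?_
  have h2 : ∀ x : ℝ, ENNReal.ofReal (gz x) ^ 2 = ENNReal.ofReal (‖riemannZeta (1 / 2 + x * I)‖ ^ 4) := by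
    intro x
    rw [← ENNReal.ofReal_pow (gz_nonneg x)]
    congr 1
    unfold gz
    ring
  simp only [h2]
  rw [← ofReal_integral_eq_lintegral_ofReal LongPartAux.zeta_cont4.continuousOn.integrableOn_Icc
      (Filter.Eventually.of_forall fun x => by positivity), integral_Icc_eq_integral_Ioc,
    ← intervalIntegral.integral_of_le (by linarith)]
  exact ENNReal.ofReal_le_ofReal (h U hU)

lemma ofReal_fz_le (Y x : ℝ) : ENNReal.ofReal (fz Y x) ≤ ENNReal.ofReal (gz x) + (1 + ‖fS Y x‖ₑ ^ 2) := by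
  unfold fz
  rw [ENNReal.ofReal_add (gz_nonneg x) (norm_nonneg _)]
  refine add_le_add le_rfl ?_
  have h1 : ‖fS Y x‖ₑ ^ 2 = ENNReal.ofReal (‖fS Y x‖ ^ 2) := by
    rw [ENNReal.ofReal_pow (norm_nonneg _), ofReal_norm]
  rw [h1, ← ENNReal.ofReal_one, ← ENNReal.ofReal_add zero_le_one (by positivity)]
  refine ENNReal.ofReal_le_ofReal ?_
  nlinarith [sq_nonneg (‖fS Y x‖ - 1 / 2)]

lemma ofReal_fz_sq_le (Y x : ℝ) : ENNReal.ofReal (fz Y x) ^ 2 ≤
    2 * (ENNReal.ofReal (gz x) ^ 2 + ‖fS Y x‖ₑ ^ 2) := by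
  have h1 : ‖fS Y x‖ₑ ^ 2 = ENNReal.ofReal (‖fS Y x‖ ^ 2) := by
    rw [ENNReal.ofReal_pow (norm_nonneg _), ofReal_norm]
  rw [h1, ← ENNReal.ofReal_pow (gz_nonneg x), ← ENNReal.ofReal_pow (fz_nonneg Y x),
    ← ENNReal.ofReal_add (by positivity) (by positivity),
    show (2 : ENNReal) = ENNReal.ofReal 2 by simp, ← ENNReal.ofReal_mul zero_le_two]
  refine ENNReal.ofReal_le_ofReal ?_
  unfold fz
  nlinarith [sq_nonneg (gz x - ‖fS Y x‖)]


lemma bi_le {n : ℕ} {M : ℝ} (hM : 0 < M) (Y α t : ℝ) (h : Fin n → ℝ) :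
    ENNReal.ofReal (bi M Y α t h) ≤ ENNReal.ofReal M⁻¹ *
      (ENNReal.ofReal (gz (t + α)) ^ 2 * ∏ j, ENNReal.ofReal (fz Y (t + h j)) +
      ∑ i, ENNReal.ofReal (gz (t + α)) * ∏ j, (if j = i then ENNReal.ofReal (fz Y (t + h j)) ^ 2
        else ENNReal.ofReal (fz Y (t + h j)))) := by
  have hg := gz_nonneg (t + α)
  have hf : ∀ j, 0 ≤ fz Y (t + h j) := fun j => fz_nonneg _ _
  have hP : 0 ≤ ∏ j, fz Y (t + h j) := Finset.prod_nonneg fun j _ => hf j
  have h1 : ∀ i : Fin n, ∏ j, (if j = i then ENNReal.ofReal (fz Y (t + h j)) ^ 2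
        else ENNReal.ofReal (fz Y (t + h j))) = ENNReal.ofReal ((∏ j, fz Y (t + h j)) * fz Y (t + h i)) := by
    intro i
    have h2 : ∀ j, (if j = i then ENNReal.ofReal (fz Y (t + h j)) ^ 2 else ENNReal.ofReal (fz Y (t + h j))) =
        ENNReal.ofReal (fz Y (t + h j)) * (if j = i then ENNReal.ofReal (fz Y (t + h j)) else 1) := by
      intro j
      split_ifs
      · rw [sq]
      · rw [mul_one]
    simp only [h2]
    rw [Finset.prod_mul_distrib, Finset.prod_ite_eq', if_pos (Finset.mem_univ i),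
      ENNReal.ofReal_mul hP, ENNReal.ofReal_prod_of_nonneg fun j _ => hf j]
  simp only [h1]
  rw [← ENNReal.ofReal_prod_of_nonneg fun j _ => hf j, ← ENNReal.ofReal_pow hg]
  have h3 : ∑ i, ENNReal.ofReal (gz (t + α)) * ENNReal.ofReal ((∏ j, fz Y (t + h j)) * fz Y (t + h i)) =
      ENNReal.ofReal (∑ i, gz (t + α) * ((∏ j, fz Y (t + h j)) * fz Y (t + h i))) := by
    rw [ENNReal.ofReal_sum_of_nonneg fun i _ => mul_nonneg hg (mul_nonneg hP (hf i))]
    refine Finset.sum_congr rfl fun i _ => ?_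
    rw [ENNReal.ofReal_mul hg]
  rw [h3, ← ENNReal.ofReal_mul (by positivity), ← ENNReal.ofReal_add (by positivity)
    (Finset.sum_nonneg fun i _ => mul_nonneg hg (mul_nonneg hP (hf i))), ← ENNReal.ofReal_mul (by positivity)]
  refine ENNReal.ofReal_le_ofReal ?_
  have h4 : gz (t + α) ^ 2 * ∏ j, fz Y (t + h j) + ∑ i, gz (t + α) * ((∏ j, fz Y (t + h j)) * fz Y (t + h i)) =
      (gz (t + α) * ∏ j, fz Y (t + h j)) * (gz (t + α) + ∑ i, fz Y (t + h i)) := by
    have h5 : ∑ i, gz (t + α) * ((∏ j, fz Y (t + h j)) * fz Y (t + h i)) =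
        (gz (t + α) * ∏ j, fz Y (t + h j)) * ∑ i, fz Y (t + h i) := by
      rw [Finset.mul_sum]
      refine Finset.sum_congr rfl fun i _ => ?_
      ring
    rw [h5]
    ring
  rw [h4]
  have hS : 0 ≤ ∑ i, fz Y (t + h i) := Finset.sum_nonneg fun i _ => hf i
  unfold bi
  split_ifs with hb
  · have h6 : M ≤ gz (t + α) + ∑ i, fz Y (t + h i) := by
      rcases hb with hb | ⟨j, hj⟩
      · linarith
      · have h7 : fz Y (t + h j) ≤ ∑ i, fz Y (t + h i) :=
          Finset.single_le_sum (f := fun i => fz Y (t + h i)) (fun i _ => hf i) (Finset.mem_univ j)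
        linarith
    have h8 : 0 ≤ gz (t + α) * ∏ j, fz Y (t + h j) := mul_nonneg hg hP
    calc gz (t + α) * ∏ j, fz Y (t + h j) = M⁻¹ * ((gz (t + α) * ∏ j, fz Y (t + h j)) * M) := by
          field_simp
      _ ≤ _ := by
          refine mul_le_mul_of_nonneg_left ?_ (by positivity)
          exact mul_le_mul_of_nonneg_left h6 h8
  · positivity

lemma bi_meas {n : ℕ} (M Y α : ℝ) :
    Measurable (fun p : ℝ × (Fin n → ℝ) => ENNReal.ofReal (bi M Y α p.1 p.2)) := by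
  classical
  refine ENNReal.measurable_ofReal.comp ?_
  unfold bi
  have hg : Measurable gz := gz_cont.measurable
  have hf : Measurable (fz Y) := (fz_cont Y).measurable
  refine Measurable.ite ?_ ?_ measurable_const
  · unfold Bd
    refine MeasurableSet.union ?_ ?_
    · exact measurableSet_lt measurable_const (hg.comp (measurable_fst.add measurable_const))
    · have : {p : ℝ × (Fin n → ℝ) | ∃ j, M < fz Y (p.1 + p.2 j)} = ⋃ j, {p | M < fz Y (p.1 + p.2 j)} := by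
        ext p
        simp
      show MeasurableSet {p : ℝ × (Fin n → ℝ) | ∃ j, M < fz Y (p.1 + p.2 j)}
      rw [this]
      refine MeasurableSet.iUnion fun j => ?_
      exact measurableSet_lt measurable_const
        (hf.comp (measurable_fst.add ((measurable_pi_apply j).comp measurable_snd)))
  · refine (hg.comp (measurable_fst.add measurable_const)).mul ?_
    refine Finset.measurable_prod _ fun j _ => ?_
    exact hf.comp (measurable_fst.add ((measurable_pi_apply j).comp measurable_snd))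

/-- the integral of a product over the box, `t` in the window `r` -/
lemma box_le {n : ℕ} (α : ℝ) (β : Fin n → ℝ) {H : ℝ} (r : ℕ) (g : ℝ → ENNReal)
    (f : Fin n → ℝ → ENNReal) (hf : ∀ j, Measurable (f j)) (t : ℝ)
    (ht : t ∈ Set.Ico (r * H) ((r + 1) * H)) :
    ∫⁻ h in Set.Icc β (fun j => β j + H), g (t + α) * ∏ j, f j (t + h j) ≤
      g (t + α) * ∏ j, ∫⁻ x in Set.Icc (β j + r * H) (β j + r * H + 2 * H), f j x := by
  rw [lintegral_const_mul]
  · refine mul_le_mul_right ?_ _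
    rw [prod_box β H (fun j u => f j (t + u)) (fun j => (hf j).comp (measurable_const.add measurable_id))]
    refine Finset.prod_le_prod' fun j _ => ?_
    refine tr (f j) _ _ measurableSet_Icc measurableSet_Icc t ?_
    intro u hu
    obtain ⟨h1, h2⟩ := ht
    obtain ⟨h3, h4⟩ := hu
    constructor <;> nlinarith
  · refine Finset.measurable_prod _ fun j _ => ?_
    exact (hf j).comp (measurable_const.add (measurable_pi_apply j))

lemma win_le {n : ℕ} (α : ℝ) (β : Fin n → ℝ) {H : ℝ} (r : ℕ) (g : ℝ → ENNReal) (hg : Measurable g)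
    (f : Fin n → ℝ → ENNReal) (hf : ∀ j, Measurable (f j)) :
    ∫⁻ t in Set.Ico (r * H) ((r + 1) * H), ∫⁻ h in Set.Icc β (fun j => β j + H), g (t + α) * ∏ j, f j (t + h j) ≤
      (∫⁻ t in Set.Ico (r * H) ((r + 1) * H), g (t + α)) *
        ∏ j, ∫⁻ x in Set.Icc (β j + r * H) (β j + r * H + 2 * H), f j x := by
  have hg' : Measurable fun t => g (t + α) := hg.comp (measurable_id.add measurable_const)
  rw [← lintegral_mul_const _ hg']
  refine setLIntegral_mono ?_ fun t ht => ?_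
  · exact hg'.mul_const _
  · exact box_le α β r g f hf t ht

lemma tr_alpha (α : ℝ) {H : ℝ} (r : ℕ) (g : ℝ → ENNReal) :
    ∫⁻ t in Set.Ico (r * H) ((r + 1) * H), g (t + α) ≤
      ∫⁻ x in Set.Icc (α + r * H) (α + r * H + 2 * H), g x := by
  have h1 : ∀ t, g (t + α) = g (α + t) := fun t => by rw [add_comm]
  simp only [h1]
  refine tr g _ _ measurableSet_Ico measurableSet_Icc α ?_
  intro u hu
  obtain ⟨h2, h3⟩ := hu
  constructor <;> nlinarith

/-- bad windows -/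
lemma win_bad {n : ℕ} (M Y α : ℝ) (β : Fin n → ℝ) {H : ℝ} (_hH : 0 ≤ H) (r : ℕ) :
    ∫⁻ t in Set.Ico (r * H) ((r + 1) * H), ∫⁻ h in Set.Icc β (fun j => β j + H), ENNReal.ofReal (bi M Y α t h) ≤
      (∫⁻ x in Set.Icc (α + r * H) (α + r * H + 2 * H), ENNReal.ofReal (gz x)) *
        ∏ j, ∫⁻ x in Set.Icc (β j + r * H) (β j + r * H + 2 * H), ENNReal.ofReal (fz Y x) := by
  have hG : Measurable fun x => ENNReal.ofReal (gz x) := ENNReal.measurable_ofReal.comp gz_cont.measurable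
  have hF : Measurable fun x => ENNReal.ofReal (fz Y x) := ENNReal.measurable_ofReal.comp (fz_cont Y).measurable
  refine le_trans ?_ (mul_le_mul_left (tr_alpha α r fun x => ENNReal.ofReal (gz x)) _)
  refine le_trans ?_ (win_le α β r (fun x => ENNReal.ofReal (gz x)) hG (fun _ x => ENNReal.ofReal (fz Y x))
    fun _ => hF)
  refine lintegral_mono fun t => lintegral_mono fun h => ?_
  dsimp only
  rw [← ENNReal.ofReal_prod_of_nonneg fun j _ => fz_nonneg _ _, ← ENNReal.ofReal_mul (gz_nonneg _)]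
  refine ENNReal.ofReal_le_ofReal ?_
  unfold bi
  split_ifs
  · exact le_rfl
  · exact mul_nonneg (gz_nonneg _) (Finset.prod_nonneg fun j _ => fz_nonneg _ _)

/-- good windows -/
lemma win_good {n : ℕ} (hn : 1 ≤ n) {M : ℝ} (hM : 0 < M) (Y α : ℝ) (β : Fin n → ℝ) {H : ℝ} (_hH : 0 ≤ H) (r : ℕ)
    (K : ENNReal) (h0 : ∫⁻ x in Set.Icc (α + r * H) (α + r * H + 2 * H), ENNReal.ofReal (gz x) ≤ K)
    (hj : ∀ j, ∫⁻ x in Set.Icc (β j + r * H) (β j + r * H + 2 * H), ENNReal.ofReal (fz Y x) ≤ K) :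
    ∫⁻ t in Set.Ico (r * H) ((r + 1) * H), ∫⁻ h in Set.Icc β (fun j => β j + H), ENNReal.ofReal (bi M Y α t h) ≤
      ENNReal.ofReal M⁻¹ * (K ^ n * ((∫⁻ t in Set.Ico (r * H) ((r + 1) * H), ENNReal.ofReal (gz (t + α)) ^ 2) +
        ∑ i, ∫⁻ x in Set.Icc (β i + r * H) (β i + r * H + 2 * H), ENNReal.ofReal (fz Y x) ^ 2)) := by
  have hG : Measurable fun x => ENNReal.ofReal (gz x) := ENNReal.measurable_ofReal.comp gz_cont.measurable
  have hF : Measurable fun x => ENNReal.ofReal (fz Y x) := ENNReal.measurable_ofReal.comp (fz_cont Y).measurable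
  have hG2 : Measurable fun x => ENNReal.ofReal (gz x) ^ 2 := hG.pow_const 2
  have hF2 : Measurable fun x => ENNReal.ofReal (fz Y x) ^ 2 := hF.pow_const 2
  let f : Fin n → Fin n → ℝ → ENNReal := fun i j x => if j = i then ENNReal.ofReal (fz Y x) ^ 2 else ENNReal.ofReal (fz Y x)
  have hf : ∀ i j, Measurable (f i j) := by
    intro i j
    by_cases h : j = i
    · simp only [f, if_pos h]
      exact hF2
    · simp only [f, if_neg h]
      exact hF
  have hmp : ∀ (g : ℝ → ENNReal) (hg : Measurable g) (f : Fin n → ℝ → ENNReal) (hf : ∀ j, Measurable (f j)),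
      Measurable (fun p : ℝ × (Fin n → ℝ) => g (p.1 + α) * ∏ j, f j (p.1 + p.2 j)) := by
    intro g hg f hf
    refine (hg.comp (measurable_fst.add measurable_const)).mul ?_
    refine Finset.measurable_prod _ fun j _ => ?_
    exact (hf j).comp (measurable_fst.add ((measurable_pi_apply j).comp measurable_snd))
  have hm1 := hmp (fun x => ENNReal.ofReal (gz x) ^ 2) hG2 (fun _ x => ENNReal.ofReal (fz Y x)) (fun _ => hF)
  have hm2 := fun i => hmp (fun x => ENNReal.ofReal (gz x)) hG (f i) (hf i)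
  have hs : ∀ (Fn : ℝ × (Fin n → ℝ) → ENNReal), Measurable Fn → ∀ t, Measurable fun h => Fn (t, h) :=
    fun Fn h t => h.comp measurable_prodMk_left
  have e1 : ∫⁻ t in Set.Ico (r * H) ((r + 1) * H), ∫⁻ h in Set.Icc β (fun j => β j + H),
      ENNReal.ofReal (bi M Y α t h) ≤
      ∫⁻ t in Set.Ico (r * H) ((r + 1) * H), ∫⁻ h in Set.Icc β (fun j => β j + H),
        ENNReal.ofReal M⁻¹ * (ENNReal.ofReal (gz (t + α)) ^ 2 * ∏ j, ENNReal.ofReal (fz Y (t + h j)) +
        ∑ i, ENNReal.ofReal (gz (t + α)) * ∏ j, f i j (t + h j)) :=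
    lintegral_mono fun t => lintegral_mono fun h => bi_le hM Y α t h
  refine e1.trans ?_
  have e2 : ∀ t, ∫⁻ h in Set.Icc β (fun j => β j + H),
        ENNReal.ofReal M⁻¹ * (ENNReal.ofReal (gz (t + α)) ^ 2 * ∏ j, ENNReal.ofReal (fz Y (t + h j)) +
        ∑ i, ENNReal.ofReal (gz (t + α)) * ∏ j, f i j (t + h j)) =
      ENNReal.ofReal M⁻¹ * ((∫⁻ h in Set.Icc β (fun j => β j + H),
        ENNReal.ofReal (gz (t + α)) ^ 2 * ∏ j, ENNReal.ofReal (fz Y (t + h j))) +
        ∑ i, ∫⁻ h in Set.Icc β (fun j => β j + H), ENNReal.ofReal (gz (t + α)) * ∏ j, f i j (t + h j)) := by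
    intro t
    rw [lintegral_const_mul', lintegral_add_left, lintegral_finsetSum]
    · intro i _
      exact hs _ (hm2 i) t
    · exact hs _ hm1 t
    · exact ENNReal.ofReal_ne_top
  simp only [e2]
  rw [lintegral_const_mul' _ _ ENNReal.ofReal_ne_top, lintegral_add_left, lintegral_finsetSum]
  · refine mul_le_mul_right ?_ _
    rw [mul_add]
    refine add_le_add ?_ ?_
    · refine (win_le α β r (fun x => ENNReal.ofReal (gz x) ^ 2) hG2 (fun _ x => ENNReal.ofReal (fz Y x))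
        fun _ => hF).trans ?_
      rw [mul_comm]
      refine mul_le_mul_left ?_ _
      calc ∏ j, ∫⁻ x in Set.Icc (β j + r * H) (β j + r * H + 2 * H), ENNReal.ofReal (fz Y x)
          ≤ ∏ _j : Fin n, K := Finset.prod_le_prod' fun j _ => hj j
        _ = K ^ n := by simp
    · rw [Finset.mul_sum]
      refine Finset.sum_le_sum fun i _ => ?_
      refine (win_le α β r (fun x => ENNReal.ofReal (gz x)) hG (f i) (hf i)).trans ?_
      have e3 : ∏ j, ∫⁻ x in Set.Icc (β j + r * H) (β j + r * H + 2 * H), f i j x ≤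
          (∫⁻ x in Set.Icc (β i + r * H) (β i + r * H + 2 * H), ENNReal.ofReal (fz Y x) ^ 2) * K ^ (n - 1) := by
        rw [← Finset.mul_prod_erase Finset.univ _ (Finset.mem_univ i)]
        refine mul_le_mul' ?_ ?_
        · simp only [f, if_true]
          exact le_rfl
        · have e4 : (Finset.univ.erase i).card = n - 1 := by
            rw [Finset.card_erase_of_mem (Finset.mem_univ i)]
            simp
          rw [← e4, ← Finset.prod_const]
          refine Finset.prod_le_prod' fun j hj' => ?_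
          have hne : j ≠ i := Finset.ne_of_mem_erase hj'
          simp only [f, if_neg hne]
          exact hj j
      refine (mul_le_mul' ((tr_alpha α r fun x => ENNReal.ofReal (gz x)).trans h0) e3).trans ?_
      obtain ⟨m, rfl⟩ : ∃ m, n = m + 1 := ⟨n - 1, by omega⟩
      rw [Nat.add_sub_cancel, pow_succ]
      exact le_of_eq (by ring)
  · intro i _
    exact (hm2 i).lintegral_prod_right'
  · exact hm1.lintegral_prod_right'

end BadIAux

theorem bad_int (n : ℕ) (hn : 1 ≤ n) (δ₀ κ : ℝ) (hδ₀ : 0 < δ₀) (hκ : 0 < κ) : ∃ η C : ℝ, 0 < η ∧ 0 < C ∧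
    ∀ (U Y H α : ℝ) (β : Fin n → ℝ), 1 ≤ U → 1 ≤ Y → Y ≤ H → U ^ (th n + δ₀) ≤ H → H ≤ U → 2 * U ≤ α → α ≤ 5 * U →
    (∀ j, 2 * U ≤ β j) → (∀ j, β j ≤ 5 * U) →
    ∃ B : (Fin n → ℝ) → ENNReal, Measurable B ∧
      (∀ h, ∫⁻ t in Set.Icc 0 (2 * U), ENNReal.ofReal (bi (U ^ κ) Y α t h) ≤ B h) ∧
      ∫⁻ h in Set.Icc β (fun j => β j + H), B h ≤ ENNReal.ofReal (C * H ^ n * U ^ (1 - η)) := by
  classical
  have hn' : (1 : ℝ) ≤ n := by exact_mod_cast hn
  set ε : ℝ := min (min δ₀ κ) 1 / (8 * (n + 2)) with hεdef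
  have hmpos : 0 < min (min δ₀ κ) 1 := lt_min (lt_min hδ₀ hκ) one_pos
  have hε : 0 < ε := by positivity
  have hεm : ε * (8 * (n + 2)) = min (min δ₀ κ) 1 := by
    rw [hεdef]
    field_simp
  have hε1 : ε ≤ 1 := by
    have h1 : ε * (8 * (n + 2)) ≤ 1 := hεm.trans_le (min_le_right _ _)
    nlinarith
  have hεδ : ((n : ℝ) + 1) * ε ≤ δ₀ / 2 := by
    have h1 : ε * (8 * (n + 2)) ≤ δ₀ := hεm.trans_le ((min_le_left _ _).trans (min_le_left _ _))
    nlinarith
  have hεκ : ((n : ℝ) + 1) * ε ≤ κ / 2 := by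
    have h1 : ε * (8 * (n + 2)) ≤ κ := hεm.trans_le ((min_le_left _ _).trans (min_le_right _ _))
    nlinarith
  obtain ⟨C₀, hC₀, hclus⟩ := clus_n n hn δ₀ ε hδ₀ hε hεδ
  obtain ⟨C₁, hC₁, hsm⟩ := small_ms (ε / 5) (by positivity) (by linarith)
  obtain ⟨C₄, hC₄, h4⟩ := BadIAux.lint_gz2 ε hε hε1
  set C₂ : ℝ := 2 + 3 * C₁ with hC₂
  have hC₂0 : 0 < C₂ := by positivity
  set ρ : ℝ := max 1 (C₂ / C₀) with hρ
  have hρ1 : 1 ≤ ρ := le_max_left _ _
  have hρ2 : C₂ ≤ ρ * C₀ := by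
    have h1 : C₂ / C₀ ≤ ρ := le_max_right _ _
    rwa [div_le_iff₀ hC₀] at h1
  have hρ0 : 0 < ρ := by linarith
  set C₃ : ℝ := C₀ + C₂ with hC₃
  have hC₃0 : 0 < C₃ := by positivity
  set C₅ : ℝ := 2 * C₄ + 10 * C₁ with hC₅
  have hC₅0 : 0 < C₅ := by positivity
  refine ⟨min (δ₀ / 2) (κ / 2), ρ ^ (n + 1) * C₀ + C₃ ^ n * (C₄ + 2 * n * C₅), lt_min (by positivity) (by positivity),
    by positivity, ?_⟩
  intro U Y H α β hU hY hYH hUH hHU hα hα' hβ hβ'
  have hU0 : 0 < U := by linarith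
  have hH1 : 1 ≤ H := hY.trans hYH
  have hH0 : 0 < H := by linarith
  have hM : 0 < U ^ κ := Real.rpow_pos_of_pos hU0 _
  have hUε : 1 ≤ U ^ ε := Real.one_le_rpow hU hε.le
  set M : ℝ := U ^ κ with hMdef
  have hmeas := BadIAux.bi_meas (n := n) M Y α
  have hgm : Measurable fun x => ENNReal.ofReal (gz x) := ENNReal.measurable_ofReal.comp gz_cont.measurable
  refine ⟨fun h => ∫⁻ t in Set.Icc 0 (2 * U), ENNReal.ofReal (bi M Y α t h), ?_, fun h => le_rfl, ?_⟩
  · exact Measurable.lintegral_prod_left' hmeas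
  rw [lintegral_lintegral_swap (f := fun (h : Fin n → ℝ) (t : ℝ) => ENNReal.ofReal (bi M Y α t h))
    (hmeas.comp measurable_swap).aemeasurable]
  -- the windows
  set N : ℕ := ⌊2 * U / H⌋₊ + 1 with hN
  have hN1 : 2 * U < N * H := by
    have h1 := Nat.lt_floor_add_one (2 * U / H)
    rw [div_lt_iff₀ hH0] at h1
    rw [hN]
    push_cast
    exact h1
  have hN2 : ((N : ℝ) - 1) * H ≤ 2 * U := by
    have h1 : (⌊2 * U / H⌋₊ : ℝ) ≤ 2 * U / H := Nat.floor_le (by positivity)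
    rw [le_div_iff₀ hH0] at h1
    rw [hN]
    push_cast
    linarith
  have hN3 : (N : ℝ) * H ≤ 3 * U := by nlinarith
  set Φ : ℝ → ENNReal := fun t => ∫⁻ h in Set.Icc β (fun j => β j + H), ENNReal.ofReal (bi M Y α t h) with hΦ
  have hstep1 : ∫⁻ t in Set.Icc 0 (2 * U), Φ t ≤
      ∑ r ∈ Finset.range N, ∫⁻ t in Set.Ico ((r : ℝ) * H) ((r + 1) * H), Φ t := by
    have h1 := BadIAux.sum_ico Φ hH0.le 0 N
    simp only [zero_add] at h1
    rw [h1]
    refine lintegral_mono_set ?_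
    intro x hx
    exact ⟨hx.1, hx.2.trans_lt hN1⟩
  refine hstep1.trans ?_
  set b : Fin (n + 1) → ℝ := Fin.cons α β with hb
  have hb2 : ∀ j, 2 * U ≤ b j := by
    intro j
    refine Fin.cases ?_ (fun i => ?_) j
    · simpa [hb] using hα
    · simpa [hb] using hβ i
  have hb5 : ∀ j, b j ≤ 5 * U := by
    intro j
    refine Fin.cases ?_ (fun i => ?_) j
    · simpa [hb] using hα'
    · simpa [hb] using hβ' i
  have hcl := hclus U H b N hU hUH hHU hb2 hb5 hN3
  set K₀ : ℝ := C₀ * U ^ ε with hK₀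
  have hK₀0 : 0 < K₀ := by positivity
  set V : Fin (n + 1) → ℕ → ℝ := fun j r => wm (b j) H r / H with hV
  have hV0 : ∀ j r, 0 ≤ V j r := fun j r => div_nonneg (wm_nonneg hH0.le _ _) hH0.le
  have hwmV : ∀ j r, wm (b j) H r = H * V j r := by
    intro j r
    rw [hV]
    field_simp
  have hW0 : ∀ r : ℕ, ∫⁻ x in Set.Icc (α + r * H) (α + r * H + 2 * H), ENNReal.ofReal (gz x) =
      ENNReal.ofReal (H * V 0 r) := by
    intro r
    rw [BadIAux.lint_gz (by positivity), ← hwmV 0 r]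
    rfl
  have hWj : ∀ r : ℕ, r < N → ∀ j : Fin n, ∫⁻ x in Set.Icc (β j + r * H) (β j + r * H + 2 * H), ENNReal.ofReal (fz Y x) ≤
      ENNReal.ofReal (H * (V j.succ r + C₂ * U ^ ε)) := by
    intro r hr j
    have hr' : (r : ℝ) ≤ N - 1 := by
      have : (r : ℝ) + 1 ≤ N := by exact_mod_cast hr
      linarith
    have hrH : (r : ℝ) * H ≤ 2 * U := (mul_le_mul_of_nonneg_right hr' hH0.le).trans hN2
    have hrH0 : 0 ≤ (r : ℝ) * H := by positivity
    have h1 := hsm U Y (2 * H) (β j + r * H) hU hY (by positivity) (by linarith) (by linarith [hβ j])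
      (by linarith [hβ' j])
    rw [show 5 * (ε / 5) = ε by ring] at h1
    calc ∫⁻ x in Set.Icc (β j + r * H) (β j + r * H + 2 * H), ENNReal.ofReal (fz Y x)
        ≤ ∫⁻ x in Set.Icc (β j + r * H) (β j + r * H + 2 * H), (ENNReal.ofReal (gz x) + (1 + ‖fS Y x‖ₑ ^ 2)) :=
          lintegral_mono fun x => BadIAux.ofReal_fz_le Y x
      _ = ENNReal.ofReal (H * V j.succ r) + (ENNReal.ofReal (2 * H) +
          ∫⁻ x in Set.Icc (β j + r * H) (β j + r * H + 2 * H), ‖fS Y x‖ₑ ^ 2) := by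
          rw [lintegral_add_left hgm, lintegral_add_left measurable_const, BadIAux.lint_gz (by positivity),
            ← hwmV j.succ r]
          congr 2
          rw [setLIntegral_const, one_mul, Real.volume_Icc]
          congr 1
          ring
      _ ≤ ENNReal.ofReal (H * V j.succ r) + (ENNReal.ofReal (2 * H) + ENNReal.ofReal (C₁ * U ^ ε * (2 * H + Y))) := by
          gcongr
      _ = ENNReal.ofReal (H * V j.succ r + (2 * H + C₁ * U ^ ε * (2 * H + Y))) := by
          rw [← ENNReal.ofReal_add (by positivity) (by positivity), ← ENNReal.ofReal_add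
            (mul_nonneg hH0.le (hV0 _ _)) (by positivity)]
      _ ≤ _ := by
          refine ENNReal.ofReal_le_ofReal ?_
          have h2 : 2 * H ≤ 2 * H * U ^ ε := le_mul_of_one_le_right (by positivity) hUε
          have h3 : C₁ * U ^ ε * (2 * H + Y) ≤ C₁ * U ^ ε * (3 * H) :=
            mul_le_mul_of_nonneg_left (by linarith) (by positivity)
          rw [hC₂]
          nlinarith
  set K : ENNReal := ENNReal.ofReal (H * (C₃ * U ^ ε)) with hK
  have hwin : ∀ r ∈ Finset.range N, ∫⁻ t in Set.Ico ((r : ℝ) * H) ((r + 1) * H), Φ t ≤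
      ENNReal.ofReal (ρ ^ (n + 1) * H ^ (n + 1) * cb K₀ H b r) +
      ENNReal.ofReal M⁻¹ * (K ^ n * ((∫⁻ t in Set.Ico ((r : ℝ) * H) ((r + 1) * H), ENNReal.ofReal (gz (t + α)) ^ 2) +
        ∑ i, ∫⁻ x in Set.Icc (β i + r * H) (β i + r * H + 2 * H), ENNReal.ofReal (fz Y x) ^ 2)) := by
    intro r hr
    rw [Finset.mem_range] at hr
    by_cases hbad : ∃ j, K₀ < wm (b j) H r / H
    · refine le_trans ?_ (le_add_of_nonneg_right zero_le)
      refine (BadIAux.win_bad M Y α β hH0.le r).trans ?_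
      rw [hW0 r]
      refine (mul_le_mul_right (Finset.prod_le_prod' fun j _ => hWj r hr j) _).trans ?_
      rw [← ENNReal.ofReal_prod_of_nonneg fun j _ => mul_nonneg hH0.le (add_nonneg (hV0 _ _) (by positivity)),
        ← ENNReal.ofReal_mul (mul_nonneg hH0.le (hV0 _ _))]
      refine ENNReal.ofReal_le_ofReal ?_
      have hcb : cb K₀ H b r = ∏ j, (V j r + K₀) := by
        unfold cb
        rw [if_pos hbad]
      have h5 : ρ ^ (n + 1) * H ^ (n + 1) * cb K₀ H b r = ∏ j : Fin (n + 1), (H * (ρ * (V j r + K₀))) := by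
        rw [hcb, Finset.prod_mul_distrib, Finset.prod_mul_distrib]
        simp
        ring
      rw [h5, Fin.prod_univ_succ]
      refine mul_le_mul ?_ ?_ ?_ ?_
      · refine mul_le_mul_of_nonneg_left ?_ hH0.le
        have := hV0 0 r
        nlinarith
      · refine Finset.prod_le_prod (fun j _ => mul_nonneg hH0.le (add_nonneg (hV0 _ _) (by positivity))) fun j _ => ?_
        refine mul_le_mul_of_nonneg_left ?_ hH0.le
        have h6 := hV0 j.succ r
        have h7 : C₂ * U ^ ε ≤ ρ * C₀ * U ^ ε := mul_le_mul_of_nonneg_right hρ2 (by positivity)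
        rw [hK₀]
        nlinarith
      · exact Finset.prod_nonneg fun j _ => mul_nonneg hH0.le (add_nonneg (hV0 _ _) (by positivity))
      · have := hV0 0 r
        positivity
    · push Not at hbad
      refine le_trans ?_ (le_add_of_nonneg_left zero_le)
      refine BadIAux.win_good hn hM Y α β hH0.le r K ?_ ?_
      · rw [hW0 r]
        refine ENNReal.ofReal_le_ofReal (mul_le_mul_of_nonneg_left ?_ hH0.le)
        refine (hbad 0).trans ?_
        rw [hK₀, hC₃]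
        nlinarith
      · intro j
        refine (hWj r hr j).trans (ENNReal.ofReal_le_ofReal (mul_le_mul_of_nonneg_left ?_ hH0.le))
        have h9 : V j.succ r ≤ K₀ := hbad j.succ
        have h10 : C₃ * U ^ ε = K₀ + C₂ * U ^ ε := by
          rw [hC₃, hK₀]
          ring
        rw [h10]
        exact add_le_add h9 le_rfl
  refine (Finset.sum_le_sum hwin).trans ?_
  rw [Finset.sum_add_distrib]
  -- first part
  have hA : ∑ r ∈ Finset.range N, ENNReal.ofReal (ρ ^ (n + 1) * H ^ (n + 1) * cb K₀ H b r) ≤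
      ENNReal.ofReal (ρ ^ (n + 1) * C₀ * H ^ n * U ^ (1 - δ₀ / 2)) := by
    have hcb0 : ∀ r, 0 ≤ cb K₀ H b r := by
      intro r
      unfold cb
      split_ifs
      · exact Finset.prod_nonneg fun j _ => add_nonneg (hV0 j r) hK₀0.le
      · exact le_rfl
    rw [← ENNReal.ofReal_sum_of_nonneg fun r _ => mul_nonneg (by positivity) (hcb0 r), ← Finset.mul_sum]
    refine ENNReal.ofReal_le_ofReal ?_
    calc ρ ^ (n + 1) * H ^ (n + 1) * ∑ r ∈ Finset.range N, cb K₀ H b r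
        = ρ ^ (n + 1) * H ^ n * (H * ∑ r ∈ Finset.range N, cb K₀ H b r) := by ring
      _ ≤ ρ ^ (n + 1) * H ^ n * (C₀ * U ^ (1 - δ₀ / 2)) := mul_le_mul_of_nonneg_left hcl (by positivity)
      _ = _ := by ring
  -- second part
  have hG2 : ∑ r ∈ Finset.range N, ∫⁻ t in Set.Ico ((r : ℝ) * H) ((r + 1) * H), ENNReal.ofReal (gz (t + α)) ^ 2 ≤
      ENNReal.ofReal (C₄ * U ^ (1 + ε)) := by
    have h1 := BadIAux.sum_ico (fun t => ENNReal.ofReal (gz (t + α)) ^ 2) hH0.le 0 N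
    simp only [zero_add] at h1
    rw [h1]
    have h2 : ∀ t, ENNReal.ofReal (gz (t + α)) ^ 2 = (fun x => ENNReal.ofReal (gz x) ^ 2) (α + t) := by
      intro t
      rw [add_comm]
    simp only [h2]
    refine (BadIAux.tr (fun x => ENNReal.ofReal (gz x) ^ 2) _ (Set.Icc α (α + 3 * U)) measurableSet_Ico
      measurableSet_Icc α ?_).trans (h4 U α (α + 3 * U) hU (by linarith) (by linarith))
    intro u hu
    exact ⟨by linarith [hu.1], by linarith [hu.2]⟩
  have hF2 : ∀ i, ∑ r ∈ Finset.range N, ∫⁻ x in Set.Icc (β i + r * H) (β i + r * H + 2 * H), ENNReal.ofReal (fz Y x) ^ 2 ≤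
      ENNReal.ofReal (2 * C₅ * U ^ (1 + ε)) := by
    intro i
    refine (BadIAux.sum_win (fun x => ENNReal.ofReal (fz Y x) ^ 2) hH0.le (β i) N).trans ?_
    have h0 : Set.Icc (β i) (β i + (N + 1) * H) ⊆ Set.Icc (β i) (β i + 4 * U) :=
      Set.Icc_subset_Icc le_rfl (by nlinarith)
    have h1 := hsm U Y (4 * U) (β i) hU hY (by positivity) (by linarith) (by linarith [hβ i]) (by linarith [hβ' i])
    rw [show 5 * (ε / 5) = ε by ring] at h1
    have h2 := h4 U (β i) (β i + 4 * U) hU (by linarith [hβ i]) (by linarith [hβ' i])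
    have h3 : ∫⁻ x in Set.Icc (β i) (β i + (N + 1) * H), ENNReal.ofReal (fz Y x) ^ 2 ≤
        2 * (ENNReal.ofReal (C₄ * U ^ (1 + ε)) + ENNReal.ofReal (C₁ * U ^ ε * (4 * U + Y))) := by
      refine (lintegral_mono_set h0).trans ?_
      refine (lintegral_mono fun x => BadIAux.ofReal_fz_sq_le Y x).trans ?_
      rw [lintegral_const_mul' _ _ (by simp), lintegral_add_left (hgm.pow_const 2)]
      gcongr
    refine (mul_le_mul_right h3 _).trans ?_
    rw [← ENNReal.ofReal_add (by positivity) (by positivity), show (2 : ENNReal) = ENNReal.ofReal 2 by simp,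
      ← ENNReal.ofReal_mul zero_le_two, ← ENNReal.ofReal_mul zero_le_two]
    refine ENNReal.ofReal_le_ofReal ?_
    have h5 : U ^ (1 + ε) = U * U ^ ε := by rw [Real.rpow_add hU0, Real.rpow_one]
    have h6 : C₁ * U ^ ε * (4 * U + Y) ≤ C₁ * U ^ ε * (5 * U) :=
      mul_le_mul_of_nonneg_left (by linarith) (by positivity)
    rw [h5, hC₅]
    nlinarith
  have hB : ∑ r ∈ Finset.range N, ENNReal.ofReal M⁻¹ * (K ^ n *
      ((∫⁻ t in Set.Ico ((r : ℝ) * H) ((r + 1) * H), ENNReal.ofReal (gz (t + α)) ^ 2) +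
        ∑ i, ∫⁻ x in Set.Icc (β i + r * H) (β i + r * H + 2 * H), ENNReal.ofReal (fz Y x) ^ 2)) ≤
      ENNReal.ofReal (C₃ ^ n * (C₄ + 2 * n * C₅) * H ^ n * U ^ (1 + (n + 1) * ε - κ)) := by
    rw [← Finset.mul_sum, ← Finset.mul_sum, Finset.sum_add_distrib, Finset.sum_comm]
    have h1 : ∑ i : Fin n, ∑ r ∈ Finset.range N, ∫⁻ x in Set.Icc (β i + r * H) (β i + r * H + 2 * H),
        ENNReal.ofReal (fz Y x) ^ 2 ≤ ENNReal.ofReal (n * (2 * C₅ * U ^ (1 + ε))) := by
      refine (Finset.sum_le_sum fun i _ => hF2 i).trans ?_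
      rw [Finset.sum_const, Finset.card_univ, Fintype.card_fin, nsmul_eq_mul,
        ENNReal.ofReal_mul (Nat.cast_nonneg n), ENNReal.ofReal_natCast]
    refine (mul_le_mul_right (mul_le_mul_right (add_le_add hG2 h1) _) _).trans ?_
    rw [hK, ← ENNReal.ofReal_add (by positivity) (by positivity), ← ENNReal.ofReal_pow (by positivity),
      ← ENNReal.ofReal_mul (by positivity), ← ENNReal.ofReal_mul (by positivity)]
    refine ENNReal.ofReal_le_ofReal (le_of_eq ?_)
    have h2 : U ^ (1 + (n + 1) * ε - κ) = M⁻¹ * ((U ^ ε) ^ n * U ^ (1 + ε)) := by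
      rw [hMdef, ← Real.rpow_neg hU0.le, ← Real.rpow_natCast (U ^ ε) n, ← Real.rpow_mul hU0.le,
        ← Real.rpow_add hU0, ← Real.rpow_add hU0]
      congr 1
      ring
    rw [h2, mul_pow, mul_pow]
    ring
  refine (add_le_add hA hB).trans ?_
  rw [← ENNReal.ofReal_add (by positivity) (by positivity)]
  refine ENNReal.ofReal_le_ofReal ?_
  have h7 : U ^ (1 - δ₀ / 2) ≤ U ^ (1 - min (δ₀ / 2) (κ / 2)) :=
    Real.rpow_le_rpow_of_exponent_le hU (by linarith [min_le_left (δ₀ / 2) (κ / 2)])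
  have h8 : U ^ (1 + (n + 1) * ε - κ) ≤ U ^ (1 - min (δ₀ / 2) (κ / 2)) :=
    Real.rpow_le_rpow_of_exponent_le hU (by linarith [min_le_right (δ₀ / 2) (κ / 2)])
  calc ρ ^ (n + 1) * C₀ * H ^ n * U ^ (1 - δ₀ / 2) +
        C₃ ^ n * (C₄ + 2 * n * C₅) * H ^ n * U ^ (1 + (n + 1) * ε - κ)
      ≤ ρ ^ (n + 1) * C₀ * H ^ n * U ^ (1 - min (δ₀ / 2) (κ / 2)) +
        C₃ ^ n * (C₄ + 2 * n * C₅) * H ^ n * U ^ (1 - min (δ₀ / 2) (κ / 2)) :=
        add_le_add (mul_le_mul_of_nonneg_left h7 (by positivity)) (mul_le_mul_of_nonneg_left h8 (by positivity))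
    _ = _ := by ring

end Pool.Agent.P07318h
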