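import Pool.Agent.Lib.P07318h.Defs
import Pool.Agent.Lib.P07318s.Spaced
import Pool.Agent.Lib.P07318f.LargeS

/-!
# Large sieve for reduced fractions of bounded height, and its dual

PROOF. `blk`: `C = 8 C₀`, `C₀` of `spaced_sum` (P07318s/Spaced.lean). Put `U' = H + A ≥ 1`, `V = H ≤ U'`. `LargeSAux.one_box` (P07318f/LargeS.lean) with `Z q = c q` for `q ∈ s`, `0` otherwise:
`∫ ‖∑‖² ≤ ∑_{q,q'} ‖Z q‖ ‖Z q'‖ bb H (lgr q - lgr q')`, `‖Z q‖ ‖Z q'‖ ≤ (‖Z q‖² + ‖Z q'‖²)/2`, symmetry (`bb_neg`), so it is `≤ ∑_q ‖Z q‖² ∑_{q' ∈ s} bb H (lgr q' - lgr q)`.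
For `h ≤ 2A ≤ 2U'` one has `1/4 ≤ kap δ U' h` (`h ≤ U'`: `kap = (U'/h)^δ ≥ 1`; `h > U'`: `(U'/h)² ≥ 1/4`), hence `∑_{q' ∈ s} bb ≤ 4 ∑' kap bb ≤ 4 C₀ U'^(1+2δ)`.
`blk_dual`: duality. Let `z q = ∫ Φ t * ex t q`, `c q = conj (z q)`. `S = ∑_{q ∈ s} ‖z q‖² = ∑ c q ∫ Φ ex = ∫ Φ(t) (∑_{q ∈ s} c q ex t q) dt ≤ (∫ |Φ|²)^(1/2) (∫_{[a, a+L]} ‖∑ c q ex t q‖² dt)^(1/2)`
(Cauchy-Schwarz, `Φ = 0` outside `[a, a+L]`) `≤ (∫ |Φ|²)^(1/2) (C (L+A)^(1+2δ) S)^(1/2)` by `blk`; `S < ∞`, divide. (`Φ` is bounded with bounded support, so everything is finite. It may be convenient to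
work with real integrals; `∫⁻ ‖Φ‖ₑ² = ofReal ∫ ‖Φ‖²`.)
-/

set_option autoImplicit false

namespace Pool.Agent.P07318h

open MeasureTheory Complex Pool.Agent.P07318s Pool.Agent.P07318f

namespace BlkAux

lemma ex_cont (p : ℕ+ × ℕ+) : Continuous fun x : ℝ => ex x p := by
  unfold ex
  fun_prop

lemma kap_ge {δ U h : ℝ} (hδ : 0 < δ) (hh : 0 < h) (h2 : h ≤ 2 * U) :
    1 ≤ 4 * kap δ U h := by
  unfold kap
  split_ifs with h1
  · have h3 : 1 ≤ U / h := (one_le_div hh).2 h1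
    have h4 : 1 ≤ (U / h) ^ δ := Real.one_le_rpow h3 hδ.le
    linarith
  · have h3 : 1 / 2 ≤ U / h := by
      rw [div_le_div_iff₀ (by norm_num) hh]
      linarith
    have h4 : (U / h) ^ (2 : ℝ) = (U / h) ^ 2 := Real.rpow_two _
    rw [h4]
    nlinarith

lemma mul_le_half (x y : ℂ) : ‖x‖ₑ * ‖y‖ₑ ≤ ENNReal.ofReal (1 / 2) * (‖x‖ₑ ^ 2 + ‖y‖ₑ ^ 2) := by
  rw [← ofReal_norm, ← ofReal_norm, ← ENNReal.ofReal_mul (norm_nonneg x),
    ← ENNReal.ofReal_pow (norm_nonneg x), ← ENNReal.ofReal_pow (norm_nonneg y),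
    ← ENNReal.ofReal_add (by positivity) (by positivity), ← ENNReal.ofReal_mul (by norm_num)]
  apply ENNReal.ofReal_le_ofReal
  nlinarith [sq_nonneg (‖x‖ - ‖y‖)]

open Classical in
lemma finite_box (s : Finset Q) (c : Q → ℂ) (β : ℝ) {H : ℝ} (hH : 0 ≤ H) :
    ∫⁻ h in Set.Icc β (β + H), ‖∑ q ∈ s, c q * ex h q.1‖ₑ ^ 2 ≤
      ∑ q ∈ s, ∑ q' ∈ s, ‖c q‖ₑ * ‖c q'‖ₑ * ENNReal.ofReal (bb H (lgr q.1 - lgr q'.1)) := by
  set Z : Q → ℂ := fun q => if q ∈ s then c q else 0 with hZ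
  have hZ0 : ∀ q, q ∉ s → Z q = 0 := fun q hq => by simp only [hZ, if_neg hq]
  have hZ1 : ∀ q, q ∈ s → Z q = c q := fun q hq => by simp only [hZ, if_pos hq]
  have hsum : Summable fun q : Q => ‖Z q‖ :=
    summable_of_ne_finset_zero (s := s) fun q hq => by rw [hZ0 q hq, norm_zero]
  have h1 := LargeSAux.one_box Z hsum β hH
  have e1 : ∀ h : ℝ, ∑' q : Q, Z q * ex h q.1 = ∑ q ∈ s, c q * ex h q.1 := by
    intro h
    rw [tsum_eq_sum (s := s) fun q hq => by rw [hZ0 q hq, zero_mul]]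
    exact Finset.sum_congr rfl fun q hq => by rw [hZ1 q hq]
  have e2 : ∑' q : Q, ∑' q' : Q, ‖Z q‖ₑ * ‖Z q'‖ₑ * ENNReal.ofReal (bb H (lgr q.1 - lgr q'.1)) =
      ∑ q ∈ s, ∑ q' ∈ s, ‖c q‖ₑ * ‖c q'‖ₑ * ENNReal.ofReal (bb H (lgr q.1 - lgr q'.1)) := by
    rw [tsum_eq_sum (s := s) fun q hq => by simp [hZ0 q hq]]
    refine Finset.sum_congr rfl fun q hq => ?_
    rw [tsum_eq_sum (s := s) fun q' hq' => by simp [hZ0 q' hq']]
    exact Finset.sum_congr rfl fun q' hq' => by rw [hZ1 q hq, hZ1 q' hq']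
  simp only [e1] at h1
  rwa [e2] at h1

/-- Cauchy-Schwarz -/
lemma cs (f g : ℝ → ENNReal) (μ : Measure ℝ) (hf : Measurable f) (hg : Measurable g) :
    (∫⁻ t, f t * g t ∂μ) ^ 2 ≤ (∫⁻ t, f t ^ 2 ∂μ) * ∫⁻ t, g t ^ 2 ∂μ := by
  have hpq : (2 : ℝ).HolderConjugate 2 := Real.HolderConjugate.two_two
  have h1 := ENNReal.lintegral_mul_le_Lp_mul_Lq μ hpq hf.aemeasurable hg.aemeasurable
  simp only [Pi.mul_apply, ENNReal.rpow_two] at h1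
  calc (∫⁻ t, f t * g t ∂μ) ^ 2
      ≤ ((∫⁻ t, f t ^ 2 ∂μ) ^ (1 / 2 : ℝ) * (∫⁻ t, g t ^ 2 ∂μ) ^ (1 / 2 : ℝ)) ^ 2 := by
        gcongr
    _ = (∫⁻ t, f t ^ 2 ∂μ) * ∫⁻ t, g t ^ 2 ∂μ := by
        rw [mul_pow, ← ENNReal.rpow_two, ← ENNReal.rpow_two, ← ENNReal.rpow_mul, ← ENNReal.rpow_mul]
        norm_num

end BlkAux

theorem blk (δ : ℝ) (hδ : 0 < δ) (hδ2 : δ ≤ 1 / 2) : ∃ C : ℝ, 0 < C ∧ ∀ (A H β : ℝ) (s : Finset Q) (c : Q → ℂ),
    1 ≤ A → 0 ≤ H → (∀ q ∈ s, hgt q.1 ≤ 2 * A) →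
    ∫⁻ h in Set.Icc β (β + H), ‖∑ q ∈ s, c q * ex h q.1‖ₑ ^ 2 ≤
      ENNReal.ofReal (C * (H + A) ^ (1 + 2 * δ)) * ∑ q ∈ s, ‖c q‖ₑ ^ 2 := by
  classical
  obtain ⟨C, hC, hsp⟩ := spaced_sum δ hδ hδ2
  refine ⟨4 * C, by positivity, fun A H β s c hA hH hs => ?_⟩
  refine (BlkAux.finite_box s c β hH).trans ?_
  have hU : 1 ≤ H + A := by linarith
  have hkap : ∀ q : Q, 0 ≤ kap δ (H + A) (hgt q.1) := fun q => kap_nonneg (by linarith) (hgt_pos q.1).le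
  set K : ENNReal := ENNReal.ofReal (4 * C * (H + A) ^ (1 + 2 * δ)) with hK
  have hrow : ∀ q : Q, ∑ q' ∈ s, ENNReal.ofReal (bb H (lgr q.1 - lgr q'.1)) ≤ K := by
    intro q
    have h1 : ∀ q' ∈ s, ENNReal.ofReal (bb H (lgr q.1 - lgr q'.1)) ≤
        ENNReal.ofReal 4 * ENNReal.ofReal (kap δ (H + A) (hgt q'.1) * bb H (lgr q'.1 + (-lgr q.1))) := by
      intro q' hq'
      rw [← ENNReal.ofReal_mul (by norm_num)]
      apply ENNReal.ofReal_le_ofReal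
      have e1 : bb H (lgr q'.1 + (-lgr q.1)) = bb H (lgr q.1 - lgr q'.1) := by
        rw [← bb_neg]; congr 1; ring
      rw [e1]
      have h2 : 1 ≤ 4 * kap δ (H + A) (hgt q'.1) :=
        BlkAux.kap_ge hδ (hgt_pos q'.1) ((hs q' hq').trans (by linarith))
      have h3 := bb_nonneg hH (lgr q.1 - lgr q'.1)
      nlinarith
    calc ∑ q' ∈ s, ENNReal.ofReal (bb H (lgr q.1 - lgr q'.1))
        ≤ ∑ q' ∈ s, ENNReal.ofReal 4 *
            ENNReal.ofReal (kap δ (H + A) (hgt q'.1) * bb H (lgr q'.1 + (-lgr q.1))) :=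
          Finset.sum_le_sum h1
      _ = ENNReal.ofReal 4 *
            ∑ q' ∈ s, ENNReal.ofReal (kap δ (H + A) (hgt q'.1) * bb H (lgr q'.1 + (-lgr q.1))) :=
          (Finset.mul_sum _ _ _).symm
      _ ≤ ENNReal.ofReal 4 *
            ∑' q' : Q, ENNReal.ofReal (kap δ (H + A) (hgt q'.1) * bb H (lgr q'.1 + (-lgr q.1))) := by
          gcongr
          exact ENNReal.sum_le_tsum s
      _ ≤ ENNReal.ofReal 4 * ENNReal.ofReal (C * (H + A) ^ (1 + 2 * δ)) := by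
          gcongr
          exact hsp (H + A) H (-lgr q.1) hU hH (by linarith)
      _ = K := by
          rw [← ENNReal.ofReal_mul (by norm_num), hK]
          congr 1
          ring
  have hcol : ∀ q' : Q, ∑ q ∈ s, ENNReal.ofReal (bb H (lgr q.1 - lgr q'.1)) ≤ K := by
    intro q'
    have e : ∀ q : Q, bb H (lgr q.1 - lgr q'.1) = bb H (lgr q'.1 - lgr q.1) := fun q => by
      rw [← bb_neg]; congr 1; ring
    simp only [e]
    exact hrow q'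
  have hmain : ∀ q ∈ s, ∀ q' ∈ s, ‖c q‖ₑ * ‖c q'‖ₑ * ENNReal.ofReal (bb H (lgr q.1 - lgr q'.1)) ≤
      ENNReal.ofReal (1 / 2) * (‖c q‖ₑ ^ 2 * ENNReal.ofReal (bb H (lgr q.1 - lgr q'.1))) +
      ENNReal.ofReal (1 / 2) * (‖c q'‖ₑ ^ 2 * ENNReal.ofReal (bb H (lgr q.1 - lgr q'.1))) := by
    intro q _ q' _
    calc ‖c q‖ₑ * ‖c q'‖ₑ * ENNReal.ofReal (bb H (lgr q.1 - lgr q'.1))
        ≤ (ENNReal.ofReal (1 / 2) * (‖c q‖ₑ ^ 2 + ‖c q'‖ₑ ^ 2)) *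
            ENNReal.ofReal (bb H (lgr q.1 - lgr q'.1)) := by
          exact mul_le_mul' (BlkAux.mul_le_half _ _) le_rfl
      _ = _ := by ring
  refine (Finset.sum_le_sum fun q hq => Finset.sum_le_sum fun q' hq' => hmain q hq q' hq').trans ?_
  simp only [Finset.sum_add_distrib]
  have hA1 : ∑ q ∈ s, ∑ q' ∈ s, ENNReal.ofReal (1 / 2) *
      (‖c q‖ₑ ^ 2 * ENNReal.ofReal (bb H (lgr q.1 - lgr q'.1))) ≤
      ENNReal.ofReal (1 / 2) * (K * ∑ q ∈ s, ‖c q‖ₑ ^ 2) := by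
    simp only [← Finset.mul_sum]
    refine mul_le_mul_right ?_ _
    rw [Finset.mul_sum]
    refine Finset.sum_le_sum fun q _ => ?_
    rw [mul_comm K]
    exact mul_le_mul_right (hrow q) _
  have hA2 : ∑ q ∈ s, ∑ q' ∈ s, ENNReal.ofReal (1 / 2) *
      (‖c q'‖ₑ ^ 2 * ENNReal.ofReal (bb H (lgr q.1 - lgr q'.1))) ≤
      ENNReal.ofReal (1 / 2) * (K * ∑ q ∈ s, ‖c q‖ₑ ^ 2) := by
    rw [Finset.sum_comm]
    simp only [← Finset.mul_sum]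
    refine mul_le_mul_right ?_ _
    rw [Finset.mul_sum]
    refine Finset.sum_le_sum fun q _ => ?_
    rw [mul_comm K]
    exact mul_le_mul_right (hcol q) _
  refine (add_le_add hA1 hA2).trans (le_of_eq ?_)
  rw [← add_mul, ← ENNReal.ofReal_add (by norm_num) (by norm_num)]
  norm_num

theorem blk_dual (δ : ℝ) (hδ : 0 < δ) (hδ2 : δ ≤ 1 / 2) : ∃ C : ℝ, 0 < C ∧ ∀ (A L a M : ℝ) (s : Finset Q) (Φ : ℝ → ℂ),
    1 ≤ A → 0 ≤ L → (∀ q ∈ s, hgt q.1 ≤ 2 * A) → Measurable Φ → (∀ t, t ∉ Set.Icc a (a + L) → Φ t = 0) →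
    (∀ t, ‖Φ t‖ ≤ M) →
    ∑ q ∈ s, ‖∫ t, Φ t * ex t q.1‖ₑ ^ 2 ≤ ENNReal.ofReal (C * (L + A) ^ (1 + 2 * δ)) * ∫⁻ t, ‖Φ t‖ₑ ^ 2 := by
  obtain ⟨C, hC, hb⟩ := blk δ hδ hδ2
  refine ⟨C, hC, fun A L a M s Φ hA hL hs hΦ hsupp hM => ?_⟩
  set K : ENNReal := ENNReal.ofReal (C * (L + A) ^ (1 + 2 * δ)) with hK
  set z : Q → ℂ := fun q => ∫ t, Φ t * ex t q.1 with hz
  set c : Q → ℂ := fun q => (starRingEnd ℂ) (z q) with hc
  set F : ℝ → ℂ := fun t => ∑ q ∈ s, c q * ex t q.1 with hF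
  have hFm : Measurable F := by
    apply Continuous.measurable
    rw [hF]
    exact continuous_finsetSum _ fun q _ => continuous_const.mul (BlkAux.ex_cont q.1)
  have hint : ∀ q : Q, Integrable (fun t => Φ t * ex t q.1) volume := by
    intro q
    have h1 : IntegrableOn (fun t => Φ t * ex t q.1) (Set.Icc a (a + L)) volume := by
      refine IntegrableOn.of_bound (by simp) ?_ M ?_
      · exact (hΦ.mul (BlkAux.ex_cont q.1).measurable).aestronglyMeasurable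
      · exact Filter.Eventually.of_forall fun t => by
          rw [norm_mul, norm_ex, mul_one]
          exact hM t
    rw [← integrableOn_iff_integrable_of_support_subset (s := Set.Icc a (a + L))]
    · exact h1
    · intro t ht
      by_contra hn
      exact ht (by simp only [hsupp t hn, zero_mul])
  have hnz : ∀ q : Q, ‖c q‖ₑ = ‖z q‖ₑ := fun q => by
    simp only [hc]
    exact RCLike.enorm_conj _
  set S : ENNReal := ∑ q ∈ s, ‖z q‖ₑ ^ 2 with hS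
  have hStop : S ≠ ⊤ := by
    rw [hS]
    exact ENNReal.sum_ne_top.2 fun q _ => ENNReal.pow_ne_top enorm_ne_top
  have hbox : ∫⁻ t in Set.Icc a (a + L), ‖F t‖ₑ ^ 2 ≤ K * S := by
    have h1 := hb A L a s c hA hL hs
    simp only [hnz] at h1
    exact h1
  -- the identity
  have hid : (∫ t, Φ t * F t) = ((∑ q ∈ s, ‖z q‖ ^ 2 : ℝ) : ℂ) := by
    have h1 : ∀ t, Φ t * F t = ∑ q ∈ s, c q * (Φ t * ex t q.1) := by
      intro t
      simp only [hF, Finset.mul_sum]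
      exact Finset.sum_congr rfl fun q _ => by ring
    simp only [h1]
    rw [integral_finsetSum _ fun q _ => (hint q).const_mul (c q)]
    push_cast
    refine Finset.sum_congr rfl fun q _ => ?_
    rw [integral_const_mul]
    change c q * z q = _
    simp only [hc]
    rw [mul_comm, Complex.mul_conj, Complex.normSq_eq_norm_sq]
    push_cast
    ring
  have hS1 : S = ‖∫ t, Φ t * F t‖ₑ := by
    rw [hid, ← ofReal_norm, Complex.norm_real, Real.norm_of_nonneg (by positivity), hS,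
      ENNReal.ofReal_sum_of_nonneg fun q _ => by positivity]
    exact Finset.sum_congr rfl fun q _ => by
      rw [ENNReal.ofReal_pow (norm_nonneg _), ofReal_norm]
  have hS2 : S ≤ ∫⁻ t in Set.Icc a (a + L), ‖Φ t‖ₑ * ‖F t‖ₑ := by
    rw [hS1]
    refine (enorm_integral_le_lintegral_enorm _).trans ?_
    rw [← lintegral_indicator measurableSet_Icc]
    refine lintegral_mono fun t => ?_
    by_cases ht : t ∈ Set.Icc a (a + L)
    · rw [Set.indicator_of_mem ht, enorm_mul]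
    · rw [Set.indicator_of_notMem ht, hsupp t ht, zero_mul, enorm_zero]
  have hP : ∫⁻ t in Set.Icc a (a + L), ‖Φ t‖ₑ ^ 2 ≤ ∫⁻ t, ‖Φ t‖ₑ ^ 2 :=
    setLIntegral_le_lintegral _ _
  have hcs : S ^ 2 ≤ (∫⁻ t, ‖Φ t‖ₑ ^ 2) * (K * S) := by
    calc S ^ 2 ≤ (∫⁻ t in Set.Icc a (a + L), ‖Φ t‖ₑ * ‖F t‖ₑ) ^ 2 := by gcongr
      _ ≤ (∫⁻ t in Set.Icc a (a + L), ‖Φ t‖ₑ ^ 2) * ∫⁻ t in Set.Icc a (a + L), ‖F t‖ₑ ^ 2 :=
          BlkAux.cs _ _ _ hΦ.enorm hFm.enorm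
      _ ≤ _ := mul_le_mul' hP hbox
  by_cases hS0 : S = 0
  · rw [hS0]
    exact zero_le
  · have h1 : S * S ≤ (K * ∫⁻ t, ‖Φ t‖ₑ ^ 2) * S := by
      calc S * S = S ^ 2 := (sq S).symm
        _ ≤ (∫⁻ t, ‖Φ t‖ₑ ^ 2) * (K * S) := hcs
        _ = _ := by ring
    exact (ENNReal.mul_le_mul_iff_left hS0 hStop).1 h1

end Pool.Agent.P07318h
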