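import Pool.Agent.Lib.P07318h.NearOne
import Pool.Agent.Lib.P07318s.MainPoint

/-!
# The diagonal terms equal the main term up to a power saving, if the differences of the heights are at least a power

PROOF. An adaptation of P07318s/MainPoint.lean (`main_pos`); the left line is now `Re s = -a` instead of `-(1/2) + e`. Let `K = k + 1`, `m = 64 K²`, `c₂, C₂` from `near_one m (δ₁/2)`, `a = c₂/2`, `e = 1/2 - a`, `c = c₂/(16K)`, `r = c/2`,
`κ = min(δ₁/4, c₂/(64K²))`, `Y = U^κ`, `B = C₂ U^(c₂/m)`. For `U ≥ U₀`: `4Y < U^δ₁ ≤ |x_i - x_j|`, and for `|v| ≤ 2Y`: `U^(δ₁/2) ≤ |x_i - x_j + v| ≤ 16U`, so `‖ζ(σ + i(x_i - x_j + v))‖ ≤ B` for `1 - c₂ ≤ σ ≤ 3`.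
`one_diff` (`r < 1/2 - e = a`), `AX_bound` with `e := 1/4`, `ρ := c`; `fj_diff` the same; `fj_bound` with `s.re ≥ -a`: `1 + Re + Re ≥ 1 - a - r ≥ 1 - c₂`, `1 - 2r ≥ 1 - c₂`, so
`‖fj x w j s‖ ≤ (7U^c/r)^k CA (M U^(c₂/m))^(k²)`. `dg_trunc`, `tele`, `main_eq`, `exp_decay` the same. The error is
`≤ C U^(kκ + kc + k² c₂/m - c₂/2) ≤ C U^(c₂/64 + c₂/16 + c₂/64 - c₂/2) ≤ C U^(-c₂/4)`. (`k = 0`: `main_zero`.)
-/

set_option autoImplicit false

namespace Pool.Agent.P07318h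

open MeasureTheory Complex Pool.Agent.P07318s Pool.Agent.P07318f

namespace MainPtAux

/-- a good difference -/
def Gd (c₂ Y B δ : ℝ) : Prop :=
  4 * Y < |δ| ∧ ∀ σ v : ℝ, 1 - c₂ ≤ σ → σ ≤ 3 → |v| ≤ 2 * Y →
    ‖riemannZeta (σ + ((δ + v : ℝ) : ℂ) * I)‖ ≤ B

lemma gd_zeta {c₂ Y B δ : ℝ} (h : Gd c₂ Y B δ) {a b : ℂ} (h1 : 1 - c₂ ≤ 1 + a.re + b.re)
    (h2 : 1 + a.re + b.re ≤ 3) (h3 : |a.im| ≤ Y) (h4 : |b.im| ≤ Y) :
    ‖riemannZeta (1 + a + b + (δ : ℂ) * I)‖ ≤ B := by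
  have := h.2 (1 + a.re + b.re) (a.im + b.im) h1 h2 (by
    calc |a.im + b.im| ≤ |a.im| + |b.im| := abs_add_le _ _
      _ ≤ 2 * Y := by linarith)
  have e1 : 1 + a + b + (δ : ℂ) * I = ((1 + a.re + b.re : ℝ) : ℂ) + ((δ + (a.im + b.im) : ℝ) : ℂ) * I := by
    apply Complex.ext
    · simp
    · simp
      ring
  rw [e1]
  exact this

lemma gd_ne {c₂ Y B δ : ℝ} (h : Gd c₂ Y B δ) {a b : ℂ} (h3 : |a.im| ≤ Y) (h4 : |b.im| ≤ Y) :
    |a.im + b.im| < |δ| := by
  have hY : 0 ≤ Y := (abs_nonneg _).trans h3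
  calc |a.im + b.im| ≤ |a.im| + |b.im| := abs_add_le _ _
    _ ≤ 2 * Y := by linarith
    _ ≤ 4 * Y := by linarith
    _ < |δ| := h.1

lemma fj_bd {k : ℕ} {x : Fin k → ℝ} {U c r a c₂ Y B CA CZ : ℝ} (hU : 1 ≤ U) (hx1 : ∀ j, U ≤ x j)
    (hx2 : ∀ j, x j ≤ 4 * U) (hr : 0 < r) (hrc : r < c) (hc1 : c ≤ 1) (hac : a + r ≤ c₂)
    (hrr : 2 * r ≤ c₂) (hY : 1 ≤ Y)
    (hgood : ∀ i l, i ≠ l → Gd c₂ Y B (x i - x l)) (w : Fin k → ℂ)
    (hw : ∀ i, w i ∈ PP c Y r) (hCZ : ∀ z : ℂ, (z.re = c ∨ ‖z‖ = r) → ‖riemannZeta (1 + 2 * z)‖ ≤ CZ)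
    (j : Fin k) {s : ℂ} (hs1 : -a ≤ s.re) (hs2 : s.re ≤ c) (hs3 : |s.im| ≤ Y)
    (hCA : ‖AX x (Function.update w j s)‖ ≤ CA) :
    ‖fj x w j s‖ ≤ (7 * U ^ c / r) ^ k * (CA * (max (max B CZ) 1) ^ (k * k)) := by
  have hcpos : 0 < c := hr.trans hrc
  have hUc : 1 ≤ U ^ c := Real.one_le_rpow hU hcpos.le
  have hr1 : r < 1 := hrc.trans_le hc1
  have hM1 : 1 ≤ max (max B CZ) 1 := le_max_right _ _
  have hbase : 1 ≤ 7 * U ^ c / r := by
    rw [le_div_iff₀ hr]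
    linarith
  unfold fj
  rw [norm_mul, norm_mul, norm_prod, norm_prod]
  have hfacts := fun i => PP_facts hr hrc (hr1.le.trans hY) (hw i)
  have b1 : ∏ i ∈ Finset.univ.erase j, ‖((x i / (2 * Real.pi) : ℝ) : ℂ) ^ (w i) / w i‖ ≤
      (7 * U ^ c / r) ^ k := by
    refine prod_le_pow_of_card _ _ hbase ?_ (fun i _ => norm_nonneg _) ?_
    · calc (Finset.univ.erase j).card ≤ (Finset.univ : Finset (Fin k)).card := Finset.card_le_card (Finset.erase_subset _ _)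
        _ = k := by simp
    · intro i _
      have hX : 0 < x i / (2 * Real.pi) := div_pos (by linarith [hx1 i]) (by positivity)
      rw [norm_div, Complex.norm_cpow_eq_rpow_re_of_pos hX]
      obtain ⟨f1, f2, f3, f4⟩ := hfacts i
      refine div_le_div₀ (by positivity) ?_ hr f1
      exact X_rpow_le hU (hx1 i) (hx2 i) hr1.le f2 f3 hcpos.le
  have b2 : ∏ p ∈ (Finset.univ ×ˢ Finset.univ : Finset (Fin k × Fin k)).erase (j, j),
      ‖riemannZeta (1 + (Function.update w j s) p.1 + (Function.update w j s) p.2 +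
          ((x p.1 - x p.2 : ℝ) : ℂ) * I)‖ ≤ (max (max B CZ) 1) ^ (k * k) := by
    refine prod_le_pow_of_card _ _ hM1 ?_ (fun i _ => norm_nonneg _) ?_
    · calc ((Finset.univ ×ˢ Finset.univ : Finset (Fin k × Fin k)).erase (j, j)).card ≤
          (Finset.univ ×ˢ Finset.univ : Finset (Fin k × Fin k)).card := Finset.card_le_card (Finset.erase_subset _ _)
        _ = k * k := by simp
    · intro p hp
      by_cases hij : p.1 = p.2
      · have hpj : p.1 ≠ j := by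
          intro hj
          have h2 := Finset.ne_of_mem_erase hp
          exact h2 (Prod.ext hj (hij ▸ hj))
        rw [← hij, Function.update_of_ne hpj]
        have e1 : (1 + w p.1 + w p.1 + ((x p.1 - x p.1 : ℝ) : ℂ) * I) = 1 + 2 * w p.1 := by
          simp only [sub_self, Complex.ofReal_zero, zero_mul, add_zero]
          ring
        rw [e1]
        have h3 := hCZ (w p.1) (by
          rcases hw p.1 with h | h
          · exact Or.inl h.1
          · exact Or.inr h)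
        exact h3.trans ((le_max_right _ _).trans (le_max_left _ _))
      · have hlo : ∀ i, ((if i = j then -a else -r) ≤ (Function.update w j s i).re) ∧
            (Function.update w j s i).re ≤ c ∧ |(Function.update w j s i).im| ≤ Y := by
          intro i
          by_cases h : i = j
          · subst h
            rw [if_pos rfl, Function.update_self]
            exact ⟨hs1, hs2, hs3⟩
          · rw [if_neg h, Function.update_of_ne h]
            obtain ⟨f1, f2, f3, f4⟩ := hfacts i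
            exact ⟨f2, f3, f4⟩
        obtain ⟨a1, a2, a3⟩ := hlo p.1
        obtain ⟨c1, c2, c3⟩ := hlo p.2
        have hsum : 1 - c₂ ≤ 1 + (Function.update w j s p.1).re + (Function.update w j s p.2).re := by
          split_ifs at a1 c1 with q1 q2 q2
          · exact absurd (q1.trans q2.symm) hij
          · linarith
          · linarith
          · linarith
        have h5 := gd_zeta (hgood p.1 p.2 hij) hsum (by linarith) a3 c3
        exact h5.trans ((le_max_left _ _).trans (le_max_left _ _))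
  have hCA0 : 0 ≤ CA := (norm_nonneg _).trans hCA
  refine mul_le_mul b1 ?_ (by positivity) (by positivity)
  exact mul_le_mul hCA b2 (Finset.prod_nonneg fun i _ => norm_nonneg _) hCA0

lemma pow_aux' (k : ℕ) {U κ c r b a CA M C1 C2 : ℝ} (hU : 1 ≤ U) (hr0 : 0 < r) (hCA : 0 ≤ CA)
    (hM : 0 ≤ M) (hC1 : 0 ≤ C1) (hC2 : 0 ≤ C2) (hY : 1 ≤ U ^ κ) (hκ : κ * k ≤ a / 8) (hc : c * k ≤ a / 8)
    (hb : b * (k * k) ≤ a / 8) (ha : 0 < a) :
    k * (20 * U ^ κ) ^ (k - 1) * (C1 * ((7 * U ^ c / r) ^ k * (CA * (M * U ^ b) ^ (k * k))) *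
      ((7 + 7 * C2) * U ^ (-a))) ≤
      k * 20 ^ k * (C1 * ((7 / r) ^ k * (CA * M ^ (k * k))) * (7 + 7 * C2)) * U ^ (-(a / 2)) := by
  have hU0 : 0 < U := by linarith
  have c1 : (20 * U ^ κ) ^ (k - 1) ≤ (20 * U ^ κ) ^ k :=
    pow_le_pow_right₀ (by linarith) (Nat.sub_le _ _)
  have hpos : 0 ≤ C1 * ((7 * U ^ c / r) ^ k * (CA * (M * U ^ b) ^ (k * k))) *
      ((7 + 7 * C2) * U ^ (-a)) := by positivity
  have c2 : k * (20 * U ^ κ) ^ (k - 1) * (C1 * ((7 * U ^ c / r) ^ k * (CA * (M * U ^ b) ^ (k * k))) *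
      ((7 + 7 * C2) * U ^ (-a))) ≤ k * (20 * U ^ κ) ^ k *
      (C1 * ((7 * U ^ c / r) ^ k * (CA * (M * U ^ b) ^ (k * k))) * ((7 + 7 * C2) * U ^ (-a))) :=
    mul_le_mul_of_nonneg_right (mul_le_mul_of_nonneg_left c1 (Nat.cast_nonneg k)) hpos
  have d1 : (U ^ κ) ^ k = U ^ (κ * k) := by rw [← Real.rpow_natCast, ← Real.rpow_mul hU0.le]
  have d2 : (7 * U ^ c / r) ^ k = (7 / r) ^ k * U ^ (c * k) := by
    rw [show 7 * U ^ c / r = (7 / r) * U ^ c by ring, mul_pow]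
    congr 1
    rw [← Real.rpow_natCast, ← Real.rpow_mul hU0.le]
  have d3 : (U ^ b) ^ (k * k) = U ^ (b * (k * k)) := by
    rw [← Real.rpow_natCast, ← Real.rpow_mul hU0.le]
    push_cast
    rfl
  have d4 : U ^ (κ * k + c * k + b * (k * k) + (-a)) ≤ U ^ (-(a / 2)) :=
    Real.rpow_le_rpow_of_exponent_le hU (by linarith)
  have d5 : U ^ (κ * k + c * k + b * (k * k) + (-a)) =
      U ^ (κ * k) * U ^ (c * k) * U ^ (b * (k * k)) * U ^ (-a) := by
    rw [Real.rpow_add hU0, Real.rpow_add hU0, Real.rpow_add hU0]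
  refine c2.trans ?_
  rw [mul_pow, mul_pow, d1, d2, d3]
  have hc : 0 ≤ k * 20 ^ k * (C1 * ((7 / r) ^ k * (CA * M ^ (k * k))) * (7 + 7 * C2)) := by positivity
  have := mul_le_mul_of_nonneg_left d4 hc
  rw [d5] at this
  refine le_trans (le_of_eq ?_) this
  ring

lemma main_core (k : ℕ) (hk : 1 ≤ k) {c₂ κ b : ℝ} (hc₂ : 0 < c₂) (hc₂8 : c₂ ≤ 1 / 8) (hκ0 : 0 < κ)
    (hκ : κ * k ≤ c₂ / 16) (hb : b * (k * k) ≤ c₂ / 16) (hb0 : 0 ≤ b) (B : ℝ) (hB : 0 < B) :
    ∃ C : ℝ, 0 < C ∧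
    ∀ (U : ℝ) (x : Fin k → ℝ), 1 ≤ U → (∀ j, U ≤ x j) → (∀ j, x j ≤ 4 * U) →
    (∀ i j, i ≠ j → Gd c₂ (U ^ κ) (B * U ^ b) (x i - x j)) →
    ‖Dg x - mainTerm x‖ ≤ C * U ^ (-(c₂ / 4)) := by
  have hk' : (1:ℝ) ≤ k := by exact_mod_cast hk
  obtain ⟨K, hK⟩ : ∃ K : ℝ, K = (k:ℝ) + 1 := ⟨_, rfl⟩
  have hK2 : 2 ≤ K := by linarith
  have hK0 : 0 < K := by linarith
  obtain ⟨a, ha⟩ : ∃ a : ℝ, a = c₂ / 2 := ⟨_, rfl⟩
  have ha0 : 0 < a := by linarith
  have ha16 : a ≤ 1 / 16 := by linarith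
  obtain ⟨c, hc⟩ : ∃ c : ℝ, c = c₂ / (16 * K) := ⟨_, rfl⟩
  obtain ⟨r, hr⟩ : ∃ r : ℝ, r = c / 2 := ⟨_, rfl⟩
  have hc0 : 0 < c := by rw [hc]; positivity
  have hc32 : c ≤ c₂ / 32 := by
    rw [hc]
    exact div_le_div_of_nonneg_left hc₂.le (by norm_num) (by linarith)
  have hr0 : 0 < r := by linarith
  have hkc : c * k ≤ a / 8 := by
    rw [hc, ha, div_mul_eq_mul_div, div_div, div_le_div_iff₀ (by positivity) (by norm_num)]
    nlinarith
  obtain ⟨CA, hCA0, hCA⟩ := AX_bound k (e := 1 / 4) (ρ := c) hc0 (by linarith) (by linarith)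
  obtain ⟨CZ, hCZ0, hCZ⟩ := zeta_P (r := r) (c := c) hr0 (by linarith) hc0
  obtain ⟨C1, hC1, h1v⟩ := one_diff (e := 1 / 2 - a) (r := r) (c := c) hr0 (by linarith) (by linarith) (by linarith)
    (by linarith)
  obtain ⟨C2, hC2, hexp⟩ := exp_decay hκ0
  obtain ⟨C3, hC3, hdg⟩ := dg_trunc k (c := c) hc0 (by linarith)
  obtain ⟨M, hM⟩ : ∃ M : ℝ, M = max (max B CZ) 1 := ⟨_, rfl⟩
  have hM1 : 1 ≤ M := by rw [hM]; exact le_max_right _ _
  refine ⟨C3 * C2 + k * 20 ^ k * (C1 * ((7 / r) ^ k * (CA * M ^ (k * k))) * (7 + 7 * C2)), by positivity,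
    fun U x hU hx1 hx2 hgood => ?_⟩
  have hU0 : 0 < U := by linarith
  have hY : 1 ≤ U ^ κ := Real.one_le_rpow hU hκ0.le
  have hUb : 1 ≤ U ^ b := Real.one_le_rpow hU hb0
  have hxpos : ∀ j, 0 < x j := fun j => by linarith [hx1 j]
  have hrY : r ≤ U ^ κ := by linarith
  have hMb : max (max (B * U ^ b) CZ) 1 ≤ M * U ^ b := by
    have h1 : B ≤ M := by rw [hM]; exact (le_max_left _ _).trans (le_max_left _ _)
    have h2 : CZ ≤ M := by rw [hM]; exact (le_max_right _ _).trans (le_max_left _ _)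
    refine max_le (max_le ?_ ?_) ?_
    · exact mul_le_mul_of_nonneg_right h1 (by linarith)
    · nlinarith
    · nlinarith
  have hsep : ∀ i j, i ≠ j → 1 < |x i - x j| := fun i j hij => by
    have := (hgood i j hij).1
    linarith
  have hUc : 1 ≤ U ^ c := Real.one_le_rpow hU hc0.le
  -- the two integrals
  set T1 : ℂ := ∫ v in Set.Icc (fun _ : Fin k => -(U ^ κ)) (fun _ => U ^ κ),
    (∏ j, cexp (((c : ℂ) + v j * I) ^ 2)) * FF x (fun j => (c : ℂ) + v j * I) with hT1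
  set T2 : ℂ := ∫ v in Set.Icc (fun _ : Fin k => (0:ℝ)) (fun _ => 2 * Real.pi),
    (∏ j, (r * cexp (v j * I))) * FF x (fun j => r * cexp (v j * I)) with hT2
  obtain ⟨E, hE⟩ : ∃ E : ℝ, E = C1 * ((7 * U ^ c / r) ^ k * (CA * (M * U ^ b) ^ (k * k))) *
    ((7 + 7 * C2) * U ^ (-a)) := ⟨_, rfl⟩
  have hE0 : 0 ≤ E := by rw [hE]; positivity
  -- one variable
  have hone : ∀ w ∈ (Set.univ.pi fun _ : Fin k => PP c (U ^ κ) r), ∀ j : Fin k,
      ‖(∫ v in (-(U ^ κ))..(U ^ κ), cexp (((c : ℂ) + v * I) ^ 2) * FF x (Function.update w j ((c : ℂ) + v * I))) -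
      ∫ v in (0:ℝ)..(2 * Real.pi), (r * cexp (v * I)) * FF x (Function.update w j (r * cexp (v * I)))‖ ≤ E := by
    intro w hw j
    have hw' : ∀ i, w i ∈ PP c (U ^ κ) r := fun i => hw i (Set.mem_univ i)
    have hfacts := fun i => PP_facts hr0 (by linarith : r < c) hrY (hw' i)
    have hmem : ∀ s : ℂ, -a ≤ s.re → Function.update w j s ∈ Rg k (1 / 4) c := by
      intro s hs
      refine ⟨j, ?_, fun i hi => ?_⟩
      · rw [Function.update_self]; linarith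
      · rw [Function.update_of_ne hi]
        have := (hfacts i).2.1
        linarith
    have h2 := h1v x w j (U ^ κ) ((7 * U ^ c / r) ^ k * (CA * (M * U ^ b) ^ (k * k))) (hxpos j) hY (by positivity)
      (fun s hs1 hs2 hs3 => by
        refine fj_diff (e := 1 / 4) (ρ := c) hc0 (by linarith) (by linarith) w j (hmem s (by linarith)) ?_ ?_
        · intro i _ h0
          have := (hfacts i).1
          rw [h0, norm_zero] at this
          linarith
        · intro i l hil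
          have him : ∀ i, |(Function.update w j s i).im| ≤ U ^ κ := by
            intro i
            by_cases h : i = j
            · subst h; rw [Function.update_self]; exact hs3
            · rw [Function.update_of_ne h]; exact (hfacts i).2.2.2
          exact gd_ne (hgood i l hil) (him i) (him l))
      (fun s hs1 hs2 hs3 => by
        have h3 := fj_bd (a := a) hU hx1 hx2 hr0 (by linarith) (by linarith) (by linarith) (by linarith) hY hgood w hw' hCZ j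
          (by linarith) hs2 hs3 (hCA x _ (hmem s (by linarith))).2
        refine h3.trans ?_
        refine mul_le_mul_of_nonneg_left ?_ (by positivity)
        refine mul_le_mul_of_nonneg_left ?_ hCA0.le
        exact pow_le_pow_left₀ (by positivity) hMb _)
    refine h2.trans ?_
    rw [hE]
    refine mul_le_mul_of_nonneg_left ?_ (by positivity)
    have a1 : (x j / (2 * Real.pi)) ^ (-(1 / 2) + (1 / 2 - a)) ≤ 7 * U ^ (-a) := by
      have := X_rpow_le' (b := a) hU (hx1 j) (by linarith) (by linarith)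
      have e1 : -(1 / 2) + (1 / 2 - a) = -a := by ring
      rwa [e1]
    have a2 : (x j / (2 * Real.pi)) ^ c ≤ 7 * U ^ c :=
      X_rpow_le hU (hx1 j) (hx2 j) (r := r) (by linarith) (by linarith) le_rfl hc0.le
    have a3 := hexp U hU
    have a4 : (x j / (2 * Real.pi)) ^ c * Real.exp (-((U ^ κ) ^ 2 / 2)) ≤ 7 * U ^ c * (C2 * U ^ (-1 : ℝ)) :=
      mul_le_mul a2 a3 (Real.exp_pos _).le (by positivity)
    have a5 : U ^ c * U ^ (-1 : ℝ) ≤ U ^ (-a) := by
      rw [← Real.rpow_add hU0]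
      exact Real.rpow_le_rpow_of_exponent_le hU (by linarith)
    calc (x j / (2 * Real.pi)) ^ (-(1 / 2) + (1 / 2 - a)) + (x j / (2 * Real.pi)) ^ c * Real.exp (-((U ^ κ) ^ 2 / 2))
        ≤ 7 * U ^ (-a) + 7 * C2 * (U ^ c * U ^ (-1 : ℝ)) := by
          refine add_le_add a1 (a4.trans (le_of_eq ?_))
          ring
      _ ≤ 7 * U ^ (-a) + 7 * C2 * U ^ (-a) := by
          have := mul_le_mul_of_nonneg_left a5 (by positivity : 0 ≤ 7 * C2)
          linarith
      _ = (7 + 7 * C2) * U ^ (-a) := by ring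
  -- telescoping
  have htele : ‖T1 - T2‖ ≤ k * (20 * U ^ κ) ^ (k - 1) * E := by
    refine tele (a₁ := -(U ^ κ)) (b₁ := U ^ κ) (a₂ := 0) (b₂ := 2 * Real.pi) (by linarith) (by positivity)
      (fun v => (c : ℂ) + v * I) (fun v => r * cexp (v * I)) (fun v => cexp (((c : ℂ) + v * I) ^ 2))
      (fun v => r * cexp (v * I)) (by fun_prop) (by fun_prop) (by fun_prop) (by fun_prop)
      (M₁ := 3) (M₂ := r) ?_ ?_ ?_ ?_ hE0 (FF x) (PP c (U ^ κ) r) ?_ ?_ ?_ hone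
    · intro v _
      rw [Complex.norm_exp]
      have h1 : (((c : ℂ) + v * I) ^ 2).re ≤ 1 := by
        have : (((c : ℂ) + v * I) ^ 2).re = c ^ 2 - v ^ 2 := by
          simp [pow_two]
        rw [this]
        nlinarith [sq_nonneg v]
      calc Real.exp (((c : ℂ) + v * I) ^ 2).re ≤ Real.exp 1 := Real.exp_le_exp.2 h1
        _ ≤ 3 := by have := Real.exp_one_lt_d9; linarith
    · intro v _
      rw [norm_mul, Complex.norm_exp_ofReal_mul_I, mul_one, Complex.norm_real, Real.norm_of_nonneg hr0.le]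
    · linarith
    · have := two_pi_le
      have hr1 : r ≤ 1 := by linarith
      nlinarith [Real.pi_pos]
    · rintro z ⟨v, hv, rfl⟩
      left
      constructor
      · simp
      · simp only [Complex.add_im, Complex.ofReal_im, Complex.mul_im, Complex.ofReal_re, Complex.I_im, mul_one,
          Complex.I_re, mul_zero, add_zero, zero_add]
        exact abs_le.2 ⟨hv.1, hv.2⟩
    · rintro z ⟨v, hv, rfl⟩
      right
      simp only []
      rw [norm_mul, Complex.norm_exp_ofReal_mul_I, mul_one, Complex.norm_real, Real.norm_of_nonneg hr0.le]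
    · refine (FF_cont hxpos (e := 1 / 4) (ρ := c) hc0 (by linarith) (by linarith)).mono fun w hw => ?_
      have hfacts := fun i => PP_facts hr0 (by linarith : r < c) hrY (hw i (Set.mem_univ i))
      refine ⟨fun i h0 => ?_, fun i l hil => ?_, ⟨⟨0, hk⟩, ?_, fun i _ => ?_⟩⟩
      · have := (hfacts i).1
        rw [h0, norm_zero] at this
        linarith
      · exact gd_ne (hgood i l hil) (hfacts i).2.2.2 (hfacts l).2.2.2
      · have := (hfacts ⟨0, hk⟩).2.1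
        linarith
      · have := (hfacts i).2.1
        linarith
  -- the main term
  have hmain : mainTerm x = ((Real.pi : ℂ) ^ k)⁻¹ * T2 := main_eq hk hxpos hsep hr0 (by linarith)
  -- truncation
  have hdg' : ‖Dg x - ((Real.pi : ℂ) ^ k)⁻¹ * T1‖ ≤ C3 * U ^ (k * c) * Real.exp (-((U ^ κ) ^ 2 / 2)) :=
    hdg U (U ^ κ) x hU hY hx1 hx2
  have b1 : C3 * U ^ (k * c) * Real.exp (-((U ^ κ) ^ 2 / 2)) ≤ C3 * C2 * U ^ (-(c₂ / 4)) := by
    have a3 := hexp U hU
    calc C3 * U ^ (k * c) * Real.exp (-((U ^ κ) ^ 2 / 2)) ≤ C3 * U ^ (k * c) * (C2 * U ^ (-1 : ℝ)) :=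
          mul_le_mul_of_nonneg_left a3 (by positivity)
      _ = C3 * C2 * (U ^ (k * c) * U ^ (-1 : ℝ)) := by ring
      _ = C3 * C2 * U ^ (k * c + (-1)) := by rw [← Real.rpow_add hU0]
      _ ≤ C3 * C2 * U ^ (-(c₂ / 4)) := by
          refine mul_le_mul_of_nonneg_left ?_ (by positivity)
          refine Real.rpow_le_rpow_of_exponent_le hU ?_
          have : (k : ℝ) * c = c * k := mul_comm _ _
          linarith
  have b2 : k * (20 * U ^ κ) ^ (k - 1) * E ≤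
      k * 20 ^ k * (C1 * ((7 / r) ^ k * (CA * M ^ (k * k))) * (7 + 7 * C2)) * U ^ (-(c₂ / 4)) := by
    rw [hE]
    have hκ8 : κ * k ≤ a / 8 := by linarith
    have hb8 : b * (k * k) ≤ a / 8 := by linarith
    have h := pow_aux' k (a := a) hU hr0 hCA0.le (by linarith : 0 ≤ M) hC1.le hC2.le hY hκ8 hkc hb8 ha0
    have e1 : a / 2 = c₂ / 4 := by rw [ha]; ring
    rw [e1] at h
    exact h
  have hpi : ‖((Real.pi : ℂ) ^ k)⁻¹‖ ≤ 1 := by
    rw [norm_inv, norm_pow, Complex.norm_real, Real.norm_of_nonneg Real.pi_pos.le]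
    exact inv_le_one_of_one_le₀ (one_le_pow₀ (by have := Real.pi_gt_three; linarith))
  rw [hmain]
  calc ‖Dg x - ((Real.pi : ℂ) ^ k)⁻¹ * T2‖
      = ‖(Dg x - ((Real.pi : ℂ) ^ k)⁻¹ * T1) + ((Real.pi : ℂ) ^ k)⁻¹ * (T1 - T2)‖ := by
        congr 1; ring
    _ ≤ ‖Dg x - ((Real.pi : ℂ) ^ k)⁻¹ * T1‖ + ‖((Real.pi : ℂ) ^ k)⁻¹ * (T1 - T2)‖ := norm_add_le _ _
    _ ≤ C3 * C2 * U ^ (-(c₂ / 4)) + k * (20 * U ^ κ) ^ (k - 1) * E := by
        refine add_le_add (hdg'.trans b1) ?_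
        rw [norm_mul]
        calc ‖((Real.pi : ℂ) ^ k)⁻¹‖ * ‖T1 - T2‖ ≤ 1 * (k * (20 * U ^ κ) ^ (k - 1) * E) :=
              mul_le_mul hpi htele (norm_nonneg _) zero_le_one
          _ = _ := one_mul _
    _ ≤ C3 * C2 * U ^ (-(c₂ / 4)) +
        k * 20 ^ k * (C1 * ((7 / r) ^ k * (CA * M ^ (k * k))) * (7 + 7 * C2)) * U ^ (-(c₂ / 4)) := by
        linarith
    _ = _ := by ring

end MainPtAux

open MainPtAux

theorem main_pt (k : ℕ) (δ₁ : ℝ) (hδ : 0 < δ₁) (hδ1 : δ₁ ≤ 1) : ∃ c C U₀ : ℝ, 0 < c ∧ 0 < C ∧ 1 ≤ U₀ ∧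
    ∀ (U : ℝ) (x : Fin k → ℝ), U₀ ≤ U → (∀ j, U ≤ x j) → (∀ j, x j ≤ 4 * U) →
    (∀ i j, i ≠ j → U ^ δ₁ ≤ |x i - x j|) → ‖Dg x - mainTerm x‖ ≤ C * U ^ (-c) := by
  rcases Nat.eq_zero_or_pos k with hk | hk
  · subst hk
    refine ⟨1, 1, 1, one_pos, one_pos, le_rfl, fun U x hU _ _ _ => ?_⟩
    rw [(main_zero x).1, (main_zero x).2, sub_self, norm_zero]
    positivity
  · have hk' : (1:ℝ) ≤ k := by exact_mod_cast hk
    obtain ⟨m, hm⟩ : ∃ m : ℕ, m = 64 * (k + 1) ^ 2 := ⟨_, rfl⟩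
    have hm1 : 1 ≤ m := by
      rw [hm]
      have : 1 ≤ (k + 1) ^ 2 := Nat.one_le_pow _ _ (by omega)
      omega
    obtain ⟨c₂, C₂, hc₂, hc₂8, hC₂, hno⟩ := near_one m hm1 (δ₁ / 2) (by linarith) (by linarith)
    have hmr : (m : ℝ) = 64 * ((k : ℝ) + 1) ^ 2 := by rw [hm]; push_cast; ring
    obtain ⟨κ, hκ⟩ : ∃ κ : ℝ, κ = min (δ₁ / 4) (c₂ / (64 * ((k : ℝ) + 1) ^ 2)) := ⟨_, rfl⟩
    have hκ0 : 0 < κ := by rw [hκ]; positivity
    have hκ1 : κ ≤ δ₁ / 4 := by rw [hκ]; exact min_le_left _ _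
    have hκ2 : κ ≤ c₂ / (64 * ((k : ℝ) + 1) ^ 2) := by rw [hκ]; exact min_le_right _ _
    have hkk : (0:ℝ) < 64 * ((k : ℝ) + 1) ^ 2 := by positivity
    obtain ⟨C, hC, hcore⟩ := main_core k hk (c₂ := c₂) (κ := κ) (b := c₂ / m) hc₂ hc₂8 hκ0
      (by
        have h1 : κ * k ≤ c₂ / (64 * ((k : ℝ) + 1) ^ 2) * k := mul_le_mul_of_nonneg_right hκ2 (by linarith)
        refine h1.trans ?_
        rw [div_mul_eq_mul_div, div_le_div_iff₀ hkk (by norm_num)]
        nlinarith [mul_pos hc₂ (by linarith : (0:ℝ) < k)])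
      (by
        rw [hmr, div_mul_eq_mul_div, div_le_div_iff₀ hkk (by norm_num)]
        nlinarith [mul_pos hc₂ (by linarith : (0:ℝ) < k)])
      (by positivity) C₂ hC₂
    refine ⟨c₂ / 4, C, (8 : ℝ) ^ (2 / δ₁), by positivity, hC,
      Real.one_le_rpow (by norm_num) (by positivity), fun U x hU hx1 hx2 hs => ?_⟩
    have hU1 : 1 ≤ U := le_trans (Real.one_le_rpow (by norm_num) (by positivity)) hU
    have hU0 : 0 < U := by linarith
    have h8 : 8 ≤ U ^ (δ₁ / 2) := by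
      calc (8:ℝ) = ((8:ℝ) ^ (2 / δ₁)) ^ (δ₁ / 2) := by
            rw [← Real.rpow_mul (by norm_num)]
            have : 2 / δ₁ * (δ₁ / 2) = 1 := by field_simp
            rw [this, Real.rpow_one]
        _ ≤ U ^ (δ₁ / 2) := Real.rpow_le_rpow (by positivity) hU (by positivity)
    have hY : 1 ≤ U ^ κ := Real.one_le_rpow hU1 hκ0.le
    have hY2 : U ^ κ ≤ U ^ (δ₁ / 2) := Real.rpow_le_rpow_of_exponent_le hU1 (by linarith)
    have hsq : U ^ δ₁ = U ^ (δ₁ / 2) * U ^ (δ₁ / 2) := by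
      rw [← Real.rpow_add hU0]
      congr 1
      ring
    have hY3 : U ^ (δ₁ / 2) ≤ U := by
      calc U ^ (δ₁ / 2) ≤ U ^ (1 : ℝ) := Real.rpow_le_rpow_of_exponent_le hU1 (by linarith)
        _ = U := Real.rpow_one U
    refine hcore U x hU1 hx1 hx2 fun i j hij => ⟨?_, fun σ v h1 h2 h3 => ?_⟩
    · have := hs i j hij
      rw [hsq] at this
      nlinarith
    · have h4 := hs i j hij
      rw [hsq] at h4
      have h5 : |x i - x j| ≤ |x i - x j + v| + |v| := by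
        have := abs_sub (x i - x j + v) v
        rwa [add_sub_cancel_right] at this
      have h6 : |x i - x j + v| ≤ |x i - x j| + |v| := abs_add_le _ _
      have h7 : |x i - x j| ≤ 3 * U := by
        rw [abs_le]
        constructor <;> linarith [hx1 i, hx1 j, hx2 i, hx2 j]
      refine hno U σ (x i - x j + v) hU1 h1 h2 ?_ ?_
      · nlinarith
      · linarith

end Pool.Agent.P07318h
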