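import Pool.Agent.Lib.P07318h.Defs
import Pool.Agent.Lib.P07318s.Final

/-!
# The shifts with a small difference

PROOF. Union over the pairs `(i, j)`, `i ≠ j`. Fix a coordinate `r` of the box which occurs in the pair; for fixed other coordinates the set of `h r` is contained in an interval of length `2D`; the box of the other coordinates has measure `H^(n-1)`.
(`FinalAux.fub` of P07318s/Final.lean, compare `FinalAux.pair_bound`; `one_dim` with `2D` instead of a bound of the bad set; `n = 0`: there are no pairs.)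
-/

set_option autoImplicit false

namespace Pool.Agent.P07318h

open MeasureTheory Complex Pool.Agent.P07318s Pool.Agent.P07318f

namespace SepMAux

open FinalAux

theorem key {n : ℕ} (β : Fin (n + 1) → ℝ) {H D : ℝ} (hH : 0 ≤ H) (hD : 0 ≤ D) (m : Fin (n + 1))
    {s : ℝ} (hs : s = 1 ∨ s = -1) {c : (Fin n → ℝ) → ℝ} (hc : Measurable c) :
    volume {α ∈ Set.Icc β (fun j => β j + H) |
      s * α m + c (fun j => α (m.succAbove j)) ∈ Set.Ioo (-D) D} ≤
      ENNReal.ofReal (2 * D * H ^ n) := by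
  refine (fub m β hH measurableSet_Ioo s c hc (ENNReal.ofReal (2 * D)) ?_).trans (le_of_eq ?_)
  · intro w _
    rcases hs with rfl | rfl
    · have h1 : {u ∈ Set.Icc (β m) (β m + H) | (1 : ℝ) * u + c w ∈ Set.Ioo (-D) D} ⊆
          Set.Ioo (-D - c w) (D - c w) := by
        rintro u ⟨_, h2, h3⟩
        exact ⟨by linarith, by linarith⟩
      refine (measure_mono h1).trans ?_
      rw [Real.volume_Ioo]
      apply ENNReal.ofReal_le_ofReal
      linarith
    · have h1 : {u ∈ Set.Icc (β m) (β m + H) | (-1 : ℝ) * u + c w ∈ Set.Ioo (-D) D} ⊆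
          Set.Ioo (c w - D) (c w + D) := by
        rintro u ⟨_, h2, h3⟩
        exact ⟨by linarith, by linarith⟩
      refine (measure_mono h1).trans ?_
      rw [Real.volume_Ioo]
      apply ENNReal.ofReal_le_ofReal
      linarith
  · rw [← ENNReal.ofReal_mul (by positivity)]

theorem pair {n : ℕ} {H D α : ℝ} {β : Fin n → ℝ} (hH : 0 ≤ H) (hD : 0 ≤ D) (i j : Fin (n + 1))
    (hij : i ≠ j) :
    volume {h ∈ Set.Icc β (fun j => β j + H) |
      |(Fin.cons α h : Fin (n + 1) → ℝ) i - (Fin.cons α h : Fin (n + 1) → ℝ) j| < D} ≤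
      ENNReal.ofReal (2 * D * H ^ (n - 1)) := by
  rcases n with _ | n
  · exact absurd (by apply Fin.ext; omega : i = j) hij
  rw [Nat.add_sub_cancel]
  refine Fin.cases (motive := fun i => i ≠ j → volume {h ∈ Set.Icc β (fun j => β j + H) |
      |(Fin.cons α h : Fin (n + 1 + 1) → ℝ) i - (Fin.cons α h : Fin (n + 1 + 1) → ℝ) j| < D} ≤
      ENNReal.ofReal (2 * D * H ^ n)) ?_ ?_ i hij
  · intro hj
    obtain ⟨j', rfl⟩ := Fin.exists_succ_eq.2 hj.symm
    refine le_trans (measure_mono ?_)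
      (key β hH hD j' (Or.inr rfl) (c := fun _ => α) measurable_const)
    rintro h ⟨hh, hh'⟩
    refine ⟨hh, ?_⟩
    rw [Fin.cons_zero, Fin.cons_succ, abs_lt] at hh'
    exact ⟨by linarith [hh'.1], by linarith [hh'.2]⟩
  · intro i' hj
    by_cases hj0 : j = 0
    · subst hj0
      refine le_trans (measure_mono ?_)
        (key β hH hD i' (Or.inl rfl) (c := fun _ => -α) measurable_const)
      rintro h ⟨hh, hh'⟩
      refine ⟨hh, ?_⟩
      rw [Fin.cons_zero, Fin.cons_succ, abs_lt] at hh'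
      exact ⟨by linarith [hh'.1], by linarith [hh'.2]⟩
    · obtain ⟨j', rfl⟩ := Fin.exists_succ_eq.2 hj0
      have hne : j' ≠ i' := fun h => hj (by rw [h])
      obtain ⟨l, hl⟩ := Fin.exists_succAbove_eq hne
      refine le_trans (measure_mono ?_)
        (key β hH hD i' (Or.inl rfl) (c := fun w => -w l) (by fun_prop))
      rintro h ⟨hh, hh'⟩
      refine ⟨hh, ?_⟩
      rw [Fin.cons_succ, Fin.cons_succ, abs_lt] at hh'
      change 1 * h i' + -h (i'.succAbove l) ∈ Set.Ioo (-D) D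
      rw [hl]
      exact ⟨by linarith [hh'.1], by linarith [hh'.2]⟩

end SepMAux

open SepMAux in
theorem sep_meas (n : ℕ) (H D α : ℝ) (β : Fin n → ℝ) (hH : 0 ≤ H) (hD : 0 ≤ D) :
    volume {h | h ∈ Set.Icc β (fun j => β j + H) ∧ ∃ i j : Fin (n + 1), i ≠ j ∧
      |(Fin.cons α h : Fin (n + 1) → ℝ) i - (Fin.cons α h : Fin (n + 1) → ℝ) j| < D} ≤
      ENNReal.ofReal (((n : ℝ) + 1) ^ 2 * (2 * D) * H ^ (n - 1)) := by
  set P : Finset (Fin (n + 1) × Fin (n + 1)) := Finset.univ.filter (fun q => q.1 ≠ q.2) with hP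
  set Sb : Fin (n + 1) × Fin (n + 1) → Set (Fin n → ℝ) := fun q =>
    {h ∈ Set.Icc β (fun j => β j + H) |
      |(Fin.cons α h : Fin (n + 1) → ℝ) q.1 - (Fin.cons α h : Fin (n + 1) → ℝ) q.2| < D} with hSb
  have hsub : {h | h ∈ Set.Icc β (fun j => β j + H) ∧ ∃ i j : Fin (n + 1), i ≠ j ∧
      |(Fin.cons α h : Fin (n + 1) → ℝ) i - (Fin.cons α h : Fin (n + 1) → ℝ) j| < D} ⊆
      ⋃ q ∈ P, Sb q := by
    rintro h ⟨hh, i, j, hij, hD'⟩
    rw [Set.mem_iUnion₂]
    exact ⟨(i, j), Finset.mem_filter.2 ⟨Finset.mem_univ _, hij⟩, hh, hD'⟩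
  have hPcard : (P.card : ℝ) ≤ ((n : ℝ) + 1) ^ 2 := by
    have h1 : P.card ≤ (n + 1) * (n + 1) := by
      refine (Finset.card_filter_le _ _).trans ?_
      simp
    have h2 : (P.card : ℝ) ≤ ((n + 1) * (n + 1) : ℕ) := by exact_mod_cast h1
    push_cast at h2
    linarith [h2]
  calc volume {h | h ∈ Set.Icc β (fun j => β j + H) ∧ ∃ i j : Fin (n + 1), i ≠ j ∧
      |(Fin.cons α h : Fin (n + 1) → ℝ) i - (Fin.cons α h : Fin (n + 1) → ℝ) j| < D}
      ≤ volume (⋃ q ∈ P, Sb q) := measure_mono hsub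
    _ ≤ ∑ q ∈ P, volume (Sb q) := measure_biUnion_finset_le _ _
    _ ≤ ∑ q ∈ P, ENNReal.ofReal (2 * D * H ^ (n - 1)) :=
        Finset.sum_le_sum fun q hq => pair hH hD q.1 q.2 (Finset.mem_filter.1 hq).2
    _ = ENNReal.ofReal (P.card * (2 * D * H ^ (n - 1))) := by
        rw [Finset.sum_const, nsmul_eq_mul,
          ENNReal.ofReal_mul (by positivity : (0 : ℝ) ≤ (P.card : ℝ)), ENNReal.ofReal_natCast]
    _ ≤ ENNReal.ofReal (((n : ℝ) + 1) ^ 2 * (2 * D) * H ^ (n - 1)) := by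
        apply ENNReal.ofReal_le_ofReal
        rw [mul_assoc (((n : ℝ) + 1) ^ 2)]
        exact mul_le_mul_of_nonneg_right hPcard (by positivity)

end Pool.Agent.P07318h
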