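import Pool.Agent.Lib.P07318h.GridV
import Pool.Agent.Lib.P07318h.SepM
import Pool.Agent.Lib.P07318h.MainPt

/-!
# The product against the main term

PROOF. `δ₁ = min(δ₀, 1)/2`. `main_pt (n+1) δ₁` at `U' = 2U` gives `c, C₁, U₀`. If `2U < U₀` the measure is `≤ H^n ≤ C H^n U^(-η)`. Let `2U ≥ U₀`. Outside the set of `grid_v` and the set of `sep_meas` with `D = (2U)^δ₁`
(measure `≤ C (2U)^δ₁ H^(n-1) ≤ 2C H^n U^(δ₁-δ₀)`, as `H ≥ U^δ₀`, `n ≥ 1`): for `t ∈ [0, 2U]` the heights `x j = t + (cons α h) j` lie in `[2U, 8U]`, `|x i - x j| ≥ (2U)^δ₁`, so `‖Dg x - mainTerm x‖ ≤ C₁ (2U)^(-c) ≤ C₁ U^(-c)`, and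
`‖∫_0^V (∏ - mainTerm)‖ ≤ C U^(1-η) + 2U C₁ U^(-c)`. The integral is split as in `main_theorem` of P07318s/Final.lean (`mainTerm_continuousOn`: the differences are `> 1`; increase `U₀` so that `(2U)^δ₁ > 1`; `Dg_continuousOn`).
`∏_{j : Fin (n+1)} ‖ζ(1/2 + i (t + cons α h j))‖² = gz (t + α) ∏_j gz (t + h j)` (`Fin.prod_univ_succ`, `push_cast`), `sh α h t = fun j => t + cons α h j` by definition.
-/

set_option autoImplicit false

namespace Pool.Agent.P07318h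

open MeasureTheory Complex Pool.Agent.P07318s Pool.Agent.P07318f

namespace BoxUAux

theorem vol_box {n : ℕ} (β : Fin n → ℝ) {H : ℝ} (hH : 0 ≤ H) :
    volume (Set.Icc β (fun j => β j + H)) = ENNReal.ofReal (H ^ n) := by
  rw [Real.volume_Icc_pi]
  have : ∀ i : Fin n, ENNReal.ofReal (β i + H - β i) = ENNReal.ofReal H := by
    intro i
    congr 1
    ring
  simp only [this, Finset.prod_const, Finset.card_univ, Fintype.card_fin]
  rw [ENNReal.ofReal_pow hH]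

theorem prod_eq {n : ℕ} (α : ℝ) (h : Fin n → ℝ) (t : ℝ) :
    (∏ j, ‖riemannZeta (1 / 2 + ((t + (Fin.cons α h : Fin (n + 1) → ℝ) j : ℝ) : ℂ) * I)‖ ^ 2 : ℝ) =
      gz (t + α) * ∏ j, gz (t + h j) := by
  rw [Fin.prod_univ_succ]
  rfl

theorem key {n : ℕ} {δ₁ c C₁ U₀ : ℝ} (_hC₁ : 0 < C₁) (hc : 0 < c) (hδ₁ : 0 < δ₁)
    (hmp : ∀ (U : ℝ) (x : Fin (n + 1) → ℝ), U₀ ≤ U → (∀ j, U ≤ x j) → (∀ j, x j ≤ 4 * U) →
      (∀ i j, i ≠ j → U ^ δ₁ ≤ |x i - x j|) → ‖Dg x - mainTerm x‖ ≤ C₁ * U ^ (-c))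
    {U H α V : ℝ} {β : Fin n → ℝ} (hU : 1 ≤ U) (hUU : U₀ ≤ 2 * U) (hHU : H ≤ U) (hα : 2 * U ≤ α)
    (hα' : α ≤ 5 * U) (hβ : ∀ j, 2 * U ≤ β j) (hβ' : ∀ j, β j ≤ 5 * U) {h : Fin n → ℝ}
    (hh : h ∈ Set.Icc β (fun j => β j + H)) (hV : V ∈ Set.Icc 0 (2 * U))
    (hsep : ∀ i j : Fin (n + 1), i ≠ j → (2 * U) ^ δ₁ ≤
      |(Fin.cons α h : Fin (n + 1) → ℝ) i - (Fin.cons α h : Fin (n + 1) → ℝ) j|) :
    ‖∫ t in (0:ℝ)..V, (((∏ j, ‖riemannZeta (1 / 2 +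
          ((t + (Fin.cons α h : Fin (n + 1) → ℝ) j : ℝ) : ℂ) * I)‖ ^ 2 : ℝ) : ℂ) -
        mainTerm (fun j => t + (Fin.cons α h : Fin (n + 1) → ℝ) j))‖ ≤
      ‖∫ t in (0:ℝ)..V, (((gz (t + α) * ∏ j, gz (t + h j) : ℝ) : ℂ) - Dg (sh α h t))‖ +
        2 * C₁ * U ^ (1 - c) := by
  have hU0 : 0 < U := by linarith
  obtain ⟨hV0, hV1⟩ := hV
  set a : Fin (n + 1) → ℝ := Fin.cons α h with ha
  have ha1 : ∀ j, 2 * U ≤ a j := by
    intro j
    refine Fin.cases ?_ (fun i => ?_) j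
    · rw [ha, Fin.cons_zero]; exact hα
    · rw [ha, Fin.cons_succ]; exact (hβ i).trans (hh.1 i)
  have ha2 : ∀ j, a j ≤ 6 * U := by
    intro j
    refine Fin.cases ?_ (fun i => ?_) j
    · rw [ha, Fin.cons_zero]; linarith
    · rw [ha, Fin.cons_succ]
      have h1 := hh.2 i
      have h2 := hβ' i
      simp only at h1
      linarith
  have hmaps : ∀ t ∈ Set.uIcc 0 V, (∀ j, 0 < t + a j) ∧ (∀ j, 2 * U ≤ t + a j) ∧
      (∀ j, t + a j ≤ 4 * (2 * U)) := by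
    intro t ht
    rw [Set.uIcc_of_le hV0] at ht
    have h1 := ht.1
    have h2 := ht.2
    refine ⟨fun j => ?_, fun j => ?_, fun j => ?_⟩
    · have := ha1 j; linarith
    · have := ha1 j; linarith
    · have := ha2 j; linarith
  have hdiff : ∀ (t : ℝ) (i j : Fin (n + 1)), (t + a i) - (t + a j) = a i - a j := by
    intro t i j; ring
  have hsep1 : ∀ i j, i ≠ j → 1 < |a i - a j| := by
    intro i j hij
    exact lt_of_lt_of_le (Real.one_lt_rpow (by linarith) hδ₁) (hsep i j hij)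
  have hcontM : ContinuousOn (fun t : ℝ => mainTerm (fun j => t + a j)) (Set.uIcc 0 V) := by
    refine (mainTerm_continuousOn (n + 1)).comp (f := fun t : ℝ => (fun j => t + a j))
      (by fun_prop) ?_
    intro t ht
    refine ⟨(hmaps t ht).1, fun i j hij => ?_⟩
    simp only
    rw [hdiff]
    exact hsep1 i j hij
  have hcontD : ContinuousOn (fun t : ℝ => Dg (fun j => t + a j)) (Set.uIcc 0 V) := by
    refine (Dg_continuousOn (n + 1)).comp (f := fun t : ℝ => (fun j => t + a j))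
      (by fun_prop) ?_
    intro t ht
    exact (hmaps t ht).1
  have hcontZ : Continuous (fun t : ℝ => ((gz (t + α) * ∏ j, gz (t + h j) : ℝ) : ℂ)) := by
    apply Complex.continuous_ofReal.comp
    refine (gz_cont.comp (by fun_prop)).mul ?_
    exact continuous_finsetProd _ fun j _ => gz_cont.comp (by fun_prop)
  have hi1 : IntervalIntegrable (fun t : ℝ => ((gz (t + α) * ∏ j, gz (t + h j) : ℝ) : ℂ) -
      Dg (fun j => t + a j)) volume 0 V :=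
    (hcontZ.continuousOn.sub hcontD).intervalIntegrable
  have hi2 : IntervalIntegrable (fun t : ℝ => Dg (fun j => t + a j) -
      mainTerm (fun j => t + a j)) volume 0 V := (hcontD.sub hcontM).intervalIntegrable
  have hsplit : ∫ t in (0:ℝ)..V, (((∏ j, ‖riemannZeta (1 / 2 +
        ((t + a j : ℝ) : ℂ) * I)‖ ^ 2 : ℝ) : ℂ) - mainTerm (fun j => t + a j)) =
      (∫ t in (0:ℝ)..V, (((gz (t + α) * ∏ j, gz (t + h j) : ℝ) : ℂ) - Dg (fun j => t + a j))) +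
      ∫ t in (0:ℝ)..V, (Dg (fun j => t + a j) - mainTerm (fun j => t + a j)) := by
    rw [← intervalIntegral.integral_add hi1 hi2]
    refine intervalIntegral.integral_congr fun t _ => ?_
    have h0 := prod_eq α h t
    rw [← ha] at h0
    show _ - _ = (_ - _) + (_ - _)
    rw [h0]
    ring
  have hb2 : ‖∫ t in (0:ℝ)..V, (Dg (fun j => t + a j) - mainTerm (fun j => t + a j))‖ ≤
      2 * C₁ * U ^ (1 - c) := by
    have h1 := intervalIntegral.norm_integral_le_of_norm_le_const (a := 0) (b := V)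
      (C := C₁ * (2 * U) ^ (-c))
      (f := fun t : ℝ => Dg (fun j => t + a j) - mainTerm (fun j => t + a j)) (by
        intro t ht
        have ht' : t ∈ Set.uIcc 0 V := Set.uIoc_subset_uIcc ht
        refine hmp (2 * U) (fun j => t + a j) hUU (hmaps t ht').2.1 (hmaps t ht').2.2 ?_
        intro i j hij
        rw [hdiff]
        exact hsep i j hij)
    rw [sub_zero, abs_of_nonneg hV0] at h1
    refine h1.trans ?_
    have h2 : (2 * U) ^ (-c) ≤ U ^ (-c) :=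
      Real.rpow_le_rpow_of_nonpos hU0 (by linarith) (by linarith)
    have h3 : U ^ (1 - c) = U * U ^ (-c) := by
      rw [sub_eq_add_neg, Real.rpow_add hU0, Real.rpow_one]
    rw [h3]
    calc C₁ * (2 * U) ^ (-c) * V ≤ C₁ * U ^ (-c) * (2 * U) := by gcongr
      _ = 2 * C₁ * (U * U ^ (-c)) := by ring
  rw [hsplit]
  exact (norm_add_le _ _).trans (add_le_add le_rfl hb2)

end BoxUAux

open BoxUAux in
theorem box_u (n : ℕ) (hn : 1 ≤ n) (δ₀ : ℝ) (hδ₀ : 0 < δ₀) : ∃ η C : ℝ, 0 < η ∧ 0 < C ∧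
    ∀ (U H α : ℝ) (β : Fin n → ℝ), 1 ≤ U → U ^ (th n + δ₀) ≤ H → H ≤ U → 2 * U ≤ α → α ≤ 5 * U →
    (∀ j, 2 * U ≤ β j) → (∀ j, β j ≤ 5 * U) →
    volume {h | h ∈ Set.Icc β (fun j => β j + H) ∧ ∃ V ∈ Set.Icc 0 (2 * U), C * U ^ (1 - η) <
      ‖∫ t in (0:ℝ)..V, (((∏ j, ‖riemannZeta (1 / 2 +
          ((t + (Fin.cons α h : Fin (n + 1) → ℝ) j : ℝ) : ℂ) * I)‖ ^ 2 : ℝ) : ℂ) -
        mainTerm (fun j => t + (Fin.cons α h : Fin (n + 1) → ℝ) j))‖} ≤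
      ENNReal.ofReal (C * H ^ n * U ^ (-η)) := by
  obtain ⟨δ₁, hδ₁⟩ : ∃ δ₁ : ℝ, δ₁ = min δ₀ 1 / 2 := ⟨_, rfl⟩
  have hd1 : 0 < δ₁ := by
    rw [hδ₁]
    have : 0 < min δ₀ 1 := lt_min hδ₀ one_pos
    linarith
  have hd2 : δ₁ ≤ 1 := by
    rw [hδ₁]
    have : min δ₀ 1 ≤ 1 := min_le_right _ _
    linarith
  have hd3 : δ₁ ≤ δ₀ / 2 := by
    rw [hδ₁]
    have : min δ₀ 1 ≤ δ₀ := min_le_left _ _
    linarith
  obtain ⟨c, C₁, U₀, hc, hC₁, hU₀, hmp⟩ := main_pt (n + 1) δ₁ hd1 hd2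
  obtain ⟨η₀, C₀, hη₀, hC₀, hgv⟩ := grid_v n hn δ₀ hδ₀
  obtain ⟨η, hη⟩ : ∃ η : ℝ, η = min (min η₀ c) (min (δ₀ / 2) 1) := ⟨_, rfl⟩
  have hη0 : 0 < η := by
    rw [hη]
    exact lt_min (lt_min hη₀ hc) (lt_min (by linarith) one_pos)
  have hη1 : η ≤ η₀ := by rw [hη]; exact (min_le_left _ _).trans (min_le_left _ _)
  have hη2 : η ≤ c := by rw [hη]; exact (min_le_left _ _).trans (min_le_right _ _)
  have hη3 : η ≤ δ₀ / 2 := by rw [hη]; exact (min_le_right _ _).trans (min_le_left _ _)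
  have hη4 : η ≤ 1 := by rw [hη]; exact (min_le_right _ _).trans (min_le_right _ _)
  obtain ⟨C, hC⟩ : ∃ C : ℝ, C = C₀ + 2 * C₁ + 4 * ((n : ℝ) + 1) ^ 2 + U₀ := ⟨_, rfl⟩
  have hC0 : 0 < C := by rw [hC]; positivity
  refine ⟨η, C, hη0, hC0, ?_⟩
  intro U H α β hU hHU hHU' hα hα' hβ hβ'
  have hU0 : 0 < U := by linarith
  have hHδ : U ^ δ₀ ≤ H := by
    refine le_trans (Real.rpow_le_rpow_of_exponent_le hU ?_) hHU
    have := th_nonneg hn
    linarith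
  have hH0 : 0 < H := lt_of_lt_of_le (Real.rpow_pos_of_pos hU0 _) hHδ
  have hmono : ∀ κ : ℝ, η ≤ κ → U ^ (-κ) ≤ U ^ (-η) := fun κ hκ =>
    Real.rpow_le_rpow_of_exponent_le hU (by linarith)
  have hmono' : ∀ κ : ℝ, η ≤ κ → U ^ (1 - κ) ≤ U ^ (1 - η) := fun κ hκ =>
    Real.rpow_le_rpow_of_exponent_le hU (by linarith)
  have hUη : 0 < U ^ (-η) := Real.rpow_pos_of_pos hU0 _
  by_cases hUU : U₀ ≤ 2 * U
  · -- the main case
    have hD0 : 0 ≤ (2 * U) ^ δ₁ := by positivity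
    have hsepm := sep_meas n H ((2 * U) ^ δ₁) α β hH0.le hD0
    have hgrid := hgv U H α β hU hHU hHU' hα hα' hβ hβ'
    set S1 : Set (Fin n → ℝ) := {h | h ∈ Set.Icc β (fun j => β j + H) ∧ ∃ i j : Fin (n + 1), i ≠ j ∧
      |(Fin.cons α h : Fin (n + 1) → ℝ) i - (Fin.cons α h : Fin (n + 1) → ℝ) j| < (2 * U) ^ δ₁} with hS1
    set S0 : Set (Fin n → ℝ) := {h | h ∈ Set.Icc β (fun j => β j + H) ∧ ∃ V ∈ Set.Icc 0 (2 * U),
      C₀ * U ^ (1 - η₀) <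
      ‖∫ t in (0:ℝ)..V, (((gz (t + α) * ∏ j, gz (t + h j) : ℝ) : ℂ) - Dg (sh α h t))‖} with hS0
    have hsub : {h | h ∈ Set.Icc β (fun j => β j + H) ∧ ∃ V ∈ Set.Icc 0 (2 * U), C * U ^ (1 - η) <
      ‖∫ t in (0:ℝ)..V, (((∏ j, ‖riemannZeta (1 / 2 +
          ((t + (Fin.cons α h : Fin (n + 1) → ℝ) j : ℝ) : ℂ) * I)‖ ^ 2 : ℝ) : ℂ) -
        mainTerm (fun j => t + (Fin.cons α h : Fin (n + 1) → ℝ) j))‖} ⊆ S0 ∪ S1 := by
      rintro h ⟨hh, V, hV, hlt⟩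
      by_contra hcon
      rw [Set.mem_union, not_or] at hcon
      obtain ⟨hc1, hc2⟩ := hcon
      have hsep : ∀ i j : Fin (n + 1), i ≠ j → (2 * U) ^ δ₁ ≤
          |(Fin.cons α h : Fin (n + 1) → ℝ) i - (Fin.cons α h : Fin (n + 1) → ℝ) j| := by
        intro i j hij
        by_contra hg
        push Not at hg
        exact hc2 ⟨hh, i, j, hij, hg⟩
      have hgr : ‖∫ t in (0:ℝ)..V, (((gz (t + α) * ∏ j, gz (t + h j) : ℝ) : ℂ) -
          Dg (sh α h t))‖ ≤ C₀ * U ^ (1 - η₀) := by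
        by_contra hg
        push Not at hg
        exact hc1 ⟨hh, V, hV, hg⟩
      have hk := key hC₁ hc hd1 hmp hU hUU hHU' hα hα' hβ hβ' hh hV hsep
      have h1 := hmono' η₀ hη1
      have h2 := hmono' c hη2
      have h3 : 0 < U ^ (1 - η) := Real.rpow_pos_of_pos hU0 _
      have h4 : C₀ * U ^ (1 - η₀) ≤ C₀ * U ^ (1 - η) := mul_le_mul_of_nonneg_left h1 hC₀.le
      have h5 : 2 * C₁ * U ^ (1 - c) ≤ 2 * C₁ * U ^ (1 - η) :=
        mul_le_mul_of_nonneg_left h2 (by positivity)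
      have h6 : (C₀ + 2 * C₁) * U ^ (1 - η) ≤ C * U ^ (1 - η) := by
        apply mul_le_mul_of_nonneg_right _ h3.le
        rw [hC]
        have : 0 ≤ 4 * ((n : ℝ) + 1) ^ 2 := by positivity
        linarith
      linarith
    have hHn : H ^ (n - 1) * U ^ δ₀ ≤ H ^ n := by
      calc H ^ (n - 1) * U ^ δ₀ ≤ H ^ (n - 1) * H := mul_le_mul_of_nonneg_left hHδ (by positivity)
        _ = H ^ n := by rw [← pow_succ, Nat.sub_add_cancel hn]
    have h2U : (2 * U) ^ δ₁ ≤ 2 * U ^ δ₁ := by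
      rw [Real.mul_rpow (by norm_num) hU0.le]
      apply mul_le_mul_of_nonneg_right _ (by positivity)
      calc (2 : ℝ) ^ δ₁ ≤ (2 : ℝ) ^ (1 : ℝ) := Real.rpow_le_rpow_of_exponent_le (by norm_num) hd2
        _ = 2 := Real.rpow_one 2
    have hUδ : U ^ δ₁ ≤ U ^ (-η) * U ^ δ₀ := by
      rw [← Real.rpow_add hU0]
      exact Real.rpow_le_rpow_of_exponent_le hU (by linarith)
    have hfin : ((n : ℝ) + 1) ^ 2 * (2 * (2 * U) ^ δ₁) * H ^ (n - 1) ≤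
        4 * ((n : ℝ) + 1) ^ 2 * H ^ n * U ^ (-η) := by
      calc ((n : ℝ) + 1) ^ 2 * (2 * (2 * U) ^ δ₁) * H ^ (n - 1)
          ≤ ((n : ℝ) + 1) ^ 2 * (2 * (2 * (U ^ (-η) * U ^ δ₀))) * H ^ (n - 1) := by
            have : (2 * U) ^ δ₁ ≤ 2 * (U ^ (-η) * U ^ δ₀) :=
              h2U.trans (mul_le_mul_of_nonneg_left hUδ (by norm_num))
            gcongr
        _ = 4 * ((n : ℝ) + 1) ^ 2 * (H ^ (n - 1) * U ^ δ₀) * U ^ (-η) := by ring
        _ ≤ 4 * ((n : ℝ) + 1) ^ 2 * H ^ n * U ^ (-η) := by gcongr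
    have hC₀' : C₀ * H ^ n * U ^ (-η₀) ≤ C₀ * H ^ n * U ^ (-η) :=
      mul_le_mul_of_nonneg_left (hmono η₀ hη1) (by positivity)
    refine (measure_mono hsub).trans ((measure_union_le _ _).trans ?_)
    refine (add_le_add hgrid hsepm).trans ?_
    rw [← ENNReal.ofReal_add (by positivity) (by positivity)]
    apply ENNReal.ofReal_le_ofReal
    have h7 : (C₀ + 4 * ((n : ℝ) + 1) ^ 2) * (H ^ n * U ^ (-η)) ≤ C * (H ^ n * U ^ (-η)) := by
      apply mul_le_mul_of_nonneg_right _ (by positivity)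
      rw [hC]
      linarith
    calc C₀ * H ^ n * U ^ (-η₀) + ((n : ℝ) + 1) ^ 2 * (2 * (2 * U) ^ δ₁) * H ^ (n - 1)
        ≤ C₀ * H ^ n * U ^ (-η) + 4 * ((n : ℝ) + 1) ^ 2 * H ^ n * U ^ (-η) := add_le_add hC₀' hfin
      _ = (C₀ + 4 * ((n : ℝ) + 1) ^ 2) * (H ^ n * U ^ (-η)) := by ring
      _ ≤ C * (H ^ n * U ^ (-η)) := h7
      _ = C * H ^ n * U ^ (-η) := by ring
  · push Not at hUU
    refine (measure_mono (fun h hh => hh.1)).trans ?_
    rw [vol_box β hH0.le]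
    apply ENNReal.ofReal_le_ofReal
    have h1 : U ^ η ≤ U₀ := by
      calc U ^ η ≤ U ^ (1 : ℝ) := Real.rpow_le_rpow_of_exponent_le hU hη4
        _ = U := Real.rpow_one U
        _ ≤ U₀ := by linarith
    have h2 : U ^ η * U ^ (-η) = 1 := by
      rw [← Real.rpow_add hU0, add_neg_cancel, Real.rpow_zero]
    have h3 : U₀ ≤ C := by
      rw [hC]
      have : 0 ≤ 4 * ((n : ℝ) + 1) ^ 2 := by positivity
      linarith
    have h4 : 1 ≤ C * U ^ (-η) := by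
      rw [← h2]
      exact mul_le_mul_of_nonneg_right (h1.trans h3) hUη.le
    calc H ^ n = H ^ n * 1 := (mul_one _).symm
      _ ≤ H ^ n * (C * U ^ (-η)) := mul_le_mul_of_nonneg_left h4 (by positivity)
      _ = C * H ^ n * U ^ (-η) := by ring

end Pool.Agent.P07318h
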