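import Pool.Agent.Lib.P07318h.OffG
import Pool.Agent.Lib.P07318s.AFE
import Pool.Agent.Lib.P07318s.Twist

/-!
# Mean square of zeta in windows of length `U^(1/3)`

PROOF of `g_mean`. `∫_x^(x+L) gz ≤ e^(1/2) ∫_{-x/2}^{x/2} gz(x+u) exp(-u²/(2L²)) du` (`gz ≥ 0`, `L ≤ x/2` for `U ≥ 4`; for `U < 4` the left hand side is bounded: `gz` is continuous). For `|u| ≤ x/2` (`x + u ≥ 1` if `U ≥ 2`):
(i) `gz(x+u) = Re Fd(x+u) + O(U^(-1/2+ε))` (`afe`): total error `≤ C L`.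
(ii) `Fd(x+u) = ∑_p cf(x+u, p) ex (x+u) p`; replace `cf(x+u,p)` by `cf(x,p)`: `W y = (√π)⁻¹ ∫_{log y}^∞ exp(-v²/4) dv`, so for `y, y'` with `y'/y ∈ [1/2, 2]`: `|W y - W y'| ≤ C_B |log(y'/y)| y^(-B)` for every `B ≥ 0`
(`exp(-v²/4) ≤ C_B e^(-Bv)`), hence with `B = 1/2 + ε`: `|cf(x+u,p) - cf(x,p)| ≤ C hgt^(-1/2) (|u|/x) (x/hgt)^(1/2+ε)`, `∑_p ≤ C |u| x^(-1/2+ε)`; total error `≤ C U^(-1/2+ε) ∫ |u| exp(-u²/(2L²)) du ≤ C U^(-1/2+ε) L² ≤ C U^ε L`
(`L ≤ U^(1/2)`).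
(iii) extend the integral over `u` to all reals: error `≤ ∑_p cf(x,p) ∫_{|u| > x/2} exp(-u²/(2L²)) du ≤ C U · L exp(-x²/(16 L²)) ≤ C L` (`x²/L² ≥ U`; `∑_p cf(x,p) ≤ C x^(1+ε)`).
(iv) `∫ exp(-u²/(2L²)) ex u p du = √(2π) L exp(-L² (lgr p)²/2)` (`fourierIntegral_gaussian`-type lemma), so the main part is `√(2π) L ∑_p cf(x,p) ex x p exp(-L² (lgr p)²/2)`; diagonal `p.1 = p.2`:
`∑_m m⁻¹ W(2πm²/x) = Om 1 x ≤ C U^ε` (`Om_le_kap`); the rest is `off_g`.
PROOF of `win_mean`: cover `[a, a+L]` by at most `L/U^(1/3) + 1` intervals `[a + i L₀, a + (i+1) L₀]`, `L₀ = U^(1/3)`, `g_mean` for each (start in `[U, 16U]`).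
-/

set_option autoImplicit false

namespace Pool.Agent.P07318h

open MeasureTheory Complex Pool.Agent.P07318s Pool.Agent.P07318f

namespace GMeanAux

open Pool.Agent.P07318s.Regroup

/-- the cut-off at close points -/
lemma gauss_le (B v : ℝ) : Real.exp (-v ^ 2 / 4) ≤ Real.exp (B ^ 2) * Real.exp (-(B * v)) := by
  rw [← Real.exp_add]
  apply Real.exp_le_exp.2
  nlinarith [sq_nonneg (v / 2 - B)]

lemma W_sub {y y' : ℝ} (h : Real.log y ≤ Real.log y') :
    W y - W y' = (Real.sqrt Real.pi)⁻¹ *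
      ∫ u in (Real.log y)..(Real.log y'), Real.exp (-u ^ 2 / 4) := by
  unfold W
  rw [← mul_sub, intervalIntegral.integral_Ioi_sub_Ioi
    WMellinAux.integrable_g0.integrableOn h]

lemma W_diff_aux {B : ℝ} (hB : 0 ≤ B) {m y y' : ℝ} (hm : 0 < m) (hmy : m ≤ y) (hyy : y ≤ y') :
    |W y - W y'| ≤ Real.exp (B ^ 2) * (Real.log y' - Real.log y) * m ^ (-B) := by
  have hy : 0 < y := hm.trans_le hmy
  have hlog : Real.log y ≤ Real.log y' := Real.log_le_log hy hyy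
  rw [W_sub hlog, abs_mul]
  have h1 : |∫ u in (Real.log y)..(Real.log y'), Real.exp (-u ^ 2 / 4)| ≤
      Real.exp (B ^ 2) * m ^ (-B) * |Real.log y' - Real.log y| := by
    rw [← Real.norm_eq_abs]
    refine intervalIntegral.norm_integral_le_of_norm_le_const fun u hu => ?_
    rw [Set.uIoc_of_le hlog] at hu
    rw [Real.norm_eq_abs, abs_of_pos (Real.exp_pos _)]
    refine (gauss_le B u).trans ?_
    refine mul_le_mul_of_nonneg_left ?_ (Real.exp_pos _).le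
    rw [Real.rpow_def_of_pos hm]
    apply Real.exp_le_exp.2
    have h2 : Real.log m ≤ u := (Real.log_le_log hm hmy).trans hu.1.le
    nlinarith
  have h2 : |(Real.sqrt Real.pi)⁻¹| ≤ 1 := by
    rw [abs_of_nonneg (by positivity)]
    apply inv_le_one_of_one_le₀
    rw [Real.one_le_sqrt]
    linarith [Real.pi_gt_three]
  rw [abs_of_nonneg (sub_nonneg.2 hlog)] at h1
  calc |(Real.sqrt Real.pi)⁻¹| * |∫ u in (Real.log y)..(Real.log y'), Real.exp (-u ^ 2 / 4)| ≤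
        1 * (Real.exp (B ^ 2) * m ^ (-B) * (Real.log y' - Real.log y)) :=
        mul_le_mul h2 h1 (abs_nonneg _) zero_le_one
    _ = _ := by ring

lemma W_diff {B : ℝ} (hB : 0 ≤ B) {m y y' : ℝ} (hm : 0 < m) (hmy : m ≤ y) (hmy' : m ≤ y') :
    |W y - W y'| ≤ Real.exp (B ^ 2) * |Real.log y' - Real.log y| * m ^ (-B) := by
  rcases le_total y y' with h | h
  · rw [abs_of_nonneg (sub_nonneg.2 (Real.log_le_log (hm.trans_le hmy) h))]
    exact W_diff_aux hB hm hmy h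
  · rw [abs_sub_comm, abs_sub_comm (Real.log y'),
      abs_of_nonneg (sub_nonneg.2 (Real.log_le_log (hm.trans_le hmy') h))]
    exact W_diff_aux hB hm hmy' h

lemma log_one_add {s : ℝ} (hs : |s| ≤ 1 / 2) : |Real.log (1 + s)| ≤ 2 * |s| := by
  obtain ⟨h1, h2⟩ := abs_le.1 hs
  have hpos : 0 < 1 + s := by linarith
  have h3 := Real.log_le_sub_one_of_pos hpos
  have h4 := Real.one_sub_inv_le_log_of_pos hpos
  have h5 : 1 - (1 + s)⁻¹ = s / (1 + s) := by field_simp; ring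
  rw [h5] at h4
  rw [abs_le]
  constructor
  · refine le_trans ?_ h4
    rw [le_div_iff₀ hpos]
    rcases abs_cases s with ⟨h6, h7⟩ | ⟨h6, h7⟩ <;> rw [h6] <;> nlinarith
  · have := le_abs_self s
    have := abs_nonneg s
    linarith

/-- the coefficients at close points -/
lemma cf_diff {B : ℝ} (hB : 0 ≤ B) {x u : ℝ} (hx : 0 < x) (hu : |u| ≤ x / 2) (p : ℕ+ × ℕ+) :
    |cf (x + u) p - cf x p| ≤
      2 * Real.exp (B ^ 2) * (|u| * x ^ (B - 1)) * (hgt p) ^ (-(1 / 2) - B) := by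
  have hh := hgt_pos p
  obtain ⟨hu1, hu2⟩ := abs_le.1 hu
  have hxu : 0 < x + u := by linarith
  have hpi := Real.pi_gt_three
  have hm : 0 < hgt p / x := by positivity
  have hW := W_diff hB (m := hgt p / x) (y := 2 * Real.pi * hgt p / (x + u))
    (y' := 2 * Real.pi * hgt p / x) hm
    (by
      rw [div_le_div_iff₀ hx hxu]
      have h1 : x + u ≤ 2 * Real.pi * x := by nlinarith
      nlinarith)
    (by
      apply div_le_div_of_nonneg_right _ hx.le
      nlinarith)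
  have hlog : Real.log (2 * Real.pi * hgt p / x) - Real.log (2 * Real.pi * hgt p / (x + u)) =
      Real.log (1 + u / x) := by
    have e : 1 + u / x = (2 * Real.pi * hgt p / x) / (2 * Real.pi * hgt p / (x + u)) := by
      field_simp
    rw [e]
    exact (Real.log_div (by positivity) (by positivity)).symm
  rw [hlog] at hW
  have hux : |u / x| ≤ 1 / 2 := by
    rw [abs_div, abs_of_pos hx, div_le_iff₀ hx]
    linarith
  have hl := log_one_add hux
  have hl2 : |Real.log (1 + u / x)| ≤ 2 * (|u| / x) := by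
    rwa [abs_div, abs_of_pos hx] at hl
  unfold cf
  rw [← mul_sub, abs_mul, abs_of_nonneg (Real.rpow_nonneg hh.le _)]
  have h3 : (hgt p / x) ^ (-B) = (hgt p) ^ (-B) * x ^ B := by
    rw [Real.div_rpow hh.le hx.le, Real.rpow_neg hx.le, div_inv_eq_mul]
  have h4 : x ^ (B - 1) = x ^ B / x := by
    rw [Real.rpow_sub hx, Real.rpow_one]
  have h5 : (hgt p) ^ (-(1 / 2) - B) = (hgt p) ^ (-(1 / 2) : ℝ) * (hgt p) ^ (-B) := by
    rw [← Real.rpow_add hh]
    congr 1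
  calc (hgt p) ^ (-(1 / 2) : ℝ) * |W (2 * Real.pi * hgt p / (x + u)) - W (2 * Real.pi * hgt p / x)|
      ≤ (hgt p) ^ (-(1 / 2) : ℝ) *
        (Real.exp (B ^ 2) * (2 * (|u| / x)) * (hgt p / x) ^ (-B)) := by
        refine mul_le_mul_of_nonneg_left (hW.trans ?_) (Real.rpow_nonneg hh.le _)
        gcongr
    _ = _ := by
        rw [h3, h4, h5]
        ring

/-- the Gaussian integral -/
lemma gauss_four {L : ℝ} (hL : 0 < L) (l : ℝ) :
    ∫ u : ℝ, cexp (((-(u * l) : ℝ) : ℂ) * I) * ((Real.exp (-(u ^ 2 / (2 * L ^ 2))) : ℝ) : ℂ) =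
      ((Real.sqrt (2 * Real.pi) * L * Real.exp (-(L ^ 2 * l ^ 2 / 2)) : ℝ) : ℂ) := by
  have hb : 0 < (((1 / (2 * L ^ 2) : ℝ)) : ℂ).re := by
    rw [Complex.ofReal_re]
    positivity
  have h := fourierIntegral_gaussian hb (-(l : ℂ))
  have e1 : ∀ u : ℝ, cexp (((-(u * l) : ℝ) : ℂ) * I) *
      ((Real.exp (-(u ^ 2 / (2 * L ^ 2))) : ℝ) : ℂ) =
      cexp (I * (-(l : ℂ)) * u) * cexp (-(((1 / (2 * L ^ 2) : ℝ)) : ℂ) * (u : ℂ) ^ 2) := by
    intro u
    rw [Complex.ofReal_exp]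
    congr 2
    · push_cast; ring
    · push_cast; ring
  simp_rw [e1]
  rw [h]
  have e2 : ((Real.pi : ℂ) / (((1 / (2 * L ^ 2) : ℝ)) : ℂ)) ^ (1 / 2 : ℂ) =
      ((Real.sqrt (2 * Real.pi) * L : ℝ) : ℂ) := by
    rw [← Complex.ofReal_div]
    rw [show (1 / 2 : ℂ) = ((1 / 2 : ℝ) : ℂ) by push_cast; ring]
    rw [← Complex.ofReal_cpow (by positivity)]
    congr 1
    rw [← Real.sqrt_eq_rpow]
    have e3 : Real.pi / (1 / (2 * L ^ 2)) = (2 * Real.pi) * L ^ 2 := by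
      field_simp
    rw [e3, Real.sqrt_mul (by positivity), Real.sqrt_sq hL.le]
  rw [e2]
  push_cast
  congr 1
  congr 1
  have hL' : (L : ℂ) ≠ 0 := by exact_mod_cast hL.ne'
  field_simp
  ring

/-- the weights -/
noncomputable def wg (L u : ℝ) : ℝ := Real.exp (-(u ^ 2 / (2 * L ^ 2)))
noncomputable def vg (L u : ℝ) : ℝ := Real.exp (-(u ^ 2 / (4 * L ^ 2)))

lemma wg_pos (L u : ℝ) : 0 < wg L u := Real.exp_pos _
lemma vg_pos (L u : ℝ) : 0 < vg L u := Real.exp_pos _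

lemma wg_int {L : ℝ} (hL : 0 < L) : Integrable (wg L) := by
  have h := integrable_exp_neg_mul_sq (b := 1 / (2 * L ^ 2)) (by positivity)
  refine h.congr (Filter.Eventually.of_forall fun u => ?_)
  simp only [wg]
  congr 1
  ring

lemma vg_int {L : ℝ} (hL : 0 < L) : Integrable (vg L) := by
  have h := integrable_exp_neg_mul_sq (b := 1 / (4 * L ^ 2)) (by positivity)
  refine h.congr (Filter.Eventually.of_forall fun u => ?_)
  simp only [vg]
  congr 1
  ring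

lemma vg_integral {L : ℝ} (hL : 0 < L) : ∫ u, vg L u ≤ 4 * L := by
  have h := integral_gaussian (1 / (4 * L ^ 2))
  have e : ∫ u, vg L u = Real.sqrt (Real.pi / (1 / (4 * L ^ 2))) := by
    rw [← h]
    refine integral_congr_ae (Filter.Eventually.of_forall fun u => ?_)
    simp only [vg]
    congr 1
    ring
  rw [e, Real.sqrt_le_left (by positivity)]
  have hpi := Real.pi_le_four
  have : Real.pi / (1 / (4 * L ^ 2)) = Real.pi * (4 * L ^ 2) := by field_simp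
  rw [this]
  nlinarith [sq_nonneg L]

lemma wg_le_vg {L : ℝ} (u : ℝ) : wg L u ≤ vg L u := by
  unfold wg vg
  apply Real.exp_le_exp.2
  have h1 : u ^ 2 / (4 * L ^ 2) ≤ u ^ 2 / (2 * L ^ 2) := by
    rcases eq_or_ne L 0 with h | h
    · simp [h]
    · have : 0 < L ^ 2 := by positivity
      gcongr
      norm_num
  linarith

lemma abs_mul_wg {L : ℝ} (hL : 0 < L) (u : ℝ) : |u| * wg L u ≤ L * vg L u := by
  unfold wg vg
  have h1 : |u| / L ≤ Real.exp (u ^ 2 / (4 * L ^ 2)) := by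
    have h2 := Real.add_one_le_exp (u ^ 2 / (4 * L ^ 2))
    have h3 : u ^ 2 / (4 * L ^ 2) = (|u| / L) ^ 2 / 4 := by
      rw [div_pow, sq_abs]
      field_simp
    rw [h3] at h2 ⊢
    nlinarith [sq_nonneg (|u| / L / 2 - 1)]
  have h4 : Real.exp (-(u ^ 2 / (2 * L ^ 2))) =
      Real.exp (-(u ^ 2 / (4 * L ^ 2))) * Real.exp (-(u ^ 2 / (4 * L ^ 2))) := by
    rw [← Real.exp_add]
    congr 1
    field_simp
    ring
  rw [h4, div_le_iff₀ hL] at *
  have h5 : Real.exp (u ^ 2 / (4 * L ^ 2)) * Real.exp (-(u ^ 2 / (4 * L ^ 2))) = 1 := by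
    rw [← Real.exp_add]
    simp
  have h6 := Real.exp_pos (-(u ^ 2 / (4 * L ^ 2)))
  calc |u| * (Real.exp (-(u ^ 2 / (4 * L ^ 2))) * Real.exp (-(u ^ 2 / (4 * L ^ 2)))) ≤
        (Real.exp (u ^ 2 / (4 * L ^ 2)) * L) *
          (Real.exp (-(u ^ 2 / (4 * L ^ 2))) * Real.exp (-(u ^ 2 / (4 * L ^ 2)))) := by gcongr
    _ = (Real.exp (u ^ 2 / (4 * L ^ 2)) * Real.exp (-(u ^ 2 / (4 * L ^ 2)))) *
          (L * Real.exp (-(u ^ 2 / (4 * L ^ 2)))) := by ring
    _ = _ := by rw [h5, one_mul]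

lemma wg_tail {L x u : ℝ} (hL : 0 < L) (hx : 0 < x) (hu : x / 2 < |u|) :
    wg L u ≤ Real.exp (-(x ^ 2 / (16 * L ^ 2))) * vg L u := by
  unfold wg vg
  rw [← Real.exp_add]
  apply Real.exp_le_exp.2
  have h1 : (x / 2) ^ 2 ≤ u ^ 2 := by
    rw [← sq_abs u]
    exact pow_le_pow_left₀ (by positivity) hu.le 2
  have h2 : x ^ 2 / (16 * L ^ 2) ≤ u ^ 2 / (4 * L ^ 2) := by
    rw [div_le_div_iff₀ (by positivity) (by positivity)]
    nlinarith [sq_nonneg L, mul_le_mul_of_nonneg_right h1 (sq_nonneg L)]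
  have h3 : u ^ 2 / (2 * L ^ 2) = u ^ 2 / (4 * L ^ 2) + u ^ 2 / (4 * L ^ 2) := by
    field_simp
    ring
  rw [h3]
  linarith

/-- the Dirichlet series with frozen coefficients -/
noncomputable def Gx (x u : ℝ) : ℂ := ∑' p : ℕ+ × ℕ+, (cf x p : ℂ) * ex (x + u) p

noncomputable def Sx (x : ℝ) : ℝ := ∑' p : ℕ+ × ℕ+, cf x p

lemma Sx_nonneg (x : ℝ) : 0 ≤ Sx x := tsum_nonneg fun p => cf_nonneg p

lemma Gx_sum {x : ℝ} (hx : 0 < x) (u : ℝ) :
    Summable fun p : ℕ+ × ℕ+ => (cf x p : ℂ) * ex (x + u) p := by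
  refine Summable.of_norm ?_
  simp_rw [norm_cfex]
  exact cf_summable hx

lemma Gx_norm {x : ℝ} (hx : 0 < x) (u : ℝ) : ‖Gx x u‖ ≤ Sx x := by
  unfold Gx Sx
  have h : Summable fun p : ℕ+ × ℕ+ => ‖(cf x p : ℂ) * ex (x + u) p‖ := by
    simp_rw [norm_cfex]
    exact cf_summable hx
  refine (norm_tsum_le_tsum_norm h).trans (le_of_eq ?_)
  exact tsum_congr fun p => norm_cfex p p

lemma Gx_cont {x : ℝ} (hx : 0 < x) : Continuous (Gx x) := by
  unfold Gx
  refine continuous_tsum (fun p => ?_) (cf_summable hx) (fun p u => ?_)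
  · exact continuous_const.mul ((Cont_ex_continuous p).comp (continuous_const.add continuous_id))
  · rw [norm_cfex]

lemma Gx_int {x L : ℝ} (hx : 0 < x) (hL : 0 < L) :
    Integrable fun u : ℝ => Gx x u * ((wg L u : ℝ) : ℂ) := by
  refine Integrable.bdd_mul (c := Sx x) (wg_int hL).ofReal
    (Gx_cont hx).aestronglyMeasurable (Filter.Eventually.of_forall fun u => Gx_norm hx u)

lemma Gx_integral {x L : ℝ} (hx : 0 < x) (hL : 0 < L) :
    ∫ u : ℝ, Gx x u * ((wg L u : ℝ) : ℂ) =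
      ((Real.sqrt (2 * Real.pi) * L : ℝ) : ℂ) * ∑' p : ℕ+ × ℕ+, (cf x p : ℂ) * ex x p *
        ((Real.exp (-(L ^ 2 * (lgr p) ^ 2 / 2)) : ℝ) : ℂ) := by
  set F : ℕ+ × ℕ+ → ℝ → ℂ := fun p u => (cf x p : ℂ) * ex (x + u) p * ((wg L u : ℝ) : ℂ) with hF
  have hFint : ∀ p, Integrable (F p) := by
    intro p
    refine Integrable.bdd_mul (c := cf x p) (wg_int hL).ofReal ?_
      (Filter.Eventually.of_forall fun u => (norm_cfex p p).le)
    exact (continuous_const.mul ((Cont_ex_continuous p).comp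
      (continuous_const.add continuous_id))).aestronglyMeasurable
  have hFn : ∀ p, ∫ u, ‖F p u‖ = cf x p * ∫ u, wg L u := by
    intro p
    rw [← integral_const_mul]
    refine integral_congr_ae (Filter.Eventually.of_forall fun u => ?_)
    simp only [hF]
    rw [norm_mul, norm_cfex, Complex.norm_real, Real.norm_eq_abs, abs_of_pos (wg_pos L u)]
  have hs : Summable fun p => ∫ u, ‖F p u‖ := by
    simp_rw [hFn]
    exact (cf_summable hx).mul_right _
  have h := hasSum_integral_of_summable_integral_norm hFint hs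
  have e1 : ∀ u, Gx x u * ((wg L u : ℝ) : ℂ) = ∑' p, F p u := by
    intro u
    unfold Gx
    rw [← tsum_mul_right]
  simp_rw [e1]
  rw [← h.tsum_eq, ← tsum_mul_left]
  refine tsum_congr fun p => ?_
  have e2 : ∀ u, F p u = ((cf x p : ℂ) * ex x p) *
      (cexp (((-(u * lgr p) : ℝ) : ℂ) * I) * ((Real.exp (-(u ^ 2 / (2 * L ^ 2))) : ℝ) : ℂ)) := by
    intro u
    simp only [hF]
    rw [lgr_add_aux]
    unfold wg
    have : ex u p = cexp (((-(u * lgr p) : ℝ) : ℂ) * I) := rfl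
    rw [this]
    ring
  simp_rw [e2]
  rw [integral_const_mul, gauss_four hL]
  push_cast
  ring

lemma diag_sum (x : ℝ) : ∑' p : ℕ+ × ℕ+, (if p.1 = p.2 then cf x p else 0) = Om 1 x := by
  set q1 : Q := ⟨(1, 1), by simp⟩ with hq1
  have hinj : Function.Injective fun g : ℕ+ => gm (q1, g) := by
    intro g g' h
    have := gm_bij.injective h
    exact (Prod.mk.inj this).2
  have hsupp : Function.support (fun p : ℕ+ × ℕ+ => if p.1 = p.2 then cf x p else 0) ⊆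
      Set.range fun g : ℕ+ => gm (q1, g) := by
    intro p hp
    rw [Function.mem_support] at hp
    by_cases h : p.1 = p.2
    · refine ⟨p.1, ?_⟩
      show (p.1 * 1, p.1 * 1) = p
      rw [mul_one]
      exact Prod.ext rfl h
    · rw [if_neg h] at hp
      exact absurd rfl hp
  rw [← hinj.tsum_eq hsupp]
  have e : ∀ g : ℕ+, (if (gm (q1, g)).1 = (gm (q1, g)).2 then cf x (gm (q1, g)) else 0) =
      cf x (gm (q1, g)) := by
    intro g
    exact if_pos rfl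
  simp_rw [e]
  rw [tsum_g]
  have hh : hgt q1.1 = 1 := by
    rw [hq1]
    simp [hgt]
  rw [hh, Real.one_rpow, one_mul]

lemma main_le {x L : ℝ} (hx : 0 < x) :
    ‖∑' p : ℕ+ × ℕ+, (cf x p : ℂ) * ex x p *
        ((Real.exp (-(L ^ 2 * (lgr p) ^ 2 / 2)) : ℝ) : ℂ)‖ ≤ Om 1 x +
    ‖∑' p : ℕ+ × ℕ+, if p.1 = p.2 then 0 else
      (cf x p : ℂ) * ex x p * ((Real.exp (-(L ^ 2 * (lgr p) ^ 2 / 2)) : ℝ) : ℂ)‖ := by
  set f : ℕ+ × ℕ+ → ℂ := fun p => (cf x p : ℂ) * ex x p *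
    ((Real.exp (-(L ^ 2 * (lgr p) ^ 2 / 2)) : ℝ) : ℂ) with hf
  have hfn : ∀ p, ‖f p‖ ≤ cf x p := by
    intro p
    simp only [hf]
    rw [norm_mul, norm_cfex, Complex.norm_real, Real.norm_eq_abs, abs_of_pos (Real.exp_pos _)]
    refine mul_le_of_le_one_right (cf_nonneg p) (Real.exp_le_one_iff.2 ?_)
    have : 0 ≤ L ^ 2 * (lgr p) ^ 2 / 2 := by positivity
    linarith
  have hcs := cf_summable hx
  have h1 : Summable fun p : ℕ+ × ℕ+ => if p.1 = p.2 then 0 else f p := by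
    refine Summable.of_norm_bounded hcs fun p => ?_
    by_cases h : p.1 = p.2
    · rw [if_pos h, norm_zero]
      exact cf_nonneg p
    · rw [if_neg h]
      exact hfn p
  have h2n : ∀ p : ℕ+ × ℕ+, ‖if p.1 = p.2 then f p else 0‖ ≤ if p.1 = p.2 then cf x p else 0 := by
    intro p
    by_cases h : p.1 = p.2
    · rw [if_pos h, if_pos h]
      exact hfn p
    · rw [if_neg h, if_neg h, norm_zero]
  have h2s : Summable fun p : ℕ+ × ℕ+ => if p.1 = p.2 then cf x p else 0 := by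
    refine Summable.of_nonneg_of_le (fun p => ?_) (fun p => ?_) hcs
    · by_cases h : p.1 = p.2
      · rw [if_pos h]
        exact cf_nonneg p
      · rw [if_neg h]
    · by_cases h : p.1 = p.2
      · rw [if_pos h]
      · rw [if_neg h]
        exact cf_nonneg p
  have h2 : Summable fun p : ℕ+ × ℕ+ => if p.1 = p.2 then f p else 0 :=
    Summable.of_norm_bounded h2s h2n
  have e : ∑' p, f p = (∑' p : ℕ+ × ℕ+, if p.1 = p.2 then f p else 0) +
      ∑' p : ℕ+ × ℕ+, if p.1 = p.2 then 0 else f p := by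
    rw [← h2.tsum_add h1]
    refine tsum_congr fun p => ?_
    by_cases h : p.1 = p.2
    · rw [if_pos h, if_pos h, add_zero]
    · rw [if_neg h, if_neg h, zero_add]
  rw [e]
  refine (norm_add_le _ _).trans (add_le_add ?_ le_rfl)
  rw [← diag_sum x]
  exact tsum_of_norm_bounded h2s.hasSum h2n

lemma Sx_le : ∃ C : ℝ, 0 < C ∧ ∀ x : ℝ, 0 < x → Sx x ≤ C * x := by
  obtain ⟨C, hC, hW⟩ := W_le_rpow 1 one_pos
  have hs : Summable (fun p : ℕ+ × ℕ+ => (hgt p) ^ (-(1 / 2) - 1 : ℝ)) :=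
    AFEX.hgt_summable (by norm_num)
  have hs0 : 0 ≤ ∑' p : ℕ+ × ℕ+, (hgt p) ^ (-(1 / 2) - 1 : ℝ) :=
    tsum_nonneg fun p => Real.rpow_nonneg (hgt_pos p).le _
  refine ⟨C * (∑' p : ℕ+ × ℕ+, (hgt p) ^ (-(1 / 2) - 1 : ℝ)) + 1, by positivity, fun x hx => ?_⟩
  have h1 : ∀ p : ℕ+ × ℕ+, cf x p ≤ (C * x) * (hgt p) ^ (-(1 / 2) - 1 : ℝ) := by
    intro p
    have hh := hgt_pos p
    have hpi := Real.pi_gt_three
    unfold cf
    have h2 : W (2 * Real.pi * hgt p / x) ≤ C * (x / hgt p) := by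
      refine (hW _ (by positivity)).trans ?_
      rw [Real.rpow_neg_one]
      refine mul_le_mul_of_nonneg_left ?_ hC.le
      rw [inv_div]
      apply div_le_div_of_nonneg_left hx.le hh
      nlinarith
    have h3 : (hgt p) ^ (-(1 / 2) - 1 : ℝ) = (hgt p) ^ (-(1 / 2) : ℝ) / hgt p := by
      rw [Real.rpow_sub hh, Real.rpow_one]
    calc (hgt p) ^ (-(1 / 2) : ℝ) * W (2 * Real.pi * hgt p / x) ≤
          (hgt p) ^ (-(1 / 2) : ℝ) * (C * (x / hgt p)) :=
          mul_le_mul_of_nonneg_left h2 (Real.rpow_nonneg hh.le _)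
      _ = _ := by rw [h3]; ring
  unfold Sx
  calc ∑' p, cf x p ≤ ∑' p : ℕ+ × ℕ+, (C * x) * (hgt p) ^ (-(1 / 2) - 1 : ℝ) :=
        Summable.tsum_le_tsum h1 (cf_summable hx) (hs.mul_left _)
    _ = (C * x) * ∑' p : ℕ+ × ℕ+, (hgt p) ^ (-(1 / 2) - 1 : ℝ) := tsum_mul_left
    _ ≤ _ := by nlinarith

lemma Fd_sub_Gx {B : ℝ} (hB : 1 / 2 < B) {x u : ℝ} (hx : 0 < x) (hu : |u| ≤ x / 2) :
    ‖Fd (x + u) - Gx x u‖ ≤ 2 * Real.exp (B ^ 2) * (|u| * x ^ (B - 1)) *
      ∑' p : ℕ+ × ℕ+, (hgt p) ^ (-(1 / 2) - B : ℝ) := by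
  have hxu : 0 < x + u := by
    have := (abs_le.1 hu).1
    linarith
  have hs := AFEX.hgt_summable hB
  have h1 : Summable fun p : ℕ+ × ℕ+ => (cf (x + u) p : ℂ) * ex (x + u) p := by
    refine Summable.of_norm ?_
    simp_rw [norm_cfex]
    exact cf_summable hxu
  unfold Fd Gx
  rw [← h1.tsum_sub (Gx_sum hx u), ← tsum_mul_left]
  refine tsum_of_norm_bounded (hs.mul_left _).hasSum fun p => ?_
  rw [← sub_mul, norm_mul, norm_ex, mul_one, ← Complex.ofReal_sub, Complex.norm_real,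
    Real.norm_eq_abs]
  exact cf_diff (by linarith) hx hu p


lemma Sx_exp {C x L : ℝ} (hC : 0 < C) (hx : 1 ≤ x) (hL : 0 < L) (hLx : L ^ 2 ≤ x) (hS : Sx x ≤ C * x) :
    Sx x * Real.exp (-(x ^ 2 / (16 * L ^ 2))) ≤ 16 * C := by
  have hx0 : 0 < x := by linarith
  have h1 : Real.exp (-(x ^ 2 / (16 * L ^ 2))) ≤ Real.exp (-(x / 16)) := by
    apply Real.exp_le_exp.2
    apply neg_le_neg
    rw [div_le_div_iff₀ (by norm_num) (by positivity)]
    nlinarith [mul_le_mul_of_nonneg_left hLx hx0.le]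
  have h2 : x / 16 ≤ Real.exp (x / 16) := by linarith [Real.add_one_le_exp (x / 16)]
  have h3 : Real.exp (x / 16) * Real.exp (-(x / 16)) = 1 := by
    rw [← Real.exp_add]; simp
  calc Sx x * Real.exp (-(x ^ 2 / (16 * L ^ 2))) ≤ (C * x) * Real.exp (-(x / 16)) :=
        mul_le_mul hS h1 (Real.exp_pos _).le (by positivity)
    _ = 16 * C * ((x / 16) * Real.exp (-(x / 16))) := by ring
    _ ≤ 16 * C * (Real.exp (x / 16) * Real.exp (-(x / 16))) := by gcongr
    _ = 16 * C := by rw [h3, mul_one]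

lemma near_pt {Ca B x L u : ℝ} (hCa : 0 < Ca)
    (haf : ∀ x : ℝ, 1 ≤ x → ‖((gz x : ℝ) : ℂ) - Fd x‖ ≤ Ca) (hB : 1 / 2 < B) (hx : 2 ≤ x)
    (hL : 0 < L) (hu : |u| ≤ x / 2) :
    gz (x + u) * wg L u ≤ (Gx x u).re * wg L u + (Ca + 2 * Real.exp (B ^ 2) *
      (∑' p : ℕ+ × ℕ+, (hgt p) ^ (-(1 / 2) - B : ℝ)) * (L * x ^ (B - 1))) * vg L u := by
  have hx0 : 0 < x := by linarith
  have hu1 := (abs_le.1 hu).1
  set Z := ∑' p : ℕ+ × ℕ+, (hgt p) ^ (-(1 / 2) - B : ℝ) with hZ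
  have hZ0 : 0 ≤ Z := tsum_nonneg fun p => Real.rpow_nonneg (hgt_pos p).le _
  have h1 := haf (x + u) (by linarith)
  have h2 := Fd_sub_Gx hB hx0 hu
  have h3 : gz (x + u) - (Fd (x + u)).re ≤ Ca := by
    have := (Complex.re_le_norm (((gz (x + u) : ℝ) : ℂ) - Fd (x + u))).trans h1
    simpa using this
  have h4 : (Fd (x + u)).re - (Gx x u).re ≤ 2 * Real.exp (B ^ 2) * (|u| * x ^ (B - 1)) * Z := by
    have := (Complex.re_le_norm (Fd (x + u) - Gx x u)).trans h2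
    rw [Complex.sub_re] at this
    exact this
  have h5 : gz (x + u) ≤ (Gx x u).re + Ca + 2 * Real.exp (B ^ 2) * (|u| * x ^ (B - 1)) * Z := by
    linarith
  have h6 := mul_le_mul_of_nonneg_right h5 (wg_pos L u).le
  have h7 : Ca * wg L u ≤ Ca * vg L u := mul_le_mul_of_nonneg_left (wg_le_vg u) hCa.le
  have h8 : (2 * Real.exp (B ^ 2) * Z * x ^ (B - 1)) * (|u| * wg L u) ≤
      (2 * Real.exp (B ^ 2) * Z * x ^ (B - 1)) * (L * vg L u) :=
    mul_le_mul_of_nonneg_left (abs_mul_wg hL u) (by positivity)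
  calc gz (x + u) * wg L u ≤ ((Gx x u).re + Ca + 2 * Real.exp (B ^ 2) * (|u| * x ^ (B - 1)) * Z) * wg L u := h6
    _ = (Gx x u).re * wg L u + Ca * wg L u +
        (2 * Real.exp (B ^ 2) * Z * x ^ (B - 1)) * (|u| * wg L u) := by ring
    _ ≤ (Gx x u).re * wg L u + Ca * vg L u +
        (2 * Real.exp (B ^ 2) * Z * x ^ (B - 1)) * (L * vg L u) := by
        linarith
    _ = _ := by ring

lemma pt_le {Ca B x L : ℝ} (hCa : 0 < Ca)
    (haf : ∀ x : ℝ, 1 ≤ x → ‖((gz x : ℝ) : ℂ) - Fd x‖ ≤ Ca) (hB : 1 / 2 < B) (hx : 2 ≤ x)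
    (hL : 0 < L) (hLx : L ≤ x / 2) (u : ℝ) :
    (Set.Ioc 0 L).indicator (fun u => gz (x + u)) u ≤ 2 * ((Gx x u * ((wg L u : ℝ) : ℂ)).re +
      (Ca + 2 * Real.exp (B ^ 2) *
      (∑' p : ℕ+ × ℕ+, (hgt p) ^ (-(1 / 2) - B : ℝ)) * (L * x ^ (B - 1)) +
        Sx x * Real.exp (-(x ^ 2 / (16 * L ^ 2)))) * vg L u) := by
  have hx0 : 0 < x := by linarith
  have hre : (Gx x u * ((wg L u : ℝ) : ℂ)).re = (Gx x u).re * wg L u := by
    rw [Complex.re_mul_ofReal]
  rw [hre]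
  set Z := ∑' p : ℕ+ × ℕ+, (hgt p) ^ (-(1 / 2) - B : ℝ) with hZ
  have hZ0 : 0 ≤ Z := tsum_nonneg fun p => Real.rpow_nonneg (hgt_pos p).le _
  set K1 := Ca + 2 * Real.exp (B ^ 2) * Z * (L * x ^ (B - 1)) with hK1
  have hK10 : 0 ≤ K1 := by positivity
  set K2 := Sx x * Real.exp (-(x ^ 2 / (16 * L ^ 2))) with hK2
  have hK20 : 0 ≤ K2 := mul_nonneg (Sx_nonneg x) (Real.exp_pos _).le
  have hv := vg_pos L u
  rcases le_or_gt |u| (x / 2) with hu | hu
  · have h1 := near_pt hCa haf hB hx hL hu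
    rw [← hZ, ← hK1] at h1
    have h0 : 0 ≤ gz (x + u) * wg L u := mul_nonneg (gz_nonneg _) (wg_pos L u).le
    have h2 : gz (x + u) * wg L u ≤ (Gx x u).re * wg L u + (K1 + K2) * vg L u := by
      nlinarith [mul_nonneg hK20 hv.le]
    by_cases hm : u ∈ Set.Ioc 0 L
    · rw [Set.indicator_of_mem hm]
      have h3 : 1 / 2 ≤ wg L u := by
        unfold wg
        have h4 : u ^ 2 / (2 * L ^ 2) ≤ 1 / 2 := by
          rw [div_le_div_iff₀ (by positivity) (by norm_num)]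
          nlinarith [hm.1, hm.2]
        have h5 := Real.add_one_le_exp (-(u ^ 2 / (2 * L ^ 2)))
        linarith
      have h6 := mul_le_mul_of_nonneg_left h3 (gz_nonneg (x + u))
      linarith
    · rw [Set.indicator_of_notMem hm]
      linarith
  · have hm : u ∉ Set.Ioc 0 L := by
      intro h
      rw [abs_of_pos h.1] at hu
      linarith [h.2]
    rw [Set.indicator_of_notMem hm]
    have h1 : -Sx x ≤ (Gx x u).re := by
      have h2 := (Complex.abs_re_le_norm (Gx x u)).trans (Gx_norm hx0 u)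
      exact (abs_le.1 h2).1
    have h2 := wg_tail hL hx0 hu
    have h3 := mul_le_mul_of_nonneg_right h1 (wg_pos L u).le
    have h4 := mul_le_mul_of_nonneg_left h2 (Sx_nonneg x)
    have h5 : Sx x * (Real.exp (-(x ^ 2 / (16 * L ^ 2))) * vg L u) = K2 * vg L u := by
      rw [hK2]; ring
    rw [h5] at h4
    have h6 := mul_nonneg hK10 hv.le
    have h7 : (K1 + K2) * vg L u = K1 * vg L u + K2 * vg L u := by ring
    rw [h7]
    linarith

lemma int_le {Ca B x L : ℝ} (hCa : 0 < Ca)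
    (haf : ∀ x : ℝ, 1 ≤ x → ‖((gz x : ℝ) : ℂ) - Fd x‖ ≤ Ca) (hB : 1 / 2 < B) (hx : 2 ≤ x)
    (hL : 0 < L) (hLx : L ≤ x / 2) :
    ∫ u in x..(x + L), gz u ≤ 2 * (3 * L * (Om 1 x +
    ‖∑' p : ℕ+ × ℕ+, if p.1 = p.2 then 0 else
      (cf x p : ℂ) * ex x p * ((Real.exp (-(L ^ 2 * (lgr p) ^ 2 / 2)) : ℝ) : ℂ)‖) +
      (Ca + 2 * Real.exp (B ^ 2) *
      (∑' p : ℕ+ × ℕ+, (hgt p) ^ (-(1 / 2) - B : ℝ)) * (L * x ^ (B - 1)) +
        Sx x * Real.exp (-(x ^ 2 / (16 * L ^ 2)))) * (4 * L)) := by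
  have hx0 : 0 < x := by linarith
  have hpt := pt_le hCa haf hB hx hL hLx
  set Z := ∑' p : ℕ+ × ℕ+, (hgt p) ^ (-(1 / 2) - B : ℝ) with hZ
  have hZ0 : 0 ≤ Z := tsum_nonneg fun p => Real.rpow_nonneg (hgt_pos p).le _
  set K := Ca + 2 * Real.exp (B ^ 2) * Z * (L * x ^ (B - 1)) +
    Sx x * Real.exp (-(x ^ 2 / (16 * L ^ 2))) with hK
  have hK0 : 0 ≤ K := by
    have := mul_nonneg (Sx_nonneg x) (Real.exp_pos (-(x ^ 2 / (16 * L ^ 2)))).le
    have : 0 ≤ Ca + 2 * Real.exp (B ^ 2) * Z * (L * x ^ (B - 1)) := by positivity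
    linarith
  have e1 : ∫ u in x..(x + L), gz u = ∫ u, (Set.Ioc 0 L).indicator (fun u => gz (x + u)) u := by
    have h := intervalIntegral.integral_comp_add_left (a := 0) (b := L) gz x
    rw [add_zero] at h
    rw [← h, intervalIntegral.integral_of_le hL.le, integral_indicator measurableSet_Ioc]
  rw [e1]
  have hi1 : Integrable ((Set.Ioc 0 L).indicator (fun u => gz (x + u))) := by
    rw [integrable_indicator_iff measurableSet_Ioc]
    have hc : Continuous fun u => gz (x + u) := gz_cont.comp (continuous_const.add continuous_id)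
    exact (hc.integrableOn_Icc (a := 0) (b := L)).mono_set Set.Ioc_subset_Icc_self
  have hi2 : Integrable fun u => (Gx x u * ((wg L u : ℝ) : ℂ)).re := (Gx_int hx0 hL).re
  have hi3 : Integrable fun u => K * vg L u := (vg_int hL).const_mul K
  have h1 : ∫ u, (Set.Ioc 0 L).indicator (fun u => gz (x + u)) u ≤
      ∫ u, 2 * ((Gx x u * ((wg L u : ℝ) : ℂ)).re + K * vg L u) :=
    integral_mono hi1 ((hi2.add hi3).const_mul 2) hpt
  refine h1.trans ?_
  rw [integral_const_mul, integral_add hi2 hi3, integral_const_mul]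
  have h2 : ∫ u, (Gx x u * ((wg L u : ℝ) : ℂ)).re = (∫ u, Gx x u * ((wg L u : ℝ) : ℂ)).re :=
    integral_re (Gx_int hx0 hL)
  rw [h2, Gx_integral hx0 hL]
  have h3 := main_le (L := L) hx0
  set S := ∑' p : ℕ+ × ℕ+, (cf x p : ℂ) * ex x p *
        ((Real.exp (-(L ^ 2 * (lgr p) ^ 2 / 2)) : ℝ) : ℂ) with hS
  have h4 : (((Real.sqrt (2 * Real.pi) * L : ℝ) : ℂ) * S).re ≤ 3 * L * ‖S‖ := by
    refine (Complex.re_le_norm _).trans ?_
    rw [norm_mul, Complex.norm_real, Real.norm_of_nonneg (by positivity)]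
    have h5 : Real.sqrt (2 * Real.pi) ≤ 3 := by
      rw [Real.sqrt_le_left (by norm_num)]
      linarith [Real.pi_le_four]
    gcongr
  have h5 := mul_le_mul_of_nonneg_left h3 (by positivity : (0:ℝ) ≤ 3 * L)
  have h6 := mul_le_mul_of_nonneg_left (vg_integral hL) hK0
  have h7 := h4.trans h5
  linarith

end GMeanAux

open GMeanAux in
theorem g_mean (ε : ℝ) (hε : 0 < ε) : ∃ C : ℝ, 0 < C ∧ ∀ U x L : ℝ, 1 ≤ U → U ≤ x → x ≤ 16 * U →
    U ^ (1 / 3 : ℝ) ≤ L → L ≤ U ^ (1 / 2 : ℝ) → ∫ u in x..(x + L), gz u ≤ C * U ^ ε * L := by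
  obtain ⟨e, he⟩ : ∃ e, e = min ε (1 / 4) := ⟨_, rfl⟩
  have he0 : 0 < e := by rw [he]; exact lt_min hε (by norm_num)
  have he1 : e ≤ ε := by rw [he]; exact min_le_left _ _
  have he2 : e ≤ 1 / 4 := by rw [he]; exact min_le_right _ _
  obtain ⟨Co, hCo, hoff⟩ := off_g e he0
  obtain ⟨Cm, hCm, hOm⟩ := Om_le_kap e he0 (by linarith)
  obtain ⟨Ca, hCa, haf⟩ := afe (1 / 2) (by norm_num)
  have haf' : ∀ x : ℝ, 1 ≤ x → ‖((gz x : ℝ) : ℂ) - Fd x‖ ≤ Ca := by
    intro x hx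
    have h := haf x hx
    rw [show (-(1 / 2) + 1 / 2 : ℝ) = 0 by norm_num, Real.rpow_zero, mul_one] at h
    exact h
  obtain ⟨Cs, hCs, hSx⟩ := Sx_le
  obtain ⟨Cz, hCz⟩ := (isCompact_Icc (a := (1:ℝ)) (b := 66)).exists_bound_of_continuousOn
    gz_cont.continuousOn
  set Z := ∑' p : ℕ+ × ℕ+, (hgt p) ^ (-(1 / 2) - (1 / 2 + e) : ℝ) with hZ
  have hZ0 : 0 ≤ Z := tsum_nonneg fun p => Real.rpow_nonneg (hgt_pos p).le _
  set E := Real.exp ((1 / 2 + e) ^ 2) with hE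
  have hE0 : 0 < E := Real.exp_pos _
  set C0 := 2 * (3 * (2 * Cm + Co) + 4 * (Ca + 4 * E * Z + 16 * Cs)) with hC0
  have hC00 : 0 < C0 := by positivity
  refine ⟨C0 + |Cz|, by positivity, fun U x L hU hUx hxU hL1 hL2 => ?_⟩
  have hU0 : 0 < U := by linarith
  have hL : 0 < L := lt_of_lt_of_le (Real.rpow_pos_of_pos hU0 _) hL1
  have hUe : 1 ≤ U ^ ε := Real.one_le_rpow hU hε.le
  have hUe' : U ^ e ≤ U ^ ε := Real.rpow_le_rpow_of_exponent_le hU he1
  have hUe1 : 1 ≤ U ^ e := Real.one_le_rpow hU he0.le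
  have hsq : L ^ 2 ≤ U := by
    have h1 := pow_le_pow_left₀ hL.le hL2 2
    rw [← Real.rpow_natCast (U ^ (1 / 2 : ℝ)), ← Real.rpow_mul hU0.le] at h1
    norm_num at h1
    exact h1
  rcases lt_or_ge U 4 with h4 | h4
  · have hL2' : L ≤ 2 := by nlinarith
    have h1 : ∫ u in x..(x + L), gz u ≤ |Cz| * L := by
      have h2 := intervalIntegral.norm_integral_le_of_norm_le_const (a := x) (b := x + L) (f := gz)
        (C := |Cz|) (fun u hu => by
          rw [Set.uIoc_of_le (by linarith)] at hu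
          exact (hCz u ⟨by linarith [hu.1], by linarith [hu.2]⟩).trans (le_abs_self _))
      rw [add_sub_cancel_left, abs_of_pos hL] at h2
      exact (le_abs_self _).trans h2
    refine h1.trans ?_
    have h2 : |Cz| ≤ (C0 + |Cz|) * U ^ ε := by
      nlinarith [abs_nonneg Cz]
    exact mul_le_mul_of_nonneg_right h2 hL.le
  · have hLU : L ≤ U / 2 := by
      nlinarith
    have hx0 : 0 < x := by linarith
    have hmain := int_le (B := 1 / 2 + e) hCa haf' (by linarith) (x := x) (L := L) (by linarith) hL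
      (by linarith)
    rw [← hZ, ← hE] at hmain
    refine hmain.trans ?_
    have hxe : x ^ e ≤ 2 * U ^ e := by
      have h1 : x ^ e ≤ (16 * U) ^ e := Real.rpow_le_rpow hx0.le hxU he0.le
      rw [Real.mul_rpow (by norm_num) hU0.le] at h1
      have h2 : (16 : ℝ) ^ e ≤ 2 := by
        have h3 : (16 : ℝ) ^ e ≤ (16 : ℝ) ^ (1 / 4 : ℝ) :=
          Real.rpow_le_rpow_of_exponent_le (by norm_num) he2
        have h4 : (16 : ℝ) ^ (1 / 4 : ℝ) = 2 := by
          rw [show (16 : ℝ) = 2 ^ (4 : ℝ) by norm_num, ← Real.rpow_mul (by norm_num)]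
          norm_num
        linarith
      exact h1.trans (mul_le_mul_of_nonneg_right h2 (Real.rpow_nonneg hU0.le _))
    have hOm1 : Om 1 x ≤ 2 * Cm * U ^ e := by
      have h1 := hOm x 1 x (by linarith) le_rfl le_rfl (by linarith)
      have h2 : kap e x 1 = x ^ e := by
        unfold kap
        rw [if_pos (by linarith), div_one]
      rw [h2] at h1
      nlinarith
    have hoff1 := hoff U x L hU hUx hxU hL1
    have hLx : L * x ^ ((1 / 2 + e) - 1) ≤ 2 * U ^ e := by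
      have h1 : L ≤ x ^ (1 / 2 : ℝ) := hL2.trans (Real.rpow_le_rpow hU0.le hUx (by norm_num))
      have h2 := mul_le_mul_of_nonneg_right h1 (Real.rpow_nonneg hx0.le ((1 / 2 + e) - 1))
      rw [← Real.rpow_add hx0] at h2
      have h3 : (1 / 2 : ℝ) + (1 / 2 + e - 1) = e := by ring
      rw [h3] at h2
      exact h2.trans hxe
    have hS1 := Sx_exp hCs (x := x) (L := L) (by linarith) hL (by linarith) (hSx x hx0)
    set S2 := Sx x * Real.exp (-(x ^ 2 / (16 * L ^ 2)))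
    set P := ‖∑' p : ℕ+ × ℕ+, if p.1 = p.2 then 0 else
      (cf x p : ℂ) * ex x p * ((Real.exp (-(L ^ 2 * (lgr p) ^ 2 / 2)) : ℝ) : ℂ)‖
    set Q1 := L * x ^ ((1 / 2 + e) - 1)
    have hUe0 : 0 < U ^ e := by linarith
    have hK : Ca + 2 * E * Z * Q1 + S2 ≤ (Ca + 4 * E * Z + 16 * Cs) * U ^ e := by
      have h1 : 2 * E * Z * Q1 ≤ 2 * E * Z * (2 * U ^ e) :=
        mul_le_mul_of_nonneg_left hLx (by positivity)
      have h2 : Ca ≤ Ca * U ^ e := le_mul_of_one_le_right hCa.le hUe1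
      have h3 : 16 * Cs ≤ 16 * Cs * U ^ e := le_mul_of_one_le_right (by positivity) hUe1
      calc Ca + 2 * E * Z * Q1 + S2 ≤ Ca * U ^ e + 2 * E * Z * (2 * U ^ e) + 16 * Cs * U ^ e := by
            linarith
        _ = _ := by ring
    have hM : Om 1 x + P ≤ (2 * Cm + Co) * U ^ e := by
      have : (2 * Cm + Co) * U ^ e = 2 * Cm * U ^ e + Co * U ^ e := by ring
      linarith
    have h5 := mul_le_mul_of_nonneg_left hM (by positivity : (0:ℝ) ≤ 3 * L)
    have h6 := mul_le_mul_of_nonneg_right hK (by positivity : (0:ℝ) ≤ 4 * L)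
    calc 2 * (3 * L * (Om 1 x + P) + (Ca + 2 * E * Z * Q1 + S2) * (4 * L)) ≤
          2 * (3 * L * ((2 * Cm + Co) * U ^ e) + (Ca + 4 * E * Z + 16 * Cs) * U ^ e * (4 * L)) := by
          linarith
      _ = C0 * (U ^ e * L) := by rw [hC0]; ring
      _ ≤ (C0 + |Cz|) * (U ^ ε * L) := by
          apply mul_le_mul
          · linarith [abs_nonneg Cz]
          · exact mul_le_mul_of_nonneg_right hUe' hL.le
          · positivity
          · positivity
      _ = _ := by ring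

theorem win_mean (ε : ℝ) (hε : 0 < ε) : ∃ C : ℝ, 0 < C ∧ ∀ U a L : ℝ, 1 ≤ U → U ≤ a → 0 ≤ L → a + L ≤ 16 * U →
    ∫ y in a..(a + L), gz y ≤ C * U ^ ε * (L + U ^ (1 / 3 : ℝ)) := by
  obtain ⟨C, hC, h⟩ := g_mean ε hε
  refine ⟨C, hC, fun U a L hU hUa hL haL => ?_⟩
  have hU0 : 0 < U := by linarith
  set M := U ^ (1 / 3 : ℝ) with hM
  have hM0 : 0 < M := Real.rpow_pos_of_pos hU0 _
  have hM2 : M ≤ U ^ (1 / 2 : ℝ) := Real.rpow_le_rpow_of_exponent_le hU (by norm_num)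
  have key : ∀ n : ℕ, a + n * M ≤ 16 * U → ∫ y in a..(a + (n + 1 : ℕ) * M), gz y ≤
      C * U ^ ε * ((n + 1 : ℕ) * M) := by
    intro n
    induction n with
    | zero =>
      intro _
      have h1 := h U a M hU hUa (by linarith) le_rfl hM2
      simpa using h1
    | succ n ih =>
      intro hn
      have h1 := ih (by push_cast at hn; nlinarith)
      have h2 := h U (a + (n + 1 : ℕ) * M) M hU (by push_cast; nlinarith [mul_nonneg (Nat.cast_nonneg (α := ℝ) n) hM0.le])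
        hn le_rfl hM2
      have e1 : a + (n + 1 : ℕ) * M + M = a + (n + 1 + 1 : ℕ) * M := by push_cast; ring
      rw [e1] at h2
      rw [← intervalIntegral.integral_add_adjacent_intervals
        (gz_cont.intervalIntegrable a (a + (n + 1 : ℕ) * M))
        (gz_cont.intervalIntegrable (a + (n + 1 : ℕ) * M) (a + (n + 1 + 1 : ℕ) * M))]
      calc _ ≤ C * U ^ ε * ((n + 1 : ℕ) * M) + C * U ^ ε * M := add_le_add h1 h2
        _ = _ := by push_cast; ring
  set n := ⌊L / M⌋₊ with hn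
  have hn1 : (n : ℝ) ≤ L / M := Nat.floor_le (by positivity)
  have hn2 : L / M < n + 1 := Nat.lt_floor_add_one _
  rw [le_div_iff₀ hM0] at hn1
  rw [div_lt_iff₀ hM0] at hn2
  have h1 := key n (by linarith)
  have h2 : ∫ y in a..(a + L), gz y ≤ ∫ y in a..(a + (n + 1 : ℕ) * M), gz y := by
    rw [← intervalIntegral.integral_add_adjacent_intervals
      (gz_cont.intervalIntegrable a (a + L))
      (gz_cont.intervalIntegrable (a + L) (a + (n + 1 : ℕ) * M))]
    have : 0 ≤ ∫ y in (a + L)..(a + (n + 1 : ℕ) * M), gz y := by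
      apply intervalIntegral.integral_nonneg
      · push_cast; linarith
      · intro y _; exact gz_nonneg y
    linarith
  refine h2.trans (h1.trans ?_)
  have h3 : ((n + 1 : ℕ) : ℝ) * M ≤ L + M := by push_cast; linarith
  exact mul_le_mul_of_nonneg_left h3 (by positivity)

end Pool.Agent.P07318h
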