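import Pool.Agent.Lib.P07318h.WinLarge
import Pool.Agent.Lib.P07318h.GMean

/-!
# The bad windows

`wm b H r = ∫ gz` over `[b + rH, b + rH + 2H]`.
PROOF of `clus_sq`. Let `C₁` be the constant of `win_large ε`. For `r < N` and `y ∈ [b + rH - H, b + rH]` (inside `[U, 8U]`): `wm b H r ≤ ∫_y^(y+3H) gz` (`gz ≥ 0`). If `wm b H r / H > 3 C₁ U^ε` then
`∫_y^(y+3H) gz > C₁ U^ε (3H)` and `(wm)² ≤ (∫_y^(y+3H) gz)²`; integrate over these `y` (disjoint up to end points for different `r`): `H ∑_r (wm)² ≤ ∫_{[U, 8U]} .. ≤ C₁ U^(1+ε) · 3H` (`K = 3H ≤ 3U`). Divide by `H · H²`.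
PROOF of `clus_n`. `C = 3 C₁ + ..` large. Let `r` be bad, i.e. `max_j V_j > C U^ε`, `V_j = wm (b j) H r / H`. Then `∏_j (V_j + C U^ε) ≤ (2 max V)^(n+1) ≤ 2^(n+1) ∑_{j : V_j > C U^ε} V_j^(n+1)`, and `V_j^(n+1) = V_j² V_j^(n-1)`,
`V_j ≤ C₂ U^ε (2 + U^(1/3)/H)` (`win_mean`, `L = 2H`, inside `[U, 16U]`). By `clus_sq` the left hand side is `≤ H · (n+1) 2^(n+1) (C₂ U^ε (2 + U^(1/3)/H))^(n-1) · C U^(1+ε)/H² = C' U^(1+nε) (2 + U^(1/3)/H)^(n-1) / H`.
If `H ≥ U^(1/3)`: `≤ C' U^(1+nε) 3^(n-1)/H`, `H ≥ U^(δ₀)`. If `H < U^(1/3)`: `(2 + U^(1/3)/H)^(n-1)/H ≤ 3^(n-1) U^((n-1)/3) H^(-n) ≤ 3^(n-1) U^(-nδ₀)` as `H^n ≥ U^((n-1)/3 + nδ₀)` (`n · th n = (n-1)/3`).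
In both cases the exponent of `U` is `≤ 1 + nε - δ₀ ≤ 1 - δ₀/2`.
-/

set_option autoImplicit false

namespace Pool.Agent.P07318h

open MeasureTheory Complex Pool.Agent.P07318s Pool.Agent.P07318f

namespace ClusAux

lemma gz_ii (a b : ℝ) : IntervalIntegrable gz volume a b := gz_cont.intervalIntegrable a b

/-- a window inside a longer interval -/
lemma wm_le {b H y : ℝ} {r : ℕ} (hH : 0 ≤ H) (h1 : b + r * H - H ≤ y) (h2 : y ≤ b + r * H) :
    wm b H r ≤ ∫ x in y..(y + 3 * H), gz x := by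
  unfold wm
  refine intervalIntegral.integral_mono_interval h2 (by linarith) (by linarith) ?_ (gz_ii _ _)
  exact Filter.Eventually.of_forall fun x => gz_nonneg x

lemma sum_lint {b H : ℝ} (hH : 0 < H) (N : ℕ) (U : ℝ) (hU : U ≤ b - H) (hU2 : b + N * H ≤ 8 * U)
    (f : ℝ → ENNReal) (c : ℕ → ENNReal)
    (h : ∀ r < N, ∀ y, b + r * H - H ≤ y → y ≤ b + r * H → c r ≤ f y) :
    ∑ r ∈ Finset.range N, c r * ENNReal.ofReal H ≤ ∫⁻ x in Set.Icc U (8 * U), f x := by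
  have hd : Set.PairwiseDisjoint (↑(Finset.range N) : Set ℕ)
      (fun r : ℕ => Set.Ioc (b + r * H - H) (b + r * H)) := by
    intro i _ j _ hij
    rw [Function.onFun, Set.disjoint_left]
    rintro x ⟨hx1, hx2⟩ ⟨hx3, hx4⟩
    rcases lt_or_gt_of_ne hij with hlt | hlt
    · have h3 : (i : ℝ) + 1 ≤ j := by exact_mod_cast hlt
      nlinarith
    · have h3 : (j : ℝ) + 1 ≤ i := by exact_mod_cast hlt
      nlinarith
  have hm : ∀ r ∈ Finset.range N, MeasurableSet (Set.Ioc (b + (r : ℝ) * H - H) (b + r * H)) :=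
    fun r _ => measurableSet_Ioc
  calc ∑ r ∈ Finset.range N, c r * ENNReal.ofReal H
      ≤ ∑ r ∈ Finset.range N, ∫⁻ x in Set.Ioc (b + (r : ℝ) * H - H) (b + r * H), f x := by
        refine Finset.sum_le_sum fun r hr => ?_
        have h3 : ∫⁻ _x in Set.Ioc (b + (r : ℝ) * H - H) (b + r * H), c r = c r * ENNReal.ofReal H := by
          rw [MeasureTheory.setLIntegral_const, Real.volume_Ioc]
          congr 2
          ring
        rw [← h3]
        refine MeasureTheory.setLIntegral_mono' measurableSet_Ioc fun x hx => ?_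
        exact h r (Finset.mem_range.1 hr) x hx.1.le hx.2
    _ = ∫⁻ x in ⋃ r ∈ Finset.range N, Set.Ioc (b + (r : ℝ) * H - H) (b + r * H), f x := by
        rw [MeasureTheory.lintegral_biUnion_finset hd hm]
    _ ≤ ∫⁻ x in Set.Icc U (8 * U), f x := by
        refine MeasureTheory.lintegral_mono_set ?_
        intro x hx
        simp only [Set.mem_iUnion] at hx
        obtain ⟨r, hr, hx1, hx2⟩ := hx
        have h3 : (r : ℝ) ≤ N := by exact_mod_cast (Finset.mem_range.1 hr).le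
        have h4 : (0 : ℝ) ≤ r := Nat.cast_nonneg r
        constructor
        · nlinarith
        · nlinarith

lemma prod_le {n : ℕ} {K : ℝ} (hK : 0 ≤ K) (V : Fin (n + 1) → ℝ) (hV : ∀ j, 0 ≤ V j)
    (h : ∃ j, K < V j) :
    ∏ j, (V j + K) ≤ 2 ^ (n + 1) * ∑ j, (if K < V j then V j ^ (n + 1) else 0) := by
  classical
  obtain ⟨i, -, hi⟩ := Finset.exists_max_image (Finset.univ : Finset (Fin (n + 1))) V Finset.univ_nonempty
  obtain ⟨j0, hj0⟩ := h
  have hKi : K < V i := lt_of_lt_of_le hj0 (hi j0 (Finset.mem_univ _))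
  have h1 : ∏ j, (V j + K) ≤ ∏ _j : Fin (n + 1), (2 * V i) := by
    refine Finset.prod_le_prod (fun j _ => by linarith [hV j]) fun j _ => ?_
    linarith [hi j (Finset.mem_univ _)]
  rw [Finset.prod_const, Finset.card_univ, Fintype.card_fin, mul_pow] at h1
  refine h1.trans ?_
  refine mul_le_mul_of_nonneg_left ?_ (by positivity)
  have h2 : V i ^ (n + 1) = if K < V i then V i ^ (n + 1) else 0 := by rw [if_pos hKi]
  rw [h2]
  refine Finset.single_le_sum (f := fun j => if K < V j then V j ^ (n + 1) else 0) (fun j _ => ?_)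
    (Finset.mem_univ i)
  split_ifs
  · exact pow_nonneg (hV j) _
  · exact le_rfl

/-- the exponents -/
lemma expo {n : ℕ} (hn : 1 ≤ n) {δ₀ U H : ℝ} (hδ₀ : 0 < δ₀) (hU : 1 ≤ U) (hH : U ^ (th n + δ₀) ≤ H) :
    (2 + U ^ (1 / 3 : ℝ) / H) ^ (n - 1) / H ≤ 3 ^ (n - 1) * U ^ (-δ₀) := by
  have hU0 : 0 < U := by linarith
  have hth := th_nonneg hn
  have hHpos : 0 < H := lt_of_lt_of_le (Real.rpow_pos_of_pos hU0 _) hH
  have hδ : U ^ δ₀ ≤ H := (Real.rpow_le_rpow_of_exponent_le hU (by linarith)).trans hH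
  rcases le_or_gt (U ^ (1 / 3 : ℝ)) H with h | h
  · have h1 : U ^ (1 / 3 : ℝ) / H ≤ 1 := by rwa [div_le_one hHpos]
    have h2 : (2 + U ^ (1 / 3 : ℝ) / H) ^ (n - 1) ≤ 3 ^ (n - 1) := by
      refine pow_le_pow_left₀ (by positivity) (by linarith) _
    rw [div_eq_mul_inv, Real.rpow_neg hU0.le]
    refine mul_le_mul h2 ?_ (by positivity) (by positivity)
    exact inv_anti₀ (Real.rpow_pos_of_pos hU0 _) hδ
  · have h1 : 1 ≤ U ^ (1 / 3 : ℝ) / H := by rw [one_le_div hHpos]; exact h.le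
    have h2 : (2 + U ^ (1 / 3 : ℝ) / H) ^ (n - 1) ≤ (3 * (U ^ (1 / 3 : ℝ) / H)) ^ (n - 1) := by
      refine pow_le_pow_left₀ (by positivity) (by linarith) _
    have h3 : (3 * (U ^ (1 / 3 : ℝ) / H)) ^ (n - 1) / H = 3 ^ (n - 1) * (U ^ (((n : ℝ) - 1) / 3) / H ^ n) := by
      have h4 : (U ^ (1 / 3 : ℝ)) ^ (n - 1) = U ^ (((n : ℝ) - 1) / 3) := by
        rw [← Real.rpow_natCast, ← Real.rpow_mul hU0.le]
        congr 1
        rw [Nat.cast_sub hn]
        push_cast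
        ring
      have h5 : H ^ n = H ^ (n - 1) * H := by
        rw [← pow_succ]
        congr 1
        omega
      rw [mul_pow, div_pow, h4, h5]
      field_simp
    have h6 : U ^ (((n : ℝ) - 1) / 3 + δ₀) ≤ H ^ n := by
      calc U ^ (((n : ℝ) - 1) / 3 + δ₀) ≤ U ^ ((th n + δ₀) * n) := by
            refine Real.rpow_le_rpow_of_exponent_le hU ?_
            have hn1 : (1 : ℝ) ≤ n := by exact_mod_cast hn
            have h7 : (th n + δ₀) * n = ((n : ℝ) - 1) / 3 + δ₀ * n := by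
              unfold th
              field_simp
            rw [h7]
            nlinarith
        _ = (U ^ (th n + δ₀)) ^ n := by rw [Real.rpow_mul hU0.le, Real.rpow_natCast]
        _ ≤ H ^ n := pow_le_pow_left₀ (Real.rpow_pos_of_pos hU0 _).le hH _
    have h8 : U ^ (((n : ℝ) - 1) / 3) / H ^ n ≤ U ^ (-δ₀) := by
      rw [div_le_iff₀ (by positivity)]
      calc U ^ (((n : ℝ) - 1) / 3) = U ^ (-δ₀) * U ^ (((n : ℝ) - 1) / 3 + δ₀) := by
            rw [← Real.rpow_add hU0]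
            congr 1
            ring
        _ ≤ U ^ (-δ₀) * H ^ n := mul_le_mul_of_nonneg_left h6 (Real.rpow_pos_of_pos hU0 _).le
    calc (2 + U ^ (1 / 3 : ℝ) / H) ^ (n - 1) / H ≤ (3 * (U ^ (1 / 3 : ℝ) / H)) ^ (n - 1) / H :=
          div_le_div_of_nonneg_right h2 hHpos.le
      _ = 3 ^ (n - 1) * (U ^ (((n : ℝ) - 1) / 3) / H ^ n) := h3
      _ ≤ 3 ^ (n - 1) * U ^ (-δ₀) := mul_le_mul_of_nonneg_left h8 (by positivity)

end ClusAux

open ClusAux

theorem clus_sq (ε : ℝ) (hε : 0 < ε) : ∃ C : ℝ, 0 < C ∧ ∀ (U H b : ℝ) (N : ℕ), 1 ≤ U → 1 ≤ H → H ≤ U → 2 * U ≤ b →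
    b ≤ 5 * U → (N : ℝ) * H ≤ 3 * U →
    ∑ r ∈ Finset.range N, (if C * U ^ ε < wm b H r / H then (wm b H r / H) ^ 2 else 0) ≤ C * U ^ (1 + ε) / H ^ 2 := by
  obtain ⟨C₁, hC₁, h1⟩ := win_large ε hε
  refine ⟨3 * C₁, by linarith, ?_⟩
  intro U H b N hU hH hHU hb1 hb2 hN
  have hU0 : 0 < U := by linarith
  have hH0 : 0 < H := by linarith
  have h2 := h1 U (3 * H) hU (by linarith) (by linarith)
  set s : ℕ → ℝ := fun r => if 3 * C₁ * U ^ ε < wm b H r / H then (wm b H r) ^ 2 else 0 with hs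
  have hs0 : ∀ r, 0 ≤ s r := by
    intro r
    simp only [hs]
    split_ifs
    · positivity
    · exact le_rfl
  have h3 : ∑ r ∈ Finset.range N, ENNReal.ofReal (s r) * ENNReal.ofReal H
      ≤ ∫⁻ x in Set.Icc U (8 * U), ENNReal.ofReal (if C₁ * U ^ ε * (3 * H) < ∫ y in x..(x + 3 * H), gz y then
      (∫ y in x..(x + 3 * H), gz y) ^ 2 else 0) := by
    refine sum_lint hH0 N U (by linarith) (by linarith) _ _ ?_
    intro r _ y hy1 hy2
    refine ENNReal.ofReal_le_ofReal ?_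
    simp only [hs]
    have h4 := wm_le hH0.le hy1 hy2
    have h5 := wm_nonneg hH0.le b r
    by_cases hc : 3 * C₁ * U ^ ε < wm b H r / H
    · rw [if_pos hc]
      rw [lt_div_iff₀ hH0] at hc
      rw [if_pos (by linarith)]
      exact pow_le_pow_left₀ h5 h4 2
    · rw [if_neg hc]
      split_ifs
      · positivity
      · exact le_rfl
  have h4 := h3.trans h2
  have h5 : ∑ r ∈ Finset.range N, ENNReal.ofReal (s r) * ENNReal.ofReal H
      = ENNReal.ofReal (∑ r ∈ Finset.range N, s r * H) := by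
    rw [ENNReal.ofReal_sum_of_nonneg fun r _ => mul_nonneg (hs0 r) hH0.le]
    refine Finset.sum_congr rfl fun r _ => ?_
    rw [ENNReal.ofReal_mul (hs0 r)]
  rw [h5, ENNReal.ofReal_le_ofReal_iff (by positivity), ← Finset.sum_mul] at h4
  have h6 : ∑ r ∈ Finset.range N, s r ≤ 3 * C₁ * U ^ (1 + ε) := by
    have h7 : (∑ r ∈ Finset.range N, s r) * H ≤ (3 * C₁ * U ^ (1 + ε)) * H := by linarith
    exact le_of_mul_le_mul_right h7 hH0
  have h8 : ∑ r ∈ Finset.range N, (if 3 * C₁ * U ^ ε < wm b H r / H then (wm b H r / H) ^ 2 else 0)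
      = (∑ r ∈ Finset.range N, s r) / H ^ 2 := by
    rw [Finset.sum_div]
    refine Finset.sum_congr rfl fun r _ => ?_
    simp only [hs]
    split_ifs
    · rw [div_pow]
    · rw [zero_div]
  rw [h8]
  exact div_le_div_of_nonneg_right h6 (by positivity)

theorem clus_n (n : ℕ) (hn : 1 ≤ n) (δ₀ ε : ℝ) (hδ₀ : 0 < δ₀) (hε : 0 < ε) (hε2 : ((n : ℝ) + 1) * ε ≤ δ₀ / 2) :
    ∃ C : ℝ, 0 < C ∧ ∀ (U H : ℝ) (b : Fin (n + 1) → ℝ) (N : ℕ), 1 ≤ U → U ^ (th n + δ₀) ≤ H → H ≤ U →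
    (∀ j, 2 * U ≤ b j) → (∀ j, b j ≤ 5 * U) → (N : ℝ) * H ≤ 3 * U →
    H * ∑ r ∈ Finset.range N, cb (C * U ^ ε) H b r ≤ C * U ^ (1 - δ₀ / 2) := by
  classical
  obtain ⟨Cs, hCs, hsq⟩ := clus_sq ε hε
  obtain ⟨C₂, hC₂, hmean⟩ := win_mean ε hε
  set C' : ℝ := ((n : ℝ) + 1) * 2 ^ (n + 1) * Cs * C₂ ^ (n - 1) * 3 ^ (n - 1) with hC'
  have hC'0 : 0 < C' := by positivity
  refine ⟨Cs + C', by linarith, ?_⟩
  intro U H b N hU hH hHU hb1 hb2 hN
  have hU0 : 0 < U := by linarith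
  have hth := th_nonneg hn
  have hH1 : 1 ≤ H := (Real.one_le_rpow hU (by linarith)).trans hH
  have hH0 : 0 < H := by linarith
  set B : ℝ := C₂ * U ^ ε * (2 + U ^ (1 / 3 : ℝ) / H) with hB
  have hB0 : 0 ≤ B := by positivity
  set K : ℝ := (Cs + C') * U ^ ε with hK
  have hK0 : 0 ≤ K := by positivity
  have hKs : Cs * U ^ ε ≤ K := by
    rw [hK]
    refine mul_le_mul_of_nonneg_right (by linarith) (by positivity)
  have hV0 : ∀ j r, 0 ≤ wm (b j) H r / H := fun j r => div_nonneg (wm_nonneg hH0.le _ _) hH0.le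
  have hVB : ∀ j, ∀ r < N, wm (b j) H r / H ≤ B := by
    intro j r hr
    have hr1 : (r : ℝ) ≤ N := by exact_mod_cast hr.le
    have hr0 : (0 : ℝ) ≤ r := Nat.cast_nonneg r
    have hrH : (r : ℝ) * H ≤ 3 * U := (mul_le_mul_of_nonneg_right hr1 hH0.le).trans hN
    have hrH0 : 0 ≤ (r : ℝ) * H := by positivity
    have h1 := hmean U (b j + r * H) (2 * H) hU (by linarith [hb1 j]) (by linarith)
      (by linarith [hb2 j])
    rw [div_le_iff₀ hH0]
    refine h1.trans (le_of_eq ?_)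
    rw [hB]
    field_simp
  have hcb : ∀ r < N, cb K H b r ≤ 2 ^ (n + 1) * ∑ j, B ^ (n - 1) *
      (if Cs * U ^ ε < wm (b j) H r / H then (wm (b j) H r / H) ^ 2 else 0) := by
    intro r hr
    have hterm : ∀ j, 0 ≤ B ^ (n - 1) *
        (if Cs * U ^ ε < wm (b j) H r / H then (wm (b j) H r / H) ^ 2 else 0) := by
      intro j
      refine mul_nonneg (by positivity) ?_
      split_ifs
      · positivity
      · exact le_rfl
    unfold cb
    by_cases hex : ∃ j, K < wm (b j) H r / H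
    · rw [if_pos hex]
      refine (prod_le hK0 (fun j => wm (b j) H r / H) (fun j => hV0 j r) hex).trans ?_
      refine mul_le_mul_of_nonneg_left ?_ (by positivity)
      refine Finset.sum_le_sum fun j _ => ?_
      by_cases hj : K < wm (b j) H r / H
      · rw [if_pos hj, if_pos (lt_of_le_of_lt hKs hj)]
        have h5 : (wm (b j) H r / H) ^ (n + 1) = (wm (b j) H r / H) ^ (n - 1) * (wm (b j) H r / H) ^ 2 := by
          rw [← pow_add]
          congr 1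
          omega
        rw [h5]
        refine mul_le_mul_of_nonneg_right ?_ (by positivity)
        exact pow_le_pow_left₀ (hV0 j r) (hVB j r hr) _
      · rw [if_neg hj]
        exact hterm j
    · rw [if_neg hex]
      exact mul_nonneg (by positivity) (Finset.sum_nonneg fun j _ => hterm j)
  have hsum : ∑ r ∈ Finset.range N, cb K H b r
      ≤ 2 ^ (n + 1) * (((n : ℝ) + 1) * (B ^ (n - 1) * (Cs * U ^ (1 + ε) / H ^ 2))) := by
    calc ∑ r ∈ Finset.range N, cb K H b r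
        ≤ ∑ r ∈ Finset.range N, 2 ^ (n + 1) * ∑ j, B ^ (n - 1) *
          (if Cs * U ^ ε < wm (b j) H r / H then (wm (b j) H r / H) ^ 2 else 0) :=
          Finset.sum_le_sum fun r hr => hcb r (Finset.mem_range.1 hr)
      _ = 2 ^ (n + 1) * ∑ j, B ^ (n - 1) * ∑ r ∈ Finset.range N,
          (if Cs * U ^ ε < wm (b j) H r / H then (wm (b j) H r / H) ^ 2 else 0) := by
          rw [← Finset.mul_sum, Finset.sum_comm]
          congr 1
          refine Finset.sum_congr rfl fun j _ => ?_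
          rw [Finset.mul_sum]
      _ ≤ 2 ^ (n + 1) * ∑ _j : Fin (n + 1), B ^ (n - 1) * (Cs * U ^ (1 + ε) / H ^ 2) := by
          refine mul_le_mul_of_nonneg_left ?_ (by positivity)
          refine Finset.sum_le_sum fun j _ => ?_
          refine mul_le_mul_of_nonneg_left ?_ (by positivity)
          exact hsq U H (b j) N hU hH1 hHU (hb1 j) (hb2 j) hN
      _ = 2 ^ (n + 1) * (((n : ℝ) + 1) * (B ^ (n - 1) * (Cs * U ^ (1 + ε) / H ^ 2))) := by
          rw [Finset.sum_const, Finset.card_univ, Fintype.card_fin, nsmul_eq_mul]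
          push_cast
          ring
  have hexp := expo hn hδ₀ hU hH
  have hUn : (U ^ ε) ^ (n - 1) * U ^ (1 + ε) * U ^ (-δ₀) ≤ U ^ (1 - δ₀ / 2) := by
    rw [← Real.rpow_natCast, ← Real.rpow_mul hU0.le, ← Real.rpow_add hU0, ← Real.rpow_add hU0]
    refine Real.rpow_le_rpow_of_exponent_le hU ?_
    rw [Nat.cast_sub hn]
    push_cast
    have : (ε * ((n : ℝ) - 1) + (1 + ε) + -δ₀) = 1 + ((n : ℝ) + 1) * ε - ε - δ₀ := by ring
    rw [this]
    linarith
  calc H * ∑ r ∈ Finset.range N, cb K H b r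
      ≤ H * (2 ^ (n + 1) * (((n : ℝ) + 1) * (B ^ (n - 1) * (Cs * U ^ (1 + ε) / H ^ 2)))) :=
        mul_le_mul_of_nonneg_left hsum hH0.le
    _ = ((n : ℝ) + 1) * 2 ^ (n + 1) * Cs * C₂ ^ (n - 1) * ((U ^ ε) ^ (n - 1) * U ^ (1 + ε)) *
        ((2 + U ^ (1 / 3 : ℝ) / H) ^ (n - 1) / H) := by
        rw [hB, mul_pow, mul_pow]
        field_simp
    _ ≤ ((n : ℝ) + 1) * 2 ^ (n + 1) * Cs * C₂ ^ (n - 1) * ((U ^ ε) ^ (n - 1) * U ^ (1 + ε)) *
        (3 ^ (n - 1) * U ^ (-δ₀)) := mul_le_mul_of_nonneg_left hexp (by positivity)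
    _ = C' * ((U ^ ε) ^ (n - 1) * U ^ (1 + ε) * U ^ (-δ₀)) := by
        rw [hC']
        ring
    _ ≤ C' * U ^ (1 - δ₀ / 2) := mul_le_mul_of_nonneg_left hUn hC'0.le
    _ ≤ (Cs + C') * U ^ (1 - δ₀ / 2) :=
        mul_le_mul_of_nonneg_right (by linarith) (Real.rpow_pos_of_pos hU0 _).le

end Pool.Agent.P07318h
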