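import Pool.Agent.Lib.P07318h.Defs
import Mathlib.MeasureTheory.Constructions.Polish.Basic

/-!
# Measurability of the diagonal terms with small heights
-/

set_option autoImplicit false

namespace Pool.Agent.P07318h

open MeasureTheory Complex Pool.Agent.P07318s Pool.Agent.P07318f

namespace DgMAux

lemma W_meas : Measurable W := by
  have h1 : Antitone fun v : ℝ => ∫ u in Set.Ioi v, Real.exp (-u ^ 2 / 4) := by
    intro a b hab
    have hi : Integrable fun u : ℝ => Real.exp (-u ^ 2 / 4) := by
      have := integrable_exp_neg_mul_sq (show (0:ℝ) < 1 / 4 by norm_num)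
      refine this.congr (Filter.Eventually.of_forall fun u => ?_)
      show Real.exp (-(1 / 4) * u ^ 2) = Real.exp (-u ^ 2 / 4)
      congr 1
      ring
    refine setIntegral_mono_set hi.integrableOn ?_ ?_
    · exact Filter.Eventually.of_forall fun u => (Real.exp_pos _).le
    · exact Filter.Eventually.of_forall fun u (hu : b < u) => lt_of_le_of_lt hab hu
  unfold W
  exact (h1.measurable.comp Real.measurable_log).const_mul _

lemma Om_meas (h : ℝ) : Measurable (Om h) := by
  unfold Om
  refine Measurable.tsum fun g => ?_
  exact (W_meas.comp (measurable_const.div measurable_id)).div_const _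

lemma ex_meas (p : ℕ+ × ℕ+) : Measurable fun x : ℝ => ex x p := by
  unfold ex
  fun_prop

end DgMAux

open DgMAux

theorem dgy_meas (n : ℕ) (Y : ℝ) : Measurable (DgY (n := n) Y) := by
  classical
  unfold DgY
  have : Countable (Fin (n + 1) → Q) := inferInstance
  refine Measurable.tsum fun q => ?_
  split_ifs
  · refine Finset.measurable_fun_prod _ fun j _ => ?_
    refine Measurable.mul ?_ ((ex_meas _).comp (measurable_pi_apply j))
    refine Complex.measurable_ofReal.comp ?_
    exact ((Om_meas _).comp (measurable_pi_apply j)).const_mul _
  · exact measurable_const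

end Pool.Agent.P07318h
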