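import Pool.Agent.Lib.P07318h.WinBig
import Pool.Agent.Lib.P07318h.Fub

/-!
# One factor with large heights, the others cut off

PROOF. `B h = ‖∫_0^V Ph M Y α r t h fB Y (t + h r) dt‖ₑ`, measurable in `h` (parametric integral of a jointly measurable function: `StronglyMeasurable.integral_prod_right'`; `cut M` is measurable, `gz`, `fS`, `fB` are continuous).
`‖Ph M Y α r t h‖ ≤ M^n` (`1 + #{j < r} + #{j > r} = n` factors, `norm_cut_le`, `M ≥ 1`), and it does not depend on `h r`. `fub_r`: for fixed other coordinates, `Φ t = indicator of [0, V] · Ph M Y α r t h`;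
`∫_{[β r, β r+H]} ‖∫ Φ t fB Y (t+u) dt‖ du ≤ H^(1/2) (∫ ‖..‖²)^(1/2) ≤ H^(1/2) (C U^(2+8δ) M^(2n) (H/Y + 1))^(1/2) = C^(1/2) H U^(1+4δ) M^n (1/Y + 1/H)^(1/2)` (`win_big`); times `H^(n-1)`.
(`∫ t in (0:ℝ)..V` is the integral over `Ioc 0 V`, the same as over `Icc 0 V`.)
-/

set_option autoImplicit false

namespace Pool.Agent.P07318h

open MeasureTheory Complex Pool.Agent.P07318s Pool.Agent.P07318f

namespace LongTAux

theorem measurable_cut (M : ℝ) : Measurable (cut M) := by
  unfold cut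
  exact Measurable.ite (measurableSet_le measurable_norm measurable_const) measurable_id
    measurable_const

theorem norm_Ph_le {n : ℕ} {M : ℝ} (hM : 0 ≤ M) (Y α : ℝ) (r : Fin n) (t : ℝ)
    (h : Fin n → ℝ) : ‖Ph M Y α r t h‖ ≤ M ^ n := by
  unfold Ph
  rw [norm_mul, norm_mul, norm_prod, norm_prod]
  have h1 : ∏ j ∈ Finset.univ.filter (· < r), ‖cut M (fS Y (t + h j))‖ ≤ M ^ (r : ℕ) := by
    calc ∏ j ∈ Finset.univ.filter (· < r), ‖cut M (fS Y (t + h j))‖
        ≤ ∏ _j ∈ Finset.univ.filter (· < r), M :=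
          Finset.prod_le_prod (fun _ _ => norm_nonneg _) fun _ _ => norm_cut_le hM _
      _ = M ^ (r : ℕ) := by
          rw [Finset.prod_const]
          congr 1
          have : Finset.univ.filter (· < r) = Finset.Iio r := by
            ext j
            simp
          rw [this, Fin.card_Iio]
  have h2 : ∏ j ∈ Finset.univ.filter (r < ·), ‖cut M (gz (t + h j) : ℂ)‖ ≤
      M ^ (n - 1 - (r : ℕ)) := by
    calc ∏ j ∈ Finset.univ.filter (r < ·), ‖cut M (gz (t + h j) : ℂ)‖
        ≤ ∏ _j ∈ Finset.univ.filter (r < ·), M :=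
          Finset.prod_le_prod (fun _ _ => norm_nonneg _) fun _ _ => norm_cut_le hM _
      _ = M ^ (n - 1 - (r : ℕ)) := by
          rw [Finset.prod_const]
          congr 1
          have : Finset.univ.filter (r < ·) = Finset.Ioi r := by
            ext j
            simp
          rw [this, Fin.card_Ioi]
  have h3 : M * (M ^ (r : ℕ) * M ^ (n - 1 - (r : ℕ))) = M ^ n := by
    rw [← pow_add, ← pow_succ']
    congr 1
    have := r.2
    omega
  rw [← h3]
  refine mul_le_mul (norm_cut_le hM _) ?_ (by positivity) hM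
  exact mul_le_mul h1 h2 (Finset.prod_nonneg fun _ _ => norm_nonneg _) (by positivity)

theorem Ph_update {n : ℕ} (M Y α : ℝ) (r : Fin n) (t u : ℝ) (h : Fin n → ℝ) :
    Ph M Y α r t (Function.update h r u) = Ph M Y α r t h := by
  unfold Ph
  congr 2
  · refine Finset.prod_congr rfl fun j hj => ?_
    rw [Function.update_of_ne ((Finset.mem_filter.1 hj).2.ne)]
  · refine Finset.prod_congr rfl fun j hj => ?_
    rw [Function.update_of_ne ((Finset.mem_filter.1 hj).2.ne')]

theorem measurable_Ph {n : ℕ} (M Y α : ℝ) (r : Fin n) :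
    Measurable fun p : (Fin n → ℝ) × ℝ => Ph M Y α r p.2 p.1 := by
  have ha : ∀ j : Fin n, Measurable fun p : (Fin n → ℝ) × ℝ => p.2 + p.1 j := fun j =>
    measurable_snd.add ((measurable_pi_apply j).comp measurable_fst)
  have hg : Measurable fun x : ℝ => ((gz x : ℝ) : ℂ) :=
    Complex.measurable_ofReal.comp gz_cont.measurable
  unfold Ph
  refine ((measurable_cut M).comp (hg.comp (measurable_snd.add_const α))).mul
    (Measurable.mul ?_ ?_)
  · exact Finset.measurable_prod _ fun j _ =>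
      (measurable_cut M).comp ((fS_cont Y).measurable.comp (ha j))
  · exact Finset.measurable_prod _ fun j _ => (measurable_cut M).comp (hg.comp (ha j))

theorem measurable_F {n : ℕ} (M Y α : ℝ) (r : Fin n) :
    Measurable fun p : (Fin n → ℝ) × ℝ => Ph M Y α r p.2 p.1 * fB Y (p.2 + p.1 r) :=
  (measurable_Ph M Y α r).mul ((fB_cont Y).measurable.comp
    (measurable_snd.add ((measurable_pi_apply r).comp measurable_fst)))

/-- Cauchy-Schwarz on an interval. -/
theorem cs_icc (f : ℝ → ENNReal) (hf : Measurable f) (b H : ℝ) :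
    ∫⁻ u in Set.Icc b (b + H), f u ≤
      (∫⁻ u in Set.Icc b (b + H), f u ^ 2) ^ (1 / 2 : ℝ) * ENNReal.ofReal H ^ (1 / 2 : ℝ) := by
  have h1 := ENNReal.lintegral_mul_le_Lp_mul_Lq (volume.restrict (Set.Icc b (b + H)))
    Real.HolderConjugate.two_two (f := f) (g := fun _ => 1) hf.aemeasurable
    aemeasurable_const
  have h2 : ∫⁻ u in Set.Icc b (b + H), (f * (fun _ => 1 : ℝ → ENNReal)) u =
      ∫⁻ u in Set.Icc b (b + H), f u := by
    refine lintegral_congr fun u => ?_
    simp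
  have h3 : ∫⁻ _u in Set.Icc b (b + H), (1 : ENNReal) ^ (2 : ℝ) = ENNReal.ofReal H := by
    simp
  rw [h2, h3] at h1
  refine le_trans h1 (le_of_eq ?_)
  congr 2
  refine lintegral_congr fun u => ?_
  rw [← ENNReal.rpow_natCast]
  norm_num

end LongTAux

open LongTAux

theorem long_t (n : ℕ) (δ : ℝ) (hδ : 0 < δ) (hδ2 : δ ≤ 1 / 4) : ∃ C : ℝ, 0 < C ∧
    ∀ (U Y H α V M : ℝ) (β : Fin n → ℝ) (r : Fin n), 1 ≤ U → 1 ≤ Y → 0 < H → H ≤ U → 2 * U ≤ α → α ≤ 5 * U →
    (∀ j, 2 * U ≤ β j) → (∀ j, β j ≤ 5 * U) → 0 ≤ V → V ≤ 2 * U → 1 ≤ M →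
    ∃ B : (Fin n → ℝ) → ENNReal, Measurable B ∧
      (∀ h, ‖∫ t in (0:ℝ)..V, Ph M Y α r t h * fB Y (t + h r)‖ₑ ≤ B h) ∧
      ∫⁻ h in Set.Icc β (fun j => β j + H), B h ≤
        ENNReal.ofReal (C * H ^ n * (U ^ (1 + 4 * δ) * M ^ n * (1 / Y + 1 / H) ^ (1 / 2 : ℝ))) := by
  obtain ⟨C, hC, hwb⟩ := win_big δ hδ hδ2
  refine ⟨C ^ (1 / 2 : ℝ), by positivity, ?_⟩
  intro U Y H α V M β r hU hY hH hHU hα1 hα2 hβ1 hβ2 hV hV2 hM
  have hU0 : 0 < U := by linarith
  have hY0 : 0 < Y := by linarith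
  have hM0 : 0 < M := by linarith
  have hBm : Measurable fun h : Fin n → ℝ =>
      ‖∫ t in (0:ℝ)..V, Ph M Y α r t h * fB Y (t + h r)‖ₑ := by
    have h1 : StronglyMeasurable fun h : Fin n → ℝ =>
        ∫ t, Ph M Y α r t h * fB Y (t + h r) ∂(volume.restrict (Set.Ioc 0 V)) :=
      (measurable_F M Y α r).stronglyMeasurable.integral_prod_right'
    have h2 : (fun h : Fin n → ℝ => ∫ t in (0:ℝ)..V, Ph M Y α r t h * fB Y (t + h r)) =
        fun h : Fin n → ℝ =>
          ∫ t, Ph M Y α r t h * fB Y (t + h r) ∂(volume.restrict (Set.Ioc 0 V)) := by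
      funext h
      rw [intervalIntegral.integral_of_le hV]
    have h3 := h1.measurable
    rw [← h2] at h3
    exact h3.enorm
  refine ⟨_, hBm, fun h => le_rfl, ?_⟩
  set R : ℝ := C * U ^ (2 + 8 * δ) * (M ^ n) ^ 2 * (H / Y + 1) with hR
  have hR0 : 0 ≤ R := by positivity
  have hK : ∀ h ∈ Set.Icc β (fun j => β j + H),
      ∫⁻ u in Set.Icc (β r) (β r + H), ‖∫ t in (0:ℝ)..V, Ph M Y α r t (Function.update h r u) *
        fB Y (t + (Function.update h r u) r)‖ₑ ≤
      ENNReal.ofReal (R ^ (1 / 2 : ℝ) * H ^ (1 / 2 : ℝ)) := by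
    intro h _
    set Φ : ℝ → ℂ := (Set.Icc 0 V).indicator fun t => Ph M Y α r t h with hΦ
    have hΦm : Measurable Φ :=
      ((measurable_Ph M Y α r).comp (measurable_const.prodMk measurable_id)).indicator
        measurableSet_Icc
    have hΦ0 : ∀ t, t ∉ Set.Icc 0 V → Φ t = 0 := fun t ht => Set.indicator_of_notMem ht _
    have hΦM : ∀ t, ‖Φ t‖ ≤ M ^ n := by
      intro t
      rw [hΦ]
      by_cases ht : t ∈ Set.Icc 0 V
      · rw [Set.indicator_of_mem ht]
        exact norm_Ph_le hM0.le Y α r t h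
      · rw [Set.indicator_of_notMem ht, norm_zero]
        positivity
    have heq : ∀ u : ℝ, ∫ t in (0:ℝ)..V, Ph M Y α r t (Function.update h r u) *
        fB Y (t + (Function.update h r u) r) = ∫ t, Φ t * fB Y (t + u) := by
      intro u
      rw [intervalIntegral.integral_of_le hV, ← integral_Icc_eq_integral_Ioc,
        ← integral_indicator measurableSet_Icc]
      refine integral_congr_ae (Filter.Eventually.of_forall fun t => ?_)
      simp only [Function.update_self, Ph_update]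
      rw [hΦ]
      by_cases ht : t ∈ Set.Icc 0 V
      · rw [Set.indicator_of_mem ht, Set.indicator_of_mem ht]
      · rw [Set.indicator_of_notMem ht, Set.indicator_of_notMem ht, zero_mul]
    have hm : Measurable fun u : ℝ => ‖∫ t, Φ t * fB Y (t + u)‖ₑ := by
      have h1 : Measurable fun u : ℝ => ‖∫ t in (0:ℝ)..V,
          Ph M Y α r t (Function.update h r u) * fB Y (t + (Function.update h r u) r)‖ₑ :=
        hBm.comp (measurable_update h)
      have h2 : (fun u : ℝ => ‖∫ t in (0:ℝ)..V,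
          Ph M Y α r t (Function.update h r u) * fB Y (t + (Function.update h r u) r)‖ₑ) =
          fun u : ℝ => ‖∫ t, Φ t * fB Y (t + u)‖ₑ := by
        funext u
        rw [heq u]
      rwa [h2] at h1
    calc ∫⁻ u in Set.Icc (β r) (β r + H), ‖∫ t in (0:ℝ)..V,
          Ph M Y α r t (Function.update h r u) * fB Y (t + (Function.update h r u) r)‖ₑ
        = ∫⁻ u in Set.Icc (β r) (β r + H), ‖∫ t, Φ t * fB Y (t + u)‖ₑ := by
          refine lintegral_congr fun u => ?_
          rw [heq u]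
      _ ≤ (∫⁻ u in Set.Icc (β r) (β r + H), ‖∫ t, Φ t * fB Y (t + u)‖ₑ ^ 2) ^ (1 / 2 : ℝ) *
          ENNReal.ofReal H ^ (1 / 2 : ℝ) := cs_icc _ hm _ _
      _ ≤ ENNReal.ofReal R ^ (1 / 2 : ℝ) * ENNReal.ofReal H ^ (1 / 2 : ℝ) := by
          gcongr
          exact hwb U Y H (β r) V (M ^ n) Φ hU hY hH.le hHU (hβ1 r) (hβ2 r) hV hV2
            (by positivity) hΦm hΦ0 hΦM
      _ = ENNReal.ofReal (R ^ (1 / 2 : ℝ) * H ^ (1 / 2 : ℝ)) := by
          rw [ENNReal.ofReal_rpow_of_nonneg hR0 (by norm_num),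
            ENNReal.ofReal_rpow_of_nonneg hH.le (by norm_num),
            ← ENNReal.ofReal_mul (by positivity)]
  refine le_trans (fub_r r β hH.le _ hBm _ hK) ?_
  rw [← ENNReal.ofReal_mul (by positivity)]
  refine ENNReal.ofReal_le_ofReal (le_of_eq ?_)
  have hn1 : 1 ≤ n := by
    have := r.2
    omega
  have e1 : R * H = C * (U ^ (1 + 4 * δ)) ^ 2 * (M ^ n) ^ 2 * H ^ 2 * (1 / Y + 1 / H) := by
    have e2 : (U ^ (1 + 4 * δ)) ^ 2 = U ^ (2 + 8 * δ) := by
      rw [← Real.rpow_natCast, ← Real.rpow_mul hU0.le]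
      congr 1
      push_cast
      ring
    rw [e2, hR]
    field_simp
  have e3 : R ^ (1 / 2 : ℝ) * H ^ (1 / 2 : ℝ) =
      C ^ (1 / 2 : ℝ) * U ^ (1 + 4 * δ) * M ^ n * H * (1 / Y + 1 / H) ^ (1 / 2 : ℝ) := by
    rw [← Real.mul_rpow hR0 hH.le, e1]
    have hUp : 0 ≤ U ^ (1 + 4 * δ) := by positivity
    have hMp : 0 ≤ M ^ n := by positivity
    rw [Real.mul_rpow (by positivity) (by positivity), Real.mul_rpow (by positivity)
      (by positivity), Real.mul_rpow (by positivity) (by positivity),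
      Real.mul_rpow hC.le (by positivity)]
    rw [← Real.sqrt_eq_rpow ((U ^ (1 + 4 * δ)) ^ 2), Real.sqrt_sq hUp,
      ← Real.sqrt_eq_rpow ((M ^ n) ^ 2), Real.sqrt_sq hMp, ← Real.sqrt_eq_rpow (H ^ 2),
      Real.sqrt_sq hH.le]
  have e4 : H * H ^ (n - 1) = H ^ n := by
    rw [← pow_succ']
    congr 1
    omega
  rw [e3, ← e4]
  ring

end Pool.Agent.P07318h
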