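import Pool.Agent.Lib.P07318h.Defs
import Pool.Agent.Lib.P07318s.Spaced

/-!
# Off-diagonal sum against one short fraction

PROOF. Write `l_q = lgr q.1 + lgr r ≠ 0`. (0) `|l_q| ≥ 1/(2 (hgt q hgt r)^(1/2))`: `l_q = log(a/b)` with the positive integers `a = q.1.1 · r.1`, `b = q.1.2 · r.2`, `ab = hgt q · hgt r`, `a ≠ b`; for `a > b`: if `a ≤ 2b` then
`log(a/b) ≥ (a-b)/a ≥ 1/a ≥ 1/(2ab)^(1/2)`, otherwise `log(a/b) ≥ log 2 ≥ 1/(ab)^(1/2) · (log 2)`.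
Dyadic blocks `A ≤ h < 2A`, `A = 2^j`. (1) If `|l_q| ≥ 1/(4A)`: `bb (2U) l ≤ 4/|l| ≤ 5 bb A l` (`1 + A|l| ≤ 5A|l|`). The sum over the block of `bb A l_q` is `≤ ∑' kap δ (2A) h bb A l_q ≤ C A^(1+2δ)` (`spaced_sum` with `U := 2A`, `V := A`,
`μ = lgr r`; `kap δ (2A) h ≥ 1` for `h ≤ 2A`). (2) `0 < |l_q| < 1/(4A)`: at most one `q` in the block, since two different reduced fractions with heights `< 2A` satisfy `|lgr q - lgr q'| ≥ 1/(2A)·..`: with (0) for the pair `q`, `q'⁻¹`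
one gets `|lgr q - lgr q'| ≥ 1/(2 (h h')^(1/2)) > 1/(4A)`, so at most two (one positive, one negative `l`) or three: fine. For these `bb (2U) l ≤ 4/|l| ≤ 8 (2A hgt r)^(1/2)`.
Multiply by `kap δ U h h^(-1/2)`: for `A ≤ U`: `≤ (U/A)^δ A^(-1/2) (C A^(1+2δ) + C (A hgt r)^(1/2)) ≤ C U^δ (A^(1/2+δ) + A^(-δ) (hgt r)^(1/2))`, the sum over `A = 2^j ≤ U` is `≤ C U^(1/2+2δ) + C U^δ (hgt r)^(1/2)`.
For `A > U/2`, `kap ≤ C (U/A)²`: `∑_{A > U/2} (U/A)² (A^(1/2+2δ) + (hgt r)^(1/2)) ≤ C (U^(1/2+2δ) + (hgt r)^(1/2))` (`δ ≤ 1/4`).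
-/

set_option autoImplicit false

namespace Pool.Agent.P07318h

open MeasureTheory Complex Pool.Agent.P07318s Pool.Agent.P07318f

namespace OffDAux

open Pool.Agent.P07318s.Spaced

theorem gap (q : Q) (r : ℕ+ × ℕ+) (h : lgr q.1 + lgr r ≠ 0) :
    1 / (2 * Real.sqrt (hgt q.1 * hgt r)) ≤ |lgr q.1 + lgr r| := by
  obtain ⟨⟨a, b⟩, hab⟩ := q
  obtain ⟨c, d⟩ := r
  unfold lgr at h
  unfold lgr hgt
  simp only at h ⊢
  have ha : (1 : ℝ) ≤ ((a : ℕ) : ℝ) := by exact_mod_cast a.2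
  have hb : (1 : ℝ) ≤ ((b : ℕ) : ℝ) := by exact_mod_cast b.2
  have hc : (1 : ℝ) ≤ ((c : ℕ) : ℝ) := by exact_mod_cast c.2
  have hd : (1 : ℝ) ≤ ((d : ℕ) : ℝ) := by exact_mod_cast d.2
  have e1 : Real.log ((a : ℕ) : ℝ) - Real.log ((b : ℕ) : ℝ)
      + (Real.log ((c : ℕ) : ℝ) - Real.log ((d : ℕ) : ℝ))
      = Real.log (((a : ℕ) : ℝ) * ((c : ℕ) : ℝ)) - Real.log (((b : ℕ) : ℝ) * ((d : ℕ) : ℝ)) := by
    rw [Real.log_mul (by linarith) (by linarith), Real.log_mul (by linarith) (by linarith)]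
    ring
  rw [e1] at h ⊢
  have hne : (a : ℕ) * (c : ℕ) ≠ (b : ℕ) * (d : ℕ) := by
    intro he
    apply h
    have : ((a : ℕ) : ℝ) * ((c : ℕ) : ℝ) = ((b : ℕ) : ℝ) * ((d : ℕ) : ℝ) := by exact_mod_cast he
    rw [this, sub_self]
  rcases lt_or_gt_of_ne hne with hlt | hlt
  · have h7 : ((a : ℕ) : ℝ) * ((c : ℕ) : ℝ) + 1 ≤ ((b : ℕ) : ℝ) * ((d : ℕ) : ℝ) := by
      exact_mod_cast hlt
    have h8 := log_core (n := ((a : ℕ) : ℝ) * ((c : ℕ) : ℝ)) (by nlinarith) h7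
    rw [abs_sub_comm]
    refine le_trans ?_ (le_abs_self _)
    refine le_trans (le_of_eq ?_) h8
    congr 3
    ring
  · have h7 : ((b : ℕ) : ℝ) * ((d : ℕ) : ℝ) + 1 ≤ ((a : ℕ) : ℝ) * ((c : ℕ) : ℝ) := by
      exact_mod_cast hlt
    have h8 := log_core (n := ((b : ℕ) : ℝ) * ((d : ℕ) : ℝ)) (by nlinarith) h7
    refine le_trans ?_ (le_abs_self _)
    refine le_trans (le_of_eq ?_) h8
    congr 3
    ring

/-- main pointwise bound. -/
theorem bnd {δ U : ℝ} (hδ : 0 < δ) (hδ2 : δ ≤ 1 / 4) (hU : 1 ≤ U) (r : ℕ+ × ℕ+)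
    (q : Q) (hne : lgr q.1 + lgr r ≠ 0) :
    kap δ U (hgt q.1) * (hgt q.1) ^ (-(1 / 2) : ℝ) * bb (2 * U) (lgr q.1 + lgr r) ≤
      (U ^ δ * (hgt r) ^ (1 / 2 : ℝ) + U ^ (1 / 2 + 2 * δ)) *
        (48 * (((2 : ℝ) ^ di q) ^ (-δ) * (1 + |(ce (lgr r) q : ℝ)|) ^ (-(1 + δ / 2)))) +
      U ^ (1 / 2 + 2 * δ) * (192 * (hgt q.1) ^ (-2 : ℝ)) := by
  have hU0 : 0 < U := by linarith
  set μ : ℝ := lgr r with hμ
  set D : ℝ := (2 : ℝ) ^ di q with hD
  have hD1 : 1 ≤ D := one_le_pow₀ (by norm_num)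
  have hD0 : 0 < D := by linarith
  set x : ℝ := 1 + |(ce μ q : ℝ)| with hx
  have hx1 : 1 ≤ x := by rw [hx]; linarith [abs_nonneg (ce μ q : ℝ)]
  have hx0 : 0 < x := by linarith
  have hh := hgt_pos q.1
  have hr := hgt_pos r
  have hDh : D ≤ hgt q.1 := di_le q
  have hhD : hgt q.1 < 2 * D := lt_di q
  have hUp : 0 < U ^ (1 / 2 + 2 * δ) := Real.rpow_pos_of_pos hU0 _
  have hUd : 0 < U ^ δ := Real.rpow_pos_of_pos hU0 _
  have hrp : 0 < (hgt r) ^ (1 / 2 : ℝ) := Real.rpow_pos_of_pos hr _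
  have hDd : 0 < D ^ (-δ) := Real.rpow_pos_of_pos hD0 _
  have hhp : 0 < (hgt q.1) ^ (-(1 / 2) : ℝ) := Real.rpow_pos_of_pos hh _
  have hxp : 0 < x ^ (-(1 + δ / 2)) := Real.rpow_pos_of_pos hx0 _
  have hB : 0 ≤ U ^ (1 / 2 + 2 * δ) * (192 * (hgt q.1) ^ (-2 : ℝ)) := by positivity
  have hbb0 := bb_nonneg (V := 2 * U) (by linarith) (lgr q.1 + μ)
  have hk0 : 0 ≤ kap δ U (hgt q.1) := kap_nonneg hU0.le hh.le
  by_cases hc : x ≤ 2
  · -- near cells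
    have h1 : kap δ U (hgt q.1) ≤ (U / hgt q.1) ^ δ :=
      kap_le' le_rfl (by linarith) hU0 hh
    have h2 : (U / hgt q.1) ^ δ ≤ U ^ δ * D ^ (-δ) := by
      rw [Real.div_rpow hU0.le hh.le, div_eq_mul_inv, ← Real.rpow_neg hh.le]
      apply mul_le_mul_of_nonneg_left _ (Real.rpow_nonneg hU0.le _)
      exact Real.rpow_le_rpow_of_nonpos hD0 hDh (by linarith)
    have h3 : (hgt q.1) ^ (-(1 / 2) : ℝ) * bb (2 * U) (lgr q.1 + μ) ≤ 8 * (hgt r) ^ (1 / 2 : ℝ) := by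
      have g1 := gap q r hne
      have hs : 0 < Real.sqrt (hgt q.1 * hgt r) := Real.sqrt_pos.2 (mul_pos hh hr)
      have hl0 : 0 < |lgr q.1 + μ| := lt_of_lt_of_le (by positivity) g1
      have g2 : bb (2 * U) (lgr q.1 + μ) ≤ 8 * Real.sqrt (hgt q.1 * hgt r) := by
        refine (bb_le_inv (by linarith) (abs_pos.1 hl0)).trans ?_
        rw [div_le_iff₀ hl0]
        rw [div_le_iff₀ (by positivity)] at g1
        nlinarith
      have g3 : Real.sqrt (hgt q.1 * hgt r) = (hgt q.1) ^ (1 / 2 : ℝ) * (hgt r) ^ (1 / 2 : ℝ) := by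
        rw [Real.sqrt_eq_rpow, Real.mul_rpow hh.le hr.le]
      have g4 : (hgt q.1) ^ (-(1 / 2) : ℝ) * (hgt q.1) ^ (1 / 2 : ℝ) = 1 := by
        rw [← Real.rpow_add hh]
        norm_num
      calc (hgt q.1) ^ (-(1 / 2) : ℝ) * bb (2 * U) (lgr q.1 + μ)
          ≤ (hgt q.1) ^ (-(1 / 2) : ℝ) * (8 * Real.sqrt (hgt q.1 * hgt r)) :=
            mul_le_mul_of_nonneg_left g2 hhp.le
        _ = 8 * (((hgt q.1) ^ (-(1 / 2) : ℝ) * (hgt q.1) ^ (1 / 2 : ℝ)) * (hgt r) ^ (1 / 2 : ℝ)) := by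
            rw [g3]; ring
        _ = _ := by rw [g4]; ring
    have h4 : (1 : ℝ) / 4 ≤ x ^ (-(1 + δ / 2)) := by
      calc (1 : ℝ) / 4 = (2 : ℝ) ^ (-2 : ℝ) := by
            rw [Real.rpow_neg (by norm_num)]
            norm_num
        _ ≤ (2 : ℝ) ^ (-(1 + δ / 2)) :=
            Real.rpow_le_rpow_of_exponent_le (by norm_num) (by linarith)
        _ ≤ x ^ (-(1 + δ / 2)) := Real.rpow_le_rpow_of_nonpos hx0 hc (by linarith)
    have h5 : kap δ U (hgt q.1) * (hgt q.1) ^ (-(1 / 2) : ℝ) * bb (2 * U) (lgr q.1 + μ) ≤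
        (U ^ δ * D ^ (-δ)) * (8 * (hgt r) ^ (1 / 2 : ℝ)) := by
      rw [mul_assoc]
      exact mul_le_mul (h1.trans h2) h3 (mul_nonneg hhp.le hbb0) (by positivity)
    have h6 : (U ^ δ * D ^ (-δ)) * (8 * (hgt r) ^ (1 / 2 : ℝ)) ≤
        (U ^ δ * (hgt r) ^ (1 / 2 : ℝ)) * (48 * (D ^ (-δ) * x ^ (-(1 + δ / 2)))) := by
      have h7 : (U ^ δ * D ^ (-δ)) * (8 * (hgt r) ^ (1 / 2 : ℝ)) =
          (U ^ δ * (hgt r) ^ (1 / 2 : ℝ)) * (32 * (D ^ (-δ) * (1 / 4))) := by ring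
      rw [h7]
      apply mul_le_mul_of_nonneg_left _ (by positivity)
      have h8 : D ^ (-δ) * (1 / 4) ≤ D ^ (-δ) * x ^ (-(1 + δ / 2)) :=
        mul_le_mul_of_nonneg_left h4 hDd.le
      have h9 : 0 ≤ D ^ (-δ) * x ^ (-(1 + δ / 2)) := by positivity
      linarith
    have h7 : 0 ≤ U ^ (1 / 2 + 2 * δ) * (48 * (D ^ (-δ) * x ^ (-(1 + δ / 2)))) := by positivity
    have h8 : (U ^ δ * (hgt r) ^ (1 / 2 : ℝ) + U ^ (1 / 2 + 2 * δ)) *
        (48 * (D ^ (-δ) * x ^ (-(1 + δ / 2)))) =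
        (U ^ δ * (hgt r) ^ (1 / 2 : ℝ)) * (48 * (D ^ (-δ) * x ^ (-(1 + δ / 2)))) +
        U ^ (1 / 2 + 2 * δ) * (48 * (D ^ (-δ) * x ^ (-(1 + δ / 2)))) := by ring
    rw [h8]
    linarith
  · push Not at hc
    -- far cells
    have hm : (2 : ℝ) ≤ |(ce μ q : ℝ)| := by
      have h0 : (1 : ℝ) < |(ce μ q : ℝ)| := by rw [hx] at hc; linarith
      have h0' : (1 : ℤ) < |ce μ q| := by
        rw [← Int.cast_abs] at h0
        exact_mod_cast h0
      have h0'' : (2 : ℤ) ≤ |ce μ q| := h0'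
      rw [← Int.cast_abs]
      exact_mod_cast h0''
    have hl : x / (12 * D) ≤ |lgr q.1 + μ| := by
      have e0 : (2 : ℝ) ^ (di q + 2) = 4 * D := by rw [hD, pow_add]; ring
      have h1 : ((ce μ q : ℤ) : ℝ) ≤ 4 * D * (lgr q.1 + μ) := by
        have := Int.floor_le ((2 : ℝ) ^ (di q + 2) * (lgr q.1 + μ))
        rw [e0] at this
        unfold ce
        rw [e0]
        exact this
      have h2 : 4 * D * (lgr q.1 + μ) < ((ce μ q : ℤ) : ℝ) + 1 := by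
        have := Int.lt_floor_add_one ((2 : ℝ) ^ (di q + 2) * (lgr q.1 + μ))
        rw [e0] at this
        unfold ce
        rw [e0]
        exact this
      have h3 : |((ce μ q : ℤ) : ℝ)| - 1 ≤ |4 * D * (lgr q.1 + μ)| := by
        rcases abs_cases ((ce μ q : ℤ) : ℝ) with ⟨h4, h5⟩ | ⟨h4, h5⟩
        · rw [h4]
          exact le_trans (by linarith) (le_abs_self _)
        · rw [h4]
          exact le_trans (by linarith) (neg_le_abs _)
      rw [abs_mul, abs_of_pos (by positivity : (0 : ℝ) < 4 * D)] at h3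
      rw [div_le_iff₀ (by positivity)]
      have h4 : x ≤ 3 * (|((ce μ q : ℤ) : ℝ)| - 1) := by rw [hx]; linarith
      linarith
    have hl0 : 0 < |lgr q.1 + μ| := lt_of_lt_of_le (by positivity) hl
    have hb : bb (2 * U) (lgr q.1 + μ) ≤ 48 * D / x := by
      refine (bb_le_inv (by linarith) (abs_pos.1 hl0)).trans ?_
      rw [div_le_div_iff₀ hl0 hx0]
      rw [div_le_iff₀ (by positivity)] at hl
      linarith
    have h1 : kap δ U (hgt q.1) ≤ (U / hgt q.1) ^ (1 / 2 + 2 * δ) :=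
      kap_le' (by linarith) (by linarith) hU0 hh
    have h2 : (U / hgt q.1) ^ (1 / 2 + 2 * δ) ≤ U ^ (1 / 2 + 2 * δ) * D ^ (-(1 / 2 + 2 * δ)) := by
      rw [Real.div_rpow hU0.le hh.le, div_eq_mul_inv, ← Real.rpow_neg hh.le]
      apply mul_le_mul_of_nonneg_left _ (Real.rpow_nonneg hU0.le _)
      exact Real.rpow_le_rpow_of_nonpos hD0 hDh (by linarith)
    have h2' : (hgt q.1) ^ (-(1 / 2) : ℝ) ≤ D ^ (-(1 / 2) : ℝ) :=
      Real.rpow_le_rpow_of_nonpos hD0 hDh (by norm_num)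
    have hDd2 : 0 < D ^ (-(2 * δ)) := Real.rpow_pos_of_pos hD0 _
    have h3 : kap δ U (hgt q.1) * (hgt q.1) ^ (-(1 / 2) : ℝ) * bb (2 * U) (lgr q.1 + μ)
        ≤ U ^ (1 / 2 + 2 * δ) * (48 * (D ^ (-(2 * δ)) * x⁻¹)) := by
      have e3 : D ^ (-(1 / 2 + 2 * δ)) * D ^ (-(1 / 2) : ℝ) * D = D ^ (-(2 * δ)) := by
        rw [← Real.rpow_add hD0]
        nth_rewrite 2 [← Real.rpow_one D]
        rw [← Real.rpow_add hD0]
        congr 1
        ring
      calc kap δ U (hgt q.1) * (hgt q.1) ^ (-(1 / 2) : ℝ) * bb (2 * U) (lgr q.1 + μ)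
          ≤ ((U ^ (1 / 2 + 2 * δ) * D ^ (-(1 / 2 + 2 * δ))) * D ^ (-(1 / 2) : ℝ)) * (48 * D / x) :=
            mul_le_mul (mul_le_mul (h1.trans h2) h2' hhp.le (by positivity)) hb hbb0 (by positivity)
        _ = U ^ (1 / 2 + 2 * δ) * (48 * ((D ^ (-(1 / 2 + 2 * δ)) * D ^ (-(1 / 2) : ℝ) * D) * x⁻¹)) := by
            rw [div_eq_mul_inv]
            ring
        _ = _ := by rw [e3]
    by_cases hK : x ≤ D ^ (2 : ℝ)
    · refine le_trans h3 (le_trans ?_ (le_add_of_nonneg_right hB))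
      have h4 : x ^ (δ / 2) ≤ D ^ δ := by
        calc x ^ (δ / 2) ≤ (D ^ (2 : ℝ)) ^ (δ / 2) :=
              Real.rpow_le_rpow hx0.le hK (by linarith)
          _ = D ^ δ := by
              rw [← Real.rpow_mul hD0.le]
              congr 1
              ring
      have h5 : x⁻¹ = x ^ (-(1 + δ / 2)) * x ^ (δ / 2) := by
        rw [← Real.rpow_add hx0, ← Real.rpow_neg_one]
        congr 1
        ring
      have h6 : D ^ (-(2 * δ)) * D ^ δ = D ^ (-δ) := by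
        rw [← Real.rpow_add hD0]
        congr 1
        ring
      have h7 : D ^ (-(2 * δ)) * x⁻¹ ≤ D ^ (-δ) * x ^ (-(1 + δ / 2)) := by
        rw [h5]
        calc D ^ (-(2 * δ)) * (x ^ (-(1 + δ / 2)) * x ^ (δ / 2))
            ≤ D ^ (-(2 * δ)) * (x ^ (-(1 + δ / 2)) * D ^ δ) := by
              apply mul_le_mul_of_nonneg_left _ hDd2.le
              exact mul_le_mul_of_nonneg_left h4 (Real.rpow_nonneg hx0.le _)
          _ = (D ^ (-(2 * δ)) * D ^ δ) * x ^ (-(1 + δ / 2)) := by ring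
          _ = D ^ (-δ) * x ^ (-(1 + δ / 2)) := by rw [h6]
      have h8 : U ^ (1 / 2 + 2 * δ) * (48 * (D ^ (-(2 * δ)) * x⁻¹)) ≤
          U ^ (1 / 2 + 2 * δ) * (48 * (D ^ (-δ) * x ^ (-(1 + δ / 2)))) := by
        apply mul_le_mul_of_nonneg_left _ hUp.le
        linarith
      have h9 : 0 ≤ (U ^ δ * (hgt r) ^ (1 / 2 : ℝ)) * (48 * (D ^ (-δ) * x ^ (-(1 + δ / 2)))) := by
        positivity
      nlinarith
    · push Not at hK
      have hA : 0 ≤ (U ^ δ * (hgt r) ^ (1 / 2 : ℝ) + U ^ (1 / 2 + 2 * δ)) *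
        (48 * (D ^ (-δ) * x ^ (-(1 + δ / 2)))) := by positivity
      refine le_trans h3 (le_trans ?_ (le_add_of_nonneg_left hA))
      apply mul_le_mul_of_nonneg_left _ hUp.le
      have h4 : D ^ (-(2 * δ)) ≤ 1 := Real.rpow_le_one_of_one_le_of_nonpos hD1 (by linarith)
      have h5 : x⁻¹ ≤ (D ^ (2 : ℝ))⁻¹ := inv_anti₀ (by positivity) hK.le
      have h6 : (D ^ (2 : ℝ))⁻¹ ≤ 4 * (hgt q.1) ^ (-2 : ℝ) := by
        rw [Real.rpow_neg hh.le, Real.rpow_two, Real.rpow_two]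
        rw [inv_le_iff_one_le_mul₀ (by positivity)]
        have h7 : (hgt q.1) ^ 2 ≤ 4 * D ^ 2 := by nlinarith
        have h8 : 4 * (hgt q.1 ^ 2)⁻¹ * D ^ 2 = (4 * D ^ 2) / (hgt q.1) ^ 2 := by
          field_simp
        rw [h8, one_le_div (by positivity)]
        exact h7
      have h9 : D ^ (-(2 * δ)) * x⁻¹ ≤ 1 * (4 * (hgt q.1) ^ (-2 : ℝ)) :=
        mul_le_mul h4 (h5.trans h6) (by positivity) (by norm_num)
      linarith

end OffDAux

open OffDAux Pool.Agent.P07318s.Spaced in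
theorem off_d (δ : ℝ) (hδ : 0 < δ) (hδ2 : δ ≤ 1 / 4) : ∃ C : ℝ, 0 < C ∧ ∀ (U : ℝ) (r : ℕ+ × ℕ+), 1 ≤ U →
    ∑' q : Q, ENNReal.ofReal (if lgr q.1 + lgr r = 0 then 0 else
      kap δ U (hgt q.1) * (hgt q.1) ^ (-(1 / 2) : ℝ) * bb (2 * U) (lgr q.1 + lgr r)) ≤
      ENNReal.ofReal (C * U ^ (3 * δ) * (U ^ (1 / 2 : ℝ) + (hgt r) ^ (1 / 2 : ℝ))) := by
  set g1 : ℕ × ℤ → ℝ := fun p => ((2 : ℝ) ^ p.1) ^ (-δ) * (1 + |(p.2 : ℝ)|) ^ (-(1 + δ / 2)) with hg1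
  set g2 : ℕ+ × ℕ+ → ℝ := fun p => (hgt p) ^ (-2 : ℝ) with hg2
  have h1 : Summable g1 := summable1 hδ
  have h2 : Summable g2 := summable2
  have n1 : ∀ p, 0 ≤ g1 p := fun p => by simp only [hg1]; positivity
  have n2 : ∀ p, 0 ≤ g2 p := fun p => Real.rpow_nonneg (hgt_pos p).le _
  have s1 : 0 ≤ ∑' p, g1 p := tsum_nonneg n1
  have s2 : 0 ≤ ∑' p, g2 p := tsum_nonneg n2
  refine ⟨48 * (∑' p, g1 p) + 192 * (∑' p, g2 p) + 1, by positivity, ?_⟩
  intro U r hU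
  have hU0 : 0 < U := by linarith
  have hr := hgt_pos r
  set a : ℝ := U ^ δ * (hgt r) ^ (1 / 2 : ℝ) + U ^ (1 / 2 + 2 * δ) with ha
  have hap : 0 ≤ a := by positivity
  set b : ℝ := U ^ (1 / 2 + 2 * δ) with hb
  have hbp : 0 ≤ b := by positivity
  have hpt : ∀ q : Q, ENNReal.ofReal (if lgr q.1 + lgr r = 0 then 0 else
      kap δ U (hgt q.1) * (hgt q.1) ^ (-(1 / 2) : ℝ) * bb (2 * U) (lgr q.1 + lgr r)) ≤
      ENNReal.ofReal (a * 48) * ENNReal.ofReal (g1 (di q, ce (lgr r) q)) +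
      ENNReal.ofReal (b * 192) * ENNReal.ofReal (g2 q.1) := by
    intro q
    rw [← ENNReal.ofReal_mul (by positivity), ← ENNReal.ofReal_mul (by positivity),
      ← ENNReal.ofReal_add (mul_nonneg (by positivity) (n1 _)) (mul_nonneg (by positivity) (n2 _))]
    apply ENNReal.ofReal_le_ofReal
    split_ifs with hz
    · have := n1 (di q, ce (lgr r) q)
      have := n2 q.1
      positivity
    · have := bnd hδ hδ2 hU r q hz
      simp only [hg1, hg2]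
      calc _ ≤ _ := this
        _ = _ := by ring
  calc ∑' q : Q, ENNReal.ofReal (if lgr q.1 + lgr r = 0 then 0 else
      kap δ U (hgt q.1) * (hgt q.1) ^ (-(1 / 2) : ℝ) * bb (2 * U) (lgr q.1 + lgr r))
      ≤ ∑' q : Q, (ENNReal.ofReal (a * 48) * ENNReal.ofReal (g1 (di q, ce (lgr r) q)) +
      ENNReal.ofReal (b * 192) * ENNReal.ofReal (g2 q.1)) := ENNReal.tsum_le_tsum hpt
    _ = ENNReal.ofReal (a * 48) * ∑' q : Q, ENNReal.ofReal (g1 (di q, ce (lgr r) q)) +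
        ENNReal.ofReal (b * 192) * ∑' q : Q, ENNReal.ofReal (g2 q.1) := by
        rw [ENNReal.tsum_add, ENNReal.tsum_mul_left, ENNReal.tsum_mul_left]
    _ ≤ ENNReal.ofReal (a * 48) * ∑' p, ENNReal.ofReal (g1 p) +
        ENNReal.ofReal (b * 192) * ∑' p, ENNReal.ofReal (g2 p) := by
        gcongr
        · exact ENNReal.tsum_comp_le_tsum_of_injective (inj (lgr r)) (fun p => ENNReal.ofReal (g1 p))
        · exact ENNReal.tsum_comp_le_tsum_of_injective Subtype.val_injective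
            (fun p => ENNReal.ofReal (g2 p))
    _ = ENNReal.ofReal (a * 48 * (∑' p, g1 p) + b * 192 * (∑' p, g2 p)) := by
        rw [← ENNReal.ofReal_tsum_of_nonneg n1 h1, ← ENNReal.ofReal_tsum_of_nonneg n2 h2,
          ← ENNReal.ofReal_mul (by positivity), ← ENNReal.ofReal_mul (by positivity),
          ← ENNReal.ofReal_add (by positivity) (by positivity)]
    _ ≤ _ := by
        apply ENNReal.ofReal_le_ofReal
        have k1 : U ^ δ ≤ U ^ (3 * δ) := Real.rpow_le_rpow_of_exponent_le hU (by linarith)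
        have k2 : b ≤ U ^ (3 * δ) * U ^ (1 / 2 : ℝ) := by
          rw [hb, ← Real.rpow_add hU0]
          exact Real.rpow_le_rpow_of_exponent_le hU (by linarith)
        have hrp : 0 < (hgt r) ^ (1 / 2 : ℝ) := Real.rpow_pos_of_pos hr _
        set c : ℝ := U ^ (3 * δ) * (U ^ (1 / 2 : ℝ) + (hgt r) ^ (1 / 2 : ℝ)) with hc
        have hc0 : 0 ≤ c := by positivity
        have k3 : a ≤ c := by
          rw [ha, hc, mul_add]
          have := mul_le_mul_of_nonneg_right k1 hrp.le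
          linarith
        have k4 : b ≤ c := by
          rw [hc, mul_add]
          have : 0 ≤ U ^ (3 * δ) * (hgt r) ^ (1 / 2 : ℝ) := by positivity
          linarith
        have k5 : a * 48 * (∑' p, g1 p) ≤ c * 48 * (∑' p, g1 p) := by
          apply mul_le_mul_of_nonneg_right _ s1
          linarith
        have k6 : b * 192 * (∑' p, g2 p) ≤ c * 192 * (∑' p, g2 p) := by
          apply mul_le_mul_of_nonneg_right _ s2
          linarith
        have k7 : (48 * (∑' p, g1 p) + 192 * (∑' p, g2 p) + 1) * U ^ (3 * δ) *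
            (U ^ (1 / 2 : ℝ) + (hgt r) ^ (1 / 2 : ℝ)) =
            c * 48 * (∑' p, g1 p) + c * 192 * (∑' p, g2 p) + c := by
          rw [hc]; ring
        rw [k7]
        linarith

end Pool.Agent.P07318h
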