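import Pool.Agent.Lib.P07318h.MonoOsc
import Pool.Agent.Lib.P07318h.OffD
import Pool.Agent.Lib.P07318h.DgM
import Pool.Agent.Lib.P07318s.AFE
import Pool.Agent.Lib.P07318s.Twist

/-!
# The product with the small heights

All heights `t + α`, `t + h j` lie in `[2U, 8U]`. Put `U' = 2U`, `x_0 = t + α`, `x_j = t + h j`.
PROOF. (1) `gz(t+α) = Fd(t+α) + e`, `‖e‖ ≤ C U^(-1/2+ε)` (`afe`), and `‖fS Y (t+h j)‖ ≤ ∑_{hgt ≤ Y} Om ≤ C U^δ Y²` (`Om_le_kap` of P07318s/Twist.lean with `U'`, `kap ≤ (2U)^δ`; there are `≤ Y²` fractions of height `≤ Y`), so the term `e` contributes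
`≤ 2U · C U^(-1/2+ε) (C U^δ Y²)^n ≤ C U^(1/2 + 1/8 + ε + nδ) ≤ C U^(3/4)`, `ε = 1/16`, `nδ ≤ 1/16`.
(2) `Fd_eq`, `fS = FdSmall` as a finite sum: `Fd(t+α) ∏_j fS Y (t+h j) = ∑_{q : Fin (n+1) → Q, hgt(q j.succ) ≤ Y} ∏_j c_j(t) ex (x_j) (q j)`, `c_j(t) = hgt^(-1/2) Om (hgt (q j)) (x_j)`; the terms with `lam = 0` are `DgY Y (sh α h t)`. For `lam ≠ 0`
`∏ ex (x_j) (q j) = (∏ ex (a_j) (q j)) e^(-i t lam)`, `a = (α, h)` (`prod_shift` of P07318s/NNint.lean for the same computation), and `t ↦ ∏ c_j(t)` is nonnegative and monotone increasing on `[0, V]`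
(`Om h x` is increasing in `x > 0`: `W_antitone`, `Om_summable`, `tsum_le_tsum`), `≤ ∏_j C kap δ U' (hgt (q j)) hgt^(-1/2)` (`Om_le_kap`). `mono_osc`: the integral over `[0, V]` of the term is `≤ 2 (∏ C kap hgt^(-1/2)) bb V lam`, `bb V ≤ bb (2U')`
(increasing in `V ≥ 0`). Interchange of `∑_{q 0}` and `∫`: `∑ cfQ` converges uniformly on `[2U, 8U]` (`cfQ_summable` at `8U` by monotonicity).
(3) For fixed `q 1, …, q n` (finitely many, `≤ (Y²)^n ≤ U^(1/8)`), `r = (∏ numerators, ∏ denominators)`, `lam = lgr (q 0) + lgr r`, `hgt r = ∏ hgt (q j.succ) ≤ Y^n ≤ U^(1/16)`: `off_d` with `U'`: the sum over `q 0` is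
`≤ C U^(3δ) (U^(1/2) + U^(1/32))`; the other factors are `≤ (C U^δ)^n`. Total `≤ C U^(1/8 + 1/2 + (n+3)δ) ≤ C U^(3/4)` for `δ = 1/(16(n+4))`.
-/

set_option autoImplicit false

namespace Pool.Agent.P07318h

open MeasureTheory Complex Pool.Agent.P07318s Pool.Agent.P07318f

namespace ShortPAux

/-- the coefficient -/
noncomputable def cq (q : Q) (x : ℝ) : ℝ := (hgt q.1) ^ (-(1 / 2) : ℝ) * Om (hgt q.1) x

lemma cq_nonneg (q : Q) (x : ℝ) : 0 ≤ cq q x :=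
  mul_nonneg (Real.rpow_nonneg (hgt_pos _).le _) (Om_nonneg _ _)

lemma cq_mono (q : Q) {x y : ℝ} (hx : 0 < x) (hxy : x ≤ y) : cq q x ≤ cq q y :=
  mul_le_mul_of_nonneg_left (LongPartAux.Om_mono (one_le_hgt _) hx hxy)
    (Real.rpow_nonneg (hgt_pos _).le _)

lemma cq_meas (q : Q) : Measurable (cq q) := (DgMAux.Om_meas _).const_mul _

/-- the majorant of the coefficient -/
noncomputable def kq (δ U : ℝ) (q : Q) : ℝ := kap δ U (hgt q.1) * (hgt q.1) ^ (-(1 / 2) : ℝ)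

lemma kq_nonneg {δ U : ℝ} (hU : 0 ≤ U) (q : Q) : 0 ≤ kq δ U q :=
  mul_nonneg (kap_nonneg hU (hgt_pos _).le) (Real.rpow_nonneg (hgt_pos _).le _)

lemma kq_le {δ U : ℝ} (hδ : 0 < δ) (hδ2 : δ ≤ 2) (hU : 1 ≤ U) (q : Q) : kq δ U q ≤ U ^ δ := by
  have h1 := one_le_hgt q.1
  have hU0 : 0 < U := by linarith
  unfold kq
  have h2 : kap δ U (hgt q.1) ≤ U ^ δ := by
    refine (kap_le hδ2 hU0 (by linarith)).trans ?_
    apply Real.rpow_le_rpow (by positivity) _ hδ.le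
    exact div_le_self hU0.le h1
  have h3 : (hgt q.1) ^ (-(1 / 2) : ℝ) ≤ 1 := Real.rpow_le_one_of_one_le_of_nonpos h1 (by norm_num)
  calc kap δ U (hgt q.1) * (hgt q.1) ^ (-(1 / 2) : ℝ) ≤ U ^ δ * 1 :=
        mul_le_mul h2 h3 (Real.rpow_nonneg (hgt_pos _).le _) (by positivity)
    _ = _ := mul_one _

lemma cq_le {δ C U x : ℝ} 
    (hO : ∀ U h x : ℝ, 1 ≤ U → 1 ≤ h → U ≤ x → x ≤ 4 * U → Om h x ≤ C * kap δ U h) (hU : 1 ≤ U)
    (h1 : U ≤ x) (h2 : x ≤ 4 * U) (q : Q) : cq q x ≤ C * kq δ U q := by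
  unfold cq kq
  have h3 := hO U (hgt q.1) x hU (one_le_hgt _) h1 h2
  have h4 := mul_le_mul_of_nonneg_left h3 (Real.rpow_nonneg (hgt_pos q.1).le (-(1 / 2) : ℝ))
  calc _ ≤ _ := h4
    _ = _ := by ring

lemma small_fin (Y : ℝ) : ∃ s : Finset Q, (∀ q : Q, q ∈ s ↔ hgt q.1 ≤ Y) ∧ (1 ≤ Y → (s.card : ℝ) ≤ Y ^ 2) := by
  classical
  set f : Q → ℕ × ℕ := fun q => ((q.1.1 : ℕ), (q.1.2 : ℕ)) with hf
  have hinj : Function.Injective f := by
    intro q q' h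
    have h1 := (Prod.mk.inj h).1
    have h2 := (Prod.mk.inj h).2
    apply Subtype.ext
    exact Prod.ext (PNat.eq h1) (PNat.eq h2)
  set A : Set Q := {q | hgt q.1 ≤ Y} with hA
  have hsub : ∀ q ∈ A, f q ∈ (Finset.Icc 1 ⌊Y⌋₊ ×ˢ Finset.Icc 1 ⌊Y⌋₊ : Finset (ℕ × ℕ)) := by
    intro q hq
    have hq' : ((q.1.1 : ℕ) : ℝ) * ((q.1.2 : ℕ) : ℝ) ≤ Y := hq
    have h1 : (1 : ℝ) ≤ ((q.1.1 : ℕ) : ℝ) := by exact_mod_cast q.1.1.2
    have h2 : (1 : ℝ) ≤ ((q.1.2 : ℕ) : ℝ) := by exact_mod_cast q.1.2.2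
    rw [Finset.mem_product, Finset.mem_Icc, Finset.mem_Icc]
    refine ⟨⟨q.1.1.2, Nat.le_floor ?_⟩, ⟨q.1.2.2, Nat.le_floor ?_⟩⟩
    · nlinarith
    · nlinarith
  have hfin : A.Finite := by
    refine Set.Finite.subset ((Finset.Icc 1 ⌊Y⌋₊ ×ˢ Finset.Icc 1 ⌊Y⌋₊ : Finset (ℕ × ℕ)).finite_toSet.preimage
      hinj.injOn) ?_
    intro q hq
    exact hsub q hq
  refine ⟨hfin.toFinset, fun q => by rw [Set.Finite.mem_toFinset]; rfl, fun hY => ?_⟩
  have h1 : hfin.toFinset.card ≤ (Finset.Icc 1 ⌊Y⌋₊ ×ˢ Finset.Icc 1 ⌊Y⌋₊ : Finset (ℕ × ℕ)).card := by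
    refine Finset.card_le_card_of_injOn f (fun q hq => ?_) hinj.injOn
    exact hsub q ((Set.Finite.mem_toFinset _).1 hq)
  rw [Finset.card_product, Nat.card_Icc, Nat.add_sub_cancel] at h1
  have h2 : ((⌊Y⌋₊ : ℕ) : ℝ) ≤ Y := Nat.floor_le (by linarith)
  have h3 : (hfin.toFinset.card : ℝ) ≤ (⌊Y⌋₊ : ℝ) * (⌊Y⌋₊ : ℝ) := by exact_mod_cast h1
  have h4 : (0 : ℝ) ≤ (⌊Y⌋₊ : ℝ) := Nat.cast_nonneg _
  nlinarith

lemma fS_sum {s : Finset Q} {Y : ℝ} (hs : ∀ q, q ∈ s ↔ hgt q.1 ≤ Y) {x : ℝ} (hx : 1 ≤ x) :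
    fS Y x = ∑ q ∈ s, (cq q x : ℂ) * ex x q.1 := by
  rw [fS_eq hx]
  unfold FdSmall
  rw [tsum_eq_sum (s := s)]
  · refine Finset.sum_congr rfl fun q hq => ?_
    rw [if_neg (not_lt.2 ((hs q).1 hq))]
    rfl
  · intro q hq
    rw [hs, not_le] at hq
    rw [if_pos hq]

lemma cq_sum {x : ℝ} (hx : 0 < x) : Summable fun q : Q => cq q x := cfQ_summable hx

lemma norm_ce (q : Q) (x : ℝ) : ‖(cq q x : ℂ) * ex x q.1‖ = cq q x := by
  rw [norm_mul, norm_ex, mul_one, Complex.norm_real, Real.norm_of_nonneg (cq_nonneg q x)]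

lemma Fd_sum {x : ℝ} (hx : 0 < x) : HasSum (fun q : Q => (cq q x : ℂ) * ex x q.1) (Fd x) := by
  rw [Fd_eq hx]
  refine Summable.hasSum (Summable.of_norm ?_)
  exact (cq_sum hx).congr fun q => (norm_ce q x).symm

/-- one term -/
noncomputable def tm {k : ℕ} (x : Fin k → ℝ) (q : Fin k → Q) : ℂ :=
  ∏ j, ((cq (q j) (x j) : ℂ) * ex (x j) (q j).1)

lemma tm_cons {n : ℕ} (x : Fin (n + 1) → ℝ) (q0 : Q) (r : Fin n → Q) :
    tm x (Fin.cons q0 r : Fin (n + 1) → Q) =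
      ((cq q0 (x 0) : ℂ) * ex (x 0) q0.1) * tm (fun j => x j.succ) r := by
  unfold tm
  rw [Fin.prod_univ_succ]
  rfl

lemma norm_tm {k : ℕ} (x : Fin k → ℝ) (q : Fin k → Q) : ‖tm x q‖ = ∏ j, cq (q j) (x j) := by
  unfold tm
  rw [norm_prod]
  exact Finset.prod_congr rfl fun j _ => norm_ce _ _

/-- the sum over the first fraction, off the diagonal -/
noncomputable def Ro {n : ℕ} (x : Fin (n + 1) → ℝ) (r : Fin n → Q) : ℂ :=
  ∑' q0 : Q, if lgr q0.1 + ∑ j, lgr (r j).1 = 0 then 0 else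
    tm x (Fin.cons q0 r : Fin (n + 1) → Q)

lemma lam_cons {n : ℕ} (q0 : Q) (r : Fin n → Q) :
    lam (fun j => ((Fin.cons q0 r : Fin (n + 1) → Q) j).1) = lgr q0.1 + ∑ j, lgr (r j).1 := by
  unfold lam
  rw [Fin.sum_univ_succ]
  rfl

lemma tm_bd {n : ℕ} (x : Fin (n + 1) → ℝ) (hx : 0 < x 0) (r : Fin n → Q) :
    Summable fun q0 : Q => ‖tm x (Fin.cons q0 r : Fin (n + 1) → Q)‖ := by
  have e : (fun q0 : Q => ‖tm x (Fin.cons q0 r : Fin (n + 1) → Q)‖) =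
      fun q0 : Q => cq q0 (x 0) * ‖tm (fun j => x j.succ) r‖ := by
    funext q0
    rw [tm_cons, norm_mul, norm_ce]
  rw [e]
  exact (cq_sum hx).mul_right _

lemma main_id {n : ℕ} {s : Finset Q} {Y : ℝ} (hs : ∀ q, q ∈ s ↔ hgt q.1 ≤ Y) (x : Fin (n + 1) → ℝ)
    (hx : ∀ j, 1 ≤ x j) :
    Fd (x 0) * (∏ j : Fin n, fS Y (x j.succ)) - DgY Y x =
      ∑ r ∈ Fintype.piFinset (fun _ : Fin n => s), Ro x r := by
  classical
  have hx0 : 0 < x 0 := lt_of_lt_of_le one_pos (hx 0)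
  have e1 : ∏ j : Fin n, fS Y (x j.succ) =
      ∑ r ∈ Fintype.piFinset (fun _ : Fin n => s), tm (fun j => x j.succ) r := by
    have : ∀ j : Fin n, fS Y (x j.succ) = ∑ q ∈ s, (cq q (x j.succ) : ℂ) * ex (x j.succ) q.1 :=
      fun j => fS_sum hs (hx _)
    simp_rw [this]
    rw [Finset.prod_univ_sum]
    rfl
  have e2 : Fd (x 0) * (∏ j : Fin n, fS Y (x j.succ)) =
      ∑ r ∈ Fintype.piFinset (fun _ : Fin n => s), ∑' q0 : Q, tm x (Fin.cons q0 r : Fin (n + 1) → Q) := by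
    rw [e1, Finset.mul_sum]
    refine Finset.sum_congr rfl fun r _ => ?_
    simp_rw [tm_cons]
    rw [tsum_mul_right, (Fd_sum hx0).tsum_eq]
  have e3 : DgY Y x = ∑ r ∈ Fintype.piFinset (fun _ : Fin n => s), ∑' q0 : Q,
      if lgr q0.1 + ∑ j, lgr (r j).1 = 0 then tm x (Fin.cons q0 r : Fin (n + 1) → Q) else 0 := by
    have h1 : DgY Y x = ∑' q : Fin (n + 1) → Q,
        if lam (fun j => (q j).1) = 0 ∧ ∀ j : Fin n, hgt (q j.succ).1 ≤ Y then tm x q else 0 := by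
      unfold DgY tm cq
      rfl
    rw [h1, ← (Fin.consEquiv (fun _ : Fin (n + 1) => Q)).tsum_eq, ← (Equiv.prodComm (Fin n → Q) Q).tsum_eq]
    have h2 : ∀ z : (Fin n → Q) × Q, (if lam (fun j =>
        ((Fin.consEquiv (fun _ : Fin (n + 1) => Q)) ((Equiv.prodComm (Fin n → Q) Q) z) j).1) = 0 ∧
        ∀ j : Fin n, hgt (((Fin.consEquiv (fun _ : Fin (n + 1) => Q))
          ((Equiv.prodComm (Fin n → Q) Q) z) j.succ)).1 ≤ Y then
        tm x ((Fin.consEquiv (fun _ : Fin (n + 1) => Q)) ((Equiv.prodComm (Fin n → Q) Q) z)) else 0) =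
        if z.1 ∈ Fintype.piFinset (fun _ : Fin n => s) then
          (if lgr z.2.1 + ∑ j, lgr (z.1 j).1 = 0 then tm x (Fin.cons z.2 z.1 : Fin (n + 1) → Q) else 0)
        else 0 := by
      rintro ⟨r, q0⟩
      have h3 : (Fin.consEquiv (fun _ : Fin (n + 1) => Q)) ((Equiv.prodComm (Fin n → Q) Q) (r, q0)) =
        (Fin.cons q0 r : Fin (n + 1) → Q) := rfl
      rw [h3, lam_cons]
      have h4 : (∀ j : Fin n, hgt ((Fin.cons q0 r : Fin (n + 1) → Q) j.succ).1 ≤ Y) ↔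
          r ∈ Fintype.piFinset (fun _ : Fin n => s) := by
        rw [Fintype.mem_piFinset]
        refine forall_congr' fun j => ?_
        rw [hs]
        rfl
      simp only [h4]
      by_cases hr : r ∈ Fintype.piFinset (fun _ : Fin n => s)
      · by_cases hl : lgr q0.1 + ∑ j, lgr (r j).1 = 0
        · rw [if_pos ⟨hl, hr⟩, if_pos hr, if_pos hl]
        · rw [if_neg (fun h => hl h.1), if_pos hr, if_neg hl]
      · rw [if_neg (fun h => hr h.2), if_neg hr]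
    simp_rw [h2]
    have hsum : Summable fun z : (Fin n → Q) × Q => if z.1 ∈ Fintype.piFinset (fun _ : Fin n => s) then
          (if lgr z.2.1 + ∑ j, lgr (z.1 j).1 = 0 then tm x (Fin.cons z.2 z.1 : Fin (n + 1) → Q) else 0)
        else 0 := by
      have h5 : Summable fun r : Fin n → Q => if r ∈ Fintype.piFinset (fun _ : Fin n => s) then
          ‖tm (fun j => x j.succ) r‖ else 0 := by
        refine summable_of_ne_finset_zero (s := Fintype.piFinset (fun _ : Fin n => s)) fun r hr => ?_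
        rw [if_neg hr]
      have h6 := Summable.mul_of_nonneg h5 (cq_sum hx0) (fun r => by
        show 0 ≤ (if r ∈ Fintype.piFinset (fun _ : Fin n => s) then ‖tm (fun j => x j.succ) r‖ else 0)
        split_ifs
        · exact norm_nonneg _
        · exact le_rfl) (fun q => cq_nonneg q _)
      refine Summable.of_norm_bounded h6 ?_
      rintro ⟨r, q0⟩
      by_cases hr : r ∈ Fintype.piFinset (fun _ : Fin n => s)
      · simp only [if_pos hr]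
        by_cases hl : lgr q0.1 + ∑ j, lgr (r j).1 = 0
        · rw [if_pos hl, tm_cons, norm_mul, norm_ce, mul_comm]
        · rw [if_neg hl, norm_zero]
          exact mul_nonneg (norm_nonneg _) (cq_nonneg _ _)
      · simp only [if_neg hr]
        rw [norm_zero, zero_mul]
    rw [hsum.tsum_prod]
    rw [tsum_eq_sum (s := Fintype.piFinset (fun _ : Fin n => s))]
    · refine Finset.sum_congr rfl fun r hr => ?_
      simp only [if_pos hr]
    · intro r hr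
      simp only [if_neg hr]
      exact tsum_zero
  rw [e2, e3, ← Finset.sum_sub_distrib]
  refine Finset.sum_congr rfl fun r _ => ?_
  have hb := tm_bd x hx0 r
  have h1 : Summable fun q0 : Q => tm x (Fin.cons q0 r : Fin (n + 1) → Q) := hb.of_norm
  have h2 : Summable fun q0 : Q =>
      if lgr q0.1 + ∑ j, lgr (r j).1 = 0 then tm x (Fin.cons q0 r : Fin (n + 1) → Q) else 0 := by
    refine Summable.of_norm_bounded hb fun q0 => ?_
    split_ifs
    · exact le_rfl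
    · rw [norm_zero]; exact norm_nonneg _
  rw [← h1.tsum_sub h2]
  unfold Ro
  refine tsum_congr fun q0 => ?_
  split_ifs
  · rw [sub_self]
  · rw [sub_zero]


/-- the amplitude of one term -/
lemma tm_shift {k : ℕ} (a : Fin k → ℝ) (q : Fin k → Q) (t : ℝ) :
    tm (fun j => t + a j) q = (∏ j, ex (a j) (q j).1) *
      (((∏ j, cq (q j) (t + a j) : ℝ) : ℂ) *
        cexp (((-(t * lam (fun j => (q j).1)) : ℝ) : ℂ) * I)) := by
  have h := NNintAux.prod_shift (fun j q => cq q (t + a j)) a q t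
  unfold tm
  rw [h, Finset.prod_mul_distrib]
  push_cast
  ring

lemma norm_int_tm {k : ℕ} {C δ U V : ℝ} (hU : 1 ≤ U)
    (hO : ∀ U h x : ℝ, 1 ≤ U → 1 ≤ h → U ≤ x → x ≤ 4 * U → Om h x ≤ C * kap δ U h)
    (a : Fin k → ℝ) (h1 : ∀ j, U ≤ a j) (hV : 0 ≤ V) (h2 : ∀ j, a j + V ≤ 4 * U) (q : Fin k → Q) :
    ‖∫ t in (0:ℝ)..V, tm (fun j => t + a j) q‖ ≤
      2 * (∏ j, (C * kq δ U (q j))) * bb V (lam (fun j => (q j).1)) := by
  have hU0 : 0 < U := by linarith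
  simp_rw [tm_shift]
  rw [intervalIntegral.integral_const_mul, norm_mul, norm_prod]
  have e1 : ∏ j, ‖ex (a j) (q j).1‖ = 1 := Finset.prod_eq_one fun j _ => norm_ex _ _
  rw [e1, one_mul]
  refine mono_osc hV ?_ ?_ ?_ _
  · intro t ht t' ht' htt
    refine Finset.prod_le_prod (fun j _ => cq_nonneg _ _) fun j _ => ?_
    have := h1 j
    exact cq_mono _ (by linarith [ht.1]) (by linarith)
  · intro t ht
    exact Finset.prod_nonneg fun j _ => cq_nonneg _ _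
  · intro t ht
    refine Finset.prod_le_prod (fun j _ => cq_nonneg _ _) fun j _ => ?_
    have := h1 j
    have := h2 j
    exact cq_le hO hU (by linarith [ht.1]) (by linarith [ht.2]) _

lemma bb_mono' {V V' : ℝ} (hV : 0 ≤ V) (h : V ≤ V') (l : ℝ) : bb V l ≤ bb V' l := by
  unfold bb
  have h1 : 0 ≤ |l| := abs_nonneg l
  have h2 : 0 ≤ V * |l| := mul_nonneg hV h1
  have h3 : 0 ≤ V' * |l| := mul_nonneg (hV.trans h) h1
  rw [div_le_div_iff₀ (by linarith) (by linarith)]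
  nlinarith

lemma sum_of_enn {f : Q → ℝ} (h0 : ∀ q, 0 ≤ f q) {B : ℝ} (hB : 0 ≤ B)
    (h : ∑' q, ENNReal.ofReal (f q) ≤ ENNReal.ofReal B) : Summable f ∧ ∑' q, f q ≤ B := by
  have hne : ∑' q, ENNReal.ofReal (f q) ≠ ⊤ := (h.trans_lt ENNReal.ofReal_lt_top).ne
  have hs : Summable f := by
    have h1 := ENNReal.summable_toReal hne
    refine h1.congr fun q => ?_
    exact ENNReal.toReal_ofReal (h0 q)
  refine ⟨hs, ?_⟩
  rw [← ENNReal.ofReal_tsum_of_nonneg h0 hs] at h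
  exact (ENNReal.ofReal_le_ofReal_iff hB).1 h

/-- the product of the fractions -/
lemma prod_frac {n : ℕ} (r : Fin n → Q) : ∃ R : ℕ+ × ℕ+, lgr R = ∑ j, lgr (r j).1 ∧
    hgt R = ∏ j, hgt (r j).1 := by
  induction n with
  | zero =>
    refine ⟨(1, 1), ?_, ?_⟩
    · simp [lgr]
    · simp [hgt]
  | succ n ih =>
    obtain ⟨R, h1, h2⟩ := ih (fun j => r j.succ)
    refine ⟨((r 0).1.1 * R.1, (r 0).1.2 * R.2), ?_, ?_⟩
    · rw [Fin.sum_univ_succ, ← h1]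
      unfold lgr
      rw [PNat.mul_coe, PNat.mul_coe, Nat.cast_mul, Nat.cast_mul, Real.log_mul, Real.log_mul]
      · ring
      · exact_mod_cast (r 0).1.2.ne_zero
      · exact_mod_cast R.2.ne_zero
      · exact_mod_cast (r 0).1.1.ne_zero
      · exact_mod_cast R.1.ne_zero
    · rw [Fin.prod_univ_succ, ← h2]
      unfold hgt
      rw [PNat.mul_coe, PNat.mul_coe, Nat.cast_mul, Nat.cast_mul]
      ring

lemma tm_meas {n : ℕ} (a : Fin (n + 1) → ℝ) (q : Fin (n + 1) → Q) :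
    Measurable fun t : ℝ => tm (fun j => t + a j) q := by
  unfold tm
  refine Finset.measurable_fun_prod _ fun j _ => ?_
  refine Measurable.mul ?_ ((DgMAux.ex_meas _).comp (measurable_id.add_const _))
  exact Complex.measurable_ofReal.comp ((cq_meas _).comp (measurable_id.add_const _))

lemma ro_meas {n : ℕ} (a : Fin (n + 1) → ℝ) (r : Fin n → Q) :
    Measurable fun t : ℝ => Ro (fun j => t + a j) r := by
  unfold Ro
  refine Measurable.tsum fun q0 => ?_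
  split_ifs
  · exact measurable_const
  · exact tm_meas a _

/-- the termwise bound -/
lemma tm_le {n : ℕ} {C δ U x0 : ℝ} (hC : 0 < C) (hδ : 0 < δ) (hδ2 : δ ≤ 2) (hU : 1 ≤ U)
    (hO : ∀ U h x : ℝ, 1 ≤ U → 1 ≤ h → U ≤ x → x ≤ 4 * U → Om h x ≤ C * kap δ U h)
    (x : Fin (n + 1) → ℝ) (h1 : ∀ j, U ≤ x j) (h2 : ∀ j, x j ≤ 4 * U) (hx0 : x 0 ≤ x0) (q0 : Q)
    (r : Fin n → Q) :
    ‖tm x (Fin.cons q0 r : Fin (n + 1) → Q)‖ ≤ cq q0 x0 * (C * U ^ δ) ^ n := by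
  have hU0 : 0 < U := by linarith
  rw [tm_cons, norm_mul, norm_ce, norm_tm]
  refine mul_le_mul (cq_mono _ (by linarith [h1 0]) hx0) ?_
    (Finset.prod_nonneg fun j _ => cq_nonneg _ _) (cq_nonneg _ _)
  calc ∏ j, cq (r j) (x j.succ) ≤ ∏ _j : Fin n, (C * U ^ δ) := by
        refine Finset.prod_le_prod (fun j _ => cq_nonneg _ _) fun j _ => ?_
        refine (cq_le hO hU (h1 _) (h2 _) _).trans ?_
        exact mul_le_mul_of_nonneg_left (kq_le hδ hδ2 hU _) hC.le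
    _ = _ := by rw [Finset.prod_const, Finset.card_univ, Fintype.card_fin]

lemma ro_le {n : ℕ} {C δ U x0 : ℝ} (hC : 0 < C) (hδ : 0 < δ) (hδ2 : δ ≤ 2) (hU : 1 ≤ U)
    (hO : ∀ U h x : ℝ, 1 ≤ U → 1 ≤ h → U ≤ x → x ≤ 4 * U → Om h x ≤ C * kap δ U h)
    (x : Fin (n + 1) → ℝ) (h1 : ∀ j, U ≤ x j) (h2 : ∀ j, x j ≤ 4 * U) (hx0 : x 0 ≤ x0)
    (r : Fin n → Q) :
    ‖Ro x r‖ ≤ (∑' q0 : Q, cq q0 x0) * (C * U ^ δ) ^ n := by
  have hx00 : 0 < x0 := by linarith [h1 0]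
  unfold Ro
  rw [← tsum_mul_right]
  refine tsum_of_norm_bounded ((cq_sum hx00).mul_right _).hasSum fun q0 => ?_
  split_ifs
  · rw [norm_zero]
    have := cq_nonneg q0 x0
    have : 0 ≤ U ^ δ := Real.rpow_nonneg (by linarith) _
    positivity
  · exact tm_le hC hδ hδ2 hU hO x h1 h2 hx0 q0 r

/-- the integral of the off-diagonal terms, `r` fixed -/
lemma int_ro {n : ℕ} {C Cd δ U V : ℝ} (hC : 0 < C) (hCd : 0 < Cd) (hδ : 0 < δ) (hδ2 : δ ≤ 2)
    (hU : 1 ≤ U)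
    (hO : ∀ U h x : ℝ, 1 ≤ U → 1 ≤ h → U ≤ x → x ≤ 4 * U → Om h x ≤ C * kap δ U h)
    (hoff : ∀ (U : ℝ) (r : ℕ+ × ℕ+), 1 ≤ U →
    ∑' q : Q, ENNReal.ofReal (if lgr q.1 + lgr r = 0 then 0 else
      kap δ U (hgt q.1) * (hgt q.1) ^ (-(1 / 2) : ℝ) * bb (2 * U) (lgr q.1 + lgr r)) ≤
      ENNReal.ofReal (Cd * U ^ (3 * δ) * (U ^ (1 / 2 : ℝ) + (hgt r) ^ (1 / 2 : ℝ))))
    (a : Fin (n + 1) → ℝ) (h1 : ∀ j, U ≤ a j) (hV : 0 ≤ V) (hVU : V ≤ 2 * U)
    (h2 : ∀ j, a j + V ≤ 4 * U) (r : Fin n → Q) :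
    ‖∫ t in (0:ℝ)..V, Ro (fun j => t + a j) r‖ ≤
      2 * C * (C * U ^ δ) ^ n * (Cd * U ^ (3 * δ) *
        (U ^ (1 / 2 : ℝ) + (∏ j, hgt (r j).1) ^ (1 / 2 : ℝ))) := by
  have hU0 : 0 < U := by linarith
  have hUd : 0 ≤ U ^ δ := Real.rpow_nonneg hU0.le _
  obtain ⟨R, hR1, hR2⟩ := prod_frac r
  set F : Q → ℝ → ℂ := fun q0 t => if lgr q0.1 + ∑ j, lgr (r j).1 = 0 then 0 else
    tm (fun j => t + a j) (Fin.cons q0 r : Fin (n + 1) → Q) with hF
  have hx0 : 0 < 4 * U := by linarith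
  have hFb : ∀ q0 t, t ∈ Set.uIoc 0 V → ‖F q0 t‖ ≤ cq q0 (4 * U) * (C * U ^ δ) ^ n := by
    intro q0 t ht
    rw [Set.uIoc_of_le hV] at ht
    simp only [hF]
    split_ifs
    · rw [norm_zero]
      have := cq_nonneg q0 (4 * U)
      positivity
    · exact tm_le hC hδ hδ2 hU hO _ (fun j => by linarith [h1 j, ht.1])
        (fun j => by linarith [h2 j, ht.2]) (by linarith [h2 0, ht.2]) q0 r
  have hbs : Summable fun q0 : Q => cq q0 (4 * U) * (C * U ^ δ) ^ n := (cq_sum hx0).mul_right _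
  have hint := intervalIntegral.hasSum_integral_of_dominated_convergence (μ := volume) (a := 0) (b := V)
    (F := F) (f := fun t : ℝ => Ro (fun j => t + a j) r)
    (fun q0 _ => cq q0 (4 * U) * (C * U ^ δ) ^ n)
    (fun q0 => by
      refine Measurable.aestronglyMeasurable ?_
      simp only [hF]
      split_ifs
      · exact measurable_const
      · exact tm_meas a _)
    (fun q0 => Filter.Eventually.of_forall fun t ht => hFb q0 t ht)
    (Filter.Eventually.of_forall fun t _ => hbs)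
    intervalIntegrable_const
    (Filter.Eventually.of_forall fun t ht => (Summable.of_norm_bounded hbs fun q0 => hFb q0 t ht).hasSum)
  rw [← hint.tsum_eq]
  have hS := sum_of_enn (f := fun q : Q => if lgr q.1 + lgr R = 0 then 0 else
      kap δ U (hgt q.1) * (hgt q.1) ^ (-(1 / 2) : ℝ) * bb (2 * U) (lgr q.1 + lgr R))
    (fun q => by
      show 0 ≤ (if lgr q.1 + lgr R = 0 then 0 else
        kap δ U (hgt q.1) * (hgt q.1) ^ (-(1 / 2) : ℝ) * bb (2 * U) (lgr q.1 + lgr R))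
      split_ifs
      · exact le_rfl
      · exact mul_nonneg (kq_nonneg hU0.le q) (bb_nonneg (by linarith) _))
    (B := Cd * U ^ (3 * δ) * (U ^ (1 / 2 : ℝ) + (hgt R) ^ (1 / 2 : ℝ)))
    (by have := (hgt_pos R).le; positivity) (hoff U R hU)
  obtain ⟨hS1, hS2⟩ := hS
  have hterm : ∀ q0 : Q, ‖∫ t in (0:ℝ)..V, F q0 t‖ ≤ (2 * C * (C * U ^ δ) ^ n) *
      (if lgr q0.1 + lgr R = 0 then 0 else
      kap δ U (hgt q0.1) * (hgt q0.1) ^ (-(1 / 2) : ℝ) * bb (2 * U) (lgr q0.1 + lgr R)) := by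
    intro q0
    simp only [hF, ← hR1]
    by_cases hl : lgr q0.1 + lgr R = 0
    · simp only [if_pos hl]
      rw [intervalIntegral.integral_zero, norm_zero, mul_zero]
    · simp only [if_neg hl]
      refine (norm_int_tm hU hO a h1 hV h2 _).trans ?_
      rw [lam_cons, ← hR1, Fin.prod_univ_succ]
      have h3 : ∏ j : Fin n, (C * kq δ U ((Fin.cons q0 r : Fin (n + 1) → Q) j.succ)) ≤
          (C * U ^ δ) ^ n := by
        calc _ ≤ ∏ _j : Fin n, (C * U ^ δ) := by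
              refine Finset.prod_le_prod (fun j _ => mul_nonneg hC.le (kq_nonneg hU0.le _))
                fun j _ => ?_
              exact mul_le_mul_of_nonneg_left (kq_le hδ hδ2 hU _) hC.le
          _ = _ := by rw [Finset.prod_const, Finset.card_univ, Fintype.card_fin]
      have h4 : bb V (lgr q0.1 + lgr R) ≤ bb (2 * U) (lgr q0.1 + lgr R) := bb_mono' hV hVU _
      have h5 : 0 ≤ kq δ U q0 := kq_nonneg hU0.le q0
      have h6 : (Fin.cons q0 r : Fin (n + 1) → Q) 0 = q0 := rfl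
      rw [h6]
      have h7 := bb_nonneg hV (lgr q0.1 + lgr R)
      have h8 : 0 ≤ (C * U ^ δ) ^ n := by positivity
      have h9 : 0 ≤ ∏ j : Fin n, (C * kq δ U ((Fin.cons q0 r : Fin (n + 1) → Q) j.succ)) :=
        Finset.prod_nonneg fun j _ => mul_nonneg hC.le (kq_nonneg hU0.le _)
      calc 2 * (C * kq δ U q0 * ∏ j : Fin n, (C * kq δ U ((Fin.cons q0 r : Fin (n + 1) → Q) j.succ))) *
            bb V (lgr q0.1 + lgr R)
          ≤ 2 * (C * kq δ U q0 * (C * U ^ δ) ^ n) * bb (2 * U) (lgr q0.1 + lgr R) := by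
            gcongr
        _ = _ := by unfold kq; ring
  rw [← hR2]
  refine (tsum_of_norm_bounded (hS1.mul_left _).hasSum hterm).trans ?_
  rw [tsum_mul_left]
  exact mul_le_mul_of_nonneg_left hS2 (by positivity)

lemma ro_ii {n : ℕ} {C δ U V : ℝ} (hC : 0 < C) (hδ : 0 < δ) (hδ2 : δ ≤ 2)
    (hU : 1 ≤ U)
    (hO : ∀ U h x : ℝ, 1 ≤ U → 1 ≤ h → U ≤ x → x ≤ 4 * U → Om h x ≤ C * kap δ U h)
    (a : Fin (n + 1) → ℝ) (h1 : ∀ j, U ≤ a j) (hV : 0 ≤ V)
    (h2 : ∀ j, a j + V ≤ 4 * U) (r : Fin n → Q) :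
    IntervalIntegrable (fun t : ℝ => Ro (fun j => t + a j) r) volume 0 V := by
  have h := intervalIntegrable_const (μ := volume) (a := (0:ℝ)) (b := V)
    (c := (∑' q0 : Q, cq q0 (4 * U)) * (C * U ^ δ) ^ n)
  refine h.mono_fun' (ro_meas a r).aestronglyMeasurable ?_
  rw [Set.uIoc_of_le hV]
  refine (ae_restrict_iff' measurableSet_Ioc).2 (Filter.Eventually.of_forall fun t ht => ?_)
  exact ro_le hC hδ hδ2 hU hO _ (fun j => by linarith [h1 j, ht.1])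
        (fun j => by linarith [h2 j, ht.2]) (by linarith [h2 0, ht.2]) r


lemma two_rpow {U e : ℝ} (hU : 0 < U) (he : e ≤ 1) : (2 * U) ^ e ≤ 2 * U ^ e := by
  rw [Real.mul_rpow (by norm_num) hU.le]
  refine mul_le_mul_of_nonneg_right ?_ (Real.rpow_nonneg hU.le _)
  calc (2 : ℝ) ^ e ≤ 2 ^ (1 : ℝ) := Real.rpow_le_rpow_of_exponent_le (by norm_num) he
    _ = 2 := Real.rpow_one _

lemma card_pi {n : ℕ} {s : Finset Q} {U Y : ℝ} (hY : 1 ≤ Y) (hU : 1 ≤ U)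
    (hYn : Y ^ n ≤ U ^ (1 / 16 : ℝ)) (hs : (s.card : ℝ) ≤ Y ^ 2) :
    (s.card : ℝ) ^ n ≤ U ^ (1 / 8 : ℝ) := by
  have hU0 : 0 < U := by linarith
  have h1 : (s.card : ℝ) ^ n ≤ (Y ^ 2) ^ n := pow_le_pow_left₀ (Nat.cast_nonneg _) hs n
  have h2 : (Y ^ 2) ^ n = (Y ^ n) ^ 2 := by rw [← pow_mul, ← pow_mul, mul_comm]
  have h3 : (Y ^ n) ^ 2 ≤ (U ^ (1 / 16 : ℝ)) ^ 2 := pow_le_pow_left₀ (by positivity) hYn 2
  have h4 : (U ^ (1 / 16 : ℝ)) ^ 2 = U ^ (1 / 8 : ℝ) := by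
    rw [← Real.rpow_natCast, ← Real.rpow_mul hU0.le]
    norm_num
  rw [h2] at h1
  rw [h4] at h3
  exact h1.trans h3

lemma fS_le {C δ U Y x : ℝ} {s : Finset Q} (hs : ∀ q, q ∈ s ↔ hgt q.1 ≤ Y) (hC : 0 < C)
    (hδ : 0 < δ) (hδ2 : δ ≤ 2) (hU : 1 ≤ U)
    (hO : ∀ U h x : ℝ, 1 ≤ U → 1 ≤ h → U ≤ x → x ≤ 4 * U → Om h x ≤ C * kap δ U h)
    (h1 : U ≤ x) (h2 : x ≤ 4 * U) : ‖fS Y x‖ ≤ s.card * (C * U ^ δ) := by
  rw [fS_sum hs (by linarith)]
  refine (norm_sum_le _ _).trans ?_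
  rw [← nsmul_eq_mul]
  refine Finset.sum_le_card_nsmul _ _ _ fun q _ => ?_
  rw [norm_ce]
  refine (cq_le hO hU h1 h2 q).trans ?_
  exact mul_le_mul_of_nonneg_left (kq_le hδ hδ2 hU _) hC.le

end ShortPAux

open ShortPAux in
theorem short_p (n : ℕ) : ∃ C : ℝ, 0 < C ∧ ∀ (U Y V α : ℝ) (h : Fin n → ℝ), 1 ≤ U → 1 ≤ Y → Y ^ n ≤ U ^ (1 / 16 : ℝ) →
    2 * U ≤ α → α ≤ 6 * U → (∀ j, 2 * U ≤ h j) → (∀ j, h j ≤ 6 * U) → 0 ≤ V → V ≤ 2 * U →
    ‖∫ t in (0:ℝ)..V, ((gz (t + α) : ℂ) * (∏ j, fS Y (t + h j)) - DgY Y (sh α h t))‖ ≤ C * U ^ (3 / 4 : ℝ) := by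
  have hn4 : (0 : ℝ) < 16 * ((n : ℝ) + 4) := by positivity
  obtain ⟨δ, hδe⟩ : ∃ δ : ℝ, δ = 1 / (16 * ((n : ℝ) + 4)) := ⟨_, rfl⟩
  have hδ : 0 < δ := by rw [hδe]; positivity
  have hδm : δ * (16 * ((n : ℝ) + 4)) = 1 := by
    rw [hδe]
    field_simp
  have hn0 : (0 : ℝ) ≤ n := Nat.cast_nonneg n
  have hδ4 : δ ≤ 1 / 4 := by nlinarith
  have hδn : δ * n ≤ 1 / 16 := by nlinarith
  have hδn3 : δ * n + 3 * δ ≤ 1 / 16 := by nlinarith
  obtain ⟨Ca, hCa, haf⟩ := afe (1 / 16) (by norm_num)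
  obtain ⟨C, hC, hO⟩ := Om_le_kap δ hδ (by linarith)
  obtain ⟨Cd, hCd, hoff⟩ := off_d δ hδ hδ4
  refine ⟨4 * Ca * C ^ n + 8 * C ^ (n + 1) * Cd, by positivity, ?_⟩
  intro U Y V α h hU hY hYn hα1 hα2 hh1 hh2 hV hVU
  have hU0 : 0 < U := by linarith
  have hU2 : 1 ≤ 2 * U := by linarith
  have hUd : 0 ≤ (2 * U) ^ δ := Real.rpow_nonneg (by linarith) _
  obtain ⟨s, hs, hsc⟩ := small_fin Y
  have hcard := card_pi hY hU hYn (hsc hY)
  set a : Fin (n + 1) → ℝ := Fin.cons α h with ha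
  have ha1 : ∀ j, 2 * U ≤ a j := by
    intro j
    refine Fin.cases ?_ (fun i => ?_) j
    · exact hα1
    · exact hh1 i
  have ha2 : ∀ j, a j ≤ 6 * U := by
    intro j
    refine Fin.cases ?_ (fun i => ?_) j
    · exact hα2
    · exact hh2 i
  have ha3 : ∀ j, a j + V ≤ 4 * (2 * U) := fun j => by linarith [ha2 j]
  -- the powers
  have hp0 : ((2 * U) ^ δ) ^ n = (2 * U) ^ (δ * n) := by
    rw [Real.rpow_mul (by linarith), Real.rpow_natCast]
  have hp1 : ((2 * U) ^ δ) ^ n ≤ 2 * U ^ (1 / 16 : ℝ) := by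
    rw [hp0]
    exact (Real.rpow_le_rpow_of_exponent_le hU2 hδn).trans (two_rpow hU0 (by norm_num))
  have hp2 : ((2 * U) ^ δ) ^ n * (2 * U) ^ (3 * δ) * (2 * U) ^ (1 / 2 : ℝ) ≤
      2 * U ^ (9 / 16 : ℝ) := by
    rw [hp0, ← Real.rpow_add (by linarith), ← Real.rpow_add (by linarith)]
    exact (Real.rpow_le_rpow_of_exponent_le hU2 (by linarith)).trans (two_rpow hU0 (by norm_num))
  -- the two parts
  set E : ℝ → ℂ := fun t => ((gz (t + α) : ℂ) - Fd (t + α)) * ∏ j, fS Y (t + h j) with hE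
  set D : ℝ → ℂ := fun t => ∑ r ∈ Fintype.piFinset (fun _ : Fin n => s), Ro (fun j => t + a j) r
    with hD
  have hpt : ∀ t ∈ Set.uIcc 0 V, (gz (t + α) : ℂ) * (∏ j, fS Y (t + h j)) - DgY Y (sh α h t) =
      E t + D t := by
    intro t ht
    rw [Set.uIcc_of_le hV] at ht
    have h1 := main_id hs (fun j => t + a j) (fun j => by linarith [ha1 j, ht.1])
    have h2 : D t = Fd (t + α) * (∏ j, fS Y (t + h j)) - DgY Y (sh α h t) := h1.symm
    rw [h2]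
    simp only [hE]
    ring
  rw [intervalIntegral.integral_congr hpt]
  have hEi : IntervalIntegrable E volume 0 V := by
    apply ContinuousOn.intervalIntegrable
    rw [Set.uIcc_of_le hV]
    simp only [hE]
    refine ContinuousOn.mul (ContinuousOn.sub ?_ ?_) ?_
    · have hc : Continuous fun t : ℝ => gz (t + α) := gz_cont.comp (continuous_id.add continuous_const)
      exact (Complex.continuous_ofReal.comp hc).continuousOn
    · refine Fd_continuousOn.comp (f := fun t : ℝ => t + α) (by fun_prop) fun t ht => ?_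
      rw [Set.mem_Ioi]
      linarith [ht.1]
    · refine Continuous.continuousOn ?_
      refine continuous_finsetProd _ fun j _ => ?_
      exact (fS_cont Y).comp (continuous_id.add continuous_const)
  have hRi : ∀ r ∈ Fintype.piFinset (fun _ : Fin n => s),
      IntervalIntegrable (fun t : ℝ => Ro (fun j => t + a j) r) volume 0 V :=
    fun r _ => ro_ii hC hδ (by linarith) hU2 hO a ha1 hV ha3 r
  have hDi : IntervalIntegrable D volume 0 V := by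
    have := IntervalIntegrable.sum (Fintype.piFinset (fun _ : Fin n => s)) hRi
    refine this.congr fun t _ => ?_
    rw [Finset.sum_apply]
  rw [intervalIntegral.integral_add hEi hDi]
  refine (norm_add_le _ _).trans ?_
  have hEb : ‖∫ t in (0:ℝ)..V, E t‖ ≤ 4 * Ca * C ^ n * U ^ (3 / 4 : ℝ) := by
    have h1 : ∀ t ∈ Set.uIoc 0 V, ‖E t‖ ≤ 2 * Ca * C ^ n * U ^ (-(1 / 4) : ℝ) := by
      intro t ht
      rw [Set.uIoc_of_le hV] at ht
      simp only [hE]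
      rw [norm_mul, norm_prod]
      have h2 : ‖(gz (t + α) : ℂ) - Fd (t + α)‖ ≤ Ca * U ^ (-(7 / 16) : ℝ) := by
        refine (haf (t + α) (by linarith [ht.1])).trans ?_
        refine mul_le_mul_of_nonneg_left ?_ hCa.le
        have h3 : (-(1 / 2) + 1 / 16 : ℝ) = -(7 / 16) := by norm_num
        rw [h3]
        exact Real.rpow_le_rpow_of_nonpos hU0 (by linarith [ht.1]) (by norm_num)
      have h4 : ∏ j, ‖fS Y (t + h j)‖ ≤ (U ^ (1 / 8 : ℝ)) * (C ^ n * (2 * U ^ (1 / 16 : ℝ))) := by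
        calc ∏ j, ‖fS Y (t + h j)‖ ≤ ∏ _j : Fin n, ((s.card : ℝ) * (C * (2 * U) ^ δ)) := by
              refine Finset.prod_le_prod (fun j _ => norm_nonneg _) fun j _ => ?_
              exact fS_le hs hC hδ (by linarith) hU2 hO (by linarith [hh1 j, ht.1])
                (by linarith [hh2 j, ht.2])
          _ = (s.card : ℝ) ^ n * (C ^ n * ((2 * U) ^ δ) ^ n) := by
              rw [Finset.prod_const, Finset.card_univ, Fintype.card_fin, mul_pow, mul_pow]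
          _ ≤ _ := by gcongr
      have h5 : (0 : ℝ) ≤ ∏ j, ‖fS Y (t + h j)‖ := Finset.prod_nonneg fun j _ => norm_nonneg _
      calc ‖(gz (t + α) : ℂ) - Fd (t + α)‖ * ∏ j, ‖fS Y (t + h j)‖ ≤
            (Ca * U ^ (-(7 / 16) : ℝ)) * ((U ^ (1 / 8 : ℝ)) * (C ^ n * (2 * U ^ (1 / 16 : ℝ)))) :=
            mul_le_mul h2 h4 h5 (by positivity)
        _ = 2 * Ca * C ^ n * (U ^ (-(7 / 16) : ℝ) * U ^ (1 / 8 : ℝ) * U ^ (1 / 16 : ℝ)) := by ring
        _ = _ := by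
            rw [← Real.rpow_add hU0, ← Real.rpow_add hU0]
            norm_num
    have h2 := intervalIntegral.norm_integral_le_of_norm_le_const h1
    rw [sub_zero, abs_of_nonneg hV] at h2
    refine h2.trans ?_
    have h3 : U ^ (3 / 4 : ℝ) = U ^ (-(1 / 4) : ℝ) * U := by
      nth_rewrite 3 [← Real.rpow_one U]
      rw [← Real.rpow_add hU0]
      norm_num
    rw [h3]
    calc 2 * Ca * C ^ n * U ^ (-(1 / 4) : ℝ) * V ≤ 2 * Ca * C ^ n * U ^ (-(1 / 4) : ℝ) * (2 * U) := by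
          gcongr
      _ = _ := by ring
  have hDb : ‖∫ t in (0:ℝ)..V, D t‖ ≤ 8 * C ^ (n + 1) * Cd * U ^ (3 / 4 : ℝ) := by
    simp only [hD]
    rw [intervalIntegral.integral_finsetSum hRi]
    refine (norm_sum_le _ _).trans ?_
    have h1 : ∀ r ∈ Fintype.piFinset (fun _ : Fin n => s),
        ‖∫ t in (0:ℝ)..V, Ro (fun j => t + a j) r‖ ≤ 8 * C ^ (n + 1) * Cd * U ^ (9 / 16 : ℝ) := by
      intro r hr
      refine (int_ro hC hCd hδ (by linarith) hU2 hO hoff a ha1 hV (by linarith) ha3 r).trans ?_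
      have h2 : ∏ j, hgt (r j).1 ≤ 2 * U := by
        calc ∏ j, hgt (r j).1 ≤ ∏ _j : Fin n, Y := by
              refine Finset.prod_le_prod (fun j _ => (hgt_pos _).le) fun j _ => ?_
              exact (hs _).1 (Fintype.mem_piFinset.1 hr j)
          _ = Y ^ n := by rw [Finset.prod_const, Finset.card_univ, Fintype.card_fin]
          _ ≤ U ^ (1 / 16 : ℝ) := hYn
          _ ≤ U ^ (1 : ℝ) := Real.rpow_le_rpow_of_exponent_le hU (by norm_num)
          _ ≤ 2 * U := by rw [Real.rpow_one]; linarith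
      have h3 : (∏ j, hgt (r j).1) ^ (1 / 2 : ℝ) ≤ (2 * U) ^ (1 / 2 : ℝ) :=
        Real.rpow_le_rpow (Finset.prod_nonneg fun j _ => (hgt_pos _).le) h2 (by norm_num)
      calc 2 * C * (C * (2 * U) ^ δ) ^ n * (Cd * (2 * U) ^ (3 * δ) *
            ((2 * U) ^ (1 / 2 : ℝ) + (∏ j, hgt (r j).1) ^ (1 / 2 : ℝ))) ≤
            2 * C * (C * (2 * U) ^ δ) ^ n * (Cd * (2 * U) ^ (3 * δ) *
            ((2 * U) ^ (1 / 2 : ℝ) + (2 * U) ^ (1 / 2 : ℝ))) := by gcongr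
        _ = 4 * C ^ (n + 1) * Cd *
            (((2 * U) ^ δ) ^ n * (2 * U) ^ (3 * δ) * (2 * U) ^ (1 / 2 : ℝ)) := by
            rw [mul_pow]; ring
        _ ≤ 4 * C ^ (n + 1) * Cd * (2 * U ^ (9 / 16 : ℝ)) := by gcongr
        _ = _ := by ring
    refine (Finset.sum_le_card_nsmul _ _ _ h1).trans ?_
    rw [Fintype.card_piFinset_const, nsmul_eq_mul, Nat.cast_pow]
    calc (s.card : ℝ) ^ n * (8 * C ^ (n + 1) * Cd * U ^ (9 / 16 : ℝ)) ≤
          U ^ (1 / 8 : ℝ) * (8 * C ^ (n + 1) * Cd * U ^ (9 / 16 : ℝ)) := by gcongr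
      _ = 8 * C ^ (n + 1) * Cd * (U ^ (1 / 8 : ℝ) * U ^ (9 / 16 : ℝ)) := by ring
      _ ≤ _ := by
          refine mul_le_mul_of_nonneg_left ?_ (by positivity)
          rw [← Real.rpow_add hU0]
          exact Real.rpow_le_rpow_of_exponent_le hU (by norm_num)
  calc ‖∫ t in (0:ℝ)..V, E t‖ + ‖∫ t in (0:ℝ)..V, D t‖ ≤
        4 * Ca * C ^ n * U ^ (3 / 4 : ℝ) + 8 * C ^ (n + 1) * Cd * U ^ (3 / 4 : ℝ) := add_le_add hEb hDb
    _ = _ := by ring

end Pool.Agent.P07318h
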