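import Pool.Agent.Lib.P07318h.Defs
import Pool.Agent.Lib.P07318s.DgTrunc

/-!
# Weighted number of representations

PROOF. `rq n δ q = ∑_{p : lgr q + ∑ lgr p_j = 0} w(p)`, `w(p) = ∏ hgt(p_j)^(-1/2-δ)`. Square: `∑_q (rq q)² = ∑_q ∑_{p, p'} 1[lgr q + ∑ lgr p_j = 0] 1[lgr q + ∑ lgr p'_j = 0] w(p) w(p')` (all in `ENNReal`, `ENNReal.tsum_mul_tsum`-type
identities). For given `p, p'` there is at most one `q : Q` with `lgr q = -∑ lgr p_j` (`lgr` is injective on reduced fractions: `log(a/b) = log(a'/b')` gives `a b' = a' b`, coprime), and if there is one for both then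
`∑ lgr p_j = ∑ lgr p'_j`. So the sum is `≤ ∑_{p, p' : ∑ lgr p_j - ∑ lgr p'_j = 0} w(p) w(p')`. The map `(p, p') ↦ Fin.append p (swap ∘ p')` into `Fin (n+n) → ℕ+ × ℕ+` is injective (`swap` of a pair changes the sign of `lgr` and keeps `hgt`),
so this is `≤ ∑_{P : Fin (n+n) → ℕ+ × ℕ+} aa δ P < ∞`, `DgTruncAux.aa_summable` (P07318s/DgTrunc.lean; `aa c P = ∏ hgt^(-(1/2+c))` if `lam P = 0`).
-/

set_option autoImplicit false

namespace Pool.Agent.P07318h

open MeasureTheory Complex Pool.Agent.P07318s Pool.Agent.P07318f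

namespace RhoSAux

private lemma lgr_injQ {q q' : Q} (h : lgr q.1 = lgr q'.1) : q = q' := by
  obtain ⟨⟨a, b⟩, hq⟩ := q
  obtain ⟨⟨c, d⟩, hq'⟩ := q'
  simp only [lgr] at h
  have ha : (0 : ℝ) < ((a : ℕ) : ℝ) := by exact_mod_cast a.pos
  have hb : (0 : ℝ) < ((b : ℕ) : ℝ) := by exact_mod_cast b.pos
  have hc : (0 : ℝ) < ((c : ℕ) : ℝ) := by exact_mod_cast c.pos
  have hd : (0 : ℝ) < ((d : ℕ) : ℝ) := by exact_mod_cast d.pos
  have h1 : Real.log (((a : ℕ) : ℝ) * ((d : ℕ) : ℝ)) = Real.log (((c : ℕ) : ℝ) * ((b : ℕ) : ℝ)) := by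
    rw [Real.log_mul ha.ne' hd.ne', Real.log_mul hc.ne' hb.ne']
    linarith
  have h2 := Real.log_injOn_pos (Set.mem_Ioi.mpr (mul_pos ha hd)) (Set.mem_Ioi.mpr (mul_pos hc hb)) h1
  have h3 : (a : ℕ) * (d : ℕ) = (c : ℕ) * (b : ℕ) := by exact_mod_cast h2
  simp only at hq hq'
  have hac : (a : ℕ) ∣ (c : ℕ) := by
    have : (a : ℕ) ∣ (c : ℕ) * (b : ℕ) := ⟨d, h3.symm⟩
    exact hq.dvd_of_dvd_mul_right this
  have hca : (c : ℕ) ∣ (a : ℕ) := by
    have : (c : ℕ) ∣ (a : ℕ) * (d : ℕ) := ⟨b, h3⟩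
    exact hq'.dvd_of_dvd_mul_right this
  have hac' : (a : ℕ) = (c : ℕ) := Nat.dvd_antisymm hac hca
  have hbd : (b : ℕ) = (d : ℕ) := by
    rw [hac'] at h3
    exact (Nat.eq_of_mul_eq_mul_left c.pos h3).symm
  have e1 : a = c := PNat.coe_injective hac'
  have e2 : b = d := PNat.coe_injective hbd
  subst e1 e2
  rfl

private lemma lgr_swap (p : ℕ+ × ℕ+) : lgr p.swap = -lgr p := by
  simp [lgr]

private lemma hgt_swap (p : ℕ+ × ℕ+) : hgt p.swap = hgt p := by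
  simp [hgt, mul_comm]

private noncomputable def w (n : ℕ) (δ : ℝ) (p : Fin n → Q) : ENNReal :=
  ENNReal.ofReal (∏ j, (hgt (p j).1) ^ (-(1 / 2) - δ : ℝ))

private noncomputable def iota (n : ℕ) (p : (Fin n → Q) × (Fin n → Q)) : Fin (n + n) → ℕ+ × ℕ+ :=
  Fin.append (fun j => (p.1 j).1) (fun j => (p.2 j).1.swap)

private lemma iota_inj (n : ℕ) : Function.Injective (iota n) := by
  rintro ⟨p, p'⟩ ⟨r, r'⟩ h
  unfold iota at h
  have h1 : ∀ j, p j = r j := by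
    intro j
    have := congrFun h (Fin.castAdd n j)
    simp only [Fin.append_left] at this
    exact Subtype.ext this
  have h2 : ∀ j, p' j = r' j := by
    intro j
    have := congrFun h (Fin.natAdd n j)
    simp only [Fin.append_right] at this
    exact Subtype.ext (Prod.swap_injective this)
  ext1
  · exact funext h1
  · exact funext h2

private lemma lam_iota (n : ℕ) (p : (Fin n → Q) × (Fin n → Q)) :
    lam (iota n p) = ∑ j, lgr (p.1 j).1 - ∑ j, lgr (p.2 j).1 := by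
  unfold lam iota
  rw [Fin.sum_univ_add]
  simp only [Fin.append_left, Fin.append_right, lgr_swap, Finset.sum_neg_distrib]
  ring

private lemma prod_iota (n : ℕ) (δ : ℝ) (p : (Fin n → Q) × (Fin n → Q)) :
    ∏ j, (hgt (iota n p j)) ^ (-(1 / 2 + δ) : ℝ) =
      (∏ j, (hgt (p.1 j).1) ^ (-(1 / 2) - δ : ℝ)) * ∏ j, (hgt (p.2 j).1) ^ (-(1 / 2) - δ : ℝ) := by
  unfold iota
  rw [Fin.prod_univ_add]
  simp only [Fin.append_left, Fin.append_right, hgt_swap]
  rw [show (-(1 / 2 + δ) : ℝ) = -(1 / 2) - δ by ring]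

end RhoSAux

open RhoSAux DgTruncAux in
theorem rho_sum (n : ℕ) (δ : ℝ) (hδ : 0 < δ) : ∃ C : ℝ, 0 < C ∧ ∑' q : Q, (rq n δ q) ^ 2 ≤ ENNReal.ofReal C := by
  classical
  have hs := aa_summable (k := n + n) hδ
  refine ⟨∑' P : Fin (n + n) → ℕ+ × ℕ+, aa δ P + 1, ?_, ?_⟩
  · have : 0 ≤ ∑' P : Fin (n + n) → ℕ+ × ℕ+, aa δ P := tsum_nonneg fun P => aa_nonneg δ P
    linarith
  have e1 : ∀ q : Q, (rq n δ q) ^ 2 = ∑' p : (Fin n → Q) × (Fin n → Q),
      (if lgr q.1 + ∑ j, lgr (p.1 j).1 = 0 then w n δ p.1 else 0) *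
        (if lgr q.1 + ∑ j, lgr (p.2 j).1 = 0 then w n δ p.2 else 0) := by
    intro q
    rw [sq]
    unfold rq w
    rw [← ENNReal.tsum_mul_right]
    simp_rw [← ENNReal.tsum_mul_left]
    rw [ENNReal.tsum_prod']
  calc ∑' q : Q, (rq n δ q) ^ 2
      = ∑' q : Q, ∑' p : (Fin n → Q) × (Fin n → Q),
      (if lgr q.1 + ∑ j, lgr (p.1 j).1 = 0 then w n δ p.1 else 0) *
        (if lgr q.1 + ∑ j, lgr (p.2 j).1 = 0 then w n δ p.2 else 0) := by
        simp_rw [e1]
    _ = ∑' p : (Fin n → Q) × (Fin n → Q), ∑' q : Q,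
      (if lgr q.1 + ∑ j, lgr (p.1 j).1 = 0 then w n δ p.1 else 0) *
        (if lgr q.1 + ∑ j, lgr (p.2 j).1 = 0 then w n δ p.2 else 0) := ENNReal.tsum_comm
    _ ≤ ∑' p : (Fin n → Q) × (Fin n → Q), ENNReal.ofReal (aa δ (iota n p)) := by
        refine ENNReal.tsum_le_tsum fun p => ?_
        by_cases hex : ∃ q : Q, lgr q.1 + ∑ j, lgr (p.1 j).1 = 0 ∧ lgr q.1 + ∑ j, lgr (p.2 j).1 = 0
        · obtain ⟨q, h1, h2⟩ := hex
          rw [tsum_eq_single q]
          · rw [if_pos h1, if_pos h2]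
            have hl : lam (iota n p) = 0 := by rw [lam_iota]; linarith
            unfold aa
            rw [if_pos hl, prod_iota]
            unfold w
            rw [← ENNReal.ofReal_mul]
            exact Finset.prod_nonneg fun j _ => Real.rpow_nonneg (hgt_pos _).le _
          · intro q' hq'
            have : ¬ (lgr q'.1 + ∑ j, lgr (p.1 j).1 = 0) := by
              intro h3
              exact hq' (lgr_injQ (by linarith))
            rw [if_neg this, zero_mul]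
        · have : ∀ q : Q, (if lgr q.1 + ∑ j, lgr (p.1 j).1 = 0 then w n δ p.1 else 0) *
              (if lgr q.1 + ∑ j, lgr (p.2 j).1 = 0 then w n δ p.2 else 0) = 0 := by
            intro q
            by_cases h1 : lgr q.1 + ∑ j, lgr (p.1 j).1 = 0
            · have h2 : ¬ (lgr q.1 + ∑ j, lgr (p.2 j).1 = 0) := fun h2 => hex ⟨q, h1, h2⟩
              rw [if_neg h2, mul_zero]
            · rw [if_neg h1, zero_mul]
          simp_rw [this]
          simp
    _ ≤ ∑' P : Fin (n + n) → ℕ+ × ℕ+, ENNReal.ofReal (aa δ P) :=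
        ENNReal.tsum_comp_le_tsum_of_injective (iota_inj n) _
    _ = ENNReal.ofReal (∑' P : Fin (n + n) → ℕ+ × ℕ+, aa δ P) :=
        (ENNReal.ofReal_tsum_of_nonneg (fun P => aa_nonneg δ P) hs).symm
    _ ≤ ENNReal.ofReal (∑' P : Fin (n + n) → ℕ+ × ℕ+, aa δ P + 1) :=
        ENNReal.ofReal_le_ofReal (by linarith)

end Pool.Agent.P07318h
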