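import Pool.Agent.Lib.P07318h.Wls
import Pool.Agent.Lib.P07318h.RhoS
import Pool.Agent.Lib.P07318h.Fub
import Pool.Agent.Lib.P07318f.FourSep
import Pool.Agent.Lib.P07318s.Twist

/-!
# The diagonal terms with a large height, in mean square over the box

All heights lie in `[2U, 8U]`; put `U' = 2U`. `D(x) = Dg x - DgY Y x = ∑_{q : Fin (n+1) → Q, lam = 0, ∃ j : Fin n, hgt(q j.succ) > Y} ∏_j c_j ex (x_j) (q j)` (`Dg_eq` of P07318s/Regroup.lean), `c_j = hgt^(-1/2) Om (hgt (q j)) (x_j)`.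
Let `D_r` be the part where `r : Fin n` is the first index with `hgt(q r.succ) > Y`, `D = ∑_r D_r`.
PROOF. (1) Fix `t ∈ [0, 2U]` and all coordinates of `h` but `u = h r ∈ [β r, β r + H]`. `D_r = ∑_{q : hgt q > Y} hgt^(-1/2) Om (hgt q) (t+u) ex (t+u) q · E(q)`, `E(q)` = the sum over the other `n` coordinates (index `0` and `j.succ`, `j ≠ r`) with
`lgr q + ∑ = 0`; it does not depend on `u`, and `‖E(q)‖ ≤ ∑ ∏ C kap δ U' (hgt p_j) hgt(p_j)^(-1/2) ≤ C U^(nδ) rq n δ q` (`Om_le_kap`, `kap_le`: `kap ≤ (2U/h)^δ`; reindex the `n` coordinates by `Fin n`, e.g. `Fin.succAbove`).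
`rq n δ q ≤ C` by `rho_sum`. (2) `four_sep` for `Om (hgt q) (t + u)` at height `U'`: `= ∑_k ω_k(hgt q) ek U' k (t+u)`, Cauchy-Schwarz over `k` with the weights `pk k`, `wls` (for `U'`, window `[β r, β r + H]`), with
`B q = C pk k U^(nδ) (rq n δ q).toReal` if `hgt q > Y`, `0` otherwise:
`∫_u ‖D_r‖² ≤ C U^(4δ + 2nδ) ∑_{hgt q > Y} kap (H/h + 1) (rq)² ≤ C U^((2n+5)δ) (H/Y + 1) ∑ (rq)² ≤ C H U^((2n+5)δ) (1/Y + 1/H)` (`kap ≤ (2U)^δ`, `rho_sum`).
(3) `∫_u ‖D_r‖ ≤ H^(1/2) (∫_u ‖D_r‖²)^(1/2) ≤ C H U^((n+3)δ) (1/Y + 1/H)^(1/2)`, `fub_r`: times `H^(n-1)`; sum over `r`, integrate over `t ∈ [0, 2U]` (Tonelli).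
(4) `B h` = `∫⁻_{t ∈ [0,2U]} ‖Dg (sh α h t) - DgY Y (sh α h t)‖ₑ` for `h` in the box, `0` otherwise. Measurability: on positive arguments `Dg` and `DgY Y` are continuous (`Dg_continuousOn` of P07318s/Cont.lean; `DgY` in the same way, uniform convergence
on bounded sets), so the integrand is measurable on `[0, 2U] × box`. (To have honest measurable functions, compose with `max · 1` in each coordinate.) For the individual `D_r` the same.
-/

set_option autoImplicit false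

namespace Pool.Agent.P07318h

open MeasureTheory Complex Pool.Agent.P07318s Pool.Agent.P07318f

namespace TailDAux

/-! ### Terms and sums -/

/-- the term of one variable -/
noncomputable def tm (x : ℝ) (q : Q) : ℂ :=
  (((hgt q.1) ^ (-(1 / 2) : ℝ) * Om (hgt q.1) x : ℝ) : ℂ) * ex x q.1

theorem tm_norm (x : ℝ) (q : Q) : ‖tm x q‖ = (hgt q.1) ^ (-(1 / 2) : ℝ) * Om (hgt q.1) x :=
  LongPartAux.full_norm x q

theorem tm_summable {x : ℝ} (hx : 0 < x) : Summable fun q : Q => ‖tm x q‖ :=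
  (cfQ_summable hx).congr fun q => (tm_norm x q).symm

theorem tm_cont (q : Q) : ContinuousOn (fun x => tm x q) (Set.Ioi 0) := by
  unfold tm
  exact (Complex.continuous_ofReal.comp_continuousOn
    (continuousOn_const.mul (LongPartAux.Om_cont (one_le_hgt q.1)))).mul
    (LongPartAux.ex_cont q.1).continuousOn

theorem tm_mono {x y : ℝ} (hx : 0 < x) (hxy : x ≤ y) (q : Q) : ‖tm x q‖ ≤ ‖tm y q‖ := by
  rw [tm_norm, tm_norm]
  exact mul_le_mul_of_nonneg_left (LongPartAux.Om_mono (one_le_hgt q.1) hx hxy)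
    (Real.rpow_nonneg (hgt_pos q.1).le _)

open Classical in
/-- the term of a sum over the points with the property `P` -/
noncomputable def pt {k : ℕ} (P : (Fin k → Q) → Prop) (x : Fin k → ℝ) (q : Fin k → Q) : ℂ :=
  if P q then ∏ j, tm (x j) (q j) else 0

/-- the sum over the points with the property `P` -/
noncomputable def PS {k : ℕ} (P : (Fin k → Q) → Prop) (x : Fin k → ℝ) : ℂ := ∑' q, pt P x q

theorem pt_norm {k : ℕ} (P : (Fin k → Q) → Prop) (x : Fin k → ℝ) (q : Fin k → Q) :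
    ‖pt P x q‖ ≤ ∏ j, ‖tm (x j) (q j)‖ := by
  unfold pt
  split_ifs
  · rw [norm_prod]
  · rw [norm_zero]
    exact Finset.prod_nonneg fun _ _ => norm_nonneg _

theorem pt_summable {k : ℕ} (P : (Fin k → Q) → Prop) (x : Fin k → ℝ) (hx : ∀ j, 0 < x j) :
    Summable (pt P x) := by
  have h1 := summable_pi_prod_real (fun (j : Fin k) (q : Q) => ‖tm (x j) q‖) (fun j => tm_summable (hx j))
    (fun j q => norm_nonneg _)
  exact Summable.of_norm_bounded h1 fun q => pt_norm P x q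

theorem ps_cont {k : ℕ} (P : (Fin k → Q) → Prop) : ContinuousOn (PS P) {x | ∀ j, 0 < x j} := by
  intro x0 hx0
  have hx0' : ∀ j, 0 < x0 j := hx0
  have hS : IsOpen {x : Fin k → ℝ | ∀ j, x j ∈ Set.Ioo 0 (x0 j + 1)} := by
    have : {x : Fin k → ℝ | ∀ j, x j ∈ Set.Ioo 0 (x0 j + 1)} =
        Set.pi Set.univ (fun j => Set.Ioo 0 (x0 j + 1)) := by
      ext x
      simp
    rw [this]
    exact isOpen_set_pi Set.finite_univ (fun j _ => isOpen_Ioo)
  have h1 : ContinuousOn (PS P) {x : Fin k → ℝ | ∀ j, x j ∈ Set.Ioo 0 (x0 j + 1)} := by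
    unfold PS
    refine continuousOn_tsum (u := fun q : Fin k → Q => ∏ j, ‖tm (x0 j + 1) (q j)‖) (fun q => ?_)
      (summable_pi_prod_real (fun (j : Fin k) (q : Q) => ‖tm (x0 j + 1) q‖)
        (fun j => tm_summable (by linarith [hx0' j])) (fun j p => norm_nonneg _)) (fun q x hx => ?_)
    · unfold pt
      by_cases hp : P q
      · simp only [if_pos hp]
        refine continuousOn_finsetProd _ (fun j _ => ?_)
        exact (tm_cont (q j)).comp (continuous_apply j).continuousOn (fun x hx => (hx j).1)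
      · simp only [if_neg hp]
        exact continuousOn_const
    · refine (pt_norm P x q).trans (Finset.prod_le_prod (fun j _ => norm_nonneg _) (fun j _ => ?_))
      exact tm_mono (hx j).1 (hx j).2.le (q j)
  refine (h1.continuousAt (hS.mem_nhds ?_)).continuousWithinAt
  intro j
  exact ⟨hx0' j, by linarith⟩

/-- the points where the height of the coordinate `r` is the first large one -/
def Pr {n : ℕ} (Y : ℝ) (r : Fin n) (q : Fin (n + 1) → Q) : Prop :=
  lam (fun j => (q j).1) = 0 ∧ Y < hgt (q r.succ).1 ∧ ∀ j : Fin n, j < r → hgt (q j.succ).1 ≤ Y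

theorem dg_sub {n : ℕ} (Y : ℝ) (x : Fin (n + 1) → ℝ) (hx : ∀ j, 0 < x j) :
    Dg x - DgY Y x = ∑ r : Fin n, PS (Pr Y r) x := by
  have h1 : Dg x = PS (fun q => lam (fun j => (q j).1) = 0) x := by
    rw [Dg_eq x hx]
    unfold PS pt
    refine tsum_congr fun q => ?_
    by_cases h : lam (fun j => (q j).1) = 0
    · rw [if_pos h, if_pos h]
      rfl
    · rw [if_neg h, if_neg h]
  have h2 : DgY Y x = PS (fun q => lam (fun j => (q j).1) = 0 ∧ ∀ j : Fin n, hgt (q j.succ).1 ≤ Y) x := by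
    unfold DgY PS pt
    refine tsum_congr fun q => ?_
    by_cases h : lam (fun j => (q j).1) = 0 ∧ ∀ j : Fin n, hgt (q j.succ).1 ≤ Y
    · rw [if_pos h, if_pos h]
      rfl
    · rw [if_neg h, if_neg h]
  rw [h1, h2]
  unfold PS
  rw [← (pt_summable _ x hx).tsum_sub (pt_summable _ x hx),
    ← Summable.tsum_finsetSum fun r _ => pt_summable (Pr Y r) x hx]
  refine tsum_congr fun q => ?_
  unfold pt
  by_cases h0 : lam (fun j => (q j).1) = 0
  · by_cases h3 : ∀ j : Fin n, hgt (q j.succ).1 ≤ Y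
    · rw [if_pos h0, if_pos ⟨h0, h3⟩, sub_self]
      refine (Finset.sum_eq_zero fun r _ => ?_).symm
      rw [if_neg]
      intro h4
      exact absurd h4.2.1 (not_lt.2 (h3 r))
    · rw [if_pos h0, if_neg (fun h => h3 h.2), sub_zero]
      push Not at h3
      obtain ⟨r, hr, hmin⟩ : ∃ r : Fin n, Y < hgt (q r.succ).1 ∧ ∀ j, j < r → hgt (q j.succ).1 ≤ Y := by
        have hne : (Finset.univ.filter fun j : Fin n => Y < hgt (q j.succ).1).Nonempty := by
          obtain ⟨j, hj⟩ := h3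
          exact ⟨j, by simpa using hj⟩
        refine ⟨Finset.min' _ hne, ?_, fun j hj => ?_⟩
        · have := Finset.min'_mem _ hne
          simpa using this
        · by_contra hc
          push Not at hc
          have := Finset.min'_le (Finset.univ.filter fun j : Fin n => Y < hgt (q j.succ).1) j (by simpa using hc)
          exact absurd hj (not_lt.2 this)
      rw [Finset.sum_eq_single r]
      · rw [if_pos ⟨h0, hr, hmin⟩]
      · intro s _ hs
        rw [if_neg]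
        intro h4
        rcases lt_or_gt_of_ne hs with h5 | h5
        · exact absurd h4.2.1 (not_lt.2 (hmin s h5))
        · exact absurd hr (not_lt.2 (h4.2.2 r h5))
      · intro h
        exact absurd (Finset.mem_univ r) h
  · rw [if_neg h0, if_neg (fun h => h0 h.1), sub_self]
    refine (Finset.sum_eq_zero fun r _ => ?_).symm
    rw [if_neg]
    intro h4
    exact h0 h4.1

theorem ps_split {n : ℕ} (s : Fin (n + 1)) (P : (Fin (n + 1) → Q) → Prop) (x : Fin (n + 1) → ℝ)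
    (hx : ∀ j, 0 < x j) :
    PS P x = ∑' q : Q, tm (x s) q *
      PS (fun p : Fin n → Q => P (Fin.insertNthEquiv (fun _ => Q) s (q, p))) (fun j => x (s.succAbove j)) := by
  unfold PS
  rw [← (Fin.insertNthEquiv (fun _ => Q) s).tsum_eq]
  have hs : Summable fun z : Q × (Fin n → Q) => pt P x (Fin.insertNthEquiv (fun _ => Q) s z) :=
    ((Fin.insertNthEquiv (fun _ => Q) s).summable_iff (f := pt P x)).2 (pt_summable P x hx)
  rw [hs.tsum_prod]
  refine tsum_congr fun q => ?_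
  rw [← tsum_mul_left]
  refine tsum_congr fun p => ?_
  unfold pt
  by_cases h : P (Fin.insertNthEquiv (fun _ => Q) s (q, p))
  · rw [if_pos h, if_pos h, Fin.prod_univ_succAbove _ s]
    simp [Fin.insertNthEquiv]
  · rw [if_neg h, if_neg h, mul_zero]

theorem ps_bound {n : ℕ} {δ Co U : ℝ} (hδ : 0 < δ) (hδ2 : δ ≤ 1 / 2) (hU : 1 ≤ U) (hCo : 0 < Co)
    (hOm : ∀ h x : ℝ, 1 ≤ h → U ≤ x → x ≤ 4 * U → Om h x ≤ Co * kap δ U h)
    (P : (Fin n → Q) → Prop) (q : Q) (y : Fin n → ℝ) (hy : ∀ j, U ≤ y j ∧ y j ≤ 4 * U)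
    (hP : ∀ p, P p → lgr q.1 + ∑ j, lgr (p j).1 = 0) :
    ‖PS P y‖ₑ ≤ ENNReal.ofReal ((Co * U ^ δ) ^ n) * rq n δ q := by
  have hU0 : 0 < U := by linarith
  unfold PS rq
  refine enorm_tsum_le_tsum_enorm.trans ?_
  rw [← ENNReal.tsum_mul_left]
  refine ENNReal.tsum_le_tsum fun p => ?_
  unfold pt
  by_cases h : P p
  · rw [if_pos h, if_pos (hP p h), ← ofReal_norm, ← ENNReal.ofReal_mul (by positivity)]
    refine ENNReal.ofReal_le_ofReal ?_
    rw [norm_prod]
    have e : (Co * U ^ δ) ^ n * ∏ j, (hgt (p j).1) ^ (-(1 / 2) - δ : ℝ) =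
        ∏ j : Fin n, (Co * U ^ δ * (hgt (p j).1) ^ (-(1 / 2) - δ : ℝ)) := by
      rw [Finset.prod_mul_distrib, Finset.prod_const, Finset.card_univ, Fintype.card_fin]
    rw [e]
    refine Finset.prod_le_prod (fun j _ => norm_nonneg _) fun j _ => ?_
    rw [tm_norm]
    have hh := hgt_pos (p j).1
    have h1 := hOm (hgt (p j).1) (y j) (one_le_hgt _) (hy j).1 (hy j).2
    have h2 : kap δ U (hgt (p j).1) ≤ (U / hgt (p j).1) ^ δ := kap_le (by linarith) hU0 hh
    calc (hgt (p j).1) ^ (-(1 / 2) : ℝ) * Om (hgt (p j).1) (y j)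
        ≤ (hgt (p j).1) ^ (-(1 / 2) : ℝ) * (Co * (U / hgt (p j).1) ^ δ) := by
          refine mul_le_mul_of_nonneg_left (h1.trans ?_) (Real.rpow_nonneg hh.le _)
          exact mul_le_mul_of_nonneg_left h2 hCo.le
      _ = Co * U ^ δ * (hgt (p j).1) ^ (-(1 / 2) - δ : ℝ) := by
          rw [Real.div_rpow hU0.le hh.le, Real.rpow_sub hh]
          ring
  · rw [if_neg h, enorm_zero]
    exact zero_le

/-! ### Cauchy-Schwarz on an interval -/

theorem cs_int {f : ℝ → ENNReal} (hf : Measurable f) {b H M : ℝ} (hH : 0 ≤ H) (hM : 0 ≤ M)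
    (h : ∫⁻ u in Set.Icc b (b + H), f u ^ 2 ≤ ENNReal.ofReal M) :
    ∫⁻ u in Set.Icc b (b + H), f u ≤ ENNReal.ofReal (√(H * M)) := by
  have h1 := ENNReal.lintegral_mul_le_Lp_mul_Lq (volume.restrict (Set.Icc b (b + H)))
    (Real.HolderConjugate.two_two) (f := fun _ => (1 : ENNReal)) (g := f) aemeasurable_const hf.aemeasurable
  simp only [Pi.mul_apply, one_mul, ENNReal.one_rpow, lintegral_const, Measure.restrict_apply_univ,
    Real.volume_Icc, add_sub_cancel_left] at h1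
  refine h1.trans ?_
  have h2 : ∫⁻ u in Set.Icc b (b + H), f u ^ (2 : ℝ) ≤ ENNReal.ofReal M := by
    simp only [ENNReal.rpow_two]
    exact h
  calc ENNReal.ofReal H ^ (1 / 2 : ℝ) * (∫⁻ u in Set.Icc b (b + H), f u ^ (2 : ℝ)) ^ (1 / 2 : ℝ)
      ≤ ENNReal.ofReal H ^ (1 / 2 : ℝ) * ENNReal.ofReal M ^ (1 / 2 : ℝ) := by gcongr
    _ = ENNReal.ofReal (√(H * M)) := by
      rw [← ENNReal.mul_rpow_of_nonneg _ _ (by norm_num), ← ENNReal.ofReal_mul hH,
        ENNReal.ofReal_rpow_of_nonneg (mul_nonneg hH hM) (by norm_num), Real.sqrt_eq_rpow]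


/-! ### The bound for one variable -/

theorem rq_ne_top {n : ℕ} {δ Cr : ℝ} (hr : ∑' q : Q, (rq n δ q) ^ 2 ≤ ENNReal.ofReal Cr) (q : Q) :
    rq n δ q ≠ ⊤ := by
  intro h
  have h1 : (rq n δ q) ^ 2 ≤ ENNReal.ofReal Cr := (ENNReal.le_tsum q).trans hr
  rw [h] at h1
  simp at h1

theorem rq_toReal_le {n : ℕ} {δ Cr : ℝ} (hCr : 0 ≤ Cr) (hr : ∑' q : Q, (rq n δ q) ^ 2 ≤ ENNReal.ofReal Cr)
    (q : Q) : (rq n δ q).toReal ≤ √Cr := by
  have h1 : (rq n δ q) ^ 2 ≤ ENNReal.ofReal Cr := (ENNReal.le_tsum q).trans hr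
  have h2 := ENNReal.toReal_mono ENNReal.ofReal_ne_top h1
  rw [ENNReal.toReal_ofReal hCr, ENNReal.toReal_pow] at h2
  exact Real.le_sqrt_of_sq_le h2

theorem norm_chr (a : ℂ) (U : ℝ) (k : ℤ) (x u : ℝ) (q : ℕ+ × ℕ+) : ‖a * (ek U k x * ex u q)‖ = ‖a‖ := by
  rw [norm_mul, norm_mul, norm_ek, norm_ex, mul_one, mul_one]

theorem norm_chr' (a : ℂ) (u : ℝ) (q : ℕ+ × ℕ+) : ‖a * ex u q‖ = ‖a‖ := by
  rw [norm_mul, norm_ex, mul_one]

theorem key {n : ℕ} {δ U H b Y t K Cf Cw Cr : ℝ} (hδ : 0 < δ) (hδ2 : δ ≤ 1 / 4) (hU : 1 ≤ U) (hH : 0 < H)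
    (hY : 1 ≤ Y) (hK : 0 ≤ K) (hCf : 0 < Cf) (hCw : 0 < Cw) (hCr : 0 < Cr) (ω : ℤ → ℝ → ℂ)
    (hω1 : ∀ (k : ℤ) (h : ℝ), 1 ≤ h → ‖ω k h‖ ≤ Cf / (1 + (k : ℝ) ^ 2) * kap δ U h)
    (hω2 : ∀ h : ℝ, 1 ≤ h → ∀ x : ℝ, U ≤ x → x ≤ 16 * U →
      HasSum (fun k : ℤ => ω k h * cexp (((2 * Real.pi * k * x / (32 * U) : ℝ) : ℂ) * I)) (Om h x : ℂ))
    (hw : ∀ (c : Q → ℂ) (B : Q → ℝ) (B₀ : ℝ), (∀ q, 0 ≤ B q) → (∀ q, B q ≤ B₀) →
      (∀ q, ‖c q‖ ≤ kap δ U (hgt q.1) * (hgt q.1) ^ (-(1 / 2) : ℝ) * B q) →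
      (Summable fun q : Q => ‖c q‖) ∧
      ∫⁻ h in Set.Icc b (b + H), ‖∑' q : Q, c q * ex h q.1‖ₑ ^ 2 ≤
        ENNReal.ofReal (Cw * U ^ (4 * δ)) *
          ∑' q : Q, ENNReal.ofReal (kap δ U (hgt q.1) * (H * (hgt q.1)⁻¹ + 1) * B q ^ 2))
    (hr : ∑' q : Q, (rq n δ q) ^ 2 ≤ ENNReal.ofReal Cr)
    (hb : U ≤ t + b) (hb' : t + (b + H) ≤ 16 * U)
    (E : Q → ℂ) (hE : ∀ q, ‖E q‖ₑ ≤ ENNReal.ofReal K * rq n δ q) (hE0 : ∀ q, ¬ Y < hgt q.1 → E q = 0) :
    ∫⁻ u in Set.Icc b (b + H), ‖∑' q : Q, tm (t + u) q * E q‖ₑ ≤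
      ENNReal.ofReal (Cf * (∑' k, pk k) * √(H * (Cw * U ^ (5 * δ) * (H / Y + 1) * K ^ 2 * Cr))) := by
  classical
  have hU0 : 0 < U := by linarith
  have hY0 : 0 < Y := by linarith
  set R : Q → ℝ := fun q => (rq n δ q).toReal with hRdef
  have hR0 : ∀ q, 0 ≤ R q := fun q => ENNReal.toReal_nonneg
  have hRe : ∀ q, ENNReal.ofReal (R q) = rq n δ q := fun q => ENNReal.ofReal_toReal (rq_ne_top hr q)
  set B : Q → ℝ := fun q => if Y < hgt q.1 then K * R q else 0 with hBdef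
  have hB0 : ∀ q, 0 ≤ B q := by
    intro q
    rw [hBdef]
    dsimp only
    split_ifs
    · exact mul_nonneg hK (hR0 q)
    · exact le_rfl
  have hBb : ∀ q, B q ≤ K * √Cr := by
    intro q
    rw [hBdef]
    dsimp only
    split_ifs
    · exact mul_le_mul_of_nonneg_left (rq_toReal_le hCr.le hr q) hK
    · positivity
  have hEB : ∀ q, ‖E q‖ ≤ B q := by
    intro q
    rw [hBdef]
    dsimp only
    split_ifs with h
    · have h1 := hE q
      rw [← hRe q, ← ofReal_norm, ← ENNReal.ofReal_mul hK] at h1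
      exact (ENNReal.ofReal_le_ofReal_iff (mul_nonneg hK (hR0 q))).1 h1
    · rw [hE0 q h, norm_zero]
  have hA0 : ∀ q : Q, 0 ≤ kap δ U (hgt q.1) * (hgt q.1) ^ (-(1 / 2) : ℝ) := fun q =>
    mul_nonneg (kap_nonneg hU0.le (hgt_pos q.1).le) (Real.rpow_nonneg (hgt_pos q.1).le _)
  set A : Q → ℝ := fun q => kap δ U (hgt q.1) * (hgt q.1) ^ (-(1 / 2) : ℝ) * B q with hAdef
  have hAn : ∀ q, 0 ≤ A q := fun q => mul_nonneg (hA0 q) (hB0 q)
  have hAs : Summable A := by
    have h1 := (hw (fun q => (A q : ℂ)) B (K * √Cr) hB0 hBb (fun q => by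
      rw [Complex.norm_real, Real.norm_of_nonneg (hAn q)])).1
    refine h1.congr fun q => ?_
    rw [Complex.norm_real, Real.norm_of_nonneg (hAn q)]
  set c : ℤ → Q → ℂ := fun k q =>
    (((hgt q.1) ^ (-(1 / 2) : ℝ) : ℝ) : ℂ) * ω k (hgt q.1) * E q * ex t q.1 with hcdef
  have hc : ∀ k q, ‖c k q‖ ≤ kap δ U (hgt q.1) * (hgt q.1) ^ (-(1 / 2) : ℝ) * (Cf * pk k * B q) := by
    intro k q
    rw [hcdef]
    dsimp only
    have hh := Real.rpow_nonneg (hgt_pos q.1).le (-(1 / 2) : ℝ)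
    rw [norm_mul, norm_mul, norm_mul, norm_ex, mul_one, Complex.norm_real, Real.norm_of_nonneg hh]
    have h1 := hω1 k (hgt q.1) (one_le_hgt q.1)
    calc (hgt q.1) ^ (-(1 / 2) : ℝ) * ‖ω k (hgt q.1)‖ * ‖E q‖
        ≤ (hgt q.1) ^ (-(1 / 2) : ℝ) * (Cf / (1 + (k : ℝ) ^ 2) * kap δ U (hgt q.1)) * B q := by
          refine mul_le_mul (mul_le_mul_of_nonneg_left h1 hh) (hEB q) (norm_nonneg _) ?_
          exact mul_nonneg hh (mul_nonneg (by positivity) (kap_nonneg hU0.le (hgt_pos q.1).le))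
      _ = _ := by unfold pk; ring
  have hps : Summable pk := LongPartAux.pk_summable
  set S : ℤ → ℝ → ℂ := fun k u => ∑' q : Q, c k q * ex u q.1 with hSdef
  have hcs : ∀ k, Summable fun q => ‖c k q‖ := fun k =>
    (hw (c k) (fun q => Cf * pk k * B q) (Cf * pk k * (K * √Cr))
      (fun q => mul_nonneg (mul_nonneg hCf.le (pk_pos k).le) (hB0 q))
      (fun q => mul_le_mul_of_nonneg_left (hBb q) (mul_nonneg hCf.le (pk_pos k).le)) (hc k)).1
  have hScont : ∀ k, Continuous (S k) := by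
    intro k
    rw [hSdef]
    refine continuous_tsum (u := fun q => ‖c k q‖) (fun q => ?_) (hcs k) (fun q u => ?_)
    · exact continuous_const.mul (LongPartAux.ex_cont q.1)
    · rw [norm_mul, norm_ex, mul_one]
  -- pointwise bound
  have hpt : ∀ u ∈ Set.Icc b (b + H), ‖∑' q : Q, tm (t + u) q * E q‖ₑ ≤ ∑' k : ℤ, ‖S k u‖ₑ := by
    intro u hu
    have hsum : Summable fun z : Q × ℤ => c z.2 z.1 * (ek U z.2 (t + u) * ex u z.1.1) := by
      have h1 : Summable fun z : Q × ℤ => A z.1 * (Cf * pk z.2) :=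
        Summable.mul_of_nonneg hAs (hps.mul_left Cf) hAn fun k => mul_nonneg hCf.le (pk_pos k).le
      refine Summable.of_norm_bounded h1 fun z => ?_
      rw [norm_chr]
      refine (hc z.2 z.1).trans (le_of_eq ?_)
      rw [hAdef]
      ring
    have hfib : ∀ q : Q, HasSum (fun k : ℤ => c k q * (ek U k (t + u) * ex u q.1)) (tm (t + u) q * E q) := by
      intro q
      have h1 := hω2 (hgt q.1) (one_le_hgt q.1) (t + u) (by linarith [hu.1]) (by linarith [hu.2])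
      have h2 := h1.mul_left ((((hgt q.1) ^ (-(1 / 2) : ℝ) : ℝ) : ℂ) * E q * ex t q.1 * ex u q.1)
      have e1 : (((hgt q.1) ^ (-(1 / 2) : ℝ) : ℝ) : ℂ) * E q * ex t q.1 * ex u q.1 * (Om (hgt q.1) (t + u) : ℂ) =
          tm (t + u) q * E q := by
        unfold tm
        rw [lgr_add_aux]
        push_cast
        ring
      rw [e1] at h2
      refine h2.congr_fun ?_
      intro k
      rw [hcdef]
      unfold ek
      ring
    have h2 := hsum.hasSum.prod_fiberwise hfib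
    have h3 : HasSum (fun z : ℤ × Q => c z.1 z.2 * (ek U z.1 (t + u) * ex u z.2.1))
        (∑' z : Q × ℤ, c z.2 z.1 * (ek U z.2 (t + u) * ex u z.1.1)) :=
      (Equiv.prodComm ℤ Q).hasSum_iff.2 hsum.hasSum
    have hfib2 : ∀ k : ℤ, HasSum (fun q : Q => c k q * (ek U k (t + u) * ex u q.1)) (ek U k (t + u) * S k u) := by
      intro k
      have hs2 : Summable fun q : Q => c k q * ex u q.1 := by
        refine Summable.of_norm_bounded (hcs k) fun q => ?_
        rw [norm_mul, norm_ex, mul_one]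
      have h4 := hs2.hasSum.mul_left (ek U k (t + u))
      refine h4.congr_fun ?_
      intro q
      ring
    have h5 := h3.prod_fiberwise hfib2
    rw [h2.tsum_eq, ← h5.tsum_eq]
    refine enorm_tsum_le_tsum_enorm.trans (le_of_eq ?_)
    refine tsum_congr fun k => ?_
    rw [enorm_mul]
    have h6 : ‖ek U k (t + u)‖ₑ = 1 := by
      rw [← ofReal_norm, norm_ek, ENNReal.ofReal_one]
    rw [h6, one_mul]
  -- the large sieve for one character
  set M : ℝ := Cw * U ^ (5 * δ) * (H / Y + 1) * K ^ 2 * Cr with hMdef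
  have hM0 : 0 ≤ M := by positivity
  have hS2 : ∀ k, ∫⁻ u in Set.Icc b (b + H), ‖S k u‖ₑ ^ 2 ≤ ENNReal.ofReal ((Cf * pk k) ^ 2 * M) := by
    intro k
    have h1 := (hw (c k) (fun q => Cf * pk k * B q) (Cf * pk k * (K * √Cr))
      (fun q => mul_nonneg (mul_nonneg hCf.le (pk_pos k).le) (hB0 q))
      (fun q => mul_le_mul_of_nonneg_left (hBb q) (mul_nonneg hCf.le (pk_pos k).le)) (hc k)).2
    refine h1.trans ?_
    have h2 : ∑' q : Q, ENNReal.ofReal (kap δ U (hgt q.1) * (H * (hgt q.1)⁻¹ + 1) * (Cf * pk k * B q) ^ 2) ≤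
        ENNReal.ofReal (U ^ δ * (H / Y + 1) * (Cf * pk k) ^ 2 * K ^ 2) * ENNReal.ofReal Cr := by
      refine le_trans ?_ (mul_le_mul' le_rfl hr)
      rw [← ENNReal.tsum_mul_left]
      refine ENNReal.tsum_le_tsum fun q => ?_
      rw [← hRe q, ← ENNReal.ofReal_pow (hR0 q), ← ENNReal.ofReal_mul (by positivity)]
      refine ENNReal.ofReal_le_ofReal ?_
      have hh := hgt_pos q.1
      have hh1 := one_le_hgt q.1
      rw [hBdef]
      dsimp only
      split_ifs with h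
      · have h3 : kap δ U (hgt q.1) ≤ U ^ δ := by
          refine (kap_le (by linarith) hU0 hh).trans ?_
          refine Real.rpow_le_rpow (by positivity) ?_ hδ.le
          exact div_le_self hU0.le hh1
        have h4 : H * (hgt q.1)⁻¹ + 1 ≤ H / Y + 1 := by
          have : H * (hgt q.1)⁻¹ ≤ H / Y := by
            rw [div_eq_mul_inv]
            exact mul_le_mul_of_nonneg_left (inv_anti₀ hY0 h.le) hH.le
          linarith
        calc kap δ U (hgt q.1) * (H * (hgt q.1)⁻¹ + 1) * (Cf * pk k * (K * R q)) ^ 2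
            ≤ U ^ δ * (H / Y + 1) * (Cf * pk k * (K * R q)) ^ 2 := by
              refine mul_le_mul_of_nonneg_right ?_ (sq_nonneg _)
              exact mul_le_mul h3 h4 (by positivity) (by positivity)
          _ = _ := by ring
      · rw [mul_zero, zero_pow (by norm_num), mul_zero]
        have := pk_pos k
        have := hR0 q
        positivity
    refine (mul_le_mul' le_rfl h2).trans ?_
    rw [← ENNReal.ofReal_mul (by positivity), ← ENNReal.ofReal_mul (by positivity)]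
    refine ENNReal.ofReal_le_ofReal (le_of_eq ?_)
    rw [hMdef]
    have e : U ^ (5 * δ) = U ^ (4 * δ) * U ^ δ := by
      rw [← Real.rpow_add hU0]
      congr 1
      ring
    rw [e]
    ring
  have hS1 : ∀ k, ∫⁻ u in Set.Icc b (b + H), ‖S k u‖ₑ ≤ ENNReal.ofReal (Cf * pk k * √(H * M)) := by
    intro k
    have h1 := cs_int (f := fun u => ‖S k u‖ₑ) (hScont k).measurable.enorm hH.le
      (by positivity : 0 ≤ (Cf * pk k) ^ 2 * M) (hS2 k)
    refine h1.trans (ENNReal.ofReal_le_ofReal (le_of_eq ?_))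
    have h2 : 0 ≤ Cf * pk k := mul_nonneg hCf.le (pk_pos k).le
    rw [show H * ((Cf * pk k) ^ 2 * M) = (Cf * pk k) ^ 2 * (H * M) by ring, Real.sqrt_mul (sq_nonneg _),
      Real.sqrt_sq h2]
  calc ∫⁻ u in Set.Icc b (b + H), ‖∑' q : Q, tm (t + u) q * E q‖ₑ
      ≤ ∫⁻ u in Set.Icc b (b + H), ∑' k : ℤ, ‖S k u‖ₑ := by
        refine setLIntegral_mono' measurableSet_Icc fun u hu => hpt u hu
    _ = ∑' k : ℤ, ∫⁻ u in Set.Icc b (b + H), ‖S k u‖ₑ :=
        lintegral_tsum fun k => (hScont k).measurable.enorm.aemeasurable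
    _ ≤ ∑' k : ℤ, ENNReal.ofReal (Cf * pk k * √(H * M)) := ENNReal.tsum_le_tsum hS1
    _ = ENNReal.ofReal (∑' k : ℤ, Cf * pk k * √(H * M)) := by
        rw [ENNReal.ofReal_tsum_of_nonneg (fun k => ?_) ((hps.mul_left Cf).mul_right _)]
        have := pk_pos k
        positivity
    _ = ENNReal.ofReal (Cf * (∑' k, pk k) * √(H * M)) := by
        rw [tsum_mul_right, tsum_mul_left]


/-! ### The points on the box -/

theorem sh_bd {n : ℕ} {U H α t : ℝ} {β h : Fin n → ℝ} (hHU : H ≤ U) (hα1 : 2 * U ≤ α)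
    (hα2 : α ≤ 5 * U) (hβ1 : ∀ j, 2 * U ≤ β j) (hβ2 : ∀ j, β j ≤ 5 * U) (ht : t ∈ Set.Icc 0 (2 * U))
    (hh : h ∈ Set.Icc β (fun j => β j + H)) (j : Fin (n + 1)) :
    2 * U ≤ sh α h t j ∧ sh α h t j ≤ 4 * (2 * U) := by
  have h1 := ht.1
  have h2 := ht.2
  refine Fin.cases ?_ (fun i => ?_) j
  · rw [sh_zero]
    constructor <;> linarith
  · rw [sh_succ]
    have h3 := hh.1 i
    have h4 : h i ≤ β i + H := hh.2 i
    have h5 := hβ1 i
    have h6 := hβ2 i
    constructor <;> linarith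

theorem sh_update {n : ℕ} (α t u : ℝ) (h : Fin n → ℝ) (r : Fin n) (i : Fin (n + 1)) (hi : i ≠ r.succ) :
    sh α (Function.update h r u) t i = sh α h t i := by
  refine Fin.cases (motive := fun i => i ≠ r.succ → sh α (Function.update h r u) t i = sh α h t i) ?_
    (fun j => ?_) i hi
  · intro _
    rw [sh_zero, sh_zero]
  · intro hj
    rw [sh_succ, sh_succ, Function.update_of_ne]
    intro h1
    exact hj (by rw [h1])

theorem upd_mem {n : ℕ} {H u : ℝ} {β h : Fin n → ℝ} {r : Fin n} (hh : h ∈ Set.Icc β (fun j => β j + H))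
    (hu : u ∈ Set.Icc (β r) (β r + H)) : Function.update h r u ∈ Set.Icc β (fun j => β j + H) := by
  constructor
  · intro j
    by_cases hj : j = r
    · subst hj
      rw [Function.update_self]
      exact hu.1
    · rw [Function.update_of_ne hj]
      exact hh.1 j
  · intro j
    by_cases hj : j = r
    · subst hj
      rw [Function.update_self]
      exact hu.2
    · rw [Function.update_of_ne hj]
      exact hh.2 j

/-- the arguments, cut off from below -/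
noncomputable def mx {n : ℕ} (α : ℝ) (h : Fin n → ℝ) (t : ℝ) : Fin (n + 1) → ℝ := fun j => max (sh α h t j) 1

theorem mx_pos {n : ℕ} (α : ℝ) (h : Fin n → ℝ) (t : ℝ) (j : Fin (n + 1)) : 0 < mx α h t j :=
  lt_of_lt_of_le one_pos (le_max_right _ _)

theorem mx_eq {n : ℕ} {α : ℝ} {h : Fin n → ℝ} {t : ℝ} (hs : ∀ j, 1 ≤ sh α h t j) : mx α h t = sh α h t := by
  funext j
  exact max_eq_left (hs j)

theorem mx_cont {n : ℕ} (α : ℝ) : Continuous fun z : ℝ × (Fin n → ℝ) => mx α z.2 z.1 := by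
  unfold mx
  refine continuous_pi fun j => ?_
  refine Continuous.max ?_ continuous_const
  refine Fin.cases ?_ (fun i => ?_) j
  · simp only [sh_zero]
    fun_prop
  · simp only [sh_succ]
    fun_prop

theorem f_cont {n : ℕ} (α : ℝ) (P : (Fin (n + 1) → Q) → Prop) :
    Continuous fun z : ℝ × (Fin n → ℝ) => PS P (mx α z.2 z.1) :=
  (ps_cont P).comp_continuous (mx_cont α) fun z j => mx_pos α z.2 z.1 j

theorem sqrt_eq {n : ℕ} {Cw Cr Co H V Y δ : ℝ} (hCw : 0 < Cw) (hCr : 0 < Cr) (hCo : 0 < Co) (hH : 0 < H)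
    (hV : 0 < V) (hY : 0 < Y) :
    √(H * (Cw * V ^ (5 * δ) * (H / Y + 1) * ((Co * V ^ δ) ^ n) ^ 2 * Cr)) =
      √(Cw * Cr) * H * Co ^ n * (V ^ (((n : ℝ) + 5 / 2) * δ) * (1 / Y + 1 / H) ^ (1 / 2 : ℝ)) := by
  have hs : 0 ≤ 1 / Y + 1 / H := by positivity
  have e1 : H * (Cw * V ^ (5 * δ) * (H / Y + 1) * ((Co * V ^ δ) ^ n) ^ 2 * Cr) =
      (Cw * Cr) * ((H * (Co ^ n * V ^ (((n : ℝ) + 5 / 2) * δ))) ^ 2 * (1 / Y + 1 / H)) := by
    have e2 : (V ^ (((n : ℝ) + 5 / 2) * δ)) ^ 2 = V ^ (5 * δ) * ((V ^ δ) ^ n) ^ 2 := by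
      rw [← Real.rpow_natCast (V ^ δ) n, ← Real.rpow_mul hV.le, ← Real.rpow_natCast, ← Real.rpow_natCast,
        ← Real.rpow_mul hV.le, ← Real.rpow_mul hV.le, ← Real.rpow_add hV]
      congr 1
      push_cast
      ring
    have e3 : ((Co * V ^ δ) ^ n) ^ 2 = (Co ^ n) ^ 2 * ((V ^ δ) ^ n) ^ 2 := by rw [mul_pow, mul_pow]
    have e4 : (H * (Co ^ n * V ^ (((n : ℝ) + 5 / 2) * δ))) ^ 2 =
        H ^ 2 * (Co ^ n) ^ 2 * (V ^ (((n : ℝ) + 5 / 2) * δ)) ^ 2 := by ring
    rw [e3, e4, e2]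
    field_simp
  rw [e1, Real.sqrt_mul (by positivity), Real.sqrt_mul (sq_nonneg _), Real.sqrt_sq (by positivity),
    ← Real.sqrt_eq_rpow]
  ring

theorem pow_bd {n : ℕ} {U δ : ℝ} (hδ : 0 < δ) (hδ2 : δ ≤ 1 / 4) (hU : 1 ≤ U) :
    (2 * U) ^ (((n : ℝ) + 5 / 2) * δ) ≤ 2 ^ (n + 3) * U ^ ((2 * (n : ℝ) + 8) * δ) := by
  have hn : (0 : ℝ) ≤ n := Nat.cast_nonneg n
  rw [Real.mul_rpow (by norm_num) (by linarith)]
  refine mul_le_mul ?_ ?_ (by positivity) (by positivity)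
  · rw [← Real.rpow_natCast]
    refine Real.rpow_le_rpow_of_exponent_le (by norm_num) ?_
    push_cast
    nlinarith
  · refine Real.rpow_le_rpow_of_exponent_le hU ?_
    nlinarith

end TailDAux

theorem tail_d (n : ℕ) (δ : ℝ) (hδ : 0 < δ) (hδ2 : δ ≤ 1 / 4) : ∃ C : ℝ, 0 < C ∧
    ∀ (U Y H α : ℝ) (β : Fin n → ℝ), 1 ≤ U → 1 ≤ Y → 0 < H → H ≤ U → 2 * U ≤ α → α ≤ 5 * U →
    (∀ j, 2 * U ≤ β j) → (∀ j, β j ≤ 5 * U) →
    ∃ B : (Fin n → ℝ) → ENNReal, Measurable B ∧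
      (∀ h ∈ Set.Icc β (fun j => β j + H),
        ∫⁻ t in Set.Icc 0 (2 * U), ‖Dg (sh α h t) - DgY Y (sh α h t)‖ₑ ≤ B h) ∧
      ∫⁻ h in Set.Icc β (fun j => β j + H), B h ≤
        ENNReal.ofReal (C * H ^ n * (U ^ (1 + (2 * (n : ℝ) + 8) * δ) * (1 / Y + 1 / H) ^ (1 / 2 : ℝ))) := by
  classical
  obtain ⟨Cw, hCw, hw⟩ := wls δ hδ (by linarith)
  obtain ⟨Cr, hCr, hr⟩ := rho_sum n δ hδ
  obtain ⟨Cf, hCf, hf⟩ := four_sep δ hδ (by linarith)
  obtain ⟨Co, hCo, hOm⟩ := Om_le_kap δ hδ (by linarith)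
  have hP : 0 ≤ ∑' k, pk k := tsum_nonneg fun k => (pk_pos k).le
  set A : ℝ := Cf * (∑' k, pk k) * √(Cw * Cr) * Co ^ n * 2 ^ (n + 3) with hAdef
  have hA0 : 0 ≤ A := by positivity
  refine ⟨2 * n * A + 1, by positivity, ?_⟩
  intro U Y H α β hU hY hH hHU hα1 hα2 hβ1 hβ2
  have hU0 : 0 < U := by linarith
  have hV1 : (1 : ℝ) ≤ 2 * U := by linarith
  have hV0 : (0 : ℝ) < 2 * U := by linarith
  have hY0 : 0 < Y := by linarith
  obtain ⟨ω, hω1, hω2⟩ := hf (2 * U) hV1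
  obtain ⟨F, hFdef⟩ : ∃ F : Fin n → ℝ → (Fin n → ℝ) → ENNReal,
      F = fun r t h => ‖TailDAux.PS (TailDAux.Pr Y r) (TailDAux.mx α h t)‖ₑ := ⟨_, rfl⟩
  have hFm : ∀ r, Measurable fun z : ℝ × (Fin n → ℝ) => F r z.1 z.2 := by
    intro r
    rw [hFdef]
    exact (TailDAux.f_cont α (TailDAux.Pr Y r)).measurable.enorm
  have hFm' : ∀ r t, Measurable fun h : Fin n → ℝ => F r t h := fun r t =>
    Measurable.of_uncurry_left (f := F r) (x := t) (hFm r)
  have hGm : Measurable fun z : ℝ × (Fin n → ℝ) => ∑ r, F r z.1 z.2 :=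
    Finset.measurable_fun_sum _ fun r _ => hFm r
  have hbd : ∀ t ∈ Set.Icc 0 (2 * U), ∀ h ∈ Set.Icc β (fun j => β j + H), ∀ j,
      2 * U ≤ sh α h t j ∧ sh α h t j ≤ 4 * (2 * U) := fun t ht h hh j =>
    TailDAux.sh_bd hHU hα1 hα2 hβ1 hβ2 ht hh j
  have hmx : ∀ t ∈ Set.Icc 0 (2 * U), ∀ h ∈ Set.Icc β (fun j => β j + H),
      TailDAux.mx α h t = sh α h t := fun t ht h hh =>
    TailDAux.mx_eq fun j => by linarith [(hbd t ht h hh j).1]
  set K : ℝ := (Co * (2 * U) ^ δ) ^ n with hKdef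
  have hK0 : 0 ≤ K := by positivity
  set L : ℝ := A * H ^ n * (U ^ ((2 * (n : ℝ) + 8) * δ) * (1 / Y + 1 / H) ^ (1 / 2 : ℝ)) with hLdef
  have hs : 0 ≤ 1 / Y + 1 / H := by positivity
  have hL0 : 0 ≤ L := by positivity
  -- one coordinate
  have hone : ∀ r : Fin n, ∀ t ∈ Set.Icc 0 (2 * U), ∀ h ∈ Set.Icc β (fun j => β j + H),
      ∫⁻ u in Set.Icc (β r) (β r + H), F r t (Function.update h r u) ≤
        ENNReal.ofReal (Cf * (∑' k, pk k) *
          √(H * (Cw * (2 * U) ^ (5 * δ) * (H / Y + 1) * K ^ 2 * Cr))) := by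
    intro r t ht h hh
    set y : Fin n → ℝ := fun j => sh α h t (r.succ.succAbove j) with hydef
    set E : Q → ℂ := fun q => TailDAux.PS (fun p : Fin n → Q =>
      TailDAux.Pr Y r (Fin.insertNthEquiv (fun _ => Q) r.succ (q, p))) y with hEdef
    have hFE : ∀ u ∈ Set.Icc (β r) (β r + H), F r t (Function.update h r u) =
        ‖∑' q : Q, TailDAux.tm (t + u) q * E q‖ₑ := by
      intro u hu
      have hm := TailDAux.upd_mem hh hu
      rw [hFdef]
      dsimp only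
      rw [hmx t ht _ hm, TailDAux.ps_split r.succ (TailDAux.Pr Y r) _
        (fun j => by linarith [(hbd t ht _ hm j).1])]
      have e1 : sh α (Function.update h r u) t r.succ = t + u := by
        rw [sh_succ, Function.update_self]
      have e2 : (fun j => sh α (Function.update h r u) t (r.succ.succAbove j)) = y := by
        funext j
        exact TailDAux.sh_update α t u h r _ (Fin.succAbove_ne _ _)
      rw [e1, e2]
    rw [setLIntegral_congr_fun measurableSet_Icc hFE]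
    have hβr1 := hβ1 r
    have hβr2 := hβ2 r
    have ht1 := ht.1
    have ht2 := ht.2
    refine TailDAux.key hδ hδ2 hV1 hH hY hK0 hCf hCw hCr ω hω1 hω2
      (fun c B B₀ h1 h2 h3 => hw (2 * U) H (β r) hV1 hH.le (by linarith) c B B₀ h1 h2 h3) hr
      (by linarith) (by linarith) E ?_ ?_
    · intro q
      rw [hEdef]
      refine TailDAux.ps_bound hδ (by linarith) hV1 hCo
        (fun h x hh h1 h2 => hOm (2 * U) h x hV1 hh h1 h2) _ q y (fun j => hbd t ht h hh _) ?_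
      intro p hp
      have h1 := hp.1
      unfold lam at h1
      rw [Fin.sum_univ_succAbove _ r.succ] at h1
      simpa [Fin.insertNthEquiv] using h1
    · intro q hq
      rw [hEdef]
      dsimp only
      unfold TailDAux.PS TailDAux.pt
      have h1 : ∀ p : Fin n → Q, ¬ TailDAux.Pr Y r (Fin.insertNthEquiv (fun _ => Q) r.succ (q, p)) := by
        intro p hp
        have h2 := hp.2.1
        simp only [Fin.insertNthEquiv_apply, Fin.insertNth_apply_same] at h2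
        exact hq h2
      simp only [if_neg (h1 _), tsum_zero]
  have hval : ∀ r : Fin n, ENNReal.ofReal (Cf * (∑' k, pk k) *
      √(H * (Cw * (2 * U) ^ (5 * δ) * (H / Y + 1) * K ^ 2 * Cr))) * ENNReal.ofReal (H ^ (n - 1)) ≤
        ENNReal.ofReal L := by
    intro r
    have hn : n ≠ 0 := r.pos.ne'
    rw [← ENNReal.ofReal_mul (by positivity)]
    refine ENNReal.ofReal_le_ofReal ?_
    rw [hKdef, TailDAux.sqrt_eq hCw hCr hCo hH hV0 hY0, hLdef, hAdef]
    have h1 := TailDAux.pow_bd (n := n) hδ hδ2 hU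
    have h2 : H ^ n = H * H ^ (n - 1) := (mul_pow_sub_one hn H).symm
    calc Cf * (∑' k, pk k) * (√(Cw * Cr) * H * Co ^ n *
          ((2 * U) ^ (((n : ℝ) + 5 / 2) * δ) * (1 / Y + 1 / H) ^ (1 / 2 : ℝ))) * H ^ (n - 1)
        ≤ Cf * (∑' k, pk k) * (√(Cw * Cr) * H * Co ^ n *
          ((2 ^ (n + 3) * U ^ ((2 * (n : ℝ) + 8) * δ)) * (1 / Y + 1 / H) ^ (1 / 2 : ℝ))) * H ^ (n - 1) := by
          gcongr
      _ = _ := by rw [h2]; ring
  have hbox : ∀ r : Fin n, ∀ t ∈ Set.Icc 0 (2 * U),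
      ∫⁻ h in Set.Icc β (fun j => β j + H), F r t h ≤ ENNReal.ofReal L := by
    intro r t ht
    exact (fub_r r β hH.le (F r t) (hFm' r t) _ (fun h hh => hone r t ht h hh)).trans (hval r)
  refine ⟨fun h => ∫⁻ t in Set.Icc 0 (2 * U), ∑ r, F r t h, ?_, ?_, ?_⟩
  · exact Measurable.lintegral_prod_left' hGm
  · intro h hh
    refine setLIntegral_mono' measurableSet_Icc fun t ht => ?_
    rw [TailDAux.dg_sub Y (sh α h t) (fun j => by linarith [(hbd t ht h hh j).1])]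
    refine (enorm_sum_le _ _).trans (le_of_eq ?_)
    refine Finset.sum_congr rfl fun r _ => ?_
    rw [hFdef]
    dsimp only
    rw [hmx t ht h hh]
  · have hswap : ∫⁻ h in Set.Icc β (fun j => β j + H), ∫⁻ t in Set.Icc 0 (2 * U), ∑ r, F r t h =
        ∫⁻ t in Set.Icc 0 (2 * U), ∫⁻ h in Set.Icc β (fun j => β j + H), ∑ r, F r t h := by
      refine lintegral_lintegral_swap ?_
      exact (hGm.comp measurable_swap).aemeasurable
    rw [hswap]
    calc ∫⁻ t in Set.Icc 0 (2 * U), ∫⁻ h in Set.Icc β (fun j => β j + H), ∑ r, F r t h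
        ≤ ∫⁻ _t in Set.Icc 0 (2 * U), ENNReal.ofReal (n * L) := by
          refine setLIntegral_mono' measurableSet_Icc fun t ht => ?_
          rw [lintegral_finsetSum _ fun r _ => hFm' r t]
          refine (Finset.sum_le_sum fun r _ => hbox r t ht).trans (le_of_eq ?_)
          rw [Finset.sum_const, Finset.card_univ, Fintype.card_fin, nsmul_eq_mul,
            ENNReal.ofReal_mul (Nat.cast_nonneg n), ENNReal.ofReal_natCast]
      _ = ENNReal.ofReal (n * L) * ENNReal.ofReal (2 * U) := by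
          rw [lintegral_const, Measure.restrict_apply_univ, Real.volume_Icc, sub_zero]
      _ ≤ _ := by
          rw [← ENNReal.ofReal_mul (by positivity)]
          refine ENNReal.ofReal_le_ofReal ?_
          have e : U ^ (1 + (2 * (n : ℝ) + 8) * δ) = U * U ^ ((2 * (n : ℝ) + 8) * δ) := by
            rw [Real.rpow_add hU0, Real.rpow_one]
          rw [e, hLdef]
          have h3 : 0 ≤ H ^ n * (U * U ^ ((2 * (n : ℝ) + 8) * δ) * (1 / Y + 1 / H) ^ (1 / 2 : ℝ)) := by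
            positivity
          nlinarith

end Pool.Agent.P07318h
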