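import Pool.Agent.Lib.P07318h.Defs
import Pool.Agent.Lib.P07318s.AFE

/-!
# Telescoping

PROOF. Write `g₀ = gz(t+α)`, `g_j = gz(t+h j)`, `s_j = fS Y (t+h j)`, `b_j = fB Y (t + h j)`, `e_j = g_j - Fd(t+h j)`, so `g_j - s_j = b_j + e_j` (`fS_add`, `t + h j ≥ 1`), `‖e_j‖ ≤ C (t+h j)^(-3/8) ≤ C U^(-3/8)` (`afe` with `ε = 1/8`).
Identity (induction on `n`, `Fin.prod_univ_succ`): `∏ g_j - ∏ s_j = ∑_r (∏_{j<r} s_j) (g_r - s_r) ∏_{j>r} g_j`. Multiply by `g₀`; call `T_r` the terms. If all of `g₀`, `‖s_j‖` (`j < r`), `g_j` (`j > r`) are `≤ M` then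
`T_r = Ph M Y α r t h (b_r + e_r)`. Otherwise `Ph = 0` (one factor is cut to `0`), `Bd M Y α t h` holds (`fz ≥ g_j`, `fz ≥ ‖s_j‖`) and `‖T_r‖ ≤ g₀ ∏ fz_j = bi M Y α t h`. So in all cases
`‖T_r - Ph b_r‖ ≤ bi M Y α t h + M^n C U^(-3/8)`. Integrate over `[0, V]`, `V ≤ 2U`: everything is continuous or bounded measurable in `t`. (`∫⁻ ofReal (bi ..)` may be used without knowing that it is finite; it is finite.)
`2U · C U^(-3/8) M^n · n ≤ C' M^n U^(3/4)`. If a difference of integrals is needed: `T_r` is continuous in `t`, `Ph b_r` is bounded and measurable on `[0, V]`.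
-/

set_option autoImplicit false

namespace Pool.Agent.P07318h

open MeasureTheory Complex Pool.Agent.P07318s Pool.Agent.P07318f

namespace TelPAux

lemma meas_cut (M : ℝ) : Measurable (cut M) := by
  unfold cut
  exact Measurable.ite (measurableSet_le measurable_norm measurable_const) measurable_id
    measurable_const

lemma cut_of_le {M : ℝ} {z : ℂ} (h : ‖z‖ ≤ M) : cut M z = z := by
  unfold cut
  rw [if_pos h]

lemma cut_of_lt {M : ℝ} {z : ℂ} (h : M < ‖z‖) : cut M z = 0 := by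
  unfold cut
  rw [if_neg (not_le.2 h)]

lemma norm_gz (x : ℝ) : ‖((gz x : ℝ) : ℂ)‖ = gz x := by
  rw [Complex.norm_real, Real.norm_eq_abs, abs_of_nonneg (gz_nonneg x)]

lemma split_prod {n : ℕ} {R : Type*} [CommMonoid R] (r : Fin n) (f : Fin n → R) :
    ∏ j, f j = f r * ((∏ j ∈ Finset.univ.filter (· < r), f j) *
      ∏ j ∈ Finset.univ.filter (r < ·), f j) := by
  rw [← Finset.mul_prod_erase Finset.univ f (Finset.mem_univ r), ← Finset.prod_union]
  · congr 1
    refine Finset.prod_congr ?_ fun _ _ => rfl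
    ext j
    simp only [Finset.mem_erase, Finset.mem_univ, and_true, Finset.mem_union,
      Finset.mem_filter, true_and]
    exact ne_iff_lt_or_gt
  · rw [Finset.disjoint_filter]
    intro j _ h1 h2
    exact absurd (h1.trans h2) (lt_irrefl _)

/-- the term of the telescoping sum -/
noncomputable def Tr {n : ℕ} (Y α : ℝ) (r : Fin n) (h : Fin n → ℝ) (t : ℝ) : ℂ :=
  (gz (t + α) : ℂ) * (((gz (t + h r) : ℂ) - fS Y (t + h r)) *
    ((∏ j ∈ Finset.univ.filter (· < r), fS Y (t + h j)) *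
      ∏ j ∈ Finset.univ.filter (r < ·), (gz (t + h j) : ℂ)))

lemma tel_id {n : ℕ} (Y α : ℝ) (h : Fin n → ℝ) (t : ℝ) :
    ((gz (t + α) * ∏ j, gz (t + h j) : ℝ) : ℂ) - (gz (t + α) : ℂ) * ∏ j, fS Y (t + h j) =
      ∑ r, Tr Y α r h t := by
  have h1 := Finset.prod_sub_ordered (Finset.univ : Finset (Fin n))
    (fun j => (gz (t + h j) : ℂ)) (fun j => (gz (t + h j) : ℂ) - fS Y (t + h j))
  simp only [sub_sub_cancel] at h1
  rw [h1]
  push_cast
  rw [mul_sub, sub_sub_cancel, Finset.mul_sum]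
  refine Finset.sum_congr rfl fun r _ => ?_
  unfold Tr
  ring

lemma norm_Ph_le {n : ℕ} {M : ℝ} (Y α : ℝ) (hM : 1 ≤ M) (r : Fin n) (t : ℝ) (h : Fin n → ℝ) :
    ‖Ph M Y α r t h‖ ≤ M ^ n := by
  have hM0 : 0 ≤ M := by linarith
  have h1 : M ^ n = M * ((∏ j ∈ Finset.univ.filter (· < r), M) *
      ∏ j ∈ Finset.univ.filter (r < ·), M) := by
    rw [← split_prod r (fun _ : Fin n => M)]
    simp
  rw [h1]
  unfold Ph
  rw [norm_mul, norm_mul, norm_prod, norm_prod]
  have h2 : ∏ j ∈ Finset.univ.filter (· < r), ‖cut M (fS Y (t + h j))‖ ≤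
      ∏ j ∈ Finset.univ.filter (· < r), M :=
    Finset.prod_le_prod (fun _ _ => norm_nonneg _) fun _ _ => norm_cut_le hM0 _
  have h3 : ∏ j ∈ Finset.univ.filter (r < ·), ‖cut M (gz (t + h j) : ℂ)‖ ≤
      ∏ j ∈ Finset.univ.filter (r < ·), M :=
    Finset.prod_le_prod (fun _ _ => norm_nonneg _) fun _ _ => norm_cut_le hM0 _
  have h4 : 0 ≤ ∏ j ∈ Finset.univ.filter (· < r), ‖cut M (fS Y (t + h j))‖ :=
    Finset.prod_nonneg fun _ _ => norm_nonneg _
  have h5 : 0 ≤ ∏ j ∈ Finset.univ.filter (r < ·), ‖cut M (gz (t + h j) : ℂ)‖ :=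
    Finset.prod_nonneg fun _ _ => norm_nonneg _
  have h6 : 0 ≤ ∏ j ∈ Finset.univ.filter (· < r), M := Finset.prod_nonneg fun _ _ => hM0
  exact mul_le_mul (norm_cut_le hM0 _) (mul_le_mul h2 h3 h5 h6) (mul_nonneg h4 h5) hM0

lemma pt_bound {n : ℕ} {M Y α t E : ℝ} {h : Fin n → ℝ} (hM : 1 ≤ M) (r : Fin n) (hE : 0 ≤ E)
    (he : ‖((gz (t + h r) : ℝ) : ℂ) - fS Y (t + h r) - fB Y (t + h r)‖ ≤ E) :
    ‖Tr Y α r h t - Ph M Y α r t h * fB Y (t + h r)‖ ≤ bi M Y α t h + M ^ n * E := by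
  have hM0 : 0 ≤ M := by linarith
  by_cases hA : gz (t + α) ≤ M ∧ (∀ j, j < r → ‖fS Y (t + h j)‖ ≤ M) ∧
      ∀ j, r < j → gz (t + h j) ≤ M
  · obtain ⟨h1, h2, h3⟩ := hA
    have e1 : Ph M Y α r t h = (gz (t + α) : ℂ) *
        ((∏ j ∈ Finset.univ.filter (· < r), fS Y (t + h j)) *
          ∏ j ∈ Finset.univ.filter (r < ·), (gz (t + h j) : ℂ)) := by
      unfold Ph
      rw [cut_of_le (by rw [norm_gz]; exact h1)]
      congr 2
      · exact Finset.prod_congr rfl fun j hj => cut_of_le (h2 j (Finset.mem_filter.1 hj).2)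
      · exact Finset.prod_congr rfl fun j hj =>
          cut_of_le (by rw [norm_gz]; exact h3 j (Finset.mem_filter.1 hj).2)
    have e2 : Tr Y α r h t - Ph M Y α r t h * fB Y (t + h r) =
        Ph M Y α r t h * (((gz (t + h r) : ℝ) : ℂ) - fS Y (t + h r) - fB Y (t + h r)) := by
      rw [e1]
      unfold Tr
      ring
    rw [e2, norm_mul]
    have h4 : ‖Ph M Y α r t h‖ * ‖((gz (t + h r) : ℝ) : ℂ) - fS Y (t + h r) - fB Y (t + h r)‖ ≤
        M ^ n * E :=
      mul_le_mul (norm_Ph_le Y α hM r t h) he (norm_nonneg _) (by positivity)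
    have h5 := bi_nonneg M Y α t h
    linarith
  · have hPB : Ph M Y α r t h = 0 ∧ Bd M Y α t h := by
      rcases not_and_or.1 hA with h1 | h1
      · have h1' := not_le.1 h1
        refine ⟨?_, Or.inl h1'⟩
        unfold Ph
        rw [cut_of_lt (by rw [norm_gz]; exact h1'), zero_mul]
      · rcases not_and_or.1 h1 with h2 | h2
        · push Not at h2
          obtain ⟨j, hj, hj2⟩ := h2
          constructor
          · unfold Ph
            rw [Finset.prod_eq_zero (i := j) (Finset.mem_filter.2 ⟨Finset.mem_univ _, hj⟩)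
              (cut_of_lt hj2), zero_mul, mul_zero]
          · refine Or.inr ⟨j, ?_⟩
            unfold fz
            have := gz_nonneg (t + h j)
            linarith
        · push Not at h2
          obtain ⟨j, hj, hj2⟩ := h2
          constructor
          · unfold Ph
            rw [Finset.prod_eq_zero (i := j) (s := Finset.univ.filter (r < ·))
              (Finset.mem_filter.2 ⟨Finset.mem_univ _, hj⟩)
              (cut_of_lt (by rw [norm_gz]; exact hj2)), mul_zero, mul_zero]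
          · refine Or.inr ⟨j, ?_⟩
            unfold fz
            have := norm_nonneg (fS Y (t + h j))
            linarith
    obtain ⟨hP, hB⟩ := hPB
    rw [hP, zero_mul, sub_zero]
    have hbi : bi M Y α t h = gz (t + α) * ∏ j, fz Y (t + h j) := by
      unfold bi
      rw [if_pos hB]
    rw [hbi, split_prod r (fun j => fz Y (t + h j))]
    unfold Tr
    rw [norm_mul, norm_mul, norm_mul, norm_prod, norm_prod, norm_gz]
    have a1 : ‖(gz (t + h r) : ℂ) - fS Y (t + h r)‖ ≤ fz Y (t + h r) := by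
      refine (norm_sub_le _ _).trans ?_
      rw [norm_gz]
      exact le_rfl
    have a2 : ∏ j ∈ Finset.univ.filter (· < r), ‖fS Y (t + h j)‖ ≤
        ∏ j ∈ Finset.univ.filter (· < r), fz Y (t + h j) :=
      Finset.prod_le_prod (fun _ _ => norm_nonneg _) fun j _ => by
        unfold fz
        have := gz_nonneg (t + h j)
        linarith
    have a3 : ∏ j ∈ Finset.univ.filter (r < ·), ‖(gz (t + h j) : ℂ)‖ ≤
        ∏ j ∈ Finset.univ.filter (r < ·), fz Y (t + h j) :=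
      Finset.prod_le_prod (fun _ _ => norm_nonneg _) fun j _ => by
        rw [norm_gz]
        unfold fz
        have := norm_nonneg (fS Y (t + h j))
        linarith
    have b2 : 0 ≤ ∏ j ∈ Finset.univ.filter (· < r), ‖fS Y (t + h j)‖ :=
      Finset.prod_nonneg fun _ _ => norm_nonneg _
    have b3 : 0 ≤ ∏ j ∈ Finset.univ.filter (r < ·), ‖(gz (t + h j) : ℂ)‖ :=
      Finset.prod_nonneg fun _ _ => norm_nonneg _
    have c2 : 0 ≤ ∏ j ∈ Finset.univ.filter (· < r), fz Y (t + h j) :=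
      Finset.prod_nonneg fun _ _ => fz_nonneg _ _
    have m1 := mul_le_mul a2 a3 b3 c2
    have m2 := mul_le_mul a1 m1 (mul_nonneg b2 b3) (fz_nonneg Y (t + h r))
    have m3 := mul_le_mul_of_nonneg_left m2 (gz_nonneg (t + α))
    have m4 : 0 ≤ M ^ n * E := by positivity
    linarith

lemma Tr_cont {n : ℕ} (Y α : ℝ) (r : Fin n) (h : Fin n → ℝ) : Continuous (Tr Y α r h) := by
  have hg := gz_cont
  have hs := fS_cont Y
  unfold Tr
  refine Continuous.mul (by fun_prop) (Continuous.mul (by fun_prop) (Continuous.mul ?_ ?_))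
  · exact continuous_finsetProd _ fun j _ => hs.comp (by fun_prop)
  · exact continuous_finsetProd _ fun j _ =>
      Complex.continuous_ofReal.comp (hg.comp (by fun_prop))

lemma Ph_meas {n : ℕ} (M Y α : ℝ) (r : Fin n) (h : Fin n → ℝ) :
    Measurable fun t => Ph M Y α r t h := by
  have hg := gz_cont
  have hs := fS_cont Y
  unfold Ph
  refine Measurable.mul ((meas_cut M).comp ?_) (Measurable.mul ?_ ?_)
  · exact (Complex.continuous_ofReal.comp (hg.comp (by fun_prop))).measurable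
  · exact Finset.measurable_fun_prod _ fun j _ =>
      (meas_cut M).comp (hs.comp (by fun_prop)).measurable
  · exact Finset.measurable_fun_prod _ fun j _ =>
      (meas_cut M).comp (Complex.continuous_ofReal.comp (hg.comp (by fun_prop))).measurable

lemma Phb_int {n : ℕ} {M : ℝ} (hM : 1 ≤ M) (Y α : ℝ) (r : Fin n) (h : Fin n → ℝ) (a b : ℝ) :
    IntervalIntegrable (fun t => Ph M Y α r t h * fB Y (t + h r)) volume a b := by
  have hb : Continuous fun t => fB Y (t + h r) := (fB_cont Y).comp (by fun_prop)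
  have h1 : IntervalIntegrable (fun t => fB Y (t + h r)) volume a b := hb.intervalIntegrable a b
  rw [intervalIntegrable_iff] at h1 ⊢
  exact h1.bdd_mul (c := M ^ n) (Ph_meas M Y α r h).aestronglyMeasurable
    (Filter.Eventually.of_forall fun t => norm_Ph_le Y α hM r t h)

end TelPAux

open TelPAux

theorem tel_pt (n : ℕ) : ∃ C : ℝ, 0 < C ∧ ∀ (U Y α V M : ℝ) (h : Fin n → ℝ), 1 ≤ U → 1 ≤ M → 2 * U ≤ α →
    (∀ j, 2 * U ≤ h j) → 0 ≤ V → V ≤ 2 * U →
    ‖∫ t in (0:ℝ)..V, (((gz (t + α) * ∏ j, gz (t + h j) : ℝ) : ℂ) - (gz (t + α) : ℂ) * ∏ j, fS Y (t + h j))‖ₑ ≤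
      (∑ r : Fin n, ‖∫ t in (0:ℝ)..V, Ph M Y α r t h * fB Y (t + h r)‖ₑ) +
        (n : ENNReal) * (∫⁻ t in Set.Icc 0 (2 * U), ENNReal.ofReal (bi M Y α t h)) +
        ENNReal.ofReal (C * M ^ n * U ^ (3 / 4 : ℝ)) := by
  obtain ⟨C, hC, hafe⟩ := afe (1 / 8) (by norm_num)
  refine ⟨2 * n * C + 1, by positivity, fun U Y α V M h hU hM hα hh hV hV2 => ?_⟩
  have hM0 : 0 ≤ M := by linarith
  have hU0 : 0 < U := by linarith
  set E : ℝ := C * U ^ (-(3 / 8) : ℝ) with hEdef
  have hE : 0 ≤ E := by positivity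
  have herr : ∀ t : ℝ, 0 ≤ t → ∀ r : Fin n,
      ‖((gz (t + h r) : ℝ) : ℂ) - fS Y (t + h r) - fB Y (t + h r)‖ ≤ E := by
    intro t ht r
    have hx : U ≤ t + h r := by have := hh r; linarith
    have hx1 : 1 ≤ t + h r := by linarith
    have e1 : ((gz (t + h r) : ℝ) : ℂ) - fS Y (t + h r) - fB Y (t + h r) =
        ((gz (t + h r) : ℝ) : ℂ) - Fd (t + h r) := by
      rw [fS_add, max_eq_left hx1]
      ring
    rw [e1]
    have h1 := hafe (t + h r) hx1
    have e2 : (-(1 / 2) + 1 / 8 : ℝ) = -(3 / 8) := by norm_num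
    rw [e2] at h1
    refine h1.trans ?_
    rw [hEdef]
    exact mul_le_mul_of_nonneg_left
      (Real.rpow_le_rpow_of_nonpos hU0 hx (by norm_num)) hC.le
  -- one term
  have hone : ∀ r : Fin n, ‖∫ t in (0:ℝ)..V, Tr Y α r h t‖ₑ ≤
      ‖∫ t in (0:ℝ)..V, Ph M Y α r t h * fB Y (t + h r)‖ₑ +
        ((∫⁻ t in Set.Icc 0 (2 * U), ENNReal.ofReal (bi M Y α t h)) +
          ENNReal.ofReal (2 * U * (M ^ n * E))) := by
    intro r
    have i1 : IntervalIntegrable (Tr Y α r h) volume 0 V := (Tr_cont Y α r h).intervalIntegrable 0 V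
    have i2 := Phb_int hM Y α r h 0 V
    have e1 : (∫ t in (0:ℝ)..V, Tr Y α r h t) =
        (∫ t in (0:ℝ)..V, Ph M Y α r t h * fB Y (t + h r)) +
          ∫ t in (0:ℝ)..V, (Tr Y α r h t - Ph M Y α r t h * fB Y (t + h r)) := by
      rw [intervalIntegral.integral_sub i1 i2]
      ring
    rw [e1]
    refine (enorm_add_le _ _).trans ?_
    gcongr
    rw [intervalIntegral.integral_of_le hV]
    refine (enorm_integral_le_lintegral_enorm _).trans ?_
    have h2 : ∀ t ∈ Set.Ioc (0:ℝ) V, ‖Tr Y α r h t - Ph M Y α r t h * fB Y (t + h r)‖ₑ ≤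
        ENNReal.ofReal (bi M Y α t h) + ENNReal.ofReal (M ^ n * E) := by
      intro t ht
      rw [← ENNReal.ofReal_add (bi_nonneg _ _ _ _ _) (by positivity), ← ofReal_norm]
      exact ENNReal.ofReal_le_ofReal (pt_bound hM r hE (herr t ht.1.le r))
    calc ∫⁻ t in Set.Ioc (0:ℝ) V, ‖Tr Y α r h t - Ph M Y α r t h * fB Y (t + h r)‖ₑ
        ≤ ∫⁻ t in Set.Ioc (0:ℝ) V, (ENNReal.ofReal (bi M Y α t h) + ENNReal.ofReal (M ^ n * E)) :=
          setLIntegral_mono' measurableSet_Ioc h2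
      _ ≤ ∫⁻ t in Set.Icc (0:ℝ) (2 * U),
            (ENNReal.ofReal (bi M Y α t h) + ENNReal.ofReal (M ^ n * E)) :=
          lintegral_mono_set fun t ht => ⟨ht.1.le, ht.2.trans hV2⟩
      _ = (∫⁻ t in Set.Icc 0 (2 * U), ENNReal.ofReal (bi M Y α t h)) +
            ∫⁻ t in Set.Icc (0:ℝ) (2 * U), ENNReal.ofReal (M ^ n * E) :=
          lintegral_add_right _ measurable_const
      _ = (∫⁻ t in Set.Icc 0 (2 * U), ENNReal.ofReal (bi M Y α t h)) +
            ENNReal.ofReal (2 * U * (M ^ n * E)) := by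
          rw [setLIntegral_const, Real.volume_Icc, sub_zero,
            ← ENNReal.ofReal_mul (by positivity), mul_comm (2 * U)]
  have e0 : (∫ t in (0:ℝ)..V, (((gz (t + α) * ∏ j, gz (t + h j) : ℝ) : ℂ) -
      (gz (t + α) : ℂ) * ∏ j, fS Y (t + h j))) = ∑ r, ∫ t in (0:ℝ)..V, Tr Y α r h t := by
    rw [← intervalIntegral.integral_finsetSum
      (fun r _ => (Tr_cont Y α r h).intervalIntegrable 0 V)]
    exact intervalIntegral.integral_congr fun t _ => tel_id Y α h t
  rw [e0]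
  refine (enorm_sum_le _ _).trans ?_
  refine (Finset.sum_le_sum fun r _ => hone r).trans ?_
  rw [Finset.sum_add_distrib, Finset.sum_const, Finset.card_univ, Fintype.card_fin, nsmul_eq_mul,
    mul_add, ← add_assoc]
  gcongr
  rw [← ENNReal.ofReal_natCast n, ← ENNReal.ofReal_mul (by positivity)]
  refine ENNReal.ofReal_le_ofReal ?_
  have h3 : U * U ^ (-(3 / 8) : ℝ) ≤ U ^ (3 / 4 : ℝ) := by
    have e3 : U * U ^ (-(3 / 8) : ℝ) = U ^ (5 / 8 : ℝ) := by
      conv_lhs => rw [← Real.rpow_one U, ← Real.rpow_mul hU0.le]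
      rw [← Real.rpow_add hU0]
      norm_num
    rw [e3]
    exact Real.rpow_le_rpow_of_exponent_le hU (by norm_num)
  have h4 : (n : ℝ) * (2 * U * (M ^ n * E)) = 2 * n * C * M ^ n * (U * U ^ (-(3 / 8) : ℝ)) := by
    rw [hEdef]
    ring
  rw [h4]
  have h5 : 2 * n * C * M ^ n * (U * U ^ (-(3 / 8) : ℝ)) ≤ 2 * n * C * M ^ n * U ^ (3 / 4 : ℝ) :=
    mul_le_mul_of_nonneg_left h3 (by positivity)
  have h6 : 0 ≤ M ^ n * U ^ (3 / 4 : ℝ) := by positivity
  nlinarith

end Pool.Agent.P07318h
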