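import Pool.Agent.Lib.P07318h.BadI
import Pool.Agent.Lib.P07318h.LongT
import Pool.Agent.Lib.P07318h.TelP
import Pool.Agent.Lib.P07318h.ShortP
import Pool.Agent.Lib.P07318h.TailD
import Pool.Agent.Lib.P07318h.DgM

/-!
# The product against the diagonal terms, in mean over the box, for one `V`

PROOF. `κY = min(δ₀, 1/(16 n))`, `Y = U^κY`, `κ = κY/(8n)`, `M = U^κ`, `δ = κY/(8 (4n + 16))` (`≤ 1/4`). Then `1 ≤ Y ≤ H` (`U^κY ≤ U^δ₀ ≤ U^(th n + δ₀) ≤ H`, `th_nonneg`), `Y^n ≤ U^(1/16)`, `1/Y + 1/H ≤ 2/Y`, `h j ≤ 6U` in the box.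
`B = ∑_r B_r + n B_b + B_t + const`: `B_r` from `long_t`, `B_b` from `bad_int`, `B_t` from `tail_d`, `const = C M^n U^(3/4) + C U^(3/4)`. The integrand is
`[gz ∏ gz - gz ∏ fS] + [gz ∏ fS - DgY] + [DgY - Dg]`; the integrals of the three parts are bounded by `tel_pt`, `short_p`, `tail_d`.
Integrability in `t` on `[0, V]`: `gz`, `fS Y`, `t ↦ Dg (sh α h t)` are continuous there (`Dg_continuousOn`, positive arguments); `DgY` is measurable (`dgy_meas`), so if `B_t h < ∞` the difference `Dg - DgY` is integrable and hence `DgY` is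
integrable; if `B_t h = ∞` there is nothing to prove.
Exponents: `long_t`: `1 + 4δ + nκ - κY/2 ≤ 1 - κY/4`; `tail_d`: `1 + (2n+8)δ - κY/2 ≤ 1 - κY/4`; `M^n U^(3/4) ≤ U^(3/4 + 1/128)`; the integral of a constant over the box is `H^n` times the constant.
-/

set_option autoImplicit false

namespace Pool.Agent.P07318h

open MeasureTheory Complex Pool.Agent.P07318s Pool.Agent.P07318f

namespace CoreAux

lemma sh_meas {n : ℕ} (α : ℝ) (h : Fin n → ℝ) : Measurable (sh α h) := by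
  refine measurable_pi_lambda _ fun j => ?_
  unfold sh
  exact measurable_id.add_const _

lemma sh_cont {n : ℕ} (α : ℝ) (h : Fin n → ℝ) : Continuous (sh α h) := by
  refine continuous_pi fun j => ?_
  unfold sh
  exact continuous_id.add continuous_const

lemma dg_contOn {n : ℕ} {U α V : ℝ} {h : Fin n → ℝ} (hU : 1 ≤ U) (hα : 2 * U ≤ α) (hh : ∀ j, 2 * U ≤ h j) :
    ContinuousOn (fun t => Dg (sh α h t)) (Set.Icc 0 V) := by
  refine (Dg_continuousOn (n + 1)).comp (sh_cont α h).continuousOn fun t ht => ?_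
  intro j
  refine Fin.cases ?_ (fun i => ?_) j
  · rw [sh_zero]; linarith [ht.1]
  · rw [sh_succ]; linarith [ht.1, hh i]

/-- the sum of the three integrals -/
lemma three {V : ℝ} {f1 f2 f3 f4 : ℝ → ℂ} (h1 : IntervalIntegrable f1 volume 0 V)
    (h2 : IntervalIntegrable f2 volume 0 V) (h3 : IntervalIntegrable f3 volume 0 V)
    (h4 : IntervalIntegrable f4 volume 0 V) :
    ‖∫ t in (0:ℝ)..V, (f1 t - f4 t)‖ₑ ≤ ‖∫ t in (0:ℝ)..V, (f1 t - f2 t)‖ₑ +
      ‖∫ t in (0:ℝ)..V, (f2 t - f3 t)‖ₑ + ‖∫ t in (0:ℝ)..V, (f3 t - f4 t)‖ₑ := by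
  have : (∫ t in (0:ℝ)..V, (f1 t - f4 t)) = (∫ t in (0:ℝ)..V, (f1 t - f2 t)) +
      (∫ t in (0:ℝ)..V, (f2 t - f3 t)) + ∫ t in (0:ℝ)..V, (f3 t - f4 t) := by
    rw [intervalIntegral.integral_sub h1 h4, intervalIntegral.integral_sub h1 h2,
      intervalIntegral.integral_sub h2 h3, intervalIntegral.integral_sub h3 h4]
    ring
  rw [this]
  exact (enorm_add_le _ _).trans (add_le_add (enorm_add_le _ _) le_rfl)

lemma dgy_int {n : ℕ} {U α V Y : ℝ} {h : Fin n → ℝ} (hU : 1 ≤ U) (hα : 2 * U ≤ α) (hh : ∀ j, 2 * U ≤ h j)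
    (hV0 : 0 ≤ V) (hV2 : V ≤ 2 * U)
    (hfin : ∫⁻ t in Set.Icc 0 (2 * U), ‖Dg (sh α h t) - DgY Y (sh α h t)‖ₑ ≠ ⊤) :
    IntervalIntegrable (fun t => DgY Y (sh α h t)) volume 0 V := by
  rw [intervalIntegrable_iff_integrableOn_Ioc_of_le hV0]
  have hsub : Set.Ioc 0 V ⊆ Set.Icc 0 (2 * U) := fun t ht => ⟨ht.1.le, ht.2.trans hV2⟩
  have hd : IntegrableOn (fun t => Dg (sh α h t)) (Set.Ioc 0 V) volume :=
    ((dg_contOn (V := V) hU hα hh).integrableOn_Icc).mono_set Set.Ioc_subset_Icc_self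
  have hm : Measurable fun t => DgY Y (sh α h t) := (dgy_meas n Y).comp (sh_meas α h)
  have he : IntegrableOn (fun t => Dg (sh α h t) - DgY Y (sh α h t)) (Set.Ioc 0 V) volume := by
    refine ⟨hd.aestronglyMeasurable.sub hm.aestronglyMeasurable, ?_⟩
    unfold HasFiniteIntegral
    exact lt_of_le_of_lt (lintegral_mono_set hsub) (lt_top_iff_ne_top.2 hfin)
  have : (fun t => DgY Y (sh α h t)) = fun t => Dg (sh α h t) - (Dg (sh α h t) - DgY Y (sh α h t)) := by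
    funext t; ring
  rw [this]
  exact hd.sub he

lemma vol_box {n : ℕ} {H : ℝ} (hH : 0 ≤ H) (β : Fin n → ℝ) :
    volume (Set.Icc β (fun j => β j + H)) = ENNReal.ofReal (H ^ n) := by
  rw [Real.volume_Icc_pi]
  have : ∀ j : Fin n, ENNReal.ofReal (β j + H - β j) = ENNReal.ofReal H := by
    intro j; congr 1; ring
  simp only [this, Finset.prod_const, Finset.card_univ, Fintype.card_fin]
  rw [ENNReal.ofReal_pow hH]

lemma half_bd {U κY H : ℝ} (hU : 1 ≤ U) (_hκ : 0 ≤ κY) (hYH : U ^ κY ≤ H) :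
    (1 / U ^ κY + 1 / H) ^ (1 / 2 : ℝ) ≤ 2 * U ^ (-(κY / 2)) := by
  have hU0 : 0 < U := by linarith
  have hY : 0 < U ^ κY := Real.rpow_pos_of_pos hU0 _
  have hH : 0 < H := lt_of_lt_of_le hY hYH
  have h1 : 1 / U ^ κY + 1 / H ≤ 4 * U ^ (-κY) := by
    have h2 : 1 / H ≤ 1 / U ^ κY := one_div_le_one_div_of_le hY hYH
    have h3 : 1 / U ^ κY = U ^ (-κY) := by rw [Real.rpow_neg hU0.le, one_div]
    have h4 : 0 < U ^ (-κY) := Real.rpow_pos_of_pos hU0 _
    rw [h3] at h2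
    rw [h3]
    linarith
  have h5 : (1 / U ^ κY + 1 / H) ^ (1 / 2 : ℝ) ≤ (4 * U ^ (-κY)) ^ (1 / 2 : ℝ) :=
    Real.rpow_le_rpow (by positivity) h1 (by norm_num)
  refine h5.trans (le_of_eq ?_)
  rw [Real.mul_rpow (by norm_num) (Real.rpow_nonneg hU0.le _), ← Real.rpow_mul hU0.le]
  have h6 : (4 : ℝ) ^ (1 / 2 : ℝ) = 2 := by
    rw [show (4 : ℝ) = 2 ^ (2 : ℝ) by norm_num, ← Real.rpow_mul (by norm_num)]
    norm_num
  rw [h6]
  congr 2
  ring

end CoreAux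

open CoreAux in
theorem core_v (n : ℕ) (hn : 1 ≤ n) (δ₀ : ℝ) (hδ₀ : 0 < δ₀) : ∃ η C : ℝ, 0 < η ∧ 0 < C ∧
    ∀ (U H α V : ℝ) (β : Fin n → ℝ), 1 ≤ U → U ^ (th n + δ₀) ≤ H → H ≤ U → 2 * U ≤ α → α ≤ 5 * U →
    (∀ j, 2 * U ≤ β j) → (∀ j, β j ≤ 5 * U) → 0 ≤ V → V ≤ 2 * U →
    ∃ B : (Fin n → ℝ) → ENNReal, Measurable B ∧
      (∀ h ∈ Set.Icc β (fun j => β j + H),
        ‖∫ t in (0:ℝ)..V, (((gz (t + α) * ∏ j, gz (t + h j) : ℝ) : ℂ) - Dg (sh α h t))‖ₑ ≤ B h) ∧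
      ∫⁻ h in Set.Icc β (fun j => β j + H), B h ≤ ENNReal.ofReal (C * H ^ n * U ^ (1 - η)) := by
  have hn' : (1:ℝ) ≤ n := by exact_mod_cast hn
  have hn0 : (0:ℝ) < n := by linarith
  obtain ⟨κY, hκY0, hκYδ, hκYn⟩ : ∃ κY : ℝ, 0 < κY ∧ κY ≤ δ₀ ∧ κY * n ≤ 1 / 16 := by
    refine ⟨min δ₀ (1 / (16 * n)), lt_min hδ₀ (by positivity), min_le_left _ _, ?_⟩
    calc min δ₀ (1 / (16 * n)) * n ≤ (1 / (16 * n)) * n :=
          mul_le_mul_of_nonneg_right (min_le_right _ _) hn0.le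
      _ = 1 / 16 := by field_simp
  have hκY1 : κY ≤ 1 / 16 := by nlinarith
  obtain ⟨κ, hκdef⟩ : ∃ κ : ℝ, κ = κY / (8 * n) := ⟨_, rfl⟩
  have hκ : 0 < κ := by rw [hκdef]; positivity
  have hκn : κ * n = κY / 8 := by rw [hκdef]; field_simp
  obtain ⟨δ, hδdef⟩ : ∃ δ : ℝ, δ = κY / (8 * (4 * n + 16)) := ⟨_, rfl⟩
  have hδ : 0 < δ := by rw [hδdef]; positivity
  have hδeq : δ * (4 * n + 16) = κY / 8 := by rw [hδdef]; field_simp
  have hδ4 : δ ≤ 1 / 4 := by nlinarith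
  obtain ⟨C1, hC1, long⟩ := long_t n δ hδ hδ4
  obtain ⟨η2, C2, hη2, hC2, bad⟩ := bad_int n hn δ₀ κ hδ₀ hκ
  obtain ⟨C3, hC3, tail⟩ := tail_d n δ hδ hδ4
  obtain ⟨C4, hC4, tel⟩ := tel_pt n
  obtain ⟨C5, hC5, short⟩ := short_p n
  refine ⟨min (κY / 4) (min η2 (1 / 8)), n * (2 * C1) + n * C2 + 2 * C3 + C4 + C5,
    lt_min (by positivity) (lt_min hη2 (by norm_num)), by positivity, ?_⟩
  intro U H α V β hU hUH hHU hα1 hα2 hβ1 hβ2 hV0 hV2
  have hU0 : 0 < U := by linarith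
  have hY1 : 1 ≤ U ^ κY := Real.one_le_rpow hU hκY0.le
  have hYH : U ^ κY ≤ H :=
    le_trans (Real.rpow_le_rpow_of_exponent_le hU (by have := th_nonneg hn; linarith)) hUH
  have hH0 : 0 < H := by linarith
  have hM1 : 1 ≤ U ^ κ := Real.one_le_rpow hU hκ.le
  have hYn : (U ^ κY) ^ n ≤ U ^ (1 / 16 : ℝ) := by
    rw [← Real.rpow_natCast, ← Real.rpow_mul hU0.le]
    exact Real.rpow_le_rpow_of_exponent_le hU hκYn
  have hMn : (U ^ κ) ^ n = U ^ (κY / 8) := by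
    rw [← Real.rpow_natCast, ← Real.rpow_mul hU0.le, hκn]
  choose Br hBrm hBr1 hBr2 using fun r : Fin n =>
    long U (U ^ κY) H α V (U ^ κ) β r hU hY1 hH0 hHU hα1 hα2 hβ1 hβ2 hV0 hV2 hM1
  obtain ⟨Bb, hBbm, hBb1, hBb2⟩ := bad U (U ^ κY) H α β hU hY1 hYH hUH hHU hα1 hα2 hβ1 hβ2
  obtain ⟨Bt, hBtm, hBt1, hBt2⟩ := tail U (U ^ κY) H α β hU hY1 hH0 hHU hα1 hα2 hβ1 hβ2
  refine ⟨fun h => (∑ r, Br r h) + (n : ENNReal) * Bb h + Bt h +
    ENNReal.ofReal (C4 * (U ^ κ) ^ n * U ^ (3 / 4 : ℝ)) + ENNReal.ofReal (C5 * U ^ (3 / 4 : ℝ)), ?_, ?_, ?_⟩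
  · exact ((((Finset.measurable_fun_sum _ fun r _ => hBrm r).add (hBbm.const_mul _)).add hBtm).add_const _).add_const _
  · intro h hh
    by_cases htop : Bt h = ⊤
    · simp [htop]
    have hh1 : ∀ j, 2 * U ≤ h j := fun j => (hβ1 j).trans (hh.1 j)
    have hh2 : ∀ j, h j ≤ 6 * U := fun j => by
      have h1 := hh.2 j
      have h2 := hβ2 j
      simp only at h1
      linarith
    have hfin : ∫⁻ t in Set.Icc 0 (2 * U), ‖Dg (sh α h t) - DgY (U ^ κY) (sh α h t)‖ₑ ≠ ⊤ :=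
      ne_top_of_le_ne_top htop (hBt1 h hh)
    have i1 : IntervalIntegrable (fun t => ((gz (t + α) * ∏ j, gz (t + h j) : ℝ) : ℂ)) volume 0 V := by
      refine Continuous.intervalIntegrable ?_ _ _
      refine Complex.continuous_ofReal.comp ?_
      refine (gz_cont.comp (continuous_id.add continuous_const)).mul ?_
      exact continuous_finsetProd _ fun j _ => gz_cont.comp (continuous_id.add continuous_const)
    have i2 : IntervalIntegrable (fun t => (gz (t + α) : ℂ) * ∏ j, fS (U ^ κY) (t + h j)) volume 0 V := by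
      refine Continuous.intervalIntegrable ?_ _ _
      refine (Complex.continuous_ofReal.comp (gz_cont.comp (continuous_id.add continuous_const))).mul ?_
      exact continuous_finsetProd _ fun j _ => (fS_cont _).comp (continuous_id.add continuous_const)
    have i3 := dgy_int (Y := U ^ κY) hU hα1 hh1 hV0 hV2 hfin
    have i4 : IntervalIntegrable (fun t => Dg (sh α h t)) volume 0 V := by
      refine ContinuousOn.intervalIntegrable ?_
      rw [Set.uIcc_of_le hV0]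
      exact dg_contOn hU hα1 hh1
    refine (three i1 i2 i3 i4).trans ?_
    have b1 := tel U (U ^ κY) α V (U ^ κ) h hU hM1 hα1 hh1 hV0 hV2
    have b2 := short U (U ^ κY) V α h hU hY1 hYn hα1 (by linarith) hh1 hh2 hV0 hV2
    have b1' : ‖∫ t in (0:ℝ)..V, (((gz (t + α) * ∏ j, gz (t + h j) : ℝ) : ℂ) -
        (gz (t + α) : ℂ) * ∏ j, fS (U ^ κY) (t + h j))‖ₑ ≤ (∑ r, Br r h) + (n : ENNReal) * Bb h +
        ENNReal.ofReal (C4 * (U ^ κ) ^ n * U ^ (3 / 4 : ℝ)) := by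
      refine b1.trans ?_
      gcongr with r _
      · exact hBr1 r h
      · exact hBb1 h
    have b2' : ‖∫ t in (0:ℝ)..V, ((gz (t + α) : ℂ) * (∏ j, fS (U ^ κY) (t + h j)) - DgY (U ^ κY) (sh α h t))‖ₑ ≤
        ENNReal.ofReal (C5 * U ^ (3 / 4 : ℝ)) := by
      rw [← ofReal_norm]
      exact ENNReal.ofReal_le_ofReal b2
    have b3' : ‖∫ t in (0:ℝ)..V, (DgY (U ^ κY) (sh α h t) - Dg (sh α h t))‖ₑ ≤ Bt h := by
      rw [intervalIntegral.integral_of_le hV0]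
      refine (enorm_integral_le_lintegral_enorm _).trans ?_
      refine le_trans ?_ (hBt1 h hh)
      have hsub : Set.Ioc 0 V ⊆ Set.Icc 0 (2 * U) := fun t ht => ⟨ht.1.le, ht.2.trans hV2⟩
      refine le_trans (lintegral_mono_set hsub) (le_of_eq ?_)
      refine lintegral_congr fun t => ?_
      rw [← enorm_neg, neg_sub]
    refine (add_le_add (add_le_add b1' b2') b3').trans (le_of_eq ?_)
    ring
  · have hbox := vol_box hH0.le β
    have hHn : 0 < H ^ n := by positivity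
    have hhalf := half_bd hU hκY0.le hYH
    have hη : ∀ e : ℝ, e ≤ 1 - min (κY / 4) (min η2 (1 / 8)) →
        U ^ e ≤ U ^ (1 - min (κY / 4) (min η2 (1 / 8))) := fun e he =>
      Real.rpow_le_rpow_of_exponent_le hU he
    obtain ⟨X, hX⟩ : ∃ X : ℝ, X = U ^ (1 - min (κY / 4) (min η2 (1 / 8))) := ⟨_, rfl⟩
    rw [← hX] at hη ⊢
    have m1 : min (κY / 4) (min η2 (1 / 8)) ≤ κY / 4 := min_le_left _ _
    have m2 : min (κY / 4) (min η2 (1 / 8)) ≤ η2 := (min_le_right _ _).trans (min_le_left _ _)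
    have m3 : min (κY / 4) (min η2 (1 / 8)) ≤ 1 / 8 := (min_le_right _ _).trans (min_le_right _ _)
    have e1 : C1 * H ^ n * (U ^ (1 + 4 * δ) * (U ^ κ) ^ n * (1 / U ^ κY + 1 / H) ^ (1 / 2 : ℝ)) ≤
        2 * C1 * H ^ n * X := by
      have h1 : U ^ (1 + 4 * δ) * (U ^ κ) ^ n * (1 / U ^ κY + 1 / H) ^ (1 / 2 : ℝ) ≤ 2 * X := by
        calc U ^ (1 + 4 * δ) * (U ^ κ) ^ n * (1 / U ^ κY + 1 / H) ^ (1 / 2 : ℝ)
            ≤ U ^ (1 + 4 * δ) * (U ^ κ) ^ n * (2 * U ^ (-(κY / 2))) := by gcongr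
          _ = 2 * (U ^ (1 + 4 * δ) * U ^ (κY / 8) * U ^ (-(κY / 2))) := by rw [hMn]; ring
          _ = 2 * U ^ (1 + 4 * δ + κY / 8 + -(κY / 2)) := by
              rw [Real.rpow_add hU0 (1 + 4 * δ + κY / 8), Real.rpow_add hU0 (1 + 4 * δ)]
          _ ≤ 2 * X := by
              have := hη (1 + 4 * δ + κY / 8 + -(κY / 2)) (by nlinarith)
              linarith
      calc C1 * H ^ n * (U ^ (1 + 4 * δ) * (U ^ κ) ^ n * (1 / U ^ κY + 1 / H) ^ (1 / 2 : ℝ))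
          ≤ C1 * H ^ n * (2 * X) := by gcongr
        _ = 2 * C1 * H ^ n * X := by ring
    have e3 : C3 * H ^ n * (U ^ (1 + (2 * (n : ℝ) + 8) * δ) * (1 / U ^ κY + 1 / H) ^ (1 / 2 : ℝ)) ≤
        2 * C3 * H ^ n * X := by
      have h1 : U ^ (1 + (2 * (n : ℝ) + 8) * δ) * (1 / U ^ κY + 1 / H) ^ (1 / 2 : ℝ) ≤ 2 * X := by
        calc U ^ (1 + (2 * (n : ℝ) + 8) * δ) * (1 / U ^ κY + 1 / H) ^ (1 / 2 : ℝ)
            ≤ U ^ (1 + (2 * (n : ℝ) + 8) * δ) * (2 * U ^ (-(κY / 2))) := by gcongr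
          _ = 2 * U ^ (1 + (2 * (n : ℝ) + 8) * δ + -(κY / 2)) := by
              rw [Real.rpow_add hU0 (1 + (2 * (n : ℝ) + 8) * δ)]; ring
          _ ≤ 2 * X := by
              have := hη (1 + (2 * (n : ℝ) + 8) * δ + -(κY / 2)) (by nlinarith)
              linarith
      calc C3 * H ^ n * (U ^ (1 + (2 * (n : ℝ) + 8) * δ) * (1 / U ^ κY + 1 / H) ^ (1 / 2 : ℝ))
          ≤ C3 * H ^ n * (2 * X) := by gcongr
        _ = 2 * C3 * H ^ n * X := by ring
    have e2 : C2 * H ^ n * U ^ (1 - η2) ≤ C2 * H ^ n * X := by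
      have := hη (1 - η2) (by linarith)
      gcongr
    have e4 : C4 * (U ^ κ) ^ n * U ^ (3 / 4 : ℝ) ≤ C4 * X := by
      rw [hMn]
      calc C4 * U ^ (κY / 8) * U ^ (3 / 4 : ℝ) = C4 * U ^ (κY / 8 + 3 / 4) := by
            rw [Real.rpow_add hU0]; ring
        _ ≤ C4 * X := by
            have := hη (κY / 8 + 3 / 4) (by linarith)
            gcongr
    have e5 : C5 * U ^ (3 / 4 : ℝ) ≤ C5 * X := by
      have := hη (3 / 4) (by linarith)
      gcongr
    have hX0 : 0 ≤ X := by rw [hX]; positivity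
    rw [lintegral_add_right _ measurable_const, lintegral_add_right _ measurable_const,
      lintegral_add_right _ hBtm, lintegral_add_right _ (hBbm.const_mul _),
      lintegral_finsetSum _ (fun r _ => hBrm r), lintegral_const_mul _ hBbm, setLIntegral_const,
      setLIntegral_const, hbox]
    have s1 : ∑ r : Fin n, ∫⁻ h in Set.Icc β (fun j => β j + H), Br r h ≤
        ENNReal.ofReal (n * (2 * C1 * H ^ n * X)) := by
      calc ∑ r : Fin n, ∫⁻ h in Set.Icc β (fun j => β j + H), Br r h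
          ≤ ∑ _r : Fin n, ENNReal.ofReal (2 * C1 * H ^ n * X) :=
            Finset.sum_le_sum fun r _ => (hBr2 r).trans (ENNReal.ofReal_le_ofReal e1)
        _ = ENNReal.ofReal (n * (2 * C1 * H ^ n * X)) := by
            rw [Finset.sum_const, Finset.card_univ, Fintype.card_fin, nsmul_eq_mul,
              ENNReal.ofReal_mul hn0.le, ENNReal.ofReal_natCast]
    have s2 : (n : ENNReal) * ∫⁻ h in Set.Icc β (fun j => β j + H), Bb h ≤
        ENNReal.ofReal (n * (C2 * H ^ n * X)) := by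
      rw [ENNReal.ofReal_mul hn0.le, ENNReal.ofReal_natCast]
      gcongr
      exact hBb2.trans (ENNReal.ofReal_le_ofReal e2)
    have s3 : ∫⁻ h in Set.Icc β (fun j => β j + H), Bt h ≤ ENNReal.ofReal (2 * C3 * H ^ n * X) :=
      hBt2.trans (ENNReal.ofReal_le_ofReal e3)
    have s4 : ENNReal.ofReal (C4 * (U ^ κ) ^ n * U ^ (3 / 4 : ℝ)) * ENNReal.ofReal (H ^ n) ≤
        ENNReal.ofReal (C4 * X * H ^ n) := by
      rw [← ENNReal.ofReal_mul (by positivity)]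
      exact ENNReal.ofReal_le_ofReal (by gcongr)
    have s5 : ENNReal.ofReal (C5 * U ^ (3 / 4 : ℝ)) * ENNReal.ofReal (H ^ n) ≤
        ENNReal.ofReal (C5 * X * H ^ n) := by
      rw [← ENNReal.ofReal_mul (by positivity)]
      exact ENNReal.ofReal_le_ofReal (by gcongr)
    refine (add_le_add (add_le_add (add_le_add (add_le_add s1 s2) s3) s4) s5).trans (le_of_eq ?_)
    rw [← ENNReal.ofReal_add (by positivity) (by positivity), ← ENNReal.ofReal_add (by positivity) (by positivity),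
      ← ENNReal.ofReal_add (by positivity) (by positivity), ← ENNReal.ofReal_add (by positivity) (by positivity)]
    congr 1
    ring

end Pool.Agent.P07318h
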