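import Pool.Agent.Lib.P07318f.LongPart
import Pool.Agent.Lib.P07318s.Regroup
import Pool.Agent.Lib.P07318s.Cont
import Pool.Agent.Lib.P07318s.SecondMoment

/-!
Shifted moments of the Riemann zeta function, all shifts but one in short boxes: definitions.
-/

set_option autoImplicit false

namespace Pool.Agent.P07318h

open MeasureTheory Complex Pool.Agent.P07318s Pool.Agent.P07318f

/-- `|ζ(1/2 + i x)|²` -/
noncomputable def gz (x : ℝ) : ℝ := ‖riemannZeta (1 / 2 + x * I)‖ ^ 2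

/-- the weights `1 / (1 + k ^ 2)` -/
noncomputable def pk (k : ℤ) : ℝ := 1 / (1 + (k : ℝ) ^ 2)

/-- the character `e(k x / 32 U)` -/
noncomputable def ek (U : ℝ) (k : ℤ) (x : ℝ) : ℂ := cexp (((2 * Real.pi * k * x / (32 * U) : ℝ) : ℂ) * I)

/-- the small heights, continuous version (`x ≥ 1` is the only case of interest) -/
noncomputable def fS (Y x : ℝ) : ℂ := FdSmall Y (max x 1)

/-- the large heights, continuous version -/
noncomputable def fB (Y x : ℝ) : ℂ := FdBig Y (max x 1)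

/-- `|ζ|²` and the small heights -/
noncomputable def fz (Y x : ℝ) : ℝ := gz x + ‖fS Y x‖

/-- cut-off -/
noncomputable def cut (M : ℝ) (z : ℂ) : ℂ := if ‖z‖ ≤ M then z else 0

/-- the term of the telescoping sum with the large heights in the factor `r`, without this factor and cut off -/
noncomputable def Ph {n : ℕ} (M Y α : ℝ) (r : Fin n) (t : ℝ) (h : Fin n → ℝ) : ℂ :=
  cut M (gz (t + α) : ℂ) * ((∏ j ∈ Finset.univ.filter (· < r), cut M (fS Y (t + h j))) *
    ∏ j ∈ Finset.univ.filter (r < ·), cut M (gz (t + h j) : ℂ))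

/-- one of the factors is large -/
def Bd {n : ℕ} (M Y α : ℝ) (t : ℝ) (h : Fin n → ℝ) : Prop := M < gz (t + α) ∨ ∃ j, M < fz Y (t + h j)

open Classical in
/-- the product where one of the factors is large -/
noncomputable def bi {n : ℕ} (M Y α : ℝ) (t : ℝ) (h : Fin n → ℝ) : ℝ :=
  if Bd M Y α t h then gz (t + α) * ∏ j, fz Y (t + h j) else 0

/-- the mass of a window -/
noncomputable def wm (b H : ℝ) (r : ℕ) : ℝ := ∫ y in (b + r * H)..(b + r * H + 2 * H), gz y

open Classical in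
/-- the diagonal terms with small heights in all variables but the first -/
noncomputable def DgY {n : ℕ} (Y : ℝ) (x : Fin (n + 1) → ℝ) : ℂ :=
  ∑' q : Fin (n + 1) → Q, if lam (fun j => (q j).1) = 0 ∧ ∀ j : Fin n, hgt (q j.succ).1 ≤ Y then
    ∏ j, ((((hgt (q j).1) ^ (-(1 / 2) : ℝ) * Om (hgt (q j).1) (x j) : ℝ) : ℂ) * ex (x j) (q j).1) else 0

open Classical in
/-- the contribution of a bad window, `K` the threshold -/
noncomputable def cb {n : ℕ} (K H : ℝ) (b : Fin (n + 1) → ℝ) (r : ℕ) : ℝ :=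
  if ∃ j, K < wm (b j) H r / H then ∏ j, (wm (b j) H r / H + K) else 0

open Classical in
/-- weighted number of the ways to write the inverse of `q` as a product of `n` fractions -/
noncomputable def rq (n : ℕ) (δ : ℝ) (q : Q) : ENNReal :=
  ∑' p : Fin n → Q, if lgr q.1 + ∑ j, lgr (p j).1 = 0 then
    ENNReal.ofReal (∏ j, (hgt (p j).1) ^ (-(1 / 2) - δ : ℝ)) else 0

/-- the shifts: one fixed, `n` free -/
noncomputable def sh {n : ℕ} (α : ℝ) (h : Fin n → ℝ) (t : ℝ) : Fin (n + 1) → ℝ :=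
  fun j => t + (Fin.cons α h : Fin (n + 1) → ℝ) j

/-- the exponent of the side of the boxes -/
noncomputable def th (n : ℕ) : ℝ := ((n : ℝ) - 1) / (3 * n)

/-! ### elementary facts -/

lemma gz_nonneg (x : ℝ) : 0 ≤ gz x := by unfold gz; positivity

lemma gz_cont : Continuous gz := by
  unfold gz
  exact sm_zsq_continuous

lemma fS_eq {Y x : ℝ} (hx : 1 ≤ x) : fS Y x = FdSmall Y x := by
  unfold fS
  rw [max_eq_left hx]

lemma fB_eq {Y x : ℝ} (hx : 1 ≤ x) : fB Y x = FdBig Y x := by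
  unfold fB
  rw [max_eq_left hx]

lemma fB_cont (Y : ℝ) : Continuous (fB Y) := by
  have h1 : ContinuousOn (FdBig Y) (Set.Ioi 0) := FdBig_continuousOn Y
  unfold fB
  refine h1.comp_continuous (by fun_prop) fun x => ?_
  exact lt_of_lt_of_le one_pos (le_max_right x 1)

lemma fS_add {Y : ℝ} (x : ℝ) : fS Y x = Fd (max x 1) - fB Y x := by
  unfold fS fB
  rw [Fd_split Y (max x 1) (lt_of_lt_of_le one_pos (le_max_right x 1))]
  ring

lemma fS_cont (Y : ℝ) : Continuous (fS Y) := by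
  have h1 : Continuous fun x : ℝ => Fd (max x 1) :=
    Fd_continuousOn.comp_continuous (by fun_prop) fun x => lt_of_lt_of_le one_pos (le_max_right x 1)
  have h2 : fS Y = fun x => Fd (max x 1) - fB Y x := by
    funext x
    exact fS_add x
  rw [h2]
  exact h1.sub (fB_cont Y)

lemma fz_nonneg (Y x : ℝ) : 0 ≤ fz Y x := add_nonneg (gz_nonneg x) (norm_nonneg _)

lemma fz_cont (Y : ℝ) : Continuous (fz Y) := by
  unfold fz
  exact gz_cont.add (fS_cont Y).norm

lemma pk_pos (k : ℤ) : 0 < pk k := by unfold pk; positivity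

lemma norm_ek (U : ℝ) (k : ℤ) (x : ℝ) : ‖ek U k x‖ = 1 := norm_exp_ofReal_mul_I _

lemma ek_add (U : ℝ) (k : ℤ) (x y : ℝ) : ek U k (x + y) = ek U k x * ek U k y := by
  unfold ek
  rw [← Complex.exp_add]
  congr 1
  push_cast
  ring

lemma norm_cut_le {M : ℝ} (hM : 0 ≤ M) (z : ℂ) : ‖cut M z‖ ≤ M := by
  unfold cut
  split_ifs with h
  · exact h
  · rw [norm_zero]; exact hM

lemma norm_cut_le' (M : ℝ) (z : ℂ) : ‖cut M z‖ ≤ ‖z‖ := by
  unfold cut
  split_ifs with h
  · exact le_rfl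
  · rw [norm_zero]; exact norm_nonneg _

lemma bi_nonneg {n : ℕ} (M Y α : ℝ) (t : ℝ) (h : Fin n → ℝ) : 0 ≤ bi M Y α t h := by
  unfold bi
  split_ifs
  · exact mul_nonneg (gz_nonneg _) (Finset.prod_nonneg fun j _ => fz_nonneg _ _)
  · exact le_rfl

lemma wm_nonneg {H : ℝ} (hH : 0 ≤ H) (b : ℝ) (r : ℕ) : 0 ≤ wm b H r := by
  unfold wm
  exact intervalIntegral.integral_nonneg (by linarith) fun y _ => gz_nonneg y

lemma th_nonneg {n : ℕ} (hn : 1 ≤ n) : 0 ≤ th n := by
  unfold th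
  have h1 : (1 : ℝ) ≤ n := by exact_mod_cast hn
  exact div_nonneg (by linarith) (by linarith)

lemma sh_zero {n : ℕ} (α : ℝ) (h : Fin n → ℝ) (t : ℝ) : sh α h t 0 = t + α := rfl

lemma sh_succ {n : ℕ} (α : ℝ) (h : Fin n → ℝ) (t : ℝ) (j : Fin n) : sh α h t j.succ = t + h j := rfl

end Pool.Agent.P07318h
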