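import Pool.Agent.Lib.P07318h.Defs
import Pool.Agent.Lib.P07318s.DgTrunc

/-!
# Trivial bound of the diagonal terms

PROOF. `c = ε/(k+1)`. `cf y p = hgt^(-1/2) W(2π hgt/y) ≤ C hgt^(-1/2) (y/hgt)^c` (`W_le_rpow`, P07318s/WMellin.lean), so for `lam p = 0` the term of `Dg` is `≤ C^k (4U)^(kc) aa c p` (`DgTruncAux.aa`), and `aa_summable`.
-/

set_option autoImplicit false

namespace Pool.Agent.P07318h

open MeasureTheory Complex Pool.Agent.P07318s Pool.Agent.P07318f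

theorem dg_le (k : ℕ) (ε : ℝ) (hε : 0 < ε) : ∃ C : ℝ, 0 < C ∧ ∀ (U : ℝ) (x : Fin k → ℝ), 1 ≤ U → (∀ j, U ≤ x j) →
    (∀ j, x j ≤ 4 * U) → ‖Dg x‖ ≤ C * U ^ ε := by
  set c : ℝ := ε / (k + 1) with hc
  have hc0 : 0 < c := by positivity
  obtain ⟨C0, hC0, hW⟩ := W_le_rpow c hc0
  have hS := DgTruncAux.aa_summable (k := k) hc0
  have hS0 : 0 ≤ ∑' p : Fin k → ℕ+ × ℕ+, DgTruncAux.aa c p :=
    tsum_nonneg fun p => DgTruncAux.aa_nonneg c p
  refine ⟨C0 ^ k * (∑' p : Fin k → ℕ+ × ℕ+, DgTruncAux.aa c p) + 1, by positivity,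
    fun U x hU hx1 hx2 => ?_⟩
  have hU0 : 0 < U := by linarith
  have hpi := Real.pi_gt_three
  have hcf : ∀ j (p : ℕ+ × ℕ+), |cf (x j) p| ≤ C0 * U ^ c * (hgt p) ^ (-(1 / 2 + c)) := by
    intro j p
    have hp := hgt_pos p
    have hxj : 0 < x j := lt_of_lt_of_le hU0 (hx1 j)
    have hy : 0 < 2 * Real.pi * hgt p / x j := by positivity
    have h1 := hW _ hy
    have h2 : (2 * Real.pi * hgt p / x j) ^ (-c) ≤ U ^ c * (hgt p) ^ (-c) := by
      have h3 : hgt p / U ≤ 2 * Real.pi * hgt p / x j := by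
        rw [div_le_div_iff₀ hU0 hxj]
        have h4 : x j ≤ 2 * Real.pi * U := by
          have := hx2 j
          nlinarith
        nlinarith
      calc (2 * Real.pi * hgt p / x j) ^ (-c) ≤ (hgt p / U) ^ (-c) :=
            Real.rpow_le_rpow_of_nonpos (by positivity) h3 (by linarith)
        _ = U ^ c * (hgt p) ^ (-c) := by
            rw [Real.div_rpow hp.le hU0.le, Real.rpow_neg hU0.le, div_inv_eq_mul, mul_comm]
    have hWn : 0 ≤ W (2 * Real.pi * hgt p / x j) := by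
      unfold W
      exact mul_nonneg (by positivity)
        (setIntegral_nonneg measurableSet_Ioi fun u _ => (Real.exp_pos _).le)
    unfold cf
    rw [abs_of_nonneg (mul_nonneg (Real.rpow_nonneg hp.le _) hWn)]
    calc (hgt p) ^ (-(1 / 2) : ℝ) * W (2 * Real.pi * hgt p / x j)
        ≤ (hgt p) ^ (-(1 / 2) : ℝ) * (C0 * (U ^ c * (hgt p) ^ (-c))) := by
          refine mul_le_mul_of_nonneg_left (h1.trans ?_) (Real.rpow_nonneg hp.le _)
          exact mul_le_mul_of_nonneg_left h2 hC0.le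
      _ = C0 * U ^ c * (hgt p) ^ (-(1 / 2 + c)) := by
          rw [show -(1 / 2 + c) = -(1 / 2) + -c by ring, Real.rpow_add hp]
          ring
  have hterm : ∀ p : Fin k → ℕ+ × ℕ+,
      ‖(if lam p = 0 then ∏ j, ((cf (x j) (p j) : ℂ) * ex (x j) (p j)) else 0)‖ ≤
        (C0 * U ^ c) ^ k * DgTruncAux.aa c p := by
    intro p
    unfold DgTruncAux.aa
    split_ifs with h
    · rw [norm_prod]
      calc ∏ j, ‖(cf (x j) (p j) : ℂ) * ex (x j) (p j)‖
          ≤ ∏ j, (C0 * U ^ c * (hgt (p j)) ^ (-(1 / 2 + c))) := by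
            refine Finset.prod_le_prod (fun _ _ => norm_nonneg _) fun j _ => ?_
            rw [norm_mul, norm_ex, mul_one, Complex.norm_real, Real.norm_eq_abs]
            exact hcf j (p j)
        _ = (C0 * U ^ c) ^ k * ∏ j, (hgt (p j)) ^ (-(1 / 2 + c)) := by
            rw [Finset.prod_mul_distrib, Finset.prod_const, Finset.card_univ, Fintype.card_fin]
    · rw [norm_zero, mul_zero]
  have hb : ‖Dg x‖ ≤ (C0 * U ^ c) ^ k * ∑' p : Fin k → ℕ+ × ℕ+, DgTruncAux.aa c p := by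
    unfold Dg
    refine tsum_of_norm_bounded (hS.hasSum.mul_left _) fun p => ?_
    convert hterm p using 2
  have hUk : (U ^ c) ^ k ≤ U ^ ε := by
    rw [← Real.rpow_natCast, ← Real.rpow_mul hU0.le]
    refine Real.rpow_le_rpow_of_exponent_le hU ?_
    rw [hc, div_mul_eq_mul_div, div_le_iff₀ (by positivity)]
    nlinarith
  have hUe : 0 ≤ U ^ ε := by positivity
  calc ‖Dg x‖ ≤ (C0 * U ^ c) ^ k * ∑' p : Fin k → ℕ+ × ℕ+, DgTruncAux.aa c p := hb
    _ = C0 ^ k * (∑' p : Fin k → ℕ+ × ℕ+, DgTruncAux.aa c p) * (U ^ c) ^ k := by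
        rw [mul_pow]
        ring
    _ ≤ C0 ^ k * (∑' p : Fin k → ℕ+ × ℕ+, DgTruncAux.aa c p) * U ^ ε := by
        gcongr
    _ ≤ (C0 ^ k * (∑' p : Fin k → ℕ+ × ℕ+, DgTruncAux.aa c p) + 1) * U ^ ε := by
        nlinarith

end Pool.Agent.P07318h
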