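import Pool.Agent.Lib.P07318h.Blk

/-!
# Dual large sieve with weights

PROOF. Blocks `D_j = {q : 2^j ≤ h < 2^(j+1), Y < h}`, finite. For `q ∈ D_j`: `kap δ U h ≤ kap δ U 2^j` (`DKerAux.kap_anti` of P07318f/DKer.lean) and `H h⁻¹ + 1 ≤ H/Y + 1`. `blk_dual` with `A = 2^j`:
`∑_{q ∈ D_j} ‖..‖² ≤ C (L + 2^j)^(1+2δ) ∫ |Φ|²`. So the left hand side is `≤ C (H/Y + 1) ∫ |Φ|² ∑_j kap δ U 2^j (L + 2^j)^(1+2δ)`. For `2^j ≤ U`: `kap ≤ U^δ 2^(-jδ)`, `(L + 2^j)^(1+2δ) ≤ (9U)^(1+2δ) ≤ 81 U^(1+2δ)`: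
sum `≤ C U^(1+3δ)`. For `2^j > U`: `kap = U² 4^(-j)`, `(L + 2^j)^(1+2δ) ≤ 81 · 2^(j(1+2δ))`: `∑ U² 2^(-j(1-2δ)) ≤ C U² U^(-(1-2δ)) = C U^(1+2δ)` (`δ ≤ 1/4`).
-/

set_option autoImplicit false

namespace Pool.Agent.P07318h

open MeasureTheory Complex Pool.Agent.P07318s Pool.Agent.P07318f

namespace DualBAux

/-- the dyadic level of a fraction -/
noncomputable def lv (q : Q) : ℕ := Nat.log 2 ((q.1.1 : ℕ) * (q.1.2 : ℕ))

theorem lv_le (q : Q) : (2 : ℝ) ^ lv q ≤ hgt q.1 := by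
  have h0 : (q.1.1 : ℕ) * (q.1.2 : ℕ) ≠ 0 := (Nat.mul_pos q.1.1.2 q.1.2.2).ne'
  have h1 : 2 ^ lv q ≤ (q.1.1 : ℕ) * (q.1.2 : ℕ) := Nat.pow_log_le_self 2 h0
  have h2 : ((2 ^ lv q : ℕ) : ℝ) ≤ (((q.1.1 : ℕ) * (q.1.2 : ℕ) : ℕ) : ℝ) := by exact_mod_cast h1
  unfold hgt
  push_cast at h2
  exact h2

theorem le_lv (q : Q) : hgt q.1 ≤ 2 * (2 : ℝ) ^ lv q := by
  have h1 : (q.1.1 : ℕ) * (q.1.2 : ℕ) < 2 ^ (lv q + 1) :=
    Nat.lt_pow_succ_log_self (by norm_num) _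
  have h2 : (((q.1.1 : ℕ) * (q.1.2 : ℕ) : ℕ) : ℝ) < ((2 ^ (lv q + 1) : ℕ) : ℝ) := by
    exact_mod_cast h1
  unfold hgt
  push_cast at h2
  rw [pow_succ] at h2
  linarith

theorem level_bound {δ U L : ℝ} (hδ : 0 < δ) (hδ2 : δ ≤ 1 / 4) (hU : 1 ≤ U) (hL : 0 ≤ L)
    (hLU : L ≤ 8 * U) {x : ℝ} (hx : 0 < x) :
    kap δ U x * (L + x) ^ (1 + 2 * δ) ≤ 81 * (U ^ (1 + 3 * δ) * x ^ (-δ)) := by
  have hU0 : 0 < U := by linarith
  have h9 : (9 : ℝ) ^ (1 + 2 * δ) ≤ 81 := by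
    calc (9 : ℝ) ^ (1 + 2 * δ) ≤ (9 : ℝ) ^ (2 : ℝ) :=
          Real.rpow_le_rpow_of_exponent_le (by norm_num) (by linarith)
      _ = 81 := by norm_num
  have hUd : U ^ (1 + 3 * δ) = U ^ (1 + 2 * δ) * U ^ δ := by
    rw [← Real.rpow_add hU0]
    congr 1
    ring
  have hxd : (U / x) ^ δ = U ^ δ * x ^ (-δ) := by
    rw [Real.div_rpow hU0.le hx.le, Real.rpow_neg hx.le, div_eq_mul_inv]
  unfold kap
  split_ifs with h
  · have h1 : (L + x) ^ (1 + 2 * δ) ≤ 81 * U ^ (1 + 2 * δ) := by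
      calc (L + x) ^ (1 + 2 * δ) ≤ (9 * U) ^ (1 + 2 * δ) :=
            Real.rpow_le_rpow (by linarith) (by linarith) (by linarith)
        _ = 9 ^ (1 + 2 * δ) * U ^ (1 + 2 * δ) := Real.mul_rpow (by norm_num) hU0.le
        _ ≤ 81 * U ^ (1 + 2 * δ) :=
            mul_le_mul_of_nonneg_right h9 (Real.rpow_nonneg hU0.le _)
    calc (U / x) ^ δ * (L + x) ^ (1 + 2 * δ) ≤ (U / x) ^ δ * (81 * U ^ (1 + 2 * δ)) :=
          mul_le_mul_of_nonneg_left h1 (Real.rpow_nonneg (by positivity) _)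
      _ = 81 * (U ^ (1 + 3 * δ) * x ^ (-δ)) := by
          rw [hxd, hUd]
          ring
  · have hxU : U < x := not_le.1 h
    have h0 : 0 < U / x := by positivity
    have h1 : (L + x) ^ (1 + 2 * δ) ≤ 81 * x ^ (1 + 2 * δ) := by
      calc (L + x) ^ (1 + 2 * δ) ≤ (9 * x) ^ (1 + 2 * δ) :=
            Real.rpow_le_rpow (by linarith) (by linarith) (by linarith)
        _ = 9 ^ (1 + 2 * δ) * x ^ (1 + 2 * δ) := Real.mul_rpow (by norm_num) hx.le
        _ ≤ 81 * x ^ (1 + 2 * δ) :=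
            mul_le_mul_of_nonneg_right h9 (Real.rpow_nonneg hx.le _)
    have h2 : (U / x) ^ (2 : ℝ) = (U / x) ^ (1 - 2 * δ) * (U / x) ^ (1 + 2 * δ) := by
      rw [← Real.rpow_add h0]
      congr 1
      ring
    have h3 : (U / x) ^ (1 + 2 * δ) * x ^ (1 + 2 * δ) = U ^ (1 + 2 * δ) := by
      rw [← Real.mul_rpow h0.le hx.le, div_mul_cancel₀ _ hx.ne']
    have h4 : (U / x) ^ (1 - 2 * δ) ≤ (U / x) ^ δ :=
      Real.rpow_le_rpow_of_exponent_ge h0 ((div_le_one hx).2 hxU.le) (by linarith)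
    calc (U / x) ^ (2 : ℝ) * (L + x) ^ (1 + 2 * δ)
        ≤ (U / x) ^ (2 : ℝ) * (81 * x ^ (1 + 2 * δ)) :=
          mul_le_mul_of_nonneg_left h1 (Real.rpow_nonneg h0.le _)
      _ = 81 * ((U / x) ^ (1 - 2 * δ) * ((U / x) ^ (1 + 2 * δ) * x ^ (1 + 2 * δ))) := by
          rw [h2]
          ring
      _ = 81 * ((U / x) ^ (1 - 2 * δ) * U ^ (1 + 2 * δ)) := by rw [h3]
      _ ≤ 81 * ((U / x) ^ δ * U ^ (1 + 2 * δ)) := by
          have := Real.rpow_nonneg hU0.le (1 + 2 * δ)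
          gcongr
      _ = 81 * (U ^ (1 + 3 * δ) * x ^ (-δ)) := by
          rw [hxd, hUd]
          ring

end DualBAux

open DualBAux

theorem dual_ls (δ : ℝ) (hδ : 0 < δ) (hδ2 : δ ≤ 1 / 4) : ∃ C : ℝ, 0 < C ∧ ∀ (U Y H L a M : ℝ) (Φ : ℝ → ℂ),
    1 ≤ U → 1 ≤ Y → 0 ≤ H → 0 ≤ L → L ≤ 8 * U → Measurable Φ → (∀ t, t ∉ Set.Icc a (a + L) → Φ t = 0) →
    (∀ t, ‖Φ t‖ ≤ M) →
    ∑' q : Q, ENNReal.ofReal (if Y < hgt q.1 then kap δ U (hgt q.1) * (H * (hgt q.1)⁻¹ + 1) else 0) *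
        ‖∫ t, Φ t * ex t q.1‖ₑ ^ 2 ≤
      ENNReal.ofReal (C * U ^ (1 + 4 * δ) * (H / Y + 1)) * ∫⁻ t, ‖Φ t‖ₑ ^ 2 := by
  obtain ⟨C0, hC0, hb⟩ := blk_dual δ hδ (by linarith)
  set r : ℝ := (2 : ℝ) ^ (-δ) with hr
  have hr0 : 0 ≤ r := by positivity
  have hr1 : r < 1 := Real.rpow_lt_one_of_one_lt_of_neg (by norm_num) (by linarith)
  have hsum : Summable fun j : ℕ => r ^ j := summable_geometric_of_lt_one hr0 hr1
  set S : ℝ := ∑' j : ℕ, r ^ j with hS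
  have hS0 : 0 ≤ S := tsum_nonneg fun j => by positivity
  refine ⟨C0 * (81 * S) + 1, by positivity, fun U Y H L a M Φ hU hY hH hL hLU hm h0 hM => ?_⟩
  have hU0 : 0 < U := by linarith
  have hY0 : 0 < Y := by linarith
  have hHY : 0 ≤ H / Y := by positivity
  rw [ENNReal.tsum_eq_iSup_sum]
  refine iSup_le fun s => ?_
  set w : Q → ℝ := fun q =>
    if Y < hgt q.1 then kap δ U (hgt q.1) * (H * (hgt q.1)⁻¹ + 1) else 0 with hw
  set z : Q → ENNReal := fun q => ‖∫ t, Φ t * ex t q.1‖ₑ ^ 2 with hz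
  set I : ENNReal := ∫⁻ t, ‖Φ t‖ₑ ^ 2 with hI
  change ∑ q ∈ s, ENNReal.ofReal (w q) * z q ≤ _
  have hmap : ∀ q ∈ s, lv q ∈ Finset.range (s.sup lv + 1) := fun q hq =>
    Finset.mem_range.2 (Nat.lt_succ_of_le (Finset.le_sup hq))
  rw [← Finset.sum_fiberwise_of_maps_to hmap]
  have hlev : ∀ j : ℕ, ∑ q ∈ s.filter (fun q => lv q = j), ENNReal.ofReal (w q) * z q ≤
      ENNReal.ofReal (C0 * (81 * (U ^ (1 + 3 * δ) * r ^ j)) * (H / Y + 1)) * I := by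
    intro j
    have h2j : (0 : ℝ) < 2 ^ j := by positivity
    have hk : 0 ≤ kap δ U (2 ^ j) := kap_nonneg hU0.le h2j.le
    have h1 : ∀ q ∈ s.filter (fun q => lv q = j), ENNReal.ofReal (w q) * z q ≤
        ENNReal.ofReal (kap δ U (2 ^ j) * (H / Y + 1)) * z q := by
      intro q hq
      have hqj : lv q = j := (Finset.mem_filter.1 hq).2
      have h2 := lv_le q
      rw [hqj] at h2
      refine mul_le_mul_left (ENNReal.ofReal_le_ofReal ?_) _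
      rw [hw]
      simp only
      split_ifs with h3
      · have hh : 0 < hgt q.1 := hgt_pos q.1
        refine mul_le_mul (DKerAux.kap_anti hδ hU0 h2j h2) ?_ (by positivity) hk
        have h4 : (hgt q.1)⁻¹ ≤ Y⁻¹ := inv_anti₀ hY0 h3.le
        have h5 : H * (hgt q.1)⁻¹ ≤ H * Y⁻¹ := mul_le_mul_of_nonneg_left h4 hH
        rw [div_eq_mul_inv]
        linarith
      · exact mul_nonneg hk (by linarith)
    have h6 := hb (2 ^ j) L a M (s.filter (fun q => lv q = j)) Φ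
      (one_le_pow₀ (by norm_num)) hL
      (fun q hq => by
        have h7 := le_lv q
        rw [(Finset.mem_filter.1 hq).2] at h7
        exact h7) hm h0 hM
    calc ∑ q ∈ s.filter (fun q => lv q = j), ENNReal.ofReal (w q) * z q
        ≤ ∑ q ∈ s.filter (fun q => lv q = j),
            ENNReal.ofReal (kap δ U (2 ^ j) * (H / Y + 1)) * z q := Finset.sum_le_sum h1
      _ = ENNReal.ofReal (kap δ U (2 ^ j) * (H / Y + 1)) *
            ∑ q ∈ s.filter (fun q => lv q = j), z q := by rw [Finset.mul_sum]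
      _ ≤ ENNReal.ofReal (kap δ U (2 ^ j) * (H / Y + 1)) *
            (ENNReal.ofReal (C0 * (L + 2 ^ j) ^ (1 + 2 * δ)) * I) := by
          gcongr
      _ = ENNReal.ofReal (kap δ U (2 ^ j) * (H / Y + 1) * (C0 * (L + 2 ^ j) ^ (1 + 2 * δ))) *
            I := by
          rw [ENNReal.ofReal_mul (mul_nonneg hk (by linarith)), mul_assoc]
      _ ≤ ENNReal.ofReal (C0 * (81 * (U ^ (1 + 3 * δ) * r ^ j)) * (H / Y + 1)) * I := by
          refine mul_le_mul_left (ENNReal.ofReal_le_ofReal ?_) _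
          have h8 := level_bound hδ hδ2 hU hL hLU h2j
          have h9 : ((2 : ℝ) ^ j) ^ (-δ) = r ^ j := by
            rw [hr, ← Real.rpow_natCast, ← Real.rpow_natCast, ← Real.rpow_mul (by norm_num),
              ← Real.rpow_mul (by norm_num)]
            congr 1
            ring
          rw [h9] at h8
          calc kap δ U (2 ^ j) * (H / Y + 1) * (C0 * (L + 2 ^ j) ^ (1 + 2 * δ))
              = C0 * (kap δ U (2 ^ j) * (L + 2 ^ j) ^ (1 + 2 * δ)) * (H / Y + 1) := by ring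
            _ ≤ C0 * (81 * (U ^ (1 + 3 * δ) * r ^ j)) * (H / Y + 1) := by
                gcongr
  calc ∑ j ∈ Finset.range (s.sup lv + 1),
        ∑ q ∈ s.filter (fun q => lv q = j), ENNReal.ofReal (w q) * z q
      ≤ ∑ j ∈ Finset.range (s.sup lv + 1),
          ENNReal.ofReal (C0 * (81 * (U ^ (1 + 3 * δ) * r ^ j)) * (H / Y + 1)) * I :=
        Finset.sum_le_sum fun j _ => hlev j
    _ = ENNReal.ofReal (∑ j ∈ Finset.range (s.sup lv + 1),
          C0 * (81 * (U ^ (1 + 3 * δ) * r ^ j)) * (H / Y + 1)) * I := by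
        rw [ENNReal.ofReal_sum_of_nonneg (fun j _ => by positivity), Finset.sum_mul]
    _ ≤ ENNReal.ofReal ((C0 * (81 * S) + 1) * U ^ (1 + 4 * δ) * (H / Y + 1)) * I := by
        refine mul_le_mul_left (ENNReal.ofReal_le_ofReal ?_) _
        have h10 : ∑ j ∈ Finset.range (s.sup lv + 1), r ^ j ≤ S :=
          hsum.sum_le_tsum _ fun j _ => by positivity
        have h11 : U ^ (1 + 3 * δ) ≤ U ^ (1 + 4 * δ) :=
          Real.rpow_le_rpow_of_exponent_le hU (by linarith)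
        have h12 : (0 : ℝ) ≤ U ^ (1 + 3 * δ) := by positivity
        have h13 : ∑ j ∈ Finset.range (s.sup lv + 1),
            C0 * (81 * (U ^ (1 + 3 * δ) * r ^ j)) * (H / Y + 1) =
            C0 * 81 * U ^ (1 + 3 * δ) * (H / Y + 1) *
              ∑ j ∈ Finset.range (s.sup lv + 1), r ^ j := by
          rw [Finset.mul_sum]
          refine Finset.sum_congr rfl fun j _ => ?_
          ring
        rw [h13]
        calc C0 * 81 * U ^ (1 + 3 * δ) * (H / Y + 1) *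
              ∑ j ∈ Finset.range (s.sup lv + 1), r ^ j
            ≤ C0 * 81 * U ^ (1 + 4 * δ) * (H / Y + 1) * S := by
              gcongr
          _ = (C0 * (81 * S)) * U ^ (1 + 4 * δ) * (H / Y + 1) := by ring
          _ ≤ (C0 * (81 * S) + 1) * U ^ (1 + 4 * δ) * (H / Y + 1) := by
              gcongr
              linarith

end Pool.Agent.P07318h
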