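import Pool.Agent.Lib.P07318h.Defs
import Pool.Agent.Lib.P07318f.VdcK

/-!
# The second derivative test for `x log(1 + d/n)`

PROOF. `VdcKAux.base2` (P07318f/VdcK.lean): `Bd 2 A' (1/2) (17 A')` says: if the second differences of `g` lie in `[l, A' l]` on the range then
`‖∑_{n ∈ Ico a (a+N)} e(g n)‖ ≤ 17 A' N (l^(1/2) + (N² l)^(-1/2) + N^(-1/2))`, which is `≤ 17 A' (A l^(1/2) + l^(-1/2) + A^(1/2))` for `N ≤ A`. Here `g n = (x/2π) (log(n+d) - log n)`; its second difference at `n` is `g''(ξ)`,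
`ξ ∈ (n, n+2)` (or directly: `Δ² log n = log(n(n+2)/(n+1)²) = -log(1 + 1/(n(n+2)))`), `g''(y) = (x/2π) (1/y² - 1/(y+d)²) = (x/2π) d(2y+d)/(y²(y+d)²)`. For `A < n`, `n + 2 ≤ 4A`, `1 ≤ d ≤ A` it lies in `[l, A' l]` with
`l = c₀ x d/A³` and absolute constants `c₀ > 0`, `A'`. `Finset.Ioc a b = Finset.Ico (a+1) (a+1+(b-a))`; if `b = a` the sum is empty.
-/

set_option autoImplicit false

namespace Pool.Agent.P07318h

open MeasureTheory Complex Pool.Agent.P07318s Pool.Agent.P07318f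

namespace ExpLogAux

/-- the second difference of `log (n + d) - log n` -/
theorem snd_diff {p d A : ℝ} (hA : 1 ≤ A) (hp : A ≤ p) (hp2 : p + 2 ≤ 2 * A) (hd : 1 ≤ d)
    (hdA : d ≤ A) :
    d / (18 * A ^ 3) ≤ Real.log (p + d + 2) - Real.log (p + 2) -
        (Real.log (p + d + 1) - Real.log (p + 1)) -
        (Real.log (p + d + 1) - Real.log (p + 1) - (Real.log (p + d) - Real.log p)) ∧
      Real.log (p + d + 2) - Real.log (p + 2) -
        (Real.log (p + d + 1) - Real.log (p + 1)) -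
        (Real.log (p + d + 1) - Real.log (p + 1) - (Real.log (p + d) - Real.log p)) ≤
      5 * d / A ^ 3 := by
  have hA0 : 0 < A := by linarith
  have hp0 : 0 < p := by linarith
  have hd0 : 0 < d := by linarith
  set q : ℝ := p + d with hq
  have hq0 : 0 < q := by positivity
  set R : ℝ := (q + 2) * q * (p + 1) ^ 2 / ((q + 1) ^ 2 * p * (p + 2)) with hR
  have hR0 : 0 < R := by positivity
  have hlog : Real.log (q + 2) - Real.log (p + 2) - (Real.log (q + 1) - Real.log (p + 1)) -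
      (Real.log (q + 1) - Real.log (p + 1) - (Real.log q - Real.log p)) = Real.log R := by
    rw [hR, Real.log_div (by positivity) (by positivity), Real.log_mul (by positivity)
      (by positivity), Real.log_mul (by positivity) hq0.ne', Real.log_mul (by positivity)
      (by positivity), Real.log_mul (by positivity) hp0.ne', Real.log_pow, Real.log_pow]
    push_cast
    ring
  rw [hlog]
  constructor
  · have h1 := Real.one_sub_inv_le_log_of_pos hR0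
    have h2 : 1 - R⁻¹ = d * (q + p + 2) / (q * (q + 2) * (p + 1) ^ 2) := by
      rw [hR]
      field_simp
      rw [hq]
      ring
    rw [h2] at h1
    refine le_trans ?_ h1
    rw [div_le_div_iff₀ (by positivity) (by positivity)]
    have h3 : q * (q + 2) ≤ 9 * A ^ 2 := by
      have h4 : q ≤ 3 * A := by rw [hq]; linarith
      have h5 : q + 2 ≤ 3 * A := by rw [hq]; linarith
      calc q * (q + 2) ≤ (3 * A) * (3 * A) := by gcongr
        _ = 9 * A ^ 2 := by ring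
    have h6 : (p + 1) ^ 2 ≤ 4 * A ^ 2 := by
      calc (p + 1) ^ 2 ≤ (2 * A) ^ 2 := by gcongr; linarith
        _ = 4 * A ^ 2 := by ring
    have h7 : 2 * A ≤ q + p + 2 := by rw [hq]; linarith
    calc d * (q * (q + 2) * (p + 1) ^ 2) ≤ d * (9 * A ^ 2 * (4 * A ^ 2)) := by gcongr
      _ = d * (2 * A) * (18 * A ^ 3) := by ring
      _ ≤ d * (q + p + 2) * (18 * A ^ 3) := by gcongr
  · have h1 := Real.log_le_sub_one_of_pos hR0
    have h2 : R - 1 = d * (q + p + 2) / (p * (p + 2) * (q + 1) ^ 2) := by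
      rw [hR]
      field_simp
      rw [hq]
      ring
    rw [h2] at h1
    refine le_trans h1 ?_
    rw [div_le_div_iff₀ (by positivity) (by positivity)]
    have h3 : A ^ 2 ≤ p * (p + 2) := by nlinarith
    have h4 : A ^ 2 ≤ (q + 1) ^ 2 := by
      have : A ≤ q + 1 := by rw [hq]; linarith
      gcongr
    have h5 : q + p + 2 ≤ 5 * A := by rw [hq]; linarith
    calc d * (q + p + 2) * A ^ 3 ≤ d * (5 * A) * A ^ 3 := by gcongr
      _ = 5 * d * (A ^ 2 * A ^ 2) := by ring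
      _ ≤ 5 * d * (p * (p + 2) * (q + 1) ^ 2) := by gcongr

/-- the phase -/
noncomputable def gg (x : ℝ) (d n : ℕ) : ℝ :=
  x / (2 * Real.pi) * (Real.log ((n : ℝ) + d) - Real.log n)

theorem gg_snd (x : ℝ) (d n : ℕ) : (fwdDiff 1)^[2] (gg x d) n =
    x / (2 * Real.pi) * (Real.log ((n : ℝ) + d + 2) - Real.log ((n : ℝ) + 2) -
        (Real.log ((n : ℝ) + d + 1) - Real.log ((n : ℝ) + 1)) -
        (Real.log ((n : ℝ) + d + 1) - Real.log ((n : ℝ) + 1) -
          (Real.log ((n : ℝ) + d) - Real.log n))) := by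
  have h0 : (fwdDiff 1)^[2] (gg x d) n =
      gg x d (n + 1 + 1) - gg x d (n + 1) - (gg x d (n + 1) - gg x d n) := rfl
  rw [h0]
  unfold gg
  have h1 : (((n + 1 + 1 : ℕ) : ℝ)) = (n : ℝ) + 2 := by push_cast; ring
  have h2 : (((n + 1 : ℕ) : ℝ)) = (n : ℝ) + 1 := by push_cast; ring
  rw [h1, h2, show (n : ℝ) + 2 + d = (n : ℝ) + d + 2 by ring,
    show (n : ℝ) + 1 + d = (n : ℝ) + d + 1 by ring]
  ring

theorem gg_exp (x : ℝ) (d n : ℕ) (hn : 1 ≤ n) :
    cexp (((x * Real.log (1 + (d : ℝ) / n) : ℝ) : ℂ) * I) =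
      cexp (2 * Real.pi * I * (gg x d n : ℂ)) := by
  have hn0 : (0 : ℝ) < n := by exact_mod_cast hn
  have h1 : Real.log (1 + (d : ℝ) / n) = Real.log ((n : ℝ) + d) - Real.log n := by
    rw [← Real.log_div (by positivity) hn0.ne']
    congr 1
    field_simp
  have h2 : x * Real.log (1 + (d : ℝ) / n) = 2 * Real.pi * gg x d n := by
    unfold gg
    rw [h1]
    have := Real.pi_pos
    field_simp
  rw [h2]
  congr 1
  push_cast
  ring

end ExpLogAux

open ExpLogAux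

theorem exp_log : ∃ C : ℝ, 0 < C ∧ ∀ (x : ℝ) (A d a b : ℕ), 1 ≤ x → 1 ≤ A → 1 ≤ d → d ≤ A → A ≤ a → a ≤ b → b ≤ 2 * A →
    ‖∑ n ∈ Finset.Ioc a b, cexp (((x * Real.log (1 + (d : ℝ) / n) : ℝ) : ℂ) * I)‖ ≤
      C * ((x * d / A) ^ (1 / 2 : ℝ) + ((A : ℝ) ^ 3 / (x * d)) ^ (1 / 2 : ℝ) + (A : ℝ) ^ (1 / 2 : ℝ)) := by
  refine ⟨16830, by norm_num, fun x A d a b hx hA hd hdA hAa hab hbA => ?_⟩
  have hA1 : (1 : ℝ) ≤ A := by exact_mod_cast hA
  have hd1 : (1 : ℝ) ≤ d := by exact_mod_cast hd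
  have hdA1 : (d : ℝ) ≤ A := by exact_mod_cast hdA
  have hA0 : (0 : ℝ) < A := by linarith
  have hd0 : (0 : ℝ) < d := by linarith
  have hx0 : 0 < x := by linarith
  have hpi := Real.pi_pos
  rcases Nat.eq_or_lt_of_le hab with hab' | hab'
  · subst hab'
    rw [Finset.Ioc_self, Finset.sum_empty, norm_zero]
    positivity
  obtain ⟨N, hN⟩ : ∃ N, b = a + N := ⟨b - a, by omega⟩
  have hN1 : 1 ≤ N := by omega
  have hNA : N ≤ A := by omega
  have hset : Finset.Ioc a b = Finset.Ico (a + 1) (a + 1 + N) := by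
    ext n
    rw [Finset.mem_Ioc, Finset.mem_Ico]
    omega
  rw [hset, Finset.sum_congr rfl fun n hn => gg_exp x d n (by
    have := (Finset.mem_Ico.1 hn).1
    omega)]
  set l : ℝ := x / (2 * Real.pi) * (d / (18 * (A : ℝ) ^ 3)) with hl
  have hl0 : 0 < l := by positivity
  have hb := VdcKAux.base2 90 (by norm_num) (gg x d) (a + 1) N l hN1 hl0 (fun n hn1 hn2 => by
    rw [gg_snd]
    have hn3 : A ≤ n := by omega
    have hn4 : n + 2 ≤ 2 * A := by omega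
    obtain ⟨h1, h2⟩ := snd_diff (p := n) (d := d) (A := A) hA1 (by exact_mod_cast hn3)
      (by exact_mod_cast hn4) hd1 hdA1
    have hc : 0 ≤ x / (2 * Real.pi) := by positivity
    refine ⟨mul_le_mul_of_nonneg_left h1 hc, ?_⟩
    refine le_trans (mul_le_mul_of_nonneg_left h2 hc) (le_of_eq ?_)
    rw [hl]
    field_simp
    ring)
  refine le_trans hb ?_
  have hNr : (1 : ℝ) ≤ N := by exact_mod_cast hN1
  have hN0 : (0 : ℝ) < N := by linarith
  have hNAr : (N : ℝ) ≤ A := by exact_mod_cast hNA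
  -- first term
  have t1 : (N : ℝ) * l ^ (1 / 2 : ℝ) ≤ (x * d / A) ^ (1 / 2 : ℝ) := by
    have h1 : (A : ℝ) * l ^ (1 / 2 : ℝ) = ((A : ℝ) ^ 2 * l) ^ (1 / 2 : ℝ) := by
      rw [Real.mul_rpow (by positivity) hl0.le, ← Real.sqrt_eq_rpow, ← Real.sqrt_eq_rpow,
        Real.sqrt_sq hA0.le]
    have h2 : (A : ℝ) ^ 2 * l ≤ x * d / A := by
      have h3 : (A : ℝ) ^ 2 * l = x * d / A * (1 / (36 * Real.pi)) := by
        rw [hl]
        field_simp
        ring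
      rw [h3]
      have h4 : 1 / (36 * Real.pi) ≤ 1 := by
        rw [div_le_one (by positivity)]
        have := Real.pi_gt_three
        linarith
      exact mul_le_of_le_one_right (by positivity) h4
    calc (N : ℝ) * l ^ (1 / 2 : ℝ) ≤ (A : ℝ) * l ^ (1 / 2 : ℝ) := by gcongr
      _ = ((A : ℝ) ^ 2 * l) ^ (1 / 2 : ℝ) := h1
      _ ≤ (x * d / A) ^ (1 / 2 : ℝ) := by gcongr
  have t2 : (N : ℝ) * ((N : ℝ) ^ 2 * l) ^ (-(1 / 2) : ℝ) ≤
      11 * ((A : ℝ) ^ 3 / (x * d)) ^ (1 / 2 : ℝ) := by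
    have h1 : (N : ℝ) * ((N : ℝ) ^ 2 * l) ^ (-(1 / 2) : ℝ) = (1 / l) ^ (1 / 2 : ℝ) := by
      rw [Real.rpow_neg (by positivity), ← Real.sqrt_eq_rpow, ← Real.sqrt_eq_rpow,
        Real.sqrt_mul (by positivity), Real.sqrt_sq hN0.le, Real.sqrt_div zero_le_one,
        Real.sqrt_one]
      field_simp
    have h2 : 1 / l = 36 * Real.pi * ((A : ℝ) ^ 3 / (x * d)) := by
      rw [hl]
      field_simp
      ring
    have h3 : (36 * Real.pi) ^ (1 / 2 : ℝ) ≤ 11 := by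
      rw [← Real.sqrt_eq_rpow]
      refine Real.sqrt_le_iff.2 ⟨by norm_num, ?_⟩
      have := Real.pi_lt_d2
      linarith
    rw [h1, h2, Real.mul_rpow (by positivity) (by positivity)]
    gcongr
  have t3 : (N : ℝ) * (N : ℝ) ^ (-(1 / 2) : ℝ) ≤ (A : ℝ) ^ (1 / 2 : ℝ) := by
    have h1 : (N : ℝ) * (N : ℝ) ^ (-(1 / 2) : ℝ) = (N : ℝ) ^ (1 / 2 : ℝ) := by
      nth_rewrite 1 [← Real.rpow_one (N : ℝ)]
      rw [← Real.rpow_add hN0]
      norm_num
    rw [h1]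
    gcongr
  have hx1 : 0 ≤ (x * d / A) ^ (1 / 2 : ℝ) := by positivity
  have hx2 : 0 ≤ ((A : ℝ) ^ 3 / (x * d)) ^ (1 / 2 : ℝ) := by positivity
  have hx3 : 0 ≤ (A : ℝ) ^ (1 / 2 : ℝ) := by positivity
  calc 17 * 90 * (N : ℝ) * (l ^ (1 / 2 : ℝ) + ((N : ℝ) ^ 2 * l) ^ (-(1 / 2) : ℝ) +
        (N : ℝ) ^ (-(1 / 2) : ℝ))
      = 1530 * ((N : ℝ) * l ^ (1 / 2 : ℝ) + (N : ℝ) * ((N : ℝ) ^ 2 * l) ^ (-(1 / 2) : ℝ) +
        (N : ℝ) * (N : ℝ) ^ (-(1 / 2) : ℝ)) := by ring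
    _ ≤ 1530 * ((x * d / A) ^ (1 / 2 : ℝ) + 11 * ((A : ℝ) ^ 3 / (x * d)) ^ (1 / 2 : ℝ) +
        (A : ℝ) ^ (1 / 2 : ℝ)) := by gcongr
    _ ≤ 16830 * ((x * d / A) ^ (1 / 2 : ℝ) + ((A : ℝ) ^ 3 / (x * d)) ^ (1 / 2 : ℝ) +
        (A : ℝ) ^ (1 / 2 : ℝ)) := by linarith

end Pool.Agent.P07318h
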