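import Pool.Agent.Lib.P07318h.BoxU

/-!
# Shifted moments of zeta, one shift arbitrary and the others in short boxes

PROOF. `δ₀ = min(δ, 1/3)`, `U = T/2`, `η, C` from `box_u`. `T ∈ [T, 2T] = [2U, 4U]`.
(a) `T ≤ T₀` (a constant depending on `n`, `δ`; at least `16`): the set is contained in the box, of measure `H^n ≤ T₀^η H^n T^(-η)`. (b) `T > T₀`, `H ≤ T/2`: `U^(th n + δ₀) ≤ T^(th n + δ) ≤ H ≤ U`, `box_u`, `U^(1-η) ≤ T^(1-η)` (`η ≤ 1` may be assumed),
`U^(-η) ≤ 2^η T^(-η)`. (c) `T > T₀`, `T/2 < H ≤ T`: the box is the union of the `2^n` boxes with base points `β' j ∈ {b j, b j + H/2}` and side `H' = H/2 ≤ U`; `2U ≤ β' j ≤ 2T + T/2 = 5U`, and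
`U^(th n + δ₀) ≤ U^(2/3) ≤ U/2 ≤ H/2` for `U ≥ 8` (`th n ≤ 1/3`). `box_u` for each, `2^n H'^n = H^n`.
-/

set_option autoImplicit false

namespace Pool.Agent.P07318h

open MeasureTheory Complex Pool.Agent.P07318s Pool.Agent.P07318f

namespace FinAux

open BoxUAux

theorem th_le {n : ℕ} (hn : 1 ≤ n) : th n ≤ 1 / 3 := by
  unfold th
  have h1 : (1 : ℝ) ≤ n := by exact_mod_cast hn
  rw [div_le_div_iff₀ (by linarith) (by norm_num)]
  linarith

/-- A box is covered by the `2 ^ n` boxes of half the side. -/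
theorem cover {n : ℕ} (β : Fin n → ℝ) (H : ℝ) :
    Set.Icc β (fun j => β j + H) ⊆ ⋃ s ∈ (Finset.univ : Finset (Fin n → Bool)),
      Set.Icc (fun j => β j + if s j then H / 2 else 0)
        (fun j => (β j + if s j then H / 2 else 0) + H / 2) := by
  intro α hα
  rw [Set.mem_iUnion₂]
  refine ⟨fun j => decide (β j + H / 2 ≤ α j), Finset.mem_univ _, fun j => ?_, fun j => ?_⟩
  · show (β j + if decide (β j + H / 2 ≤ α j) = true then H / 2 else 0) ≤ α j
    by_cases h : β j + H / 2 ≤ α j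
    · rw [if_pos (decide_eq_true h)]
      exact h
    · rw [if_neg (by simpa using h), add_zero]
      exact hα.1 j
  · show α j ≤ (β j + if decide (β j + H / 2 ≤ α j) = true then H / 2 else 0) + H / 2
    have h2 : α j ≤ β j + H := hα.2 j
    by_cases h : β j + H / 2 ≤ α j
    · rw [if_pos (decide_eq_true h)]
      linarith
    · rw [if_neg (by simpa using h), add_zero]
      push Not at h
      exact h.le

end FinAux

open FinAux BoxUAux in
theorem short_boxes (n : ℕ) (hn : 1 ≤ n) (δ : ℝ) (hδ : 0 < δ) : ∃ C η : ℝ, 0 < C ∧ 0 < η ∧ ∀ T H : ℝ, 1 ≤ T →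
    T ^ (((n : ℝ) - 1) / (3 * n) + δ) ≤ H → H ≤ T → ∀ α₀ : ℝ, T ≤ α₀ → α₀ ≤ 2 * T → ∀ β : Fin n → ℝ,
    (∀ j, T ≤ β j) → (∀ j, β j ≤ 2 * T) →
    volume {α | α ∈ Set.Icc β (fun j => β j + H) ∧ ∃ V ∈ Set.Icc 0 T, C * T ^ (1 - η) <
      ‖∫ t in (0:ℝ)..V, (((∏ j, ‖riemannZeta (1 / 2 +
          ((t + (Fin.cons α₀ α : Fin (n + 1) → ℝ) j : ℝ) : ℂ) * I)‖ ^ 2 : ℝ) : ℂ) -
        mainTerm (fun j => t + (Fin.cons α₀ α : Fin (n + 1) → ℝ) j))‖} ≤
      ENNReal.ofReal (C * H ^ n * T ^ (-η)) := by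
  obtain ⟨δ₀, hδ₀⟩ : ∃ δ₀ : ℝ, δ₀ = min δ (1 / 3) := ⟨_, rfl⟩
  have hd0 : 0 < δ₀ := by rw [hδ₀]; exact lt_min hδ (by norm_num)
  have hd1 : δ₀ ≤ δ := by rw [hδ₀]; exact min_le_left _ _
  have hd2 : δ₀ ≤ 1 / 3 := by rw [hδ₀]; exact min_le_right _ _
  obtain ⟨η₁, C₁, hη₁, hC₁, hbox⟩ := box_u n hn δ₀ hd0
  obtain ⟨η, hη⟩ : ∃ η : ℝ, η = min η₁ 1 := ⟨_, rfl⟩
  have hη0 : 0 < η := by rw [hη]; exact lt_min hη₁ one_pos
  have hη1 : η ≤ η₁ := by rw [hη]; exact min_le_left _ _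
  have hη2 : η ≤ 1 := by rw [hη]; exact min_le_right _ _
  refine ⟨2 * C₁ + 16, η, by positivity, hη0, ?_⟩
  intro T H hT hTH hHT α₀ h0 h0' β hβ hβ'
  have hT0 : 0 < T := by linarith
  have hH0 : 0 < H := lt_of_lt_of_le (Real.rpow_pos_of_pos hT0 _) hTH
  have hTη : 0 < T ^ (-η) := Real.rpow_pos_of_pos hT0 _
  rcases lt_or_ge T 16 with hT16 | hT16
  · refine (measure_mono (fun h hh => hh.1)).trans ?_
    rw [vol_box β hH0.le]
    apply ENNReal.ofReal_le_ofReal
    have h1 : T ^ η ≤ 16 := by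
      calc T ^ η ≤ T ^ (1 : ℝ) := Real.rpow_le_rpow_of_exponent_le hT hη2
        _ = T := Real.rpow_one T
        _ ≤ 16 := hT16.le
    have h2 : T ^ η * T ^ (-η) = 1 := by
      rw [← Real.rpow_add hT0, add_neg_cancel, Real.rpow_zero]
    have h4 : 1 ≤ (2 * C₁ + 16) * T ^ (-η) := by
      rw [← h2]
      exact mul_le_mul_of_nonneg_right (by linarith) hTη.le
    calc H ^ n = H ^ n * 1 := (mul_one _).symm
      _ ≤ H ^ n * ((2 * C₁ + 16) * T ^ (-η)) := mul_le_mul_of_nonneg_left h4 (by positivity)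
      _ = (2 * C₁ + 16) * H ^ n * T ^ (-η) := by ring
  · obtain ⟨U, hU⟩ : ∃ U : ℝ, U = T / 2 := ⟨_, rfl⟩
    have hUT : T = 2 * U := by rw [hU]; ring
    have hU8 : 8 ≤ U := by rw [hU]; linarith
    have hU1 : 1 ≤ U := by linarith
    have hU0 : 0 < U := by linarith
    -- the exceptional set without the box
    obtain ⟨F, hF⟩ : ∃ F : Set (Fin n → ℝ), F = {h | ∃ V ∈ Set.Icc 0 (2 * U), C₁ * U ^ (1 - η₁) <
      ‖∫ t in (0:ℝ)..V, (((∏ j, ‖riemannZeta (1 / 2 +
          ((t + (Fin.cons α₀ h : Fin (n + 1) → ℝ) j : ℝ) : ℂ) * I)‖ ^ 2 : ℝ) : ℂ) -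
        mainTerm (fun j => t + (Fin.cons α₀ h : Fin (n + 1) → ℝ) j))‖} := ⟨_, rfl⟩
    have hbF : ∀ (H' : ℝ) (β' : Fin n → ℝ), U ^ (th n + δ₀) ≤ H' → H' ≤ U → (∀ j, 2 * U ≤ β' j) →
        (∀ j, β' j ≤ 5 * U) → volume (Set.Icc β' (fun j => β' j + H') ∩ F) ≤
          ENNReal.ofReal (C₁ * H' ^ n * U ^ (-η₁)) := by
      intro H' β' h1 h2 h3 h4
      rw [hF]
      exact hbox U H' α₀ β' hU1 h1 h2 (by linarith) (by linarith) h3 h4
    have hthr : C₁ * U ^ (1 - η₁) ≤ (2 * C₁ + 16) * T ^ (1 - η) := by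
      have h1 : U ^ (1 - η₁) ≤ U ^ (1 - η) := Real.rpow_le_rpow_of_exponent_le hU1 (by linarith)
      have h2 : U ^ (1 - η) ≤ T ^ (1 - η) := Real.rpow_le_rpow hU0.le (by linarith) (by linarith)
      have h3 : 0 ≤ T ^ (1 - η) := by positivity
      calc C₁ * U ^ (1 - η₁) ≤ C₁ * T ^ (1 - η) := mul_le_mul_of_nonneg_left (h1.trans h2) hC₁.le
        _ ≤ (2 * C₁ + 16) * T ^ (1 - η) := mul_le_mul_of_nonneg_right (by linarith) h3
    have hsub : {α | α ∈ Set.Icc β (fun j => β j + H) ∧ ∃ V ∈ Set.Icc 0 T,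
      (2 * C₁ + 16) * T ^ (1 - η) <
      ‖∫ t in (0:ℝ)..V, (((∏ j, ‖riemannZeta (1 / 2 +
          ((t + (Fin.cons α₀ α : Fin (n + 1) → ℝ) j : ℝ) : ℂ) * I)‖ ^ 2 : ℝ) : ℂ) -
        mainTerm (fun j => t + (Fin.cons α₀ α : Fin (n + 1) → ℝ) j))‖} ⊆
        Set.Icc β (fun j => β j + H) ∩ F := by
      rintro α ⟨hα, V, hV, hlt⟩
      refine ⟨hα, ?_⟩
      rw [hF]
      rw [hUT] at hV
      exact ⟨V, hV, hthr.trans_lt hlt⟩
    refine (measure_mono hsub).trans ?_
    have hUη : U ^ (-η₁) ≤ 2 * T ^ (-η) := by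
      have h1 : U ^ (-η₁) ≤ U ^ (-η) := Real.rpow_le_rpow_of_exponent_le hU1 (by linarith)
      have h2 : U ^ (-η) = 2 ^ η * T ^ (-η) := by
        rw [hUT, Real.mul_rpow (by norm_num) hU0.le, ← mul_assoc, ← Real.rpow_add (by norm_num),
          add_neg_cancel, Real.rpow_zero, one_mul]
      have h3 : (2 : ℝ) ^ η ≤ 2 := by
        calc (2 : ℝ) ^ η ≤ (2 : ℝ) ^ (1 : ℝ) := Real.rpow_le_rpow_of_exponent_le (by norm_num) hη2
          _ = 2 := Real.rpow_one 2
      rw [h2] at h1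
      exact h1.trans (mul_le_mul_of_nonneg_right h3 hTη.le)
    have hlast : C₁ * H ^ n * U ^ (-η₁) ≤ (2 * C₁ + 16) * H ^ n * T ^ (-η) := by
      calc C₁ * H ^ n * U ^ (-η₁) ≤ C₁ * H ^ n * (2 * T ^ (-η)) :=
            mul_le_mul_of_nonneg_left hUη (by positivity)
        _ = (2 * C₁) * (H ^ n * T ^ (-η)) := by ring
        _ ≤ (2 * C₁ + 16) * (H ^ n * T ^ (-η)) :=
            mul_le_mul_of_nonneg_right (by linarith) (by positivity)
        _ = (2 * C₁ + 16) * H ^ n * T ^ (-η) := by ring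
    rcases le_or_gt H U with hHU | hHU
    · refine (hbF H β ?_ hHU (fun j => ?_) (fun j => ?_)).trans (ENNReal.ofReal_le_ofReal hlast)
      · refine le_trans ?_ hTH
        calc U ^ (th n + δ₀) ≤ T ^ (th n + δ₀) :=
              Real.rpow_le_rpow hU0.le (by linarith) (by have := th_nonneg hn; linarith)
          _ ≤ T ^ (((n : ℝ) - 1) / (3 * n) + δ) := by
              refine Real.rpow_le_rpow_of_exponent_le hT ?_
              unfold th
              linarith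
      · rw [← hUT]; exact hβ j
      · have := hβ' j
        linarith
    · have hH2 : U ^ (th n + δ₀) ≤ H / 2 := by
        have h1 : U ^ (th n + δ₀) ≤ U ^ (2 / 3 : ℝ) := by
          refine Real.rpow_le_rpow_of_exponent_le hU1 ?_
          have := th_le hn
          linarith
        have h2 : (2 : ℝ) ≤ U ^ (1 / 3 : ℝ) := by
          have h3 : (8 : ℝ) ^ (1 / 3 : ℝ) = 2 := by
            rw [show (8 : ℝ) = 2 ^ (3 : ℝ) by norm_num, ← Real.rpow_mul (by norm_num)]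
            norm_num
          rw [← h3]
          exact Real.rpow_le_rpow (by norm_num) hU8 (by norm_num)
        have h4 : U ^ (2 / 3 : ℝ) * U ^ (1 / 3 : ℝ) = U := by
          rw [← Real.rpow_add hU0]
          norm_num
        have h5 : 0 < U ^ (2 / 3 : ℝ) := by positivity
        nlinarith
      have hcov : Set.Icc β (fun j => β j + H) ∩ F ⊆ ⋃ s ∈ (Finset.univ : Finset (Fin n → Bool)),
          (Set.Icc (fun j => β j + if s j then H / 2 else 0)
            (fun j => (β j + if s j then H / 2 else 0) + H / 2)) ∩ F := by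
        rintro α ⟨hα, hαF⟩
        have h1 := cover β H hα
        rw [Set.mem_iUnion₂] at h1 ⊢
        obtain ⟨s, hs, h2⟩ := h1
        exact ⟨s, hs, h2, hαF⟩
      refine (measure_mono hcov).trans ((measure_biUnion_finset_le _ _).trans ?_)
      have hone : ∀ s ∈ (Finset.univ : Finset (Fin n → Bool)),
          volume ((Set.Icc (fun j => β j + if s j then H / 2 else 0)
            (fun j => (β j + if s j then H / 2 else 0) + H / 2)) ∩ F) ≤
            ENNReal.ofReal (C₁ * (H / 2) ^ n * U ^ (-η₁)) := by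
        intro s _
        refine hbF (H / 2) (fun j => β j + if s j then H / 2 else 0) hH2 (by linarith)
          (fun j => ?_) (fun j => ?_)
        · have h1 := hβ j
          show 2 * U ≤ β j + if s j then H / 2 else 0
          split_ifs <;> linarith
        · have h1 := hβ' j
          show (β j + if s j then H / 2 else 0) ≤ 5 * U
          split_ifs <;> linarith
      refine (Finset.sum_le_sum hone).trans ?_
      rw [Finset.sum_const, Finset.card_univ, Fintype.card_fun, Fintype.card_bool, Fintype.card_fin,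
        nsmul_eq_mul, ← ENNReal.ofReal_natCast, ← ENNReal.ofReal_mul (by positivity)]
      apply ENNReal.ofReal_le_ofReal
      refine le_trans (le_of_eq ?_) hlast
      push_cast
      rw [div_pow]
      field_simp

end Pool.Agent.P07318h
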