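import Pool.Agent.Lib.P07318h.Core
import Pool.Agent.Lib.P07318h.DgB
import Pool.Agent.Lib.P07318s.FinalV

/-!
# All windows `[0, V]` at once

PROOF. Let `η₀, C₀` be the constants of `core_v`, `η = min(η₀, 1)/8`, `ε = η`, `N = ⌈U^(2η)⌉`, `V_i = 2U i/N` (`i = 0..N`). Let `B_i` be the majorant of `core_v` for `V_i`. Let `h` be in the box and `B_i h ≤ ofReal (U^(1-η))` for all `i`, so
`‖D(V_i)‖ ≤ U^(1-η)`, `D(V) = ∫_0^V (P - Dg)`, `P ≥ 0` the product. For `V ∈ [V_i, V_{i+1}]`: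
`‖D(V)‖ ≤ ‖D(V_i)‖ + ∫_{V_i}^V P + ∫_{V_i}^V ‖Dg‖`, `∫_{V_i}^V P ≤ ∫_{V_i}^{V_{i+1}} P ≤ ‖D(V_{i+1})‖ + ‖D(V_i)‖ + ∫_{V_i}^{V_{i+1}} ‖Dg‖`, and `∫_{V_i}^{V_{i+1}} ‖Dg‖ ≤ (2U/N) C U^ε ≤ 2 C U^(1-2η+ε)`
(`dg_le (n+1) ε` with `2U` for `U`: all heights lie in `[2U, 8U]`), so `‖D(V)‖ ≤ C U^(1-η)`. The set is contained in the union over `i ≤ N` of `{h ∈ box | ofReal (U^(1-η)) < B_i h}`, of measure
`≤ C₀ H^n U^(1-η₀)/U^(1-η)` each (`FVaux.markovE1` of P07318s/FinalV.lean with the restricted measure); `N + 1 ≤ 3 U^(2η)`, `2η + η - η₀ ≤ -η`.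
-/

set_option autoImplicit false

namespace Pool.Agent.P07318h

open MeasureTheory Complex Pool.Agent.P07318s Pool.Agent.P07318f

namespace GridVAux

/-- a window between two grid points -/
lemma between {F : ℝ → ℝ} {G : ℝ → ℂ} (hF : Continuous F) (hF0 : ∀ t, 0 ≤ F t) {L M : ℝ}
    (hG : ContinuousOn G (Set.Icc 0 L)) (hGM : ∀ t ∈ Set.Icc 0 L, ‖G t‖ ≤ M) {a b V A : ℝ}
    (h0a : 0 ≤ a) (haV : a ≤ V) (hVb : V ≤ b) (hbL : b ≤ L)
    (hDa : ‖∫ t in (0:ℝ)..a, ((F t : ℂ) - G t)‖ ≤ A)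
    (hDb : ‖∫ t in (0:ℝ)..b, ((F t : ℂ) - G t)‖ ≤ A) :
    ‖∫ t in (0:ℝ)..V, ((F t : ℂ) - G t)‖ ≤ 3 * A + 2 * M * (b - a) := by
  have hab : a ≤ b := haV.trans hVb
  have hint : ∀ x y : ℝ, 0 ≤ x → x ≤ y → y ≤ L →
      IntervalIntegrable (fun t => ((F t : ℂ) - G t)) volume x y := by
    intro x y hx hxy hy
    refine ContinuousOn.intervalIntegrable ?_
    rw [Set.uIcc_of_le hxy]
    refine ContinuousOn.sub (Complex.continuous_ofReal.comp hF).continuousOn ?_
    exact hG.mono fun t ht => ⟨hx.trans ht.1, ht.2.trans hy⟩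
  have hintG : ∀ x y : ℝ, 0 ≤ x → x ≤ y → y ≤ L →
      IntervalIntegrable G volume x y := by
    intro x y hx hxy hy
    refine ContinuousOn.intervalIntegrable ?_
    rw [Set.uIcc_of_le hxy]
    exact hG.mono fun t ht => ⟨hx.trans ht.1, ht.2.trans hy⟩
  have hintF : ∀ x y : ℝ, IntervalIntegrable F volume x y := fun x y => hF.intervalIntegrable _ _
  have hintFc : ∀ x y : ℝ, IntervalIntegrable (fun t => (F t : ℂ)) volume x y := fun x y =>
    (Complex.continuous_ofReal.comp hF).intervalIntegrable _ _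
  have hGb : ∀ x y : ℝ, 0 ≤ x → x ≤ y → y ≤ L → ‖∫ t in x..y, G t‖ ≤ M * (y - x) := by
    intro x y hx hxy hy
    have h1 := intervalIntegral.norm_integral_le_of_norm_le_const (a := x) (b := y) (C := M)
      (f := G) (by
        intro t ht
        rw [Set.uIoc_of_le hxy] at ht
        exact hGM t ⟨hx.trans ht.1.le, ht.2.trans hy⟩)
    rwa [abs_of_nonneg (by linarith)] at h1
  have hM0 : 0 ≤ M := (norm_nonneg _).trans (hGM 0 ⟨le_rfl, h0a.trans (hab.trans hbL)⟩)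
  have hFe : ∀ x y : ℝ, ∫ t in x..y, (F t : ℂ) = ((∫ t in x..y, F t : ℝ) : ℂ) := fun x y =>
    intervalIntegral.integral_ofReal
  have hF1 : ∫ t in a..V, F t ≤ ∫ t in a..b, F t := by
    rw [← intervalIntegral.integral_add_adjacent_intervals (hintF a V) (hintF V b)]
    have := intervalIntegral.integral_nonneg hVb (f := F) (μ := volume) fun t _ => hF0 t
    linarith
  have hF2 : 0 ≤ ∫ t in a..V, F t := intervalIntegral.integral_nonneg haV fun t _ => hF0 t
  have hF3 : 0 ≤ ∫ t in a..b, F t := intervalIntegral.integral_nonneg hab fun t _ => hF0 t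
  have hF4 : ∫ t in a..b, F t ≤ 2 * A + M * (b - a) := by
    have e1 : ((∫ t in a..b, F t : ℝ) : ℂ) = (∫ t in (0:ℝ)..b, ((F t : ℂ) - G t)) -
        (∫ t in (0:ℝ)..a, ((F t : ℂ) - G t)) + ∫ t in a..b, G t := by
      rw [← intervalIntegral.integral_add_adjacent_intervals (hint 0 a le_rfl h0a (hab.trans hbL))
        (hint a b h0a hab hbL), intervalIntegral.integral_sub (hintFc a b) (hintG a b h0a hab hbL),
        hFe a b]
      ring
    have e2 : ∫ t in a..b, F t = ‖((∫ t in a..b, F t : ℝ) : ℂ)‖ := by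
      rw [Complex.norm_real, Real.norm_of_nonneg hF3]
    rw [e2, e1]
    refine (norm_add_le _ _).trans ?_
    have := norm_sub_le (∫ t in (0:ℝ)..b, ((F t : ℂ) - G t)) (∫ t in (0:ℝ)..a, ((F t : ℂ) - G t))
    have := hGb a b h0a hab hbL
    linarith
  have hVL : V ≤ L := hVb.trans hbL
  rw [← intervalIntegral.integral_add_adjacent_intervals (hint 0 a le_rfl h0a (haV.trans hVL))
    (hint a V h0a haV hVL), intervalIntegral.integral_sub (hintFc a V) (hintG a V h0a haV hVL),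
    hFe a V]
  refine (norm_add_le _ _).trans ?_
  have h5 := norm_sub_le (((∫ t in a..V, F t : ℝ) : ℂ)) (∫ t in a..V, G t)
  rw [Complex.norm_real, Real.norm_of_nonneg hF2] at h5
  have h6 := hGb a V h0a haV hVL
  have h7 : M * (V - a) ≤ M * (b - a) := by
    apply mul_le_mul_of_nonneg_left _ hM0
    linarith
  linarith

end GridVAux

open GridVAux

theorem grid_v (n : ℕ) (hn : 1 ≤ n) (δ₀ : ℝ) (hδ₀ : 0 < δ₀) : ∃ η C : ℝ, 0 < η ∧ 0 < C ∧
    ∀ (U H α : ℝ) (β : Fin n → ℝ), 1 ≤ U → U ^ (th n + δ₀) ≤ H → H ≤ U → 2 * U ≤ α → α ≤ 5 * U →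
    (∀ j, 2 * U ≤ β j) → (∀ j, β j ≤ 5 * U) →
    volume {h | h ∈ Set.Icc β (fun j => β j + H) ∧ ∃ V ∈ Set.Icc 0 (2 * U), C * U ^ (1 - η) <
      ‖∫ t in (0:ℝ)..V, (((gz (t + α) * ∏ j, gz (t + h j) : ℝ) : ℂ) - Dg (sh α h t))‖} ≤
      ENNReal.ofReal (C * H ^ n * U ^ (-η)) := by
  obtain ⟨η₀, C₀, hη₀, hC₀, hcore⟩ := core_v n hn δ₀ hδ₀
  set η : ℝ := min η₀ 1 / 8 with hη_def
  have hη : 0 < η := by
    rw [hη_def]
    have : 0 < min η₀ 1 := lt_min hη₀ one_pos
    positivity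
  have hη1 : 8 * η ≤ η₀ := by
    rw [hη_def]
    have := min_le_left η₀ 1
    linarith
  have hη2 : 8 * η ≤ 1 := by
    rw [hη_def]
    have := min_le_right η₀ 1
    linarith
  obtain ⟨C₁, hC₁, hdg⟩ := dg_le (n + 1) η hη
  refine ⟨η, 3 + 8 * C₁ + 3 * C₀, hη, by positivity, ?_⟩
  intro U H α β hU hUH hHU hα hα' hβ hβ'
  have hU0 : 0 < U := by linarith
  have hH0 : 0 < H := lt_of_lt_of_le (Real.rpow_pos_of_pos hU0 _) hUH
  set N : ℕ := ⌈U ^ (2 * η)⌉₊ with hN_def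
  have hUη : 1 ≤ U ^ (2 * η) := Real.one_le_rpow hU (by positivity)
  have hN1 : U ^ (2 * η) ≤ N := Nat.le_ceil _
  have hN2 : (N : ℝ) + 1 ≤ 3 * U ^ (2 * η) := by
    have := (Nat.ceil_lt_add_one (show 0 ≤ U ^ (2 * η) by positivity)).le
    rw [← hN_def] at this
    linarith
  have hN0 : (0 : ℝ) < N := lt_of_lt_of_le (by positivity) hN1
  set v : ℕ → ℝ := fun i => 2 * U * i / N with hv_def
  have hv0 : ∀ i, 0 ≤ v i := fun i => by
    simp only [hv_def]; positivity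
  have hvN : ∀ i, i ≤ N → v i ≤ 2 * U := fun i hi => by
    simp only [hv_def]
    rw [div_le_iff₀ hN0]
    have : (i : ℝ) ≤ N := by exact_mod_cast hi
    nlinarith
  have hvs : ∀ i, v (i + 1) - v i = 2 * U / N := fun i => by
    simp only [hv_def]
    push_cast
    field_simp
    ring
  have hvc : ∀ i : ℕ, ∃ B : (Fin n → ℝ) → ENNReal, i ≤ N → (Measurable B ∧
      (∀ h ∈ Set.Icc β (fun j => β j + H),
        ‖∫ t in (0:ℝ)..(v i), (((gz (t + α) * ∏ j, gz (t + h j) : ℝ) : ℂ) - Dg (sh α h t))‖ₑ ≤ B h) ∧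
      ∫⁻ h in Set.Icc β (fun j => β j + H), B h ≤ ENNReal.ofReal (C₀ * H ^ n * U ^ (1 - η₀))) := by
    intro i
    by_cases hi : i ≤ N
    · obtain ⟨B, hB⟩ := hcore U H α (v i) β hU hUH hHU hα hα' hβ hβ' (hv0 i) (hvN i hi)
      exact ⟨B, fun _ => hB⟩
    · exact ⟨0, fun h => absurd h hi⟩
  choose B hB using hvc
  set S : Set (Fin n → ℝ) := Set.Icc β (fun j => β j + H) with hS_def
  have hSm : MeasurableSet S := measurableSet_Icc
  have hU1 : 0 < U ^ (1 - η) := Real.rpow_pos_of_pos hU0 _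
  -- the estimate for a good shift vector
  have hpt : ∀ h ∈ S, (∀ i ≤ N, ¬ ENNReal.ofReal (U ^ (1 - η)) < B i h) → ∀ V ∈ Set.Icc 0 (2 * U),
      ‖∫ t in (0:ℝ)..V, (((gz (t + α) * ∏ j, gz (t + h j) : ℝ) : ℂ) - Dg (sh α h t))‖ ≤
        (3 + 8 * C₁ + 3 * C₀) * U ^ (1 - η) := by
    intro h hh hgood V hV
    have hh1 : ∀ j, 2 * U ≤ h j := fun j => (hβ j).trans (hh.1 j)
    have hh2 : ∀ j, h j ≤ 6 * U := fun j => by
      have h1 : h j ≤ β j + H := hh.2 j
      have h2 := hβ' j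
      linarith
    have hmem : ∀ t ∈ Set.Icc 0 (2 * U), (∀ j, 2 * U ≤ sh α h t j) ∧ ∀ j, sh α h t j ≤ 4 * (2 * U) := by
      intro t ht
      constructor
      · intro j
        refine Fin.cases ?_ (fun i => ?_) j
        · rw [sh_zero]; linarith [ht.1]
        · rw [sh_succ]; linarith [ht.1, hh1 i]
      · intro j
        refine Fin.cases ?_ (fun i => ?_) j
        · rw [sh_zero]; linarith [ht.2]
        · rw [sh_succ]; linarith [ht.2, hh2 i]
    have hD : ∀ i ≤ N,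
        ‖∫ t in (0:ℝ)..(v i), (((gz (t + α) * ∏ j, gz (t + h j) : ℝ) : ℂ) - Dg (sh α h t))‖ ≤
          U ^ (1 - η) := by
      intro i hi
      exact FVaux.norm_le_of hU1.le ((hB i hi).2.1 h hh) (hgood i hi)
    have hFc : Continuous fun t : ℝ => gz (t + α) * ∏ j, gz (t + h j) := by
      refine (gz_cont.comp (by fun_prop)).mul ?_
      exact continuous_finsetProd _ fun j _ => gz_cont.comp (by fun_prop)
    have hF0 : ∀ t : ℝ, 0 ≤ gz (t + α) * ∏ j, gz (t + h j) := fun t =>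
      mul_nonneg (gz_nonneg _) (Finset.prod_nonneg fun j _ => gz_nonneg _)
    have hGc : ContinuousOn (fun t : ℝ => Dg (sh α h t)) (Set.Icc 0 (2 * U)) := by
      refine (Dg_continuousOn (n + 1)).comp (f := fun t : ℝ => sh α h t) ?_ ?_
      · unfold sh
        fun_prop
      · intro t ht j
        have := (hmem t ht).1 j
        linarith
    have hGM : ∀ t ∈ Set.Icc 0 (2 * U), ‖Dg (sh α h t)‖ ≤ C₁ * (2 * U) ^ η := fun t ht =>
      hdg (2 * U) (sh α h t) (by linarith) (hmem t ht).1 (hmem t ht).2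
    have h2η : (2 * U) ^ η ≤ 2 * U ^ η := by
      rw [Real.mul_rpow (by norm_num) hU0.le]
      apply mul_le_mul_of_nonneg_right _ (by positivity)
      calc (2:ℝ) ^ η ≤ 2 ^ (1:ℝ) := Real.rpow_le_rpow_of_exponent_le (by norm_num) (by linarith)
        _ = 2 := by norm_num
    have hpow : U ^ η * (U / U ^ (2 * η)) = U ^ (1 - η) := by
      rw [← Real.rpow_one_sub' hU0.le (by linarith), ← Real.rpow_add hU0]
      congr 1
      ring
    have hlen : 2 * U / N ≤ 2 * (U / U ^ (2 * η)) := by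
      rw [mul_div_assoc]
      gcongr
    set i : ℕ := ⌊V * N / (2 * U)⌋₊ with hi_def
    have hq0 : 0 ≤ V * N / (2 * U) := by
      have := hV.1
      positivity
    have hi1 : (i : ℝ) ≤ V * N / (2 * U) := Nat.floor_le hq0
    have hi2 : V * N / (2 * U) < i + 1 := Nat.lt_floor_add_one _
    have hvi : v i ≤ V := by
      simp only [hv_def]
      rw [div_le_iff₀ hN0]
      rw [le_div_iff₀ (by positivity)] at hi1
      linarith
    have hvi2 : V ≤ v (i + 1) := by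
      simp only [hv_def]
      rw [le_div_iff₀ hN0]
      rw [div_lt_iff₀ (by positivity)] at hi2
      push_cast
      linarith
    by_cases hiN : i + 1 ≤ N
    · have h1 := between hFc hF0 hGc hGM (hv0 i) hvi hvi2 (hvN (i + 1) hiN) (hD i (by omega))
        (hD (i + 1) hiN)
      refine h1.trans ?_
      rw [hvs i]
      have h3 : 2 * (C₁ * (2 * U) ^ η) * (2 * U / N) ≤ 8 * C₁ * U ^ (1 - η) := by
        calc 2 * (C₁ * (2 * U) ^ η) * (2 * U / N) ≤
            2 * (C₁ * (2 * U ^ η)) * (2 * (U / U ^ (2 * η))) := by gcongr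
          _ = 8 * C₁ * (U ^ η * (U / U ^ (2 * η))) := by ring
          _ = _ := by rw [hpow]
      have h4 : 0 ≤ 3 * C₀ * U ^ (1 - η) := by positivity
      linarith
    · have hVN : V = v N := by
        apply le_antisymm
        · have : v N = 2 * U := by
            simp only [hv_def]
            field_simp
          rw [this]
          exact hV.2
        · refine le_trans ?_ hvi
          simp only [hv_def]
          have : (N : ℝ) ≤ i := by exact_mod_cast (by omega : N ≤ i)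
          gcongr
      rw [hVN]
      refine (hD N le_rfl).trans ?_
      have h4 : 0 ≤ (2 + 8 * C₁ + 3 * C₀) * U ^ (1 - η) := by positivity
      linarith
  -- the measure
  have hsub : {h | h ∈ S ∧ ∃ V ∈ Set.Icc 0 (2 * U), (3 + 8 * C₁ + 3 * C₀) * U ^ (1 - η) <
      ‖∫ t in (0:ℝ)..V, (((gz (t + α) * ∏ j, gz (t + h j) : ℝ) : ℂ) - Dg (sh α h t))‖} ⊆
      ⋃ i ∈ Finset.range (N + 1), ({h | ENNReal.ofReal (U ^ (1 - η)) < B i h} ∩ S) := by
    rintro h ⟨hh, V, hV, hVlt⟩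
    by_contra hcon
    simp only [Set.mem_iUnion, not_exists] at hcon
    refine absurd (hpt h hh ?_ V hV) (not_le.2 hVlt)
    intro i hi hlt
    exact hcon i (Finset.mem_range.2 (by omega)) ⟨hlt, hh⟩
  have hone : ∀ i ∈ Finset.range (N + 1),
      volume ({h | ENNReal.ofReal (U ^ (1 - η)) < B i h} ∩ S) ≤
        ENNReal.ofReal (C₀ * H ^ n * U ^ (1 - η₀) / U ^ (1 - η)) := by
    intro i hi
    have hi' : i ≤ N := by
      have := Finset.mem_range.1 hi
      omega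
    rw [← Measure.restrict_apply' hSm]
    exact FVaux.markovE1 (hB i hi').1 hU1 (hB i hi').2.2
  refine (measure_mono hsub).trans ?_
  refine (measure_biUnion_finset_le _ _).trans ?_
  refine (Finset.sum_le_sum hone).trans ?_
  rw [Finset.sum_const, Finset.card_range, nsmul_eq_mul]
  have hcast : ((N + 1 : ℕ) : ENNReal) = ENNReal.ofReal ((N : ℝ) + 1) := by
    rw [← ENNReal.ofReal_natCast]
    congr 1
    push_cast
    ring
  rw [hcast, ← ENNReal.ofReal_mul (by positivity)]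
  apply ENNReal.ofReal_le_ofReal
  have e1 : C₀ * H ^ n * U ^ (1 - η₀) / U ^ (1 - η) = C₀ * H ^ n * U ^ (η - η₀) := by
    rw [mul_div_assoc, ← Real.rpow_sub hU0]
    congr 2
    ring
  rw [e1]
  calc ((N : ℝ) + 1) * (C₀ * H ^ n * U ^ (η - η₀)) ≤ (3 * U ^ (2 * η)) * (C₀ * H ^ n * U ^ (η - η₀)) := by
        gcongr
    _ = 3 * C₀ * H ^ n * U ^ (2 * η + (η - η₀)) := by
        rw [Real.rpow_add hU0]
        ring
    _ ≤ 3 * C₀ * H ^ n * U ^ (-η) := by
        gcongr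
        linarith
    _ ≤ (3 + 8 * C₁ + 3 * C₀) * H ^ n * U ^ (-η) := by
        gcongr
        linarith

end Pool.Agent.P07318h
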