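import Pool.Agent.Lib.P07318h.Defs

/-!
# Second mean value theorem, in the form of an inequality

PROOF. Layer cake: `f t = ∫_{s ∈ (0, A)} 1[s < f t] ds` for `t ∈ [0, V]`. By Fubini the integral is `∫_{s ∈ (0,A)} ∫_{t ∈ [0,V], s < f t} e(..) dt ds`. For each `s` the set `{t ∈ [0, V] | s < f t}` is an upper set in `[0, V]`, so up to one
point it is `(τ, V]` with some `τ ∈ [0, V]` (or empty), and `‖∫_τ^V‖ = ‖osc V μ - osc τ μ‖ ≤ bb V μ + bb τ μ ≤ 2 bb V μ` (`norm_osc_le`; `bb · μ` is increasing in the first variable). Total `≤ 2 A bb V μ`.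
(A monotone function is measurable; integrability: bounded. Alternatively approximate by step functions.)
-/

set_option autoImplicit false

namespace Pool.Agent.P07318h

open MeasureTheory Complex Pool.Agent.P07318s Pool.Agent.P07318f

namespace MonoOscAux

lemma bb_mono' {V H : ℝ} (hV : 0 ≤ V) (hVH : V ≤ H) (l : ℝ) : bb V l ≤ bb H l := by
  have hH : 0 ≤ H := hV.trans hVH
  unfold bb
  have h1 : 0 ≤ V * |l| := by positivity
  have h2 : 0 ≤ H * |l| := by positivity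
  rw [div_le_div_iff₀ (by linarith) (by linarith)]
  have h3 : V * (H * |l|) = H * (V * |l|) := by ring
  nlinarith

noncomputable def ee (μ t : ℝ) : ℂ := cexp (((-(t * μ) : ℝ) : ℂ) * I)

lemma norm_ee (μ t : ℝ) : ‖ee μ t‖ = 1 := by
  unfold ee
  rw [Complex.norm_exp_ofReal_mul_I]

lemma cont_ee (μ : ℝ) : Continuous (ee μ) := by
  unfold ee
  fun_prop

lemma tail {V τ : ℝ} (h0 : 0 ≤ τ) (h1 : τ ≤ V) (μ : ℝ) : ‖∫ t in τ..V, ee μ t‖ ≤ 2 * bb V μ := by
  have hV : 0 ≤ V := h0.trans h1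
  have e1 : ∫ t in τ..V, ee μ t = osc V μ - osc τ μ := by
    have h2 : (∫ t in (0:ℝ)..τ, ee μ t) + ∫ t in τ..V, ee μ t = ∫ t in (0:ℝ)..V, ee μ t :=
      intervalIntegral.integral_add_adjacent_intervals ((cont_ee μ).intervalIntegrable _ _)
        ((cont_ee μ).intervalIntegrable _ _)
    have h3 : osc V μ = ∫ t in (0:ℝ)..V, ee μ t := rfl
    have h4 : osc τ μ = ∫ t in (0:ℝ)..τ, ee μ t := rfl
    rw [h3, h4, ← h2]
    ring
  rw [e1]
  have h2 := norm_osc_le hV μ
  have h3 := norm_osc_le h0 μ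
  have h4 := bb_mono' h0 h1 μ
  have h5 := norm_sub_le (osc V μ) (osc τ μ)
  linarith

lemma slice {g : ℝ → ℝ} {V : ℝ} (hV : 0 ≤ V) (hg : Monotone g) (μ s : ℝ) :
    ‖∫ t in Set.Ioc 0 V, (if s < g t then ee μ t else 0)‖ ≤ 2 * bb V μ := by
  set S : Set ℝ := {t | t ∈ Set.Icc 0 V ∧ s < g t} ∪ {V} with hS
  have hVS : V ∈ S := Or.inr rfl
  have hbd : ∀ t ∈ S, 0 ≤ t := by
    rintro t (ht | ht)
    · exact ht.1.1
    · rw [Set.mem_singleton_iff] at ht
      rw [ht]; exact hV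
  have hB : BddBelow S := ⟨0, fun t ht => hbd t ht⟩
  set τ := sInf S with hτ
  have h0 : 0 ≤ τ := le_csInf ⟨V, hVS⟩ hbd
  have h1 : τ ≤ V := csInf_le hB hVS
  have e1 : ∫ t in Set.Ioc 0 V, (if s < g t then ee μ t else 0) =
      ∫ t in Set.Ioc 0 V, (Set.Ioc τ V).indicator (ee μ) t := by
    refine setIntegral_congr_ae measurableSet_Ioc ?_
    have hne : ∀ᵐ t : ℝ, t ≠ τ := by
      simp [ae_iff, measure_singleton]
    have hne2 : ∀ᵐ t : ℝ, t ≠ V := by
      simp [ae_iff, measure_singleton]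
    filter_upwards [hne, hne2] with t ht ht2 htI
    rcases lt_or_gt_of_ne ht with h | h
    · have hn : ¬ s < g t := by
        intro h3
        have : t ∈ S := Or.inl ⟨⟨htI.1.le, htI.2⟩, h3⟩
        exact absurd (csInf_le hB this) (not_le.2 h)
      rw [if_neg hn, Set.indicator_of_notMem]
      intro h4
      exact absurd h4.1 (not_lt.2 h.le)
    · obtain ⟨u, hu, hut⟩ := exists_lt_of_csInf_lt ⟨V, hVS⟩ h
      have hp : s < g t := by
        rcases hu with hu | hu
        · exact hu.2.trans_le (hg hut.le)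
        · rw [Set.mem_singleton_iff] at hu
          rw [hu] at hut
          exact absurd htI.2 (not_le.2 hut)
      rw [if_pos hp, Set.indicator_of_mem]
      exact ⟨h, htI.2⟩
  rw [e1, setIntegral_indicator measurableSet_Ioc]
  have e2 : Set.Ioc 0 V ∩ Set.Ioc τ V = Set.Ioc τ V := by
    apply Set.inter_eq_right.2
    exact Set.Ioc_subset_Ioc_left h0
  rw [e2, ← intervalIntegral.integral_of_le h1]
  exact tail h0 h1 μ

lemma cake {A y : ℝ} (h0 : 0 ≤ y) (h1 : y ≤ A) (c : ℂ) :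
    ∫ s in Set.Ioc 0 A, (if s < y then c else 0) = (y : ℂ) * c := by
  have e0 : (fun s : ℝ => if s < y then c else 0) = (Set.Iio y).indicator (fun _ => c) := by
    funext s
    rfl
  rw [e0, setIntegral_indicator measurableSet_Iio]
  have e1 : Set.Ioc 0 A ∩ Set.Iio y = Set.Ioo 0 y := by
    ext s
    constructor
    · rintro ⟨h2, h3⟩
      exact ⟨h2.1, h3⟩
    · rintro ⟨h2, h3⟩
      exact ⟨⟨h2, h3.le.trans h1⟩, h3⟩
  rw [e1, setIntegral_const]
  simp [Measure.real, h0]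

lemma mono_osc' {g : ℝ → ℝ} {V A : ℝ} (hV : 0 ≤ V) (hA0 : 0 ≤ A) (hg : Monotone g) (h0 : ∀ t, 0 ≤ g t)
    (hA : ∀ t, g t ≤ A) (μ : ℝ) :
    ‖∫ t in Set.Ioc 0 V, (g t : ℂ) * ee μ t‖ ≤ 2 * A * bb V μ := by
  have hm : Measurable (fun p : ℝ × ℝ => if p.2 < g p.1 then ee μ p.1 else 0) := by
    refine Measurable.ite ?_ ((cont_ee μ).measurable.comp measurable_fst) measurable_const
    exact measurableSet_lt measurable_snd (hg.measurable.comp measurable_fst)
  have hi : Integrable (fun p : ℝ × ℝ => if p.2 < g p.1 then ee μ p.1 else 0)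
      ((volume.restrict (Set.Ioc 0 V)).prod (volume.restrict (Set.Ioc 0 A))) := by
    refine Integrable.of_bound hm.aestronglyMeasurable 1 ?_
    refine Filter.Eventually.of_forall fun p => ?_
    by_cases h : p.2 < g p.1
    · simp only [if_pos h, norm_ee, le_refl]
    · simp only [if_neg h, norm_zero, zero_le_one]
  have e1 : ∫ t in Set.Ioc 0 V, (g t : ℂ) * ee μ t =
      ∫ t in Set.Ioc 0 V, ∫ s in Set.Ioc 0 A, (if s < g t then ee μ t else 0) := by
    congr 1
    funext t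
    rw [cake (h0 t) (hA t)]
  rw [e1, integral_integral_swap hi]
  refine (norm_setIntegral_le_of_norm_le_const (C := 2 * bb V μ) (by simp) ?_).trans ?_
  · intro s _
    exact slice hV hg μ s
  · simp [Measure.real, hA0]
    linarith

end MonoOscAux

open MonoOscAux in
theorem mono_osc {f : ℝ → ℝ} {V A : ℝ} (hV : 0 ≤ V) (hf : MonotoneOn f (Set.Icc 0 V)) (h0 : ∀ t ∈ Set.Icc 0 V, 0 ≤ f t)
    (hA : ∀ t ∈ Set.Icc 0 V, f t ≤ A) (μ : ℝ) :
    ‖∫ t in (0:ℝ)..V, (f t : ℂ) * cexp (((-(t * μ) : ℝ) : ℂ) * I)‖ ≤ 2 * A * bb V μ := by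
  have hc : ∀ t : ℝ, max 0 (min V t) ∈ Set.Icc 0 V := fun t =>
    ⟨le_max_left _ _, max_le hV (min_le_left _ _)⟩
  have hA0 : 0 ≤ A := (h0 0 ⟨le_rfl, hV⟩).trans (hA 0 ⟨le_rfl, hV⟩)
  have hg : Monotone fun t => f (max 0 (min V t)) := by
    intro a b hab
    refine hf (hc a) (hc b) ?_
    exact max_le_max le_rfl (min_le_min le_rfl hab)
  have h := mono_osc' hV hA0 hg (fun t => h0 _ (hc t)) (fun t => hA _ (hc t)) μ
  rw [intervalIntegral.integral_of_le hV]
  have e : ∫ t in Set.Ioc 0 V, (f t : ℂ) * cexp (((-(t * μ) : ℝ) : ℂ) * I) =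
      ∫ t in Set.Ioc 0 V, ((f (max 0 (min V t)) : ℝ) : ℂ) * ee μ t := by
    refine setIntegral_congr_fun measurableSet_Ioc ?_
    intro t ht
    have e1 : max 0 (min V t) = t := by
      rw [min_eq_right ht.2, max_eq_right ht.1.le]
    simp only [e1]
    rfl
  rw [e]
  exact h

end Pool.Agent.P07318h
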