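import Pool.Agent.Lib.P07318h.Defs
import Pool.Agent.Lib.P07318f.ZSumK
import Pool.Agent.Lib.P07318s.Crude
import Pool.Agent.Lib.P07318f.ZFone
import Pool.Agent.Lib.P07318f.SubConv

/-!
# Zeta near the line `Re s = 1`, at heights which are a small power

PROOF. (A) For `s = σ + iτ`, `σ > 0`, `s ≠ 1`, and every integer `N ≥ 1`: `ζ(s) = ∑_{n ≤ N} n^(-s) + N^(1-s)/(s-1) - s ∫_{(N,∞)} {x} x^(-s-1) dx`. (`zE_formula` of P07318s/Crude.lean and `P4f18dfV.zE_of_ne`, `P4f18dfV.hpA_eq` give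
`ζ(s) = s/(s-1) - s ∫_{(1,∞)} {x} x^(-s-1) dx`, i.e. the case `N = 1`; induction on `N`: `∫_N^(N+1) {x} x^(-s-1) dx = ∫_N^(N+1) (x - N) x^(-s-1) dx`, compare `hp_zeta` in P4f18dfV/HalfPlane.lean.)
(B) `η = min(δ₁, 1/(2m))`, `zsum_k η` gives `c₀, C₀` (the sign of `τ` is free there); `c = min(1/8, δ₁/2, c₀/4)`. Let `1 - c ≤ σ ≤ 3`, `U^δ₁ ≤ |τ| ≤ 16U`, `N = 2^J` with `U² ≤ N ≤ 2U²`.
`|N^(1-s)/(s-1)| ≤ N^(1-σ)/|τ| ≤ 2 U^(2c-δ₁) ≤ 2` (if `σ ≥ 1` it is `≤ 1`). `|s ∫| ≤ (3 + 16U) N^(-σ)/σ ≤ C U^(1-2(1-c)) ≤ C`.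
(C) `∑_{n ≤ N} n^(-s) = 1 + ∑_{j < J} ∑_{2^j < n ≤ 2^(j+1)} n^(-s)`. If `2^j < U^η` the block is `≤ 2^j 2^(-jσ) ≤ 2^(jc) ≤ U^(ηc) ≤ U^(c/(2m))` (`≤ 1` if `σ ≥ 1`). If `2^j ≥ U^η`: Abel summation (`n^(-σ)` is decreasing and positive) and
`zsum_k`: the block is `≤ C 2^(-jσ) max_{N'} |∑_{2^j < n ≤ N'} n^(-iτ)| ≤ C 2^(j(1-σ)) U^(-c₀) ≤ C (2U²)^c U^(-c₀) ≤ C'` (`2c ≤ c₀`). There are `J ≤ 1 + 2 log U/log 2` blocks, so the total is
`≤ C (1 + log U) U^(c/(2m)) ≤ C' U^(c/m)`.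
-/

set_option autoImplicit false

namespace Pool.Agent.P07318h

open MeasureTheory Complex Pool.Agent.P07318s Pool.Agent.P07318f

namespace NearOneAux

open Pool.Agent.P07318f.ZFoneAux Pool.Agent.P07318f.SubConvAux

lemma cpow_split {n : ℕ} (hn : 1 ≤ n) (σ τ : ℝ) :
    (n : ℂ) ^ (-((σ : ℂ) + (τ : ℂ) * I)) = (((n : ℝ) ^ (-σ) : ℝ) : ℂ) * ((n : ℝ) : ℂ) ^ (((-τ : ℝ) : ℂ) * I) := by
  have hn0 : (0:ℝ) < n := by exact_mod_cast hn
  have hnc : ((n : ℝ) : ℂ) ≠ 0 := by exact_mod_cast hn0.ne'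
  rw [Complex.ofReal_cpow hn0.le, ← Complex.cpow_add _ _ hnc, Complex.ofReal_natCast]
  congr 1
  push_cast
  ring

lemma block {σ τ T : ℝ} (hσ : 0 ≤ σ) {N : ℕ} (hN : 1 ≤ N)
    (hT : ∀ M, N ≤ M → M ≤ 2 * N → ‖∑ n ∈ Finset.Ioc N M, ((n : ℝ) : ℂ) ^ (((-τ : ℝ) : ℂ) * I)‖ ≤ T) :
    ‖∑ n ∈ Finset.Ioc N (2 * N), (n : ℂ) ^ (-((σ : ℂ) + (τ : ℂ) * I))‖ ≤ T * (N : ℝ) ^ (-σ) := by
  have h := abel (fun n : ℕ => (n : ℝ) ^ (-σ)) (fun n : ℕ => ((n : ℝ) : ℂ) ^ (((-τ : ℝ) : ℂ) * I)) N (2 * N) T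
    (fun n hn => by
      have hn0 : (0:ℝ) < n := by exact_mod_cast (by omega : 0 < n)
      refine Real.rpow_le_rpow_of_nonpos hn0 ?_ (by linarith)
      push_cast
      linarith)
    (fun n _ => Real.rpow_nonneg (Nat.cast_nonneg n) _) (by omega) hT
  refine le_trans (le_of_eq ?_) h
  congr 1
  refine Finset.sum_congr rfl fun n hn => ?_
  exact cpow_split (by have := (Finset.mem_Ioc.1 hn).1; omega) σ τ

lemma trivial_sum (τ : ℝ) {N M : ℕ} (hM : M ≤ 2 * N) :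
    ‖∑ n ∈ Finset.Ioc N M, ((n : ℝ) : ℂ) ^ (((-τ : ℝ) : ℂ) * I)‖ ≤ N := by
  refine (norm_sum_le _ _).trans ?_
  have h1 : ∀ n ∈ Finset.Ioc N M, ‖((n : ℝ) : ℂ) ^ (((-τ : ℝ) : ℂ) * I)‖ ≤ 1 := by
    intro n hn
    have hn0 : (0:ℝ) < n := by
      have := (Finset.mem_Ioc.1 hn).1
      exact_mod_cast (by omega : 0 < n)
    rw [Complex.norm_cpow_eq_rpow_re_of_pos hn0]
    simp
  refine (Finset.sum_le_sum h1).trans ?_
  rw [Finset.sum_const, nsmul_eq_mul, mul_one, Nat.card_Ioc]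
  have : M - N ≤ N := by omega
  exact_mod_cast this

lemma dyadic (f : ℕ → ℂ) (J : ℕ) : ∑ n ∈ Finset.Ioc 0 (2 ^ J), f n =
    f 1 + ∑ j ∈ Finset.range J, ∑ n ∈ Finset.Ioc (2 ^ j) (2 * 2 ^ j), f n := by
  induction J with
  | zero =>
    have h1 : Finset.Ioc 0 (2 ^ 0) = ({1} : Finset ℕ) := by decide
    rw [Finset.range_zero, Finset.sum_empty, add_zero, h1, Finset.sum_singleton]
  | succ J ih =>
    rw [Finset.sum_range_succ, ← add_assoc, ← ih, pow_succ, mul_comm (2 ^ J) 2]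
    rw [Finset.sum_Ioc_consecutive _ (Nat.zero_le _) (by omega)]

lemma exists_J {U : ℝ} (hU : 1 ≤ U) : ∃ J : ℕ, U ^ 2 ≤ (2 : ℝ) ^ J ∧ (2 : ℝ) ^ J ≤ 2 * U ^ 2 ∧
    (J : ℝ) ≤ 3 * Real.log U + 1 := by
  have hU0 : 0 < U := by linarith
  have hl : 0 ≤ Real.log U := Real.log_nonneg hU
  have hl2 : 0 < Real.log 2 := Real.log_pos (by norm_num)
  obtain ⟨J, hJ⟩ : ∃ J : ℕ, J = ⌈2 * Real.log U / Real.log 2⌉₊ := ⟨_, rfl⟩
  have h1 : 2 * Real.log U / Real.log 2 ≤ J := by rw [hJ]; exact Nat.le_ceil _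
  have h2 : (J : ℝ) < 2 * Real.log U / Real.log 2 + 1 := by
    rw [hJ]
    exact Nat.ceil_lt_add_one (by positivity)
  have hle : 2 * Real.log U ≤ J * Real.log 2 := by rwa [div_le_iff₀ hl2] at h1
  have hlt : (J : ℝ) * Real.log 2 < 2 * Real.log U + Real.log 2 := by
    have := mul_lt_mul_of_pos_right h2 hl2
    rw [add_mul, div_mul_cancel₀ _ hl2.ne', one_mul] at this
    exact this
  refine ⟨J, ?_, ?_, ?_⟩
  · rw [← Real.log_le_log_iff (by positivity) (by positivity), Real.log_pow, Real.log_pow]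
    push_cast
    exact hle
  · rw [← Real.log_le_log_iff (by positivity) (by positivity), Real.log_pow, Real.log_mul (by norm_num) (by positivity), Real.log_pow]
    push_cast
    linarith
  · have h3 : 2 * Real.log U / Real.log 2 ≤ 3 * Real.log U := by
      rw [div_le_iff₀ hl2]
      have := Real.log_two_gt_d9
      nlinarith
    linarith

end NearOneAux

open NearOneAux in
theorem near_one (m : ℕ) (hm : 1 ≤ m) (δ₁ : ℝ) (hδ : 0 < δ₁) (hδ1 : δ₁ ≤ 1) : ∃ c C : ℝ, 0 < c ∧ c ≤ 1 / 8 ∧ 0 < C ∧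
    ∀ U σ τ : ℝ, 1 ≤ U → 1 - c ≤ σ → σ ≤ 3 → U ^ δ₁ ≤ |τ| → |τ| ≤ 16 * U →
    ‖riemannZeta (σ + (τ : ℂ) * I)‖ ≤ C * U ^ (c / m) := by
  have hm0 : (0:ℝ) < m := by exact_mod_cast hm
  have hm1 : (1:ℝ) ≤ m := by exact_mod_cast hm
  obtain ⟨η, hη⟩ : ∃ η : ℝ, η = min δ₁ (1 / (2 * m)) := ⟨_, rfl⟩
  have hη0 : 0 < η := by rw [hη]; positivity
  have hη1 : η ≤ δ₁ := by rw [hη]; exact min_le_left _ _
  have hη2 : η ≤ 1 / (2 * m) := by rw [hη]; exact min_le_right _ _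
  obtain ⟨c₀, C₀, hc₀, hC₀, hz⟩ := zsum_k η hη0 (hη1.trans hδ1)
  obtain ⟨c, hc⟩ : ∃ c : ℝ, c = min (1 / 8) (min (δ₁ / 2) (c₀ / 4)) := ⟨_, rfl⟩
  have hc0 : 0 < c := by rw [hc]; positivity
  have hc8 : c ≤ 1 / 8 := by rw [hc]; exact min_le_left _ _
  have hcδ : c ≤ δ₁ / 2 := by rw [hc]; exact (min_le_right _ _).trans (min_le_left _ _)
  have hcc : c ≤ c₀ / 4 := by rw [hc]; exact (min_le_right _ _).trans (min_le_right _ _)
  obtain ⟨ε, hε⟩ : ∃ ε : ℝ, ε = c / (2 * m) := ⟨_, rfl⟩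
  have hε0 : 0 < ε := by rw [hε]; positivity
  have hεm : ε + ε = c / m := by rw [hε]; field_simp; norm_num
  refine ⟨c, 1 + (3 / ε + 1) * (1 + 2 * C₀) + 24, hc0, hc8, by positivity, ?_⟩
  intro U σ τ hU hσ1 hσ3 hτ1 hτ2
  have hU0 : 0 < U := by linarith
  have hUδ : 1 ≤ U ^ δ₁ := Real.one_le_rpow hU hδ.le
  have hτ0 : 0 < |τ| := by linarith
  have hσ0 : 7 / 8 ≤ σ := by linarith
  have hUε : 1 ≤ U ^ ε := Real.one_le_rpow hU hε0.le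
  obtain ⟨J, hJ1, hJ2, hJ3⟩ := exists_J hU
  set s : ℂ := (σ : ℂ) + (τ : ℂ) * I with hs
  have hsre : s.re = σ := by simp [hs]
  have hsim : s.im = τ := by simp [hs]
  have hs1 : s ≠ 1 := by
    intro h
    have := congrArg Complex.im h
    rw [hsim, Complex.one_im] at this
    rw [this, abs_zero] at hτ0
    exact lt_irrefl _ hτ0
  have hN1 : 1 ≤ 2 ^ J := Nat.one_le_two_pow
  have herr := Pool.Agent.P07318f.ZFoneAux.zeta_err (s := s) (by rw [hsre]; linarith) hs1 (2 ^ J) hN1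
  -- the sum
  have hsum : ∑ j ∈ Finset.range (2 ^ J), ((j : ℂ) + 1) ^ (-s) = ∑ n ∈ (Finset.Ioc 0 (2 ^ J) : Finset ℕ), (n : ℂ) ^ (-s) := by
    have h1 : Finset.Ioc 0 (2 ^ J) = (Finset.range (2 ^ J)).image (· + 1) := by
      ext n
      simp only [Finset.mem_Ioc, Finset.mem_image, Finset.mem_range]
      constructor
      · intro h
        exact ⟨n - 1, by omega, by omega⟩
      · rintro ⟨a, ha, rfl⟩
        omega
    rw [h1, Finset.sum_image (fun a _ b _ h => by simpa using h)]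
    refine Finset.sum_congr rfl fun j _ => ?_
    push_cast
    rfl
  have hblock : ∀ j ∈ Finset.range J, ‖∑ n ∈ (Finset.Ioc (2 ^ j) (2 * 2 ^ j) : Finset ℕ), (n : ℂ) ^ (-s)‖ ≤ (1 + 2 * C₀) * U ^ ε := by
    intro j hj
    have hjJ : j < J := Finset.mem_range.1 hj
    have hj1 : 1 ≤ 2 ^ j := Nat.one_le_two_pow
    have hj1r : (1:ℝ) ≤ ((2 ^ j : ℕ) : ℝ) := by exact_mod_cast hj1
    have hj0r : (0:ℝ) < ((2 ^ j : ℕ) : ℝ) := by linarith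
    have hjle : ((2 ^ j : ℕ) : ℝ) ≤ 2 * U ^ 2 := by
      refine le_trans ?_ hJ2
      push_cast
      exact pow_le_pow_right₀ (by norm_num) hjJ.le
    have hpow : ((2 ^ j : ℕ) : ℝ) * ((2 ^ j : ℕ) : ℝ) ^ (-σ) ≤ ((2 ^ j : ℕ) : ℝ) ^ c := by
      have : ((2 ^ j : ℕ) : ℝ) * ((2 ^ j : ℕ) : ℝ) ^ (-σ) = ((2 ^ j : ℕ) : ℝ) ^ (1 - σ) := by
        rw [sub_eq_add_neg, Real.rpow_add hj0r, Real.rpow_one]
      rw [this]
      exact Real.rpow_le_rpow_of_exponent_le hj1r (by linarith)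
    by_cases hcase : U ^ η ≤ ((2 ^ j : ℕ) : ℝ)
    · have h1 := block (σ := σ) (τ := τ) (T := C₀ * ((2 ^ j : ℕ) : ℝ) * U ^ (-c₀)) (by linarith) hj1
        (fun M hM1 hM2 => by
          refine hz U (2 ^ j) M (-τ) hU hcase hM1 hM2 ?_ ?_
          · rw [abs_neg]
            exact (Real.rpow_le_rpow_of_exponent_le hU hη1).trans hτ1
          · rw [abs_neg]
            exact hτ2)
      refine h1.trans ?_
      have h2 : ((2 ^ j : ℕ) : ℝ) ^ c ≤ 2 * U ^ (2 * c) := by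
        calc ((2 ^ j : ℕ) : ℝ) ^ c ≤ (2 * U ^ 2) ^ c := Real.rpow_le_rpow hj0r.le hjle hc0.le
          _ = 2 ^ c * U ^ (2 * c) := by
              rw [Real.mul_rpow (by norm_num) (by positivity), ← Real.rpow_natCast U 2, ← Real.rpow_mul hU0.le]
              norm_num
          _ ≤ 2 * U ^ (2 * c) := by
              refine mul_le_mul_of_nonneg_right ?_ (by positivity)
              calc (2:ℝ) ^ c ≤ 2 ^ (1:ℝ) := Real.rpow_le_rpow_of_exponent_le (by norm_num) (by linarith)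
                _ = 2 := Real.rpow_one 2
      have h3 : U ^ (2 * c) * U ^ (-c₀) ≤ 1 := by
        rw [← Real.rpow_add hU0]
        exact Real.rpow_le_one_of_one_le_of_nonpos hU (by linarith)
      calc C₀ * ((2 ^ j : ℕ) : ℝ) * U ^ (-c₀) * ((2 ^ j : ℕ) : ℝ) ^ (-σ)
          = C₀ * U ^ (-c₀) * (((2 ^ j : ℕ) : ℝ) * ((2 ^ j : ℕ) : ℝ) ^ (-σ)) := by ring
        _ ≤ C₀ * U ^ (-c₀) * (2 * U ^ (2 * c)) := by
            refine mul_le_mul_of_nonneg_left (hpow.trans h2) (by positivity)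
        _ = 2 * C₀ * (U ^ (2 * c) * U ^ (-c₀)) := by ring
        _ ≤ 2 * C₀ * 1 := mul_le_mul_of_nonneg_left h3 (by positivity)
        _ ≤ (1 + 2 * C₀) * U ^ ε := by nlinarith
    · push Not at hcase
      have h1 := block (σ := σ) (τ := τ) (T := ((2 ^ j : ℕ) : ℝ)) (by linarith) hj1
        (fun M _ hM2 => trivial_sum τ hM2)
      refine h1.trans (hpow.trans ?_)
      have h2 : ((2 ^ j : ℕ) : ℝ) ^ c ≤ U ^ ε := by
        calc ((2 ^ j : ℕ) : ℝ) ^ c ≤ (U ^ η) ^ c := Real.rpow_le_rpow hj0r.le hcase.le hc0.le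
          _ = U ^ (η * c) := by rw [← Real.rpow_mul hU0.le]
          _ ≤ U ^ ε := by
              refine Real.rpow_le_rpow_of_exponent_le hU ?_
              rw [hε]
              calc η * c ≤ 1 / (2 * m) * c := mul_le_mul_of_nonneg_right hη2 hc0.le
                _ = c / (2 * m) := by ring
      nlinarith
  have hlog : Real.log U ≤ U ^ ε / ε := Real.log_le_rpow_div hU0.le hε0
  have hS : ‖∑ j ∈ Finset.range (2 ^ J), ((j : ℂ) + 1) ^ (-s)‖ ≤ 1 + (3 / ε + 1) * (1 + 2 * C₀) * U ^ (c / m) := by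
    rw [hsum, dyadic]
    refine (norm_add_le _ _).trans ?_
    have h1 : ‖((1 : ℕ) : ℂ) ^ (-s)‖ ≤ 1 := by simp
    refine add_le_add h1 ?_
    refine (norm_sum_le _ _).trans ?_
    refine (Finset.sum_le_sum hblock).trans ?_
    rw [Finset.sum_const, nsmul_eq_mul, Finset.card_range]
    have h2 : (J : ℝ) ≤ (3 / ε + 1) * U ^ ε := by
      calc (J : ℝ) ≤ 3 * Real.log U + 1 := hJ3
        _ ≤ 3 * (U ^ ε / ε) + 1 * U ^ ε := by linarith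
        _ = (3 / ε + 1) * U ^ ε := by ring
    calc (J : ℝ) * ((1 + 2 * C₀) * U ^ ε) ≤ (3 / ε + 1) * U ^ ε * ((1 + 2 * C₀) * U ^ ε) :=
          mul_le_mul_of_nonneg_right h2 (by positivity)
      _ = (3 / ε + 1) * (1 + 2 * C₀) * (U ^ ε * U ^ ε) := by ring
      _ = (3 / ε + 1) * (1 + 2 * C₀) * U ^ (c / m) := by rw [← Real.rpow_add hU0, hεm]
  have hN0 : (0:ℝ) < ((2 ^ J : ℕ) : ℝ) := by positivity
  have hN1r : (1:ℝ) ≤ ((2 ^ J : ℕ) : ℝ) := by exact_mod_cast hN1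
  have hNr : ((2 ^ J : ℕ) : ℝ) = (2:ℝ) ^ J := by push_cast; rfl
  have hfrac : ‖((2 ^ J : ℕ) : ℂ) ^ (1 - s) / (1 - s)‖ ≤ 2 := by
    rw [norm_div]
    have h1 : ‖((2 ^ J : ℕ) : ℂ) ^ (1 - s)‖ = ((2 ^ J : ℕ) : ℝ) ^ (1 - σ) := by
      have h2 : (((2 ^ J : ℕ) : ℝ) : ℂ) = ((2 ^ J : ℕ) : ℂ) := Complex.ofReal_natCast _
      rw [← h2, Complex.norm_cpow_eq_rpow_re_of_pos hN0, Complex.sub_re, Complex.one_re, hsre]
    have h3 : |τ| ≤ ‖1 - s‖ := by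
      have := Complex.abs_im_le_norm (1 - s)
      rw [Complex.sub_im, Complex.one_im, hsim, zero_sub, abs_neg] at this
      exact this
    have h4 : ((2 ^ J : ℕ) : ℝ) ^ (1 - σ) ≤ 2 * U ^ (2 * c) := by
      calc ((2 ^ J : ℕ) : ℝ) ^ (1 - σ) ≤ ((2 ^ J : ℕ) : ℝ) ^ c := Real.rpow_le_rpow_of_exponent_le hN1r (by linarith)
        _ ≤ (2 * U ^ 2) ^ c := Real.rpow_le_rpow hN0.le (by rw [hNr]; exact hJ2) hc0.le
        _ = 2 ^ c * U ^ (2 * c) := by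
            rw [Real.mul_rpow (by norm_num) (by positivity), ← Real.rpow_natCast U 2, ← Real.rpow_mul hU0.le]
            norm_num
        _ ≤ 2 * U ^ (2 * c) := by
            refine mul_le_mul_of_nonneg_right ?_ (by positivity)
            calc (2:ℝ) ^ c ≤ 2 ^ (1:ℝ) := Real.rpow_le_rpow_of_exponent_le (by norm_num) (by linarith)
              _ = 2 := Real.rpow_one 2
    have h5 : U ^ (2 * c) ≤ U ^ δ₁ := Real.rpow_le_rpow_of_exponent_le hU (by linarith)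
    rw [h1, div_le_iff₀ (lt_of_lt_of_le hτ0 h3)]
    linarith
  have herr2 : ‖s‖ / s.re * ((2 ^ J : ℕ) : ℝ) ^ (-s.re) ≤ 22 := by
    rw [hsre]
    have h1 : ‖s‖ ≤ 19 * U := by
      refine (Complex.norm_le_abs_re_add_abs_im s).trans ?_
      rw [hsre, hsim, abs_of_pos (by linarith : 0 < σ)]
      linarith
    have h2 : ((2 ^ J : ℕ) : ℝ) ^ (-σ) ≤ U ^ (-1 : ℝ) := by
      calc ((2 ^ J : ℕ) : ℝ) ^ (-σ) ≤ ((2 ^ J : ℕ) : ℝ) ^ (-(1 / 2) : ℝ) :=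
            Real.rpow_le_rpow_of_exponent_le hN1r (by linarith)
        _ ≤ (U ^ 2) ^ (-(1 / 2) : ℝ) :=
            Real.rpow_le_rpow_of_nonpos (by positivity) (by rw [hNr]; exact hJ1) (by norm_num)
        _ = U ^ (-1 : ℝ) := by
            rw [← Real.rpow_natCast U 2, ← Real.rpow_mul hU0.le]
            norm_num
    have h3 : ‖s‖ / σ ≤ 22 * U := by
      rw [div_le_iff₀ (by linarith)]
      nlinarith
    calc ‖s‖ / σ * ((2 ^ J : ℕ) : ℝ) ^ (-σ) ≤ 22 * U * U ^ (-1 : ℝ) :=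
          mul_le_mul h3 h2 (by positivity) (by positivity)
      _ = 22 := by rw [Real.rpow_neg_one, mul_assoc, mul_inv_cancel₀ hU0.ne', mul_one]
  have hUcm : 1 ≤ U ^ (c / m) := Real.one_le_rpow hU (by positivity)
  have key : ‖riemannZeta s‖ ≤ ‖∑ j ∈ Finset.range (2 ^ J), ((j : ℂ) + 1) ^ (-s)‖ +
      ‖((2 ^ J : ℕ) : ℂ) ^ (1 - s) / (1 - s)‖ + ‖∑ j ∈ Finset.range (2 ^ J), ((j : ℂ) + 1) ^ (-s) -
        ((2 ^ J : ℕ) : ℂ) ^ (1 - s) / (1 - s) - riemannZeta s‖ := by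
    have e1 : riemannZeta s = ∑ j ∈ Finset.range (2 ^ J), ((j : ℂ) + 1) ^ (-s) - ((2 ^ J : ℕ) : ℂ) ^ (1 - s) / (1 - s) -
        (∑ j ∈ Finset.range (2 ^ J), ((j : ℂ) + 1) ^ (-s) -
        ((2 ^ J : ℕ) : ℂ) ^ (1 - s) / (1 - s) - riemannZeta s) := by ring
    calc ‖riemannZeta s‖ = _ := congrArg _ e1
      _ ≤ _ := (norm_sub_le _ _).trans (add_le_add (norm_sub_le _ _) le_rfl)
  refine key.trans ?_
  have h9 := herr.trans herr2
  have h10 : 0 ≤ (3 / ε + 1) * (1 + 2 * C₀) := by positivity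
  nlinarith [hS, hfrac, h9]

end Pool.Agent.P07318h
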