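import Pool.Agent.Lib.P07318h.ExpLog
import Pool.Agent.Lib.P07318s.WMellin
import Pool.Agent.Lib.P07318s.Regroup

/-!
# The off-diagonal terms of the Gaussian mean square

`cf x p = hgt^(-1/2) W(2π hgt/x)`.
PROOF. The terms of `p = (m, m+d)` and `p = (m+d, m)`, `m, d ≥ 1`, are complex conjugates; so it is enough to bound
`∑_{d ≥ 1} |∑_{m ≥ 1} f(m) g(m) e^(i x log(1+d/m))|`, `f(m) = (m(m+d))^(-1/2) W(2π m(m+d)/x) ≥ 0` decreasing in `m` (`W_antitone`, `W_nonneg`, `W ≤ 2`), `g(m) = exp(-(L log(1+d/m))²/2)` increasing in `m`, `≤ 1`.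
Split `m` into `m = 1` and dyadic blocks `(A, 2A]`, `A = 2^j`. Let `ε' = ε/4`.
(a) `m(m+d) > U^(1+ε')`: `W y ≤ C_B y^(-B)` (`W_le_rpow`) with `B` large: these terms sum up to `≤ C` in absolute value (`∑ hgt^(-1/2-B) (x/2π)^B` over `hgt > U^(1+ε')`).
(b) `d > A` (or `m = 1`, `d ≥ 1`), `m(m+d) ≤ U^(1+ε')`: `log(1+d/m) ≥ log(3/2)`, `g ≤ exp(-0.08 L²) ≤ C U^(-3)` (`L ≥ U^(1/3)`); at most `U^3` pairs.
(c) `1 ≤ d ≤ A`, `A ≤ U^(1/2+ε')`: Abel summation twice (first with `f` decreasing, then with `g` increasing, both nonnegative):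
`|∑_{m ∈ (A,2A]} f g e(..)| ≤ 4 f(A) g(2A) max_{A ≤ a ≤ b ≤ 2A} |∑_{m ∈ (a, b]} e(..)|`, `f(A) ≤ 2/A`, `g(2A) ≤ exp(-L² d²/(18 A²))` (`log(1+d/2A) ≥ d/(2A+d) ≥ d/(3A)`), and `exp_log`. With `D = A/L`:
`∑_{d ≥ 1} d^(1/2) exp(-d²/(18D²)) ≤ C D^(3/2)`, `∑ d^(-1/2) exp(..) ≤ C D^(1/2)`, `∑ exp(..) ≤ C D` (all `D > 0`: e.g. `exp(-t) ≤ C_a t^(-a)`), so the block contributes
`≤ C A^(-1) ((x/A)^(1/2) D^(3/2) + (A³/x)^(1/2) D^(1/2) + A^(1/2) D) = C (x^(1/2) L^(-3/2) + A x^(-1/2) L^(-1/2) + A^(1/2) L^(-1)) ≤ C U^(ε')` as `L ≥ U^(1/3)`, `U ≤ x ≤ 16U`, `A ≤ U^(1/2+ε')`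
(`A^(1/2) L^(-1) ≤ U^(1/4 + ε'/2 - 1/3)`). There are `≤ C U^(ε')` blocks. If the series is treated with `if 2^j < m ≤ 2^(j+1)` the interchange of sums is absolutely convergent (`cf_summable`).
To avoid the mixed conditions `m(m+d) ≤ U^(1+ε')` in (c) one may apply (c) to ALL `m ∈ (A, 2A]`, `d ≤ A`, for the blocks with `A ≤ U^(1/2+ε')`, and use (a) only for the blocks with `A > U^(1/2+ε')`.
-/

set_option autoImplicit false

namespace Pool.Agent.P07318h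

open MeasureTheory Complex Pool.Agent.P07318s Pool.Agent.P07318f

namespace OffGAux

/-! ### Abel summation -/

lemma abel_anti (f : ℕ → ℝ) (z : ℕ → ℂ) (M : ℝ) (hM : 0 ≤ M) (a : ℕ) (h0 : ∀ n, 0 ≤ f n)
    (hf : ∀ n, a < n → f (n + 1) ≤ f n) (b : ℕ)
    (hS : ∀ c, a ≤ c → c ≤ b → ‖∑ n ∈ Finset.Ioc a c, z n‖ ≤ M) (hab : a ≤ b) :
    ‖∑ n ∈ Finset.Ioc a b, (f n : ℂ) * z n‖ ≤ f (a + 1) * M := by
  rcases Nat.eq_or_lt_of_le hab with h | h
  · rw [← h, Finset.Ioc_self, Finset.sum_empty, norm_zero]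
    exact mul_nonneg (h0 _) hM
  have key : ∀ b, a + 1 ≤ b → (∀ c, a ≤ c → c ≤ b → ‖∑ n ∈ Finset.Ioc a c, z n‖ ≤ M) →
      ∃ R : ℂ, ∑ n ∈ Finset.Ioc a b, (f n : ℂ) * z n = (f b : ℂ) * (∑ n ∈ Finset.Ioc a b, z n) + R ∧
        ‖R‖ ≤ (f (a + 1) - f b) * M := by
    intro b hb
    induction b, hb using Nat.le_induction with
    | base =>
      intro _
      refine ⟨0, ?_, by simp⟩
      rw [Finset.sum_Ioc_succ_top (Nat.le_refl a), Finset.sum_Ioc_succ_top (Nat.le_refl a)]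
      simp
    | succ b hb ih =>
      intro hS'
      obtain ⟨R, hR, hR2⟩ := ih fun c h1 h2 => hS' c h1 (by omega)
      refine ⟨R + ((f b - f (b + 1) : ℝ) : ℂ) * ∑ n ∈ Finset.Ioc a b, z n, ?_, ?_⟩
      · rw [Finset.sum_Ioc_succ_top (by omega), Finset.sum_Ioc_succ_top (by omega), hR]
        push_cast
        ring
      · have h1 := hS' b (by omega) (by omega)
        have h2 := hf b (by omega)
        refine (norm_add_le _ _).trans ?_
        rw [norm_mul, Complex.norm_real, Real.norm_of_nonneg (by linarith)]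
        have h3 : (f b - f (b + 1)) * ‖∑ n ∈ Finset.Ioc a b, z n‖ ≤ (f b - f (b + 1)) * M :=
          mul_le_mul_of_nonneg_left h1 (by linarith)
        linarith
  obtain ⟨R, hR, hR2⟩ := key b h hS
  rw [hR]
  refine (norm_add_le _ _).trans ?_
  rw [norm_mul, Complex.norm_real, Real.norm_of_nonneg (h0 b)]
  have h3 : f b * ‖∑ n ∈ Finset.Ioc a b, z n‖ ≤ f b * M :=
    mul_le_mul_of_nonneg_left (hS b hab le_rfl) (h0 b)
  linarith

lemma abel_mono (g : ℕ → ℝ) (z : ℕ → ℂ) (M : ℝ) (hM : 0 ≤ M) (a : ℕ) (h0 : ∀ n, 0 ≤ g n)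
    (hg : ∀ n, a < n → g n ≤ g (n + 1)) (b : ℕ)
    (hS : ∀ c, a ≤ c → c ≤ b → ‖∑ n ∈ Finset.Ioc a c, z n‖ ≤ M) (hab : a ≤ b) :
    ‖∑ n ∈ Finset.Ioc a b, (g n : ℂ) * z n‖ ≤ 2 * g b * M := by
  rcases Nat.eq_or_lt_of_le hab with h | h
  · rw [← h, Finset.Ioc_self, Finset.sum_empty, norm_zero]
    exact mul_nonneg (mul_nonneg zero_le_two (h0 _)) hM
  have key : ∀ b, a + 1 ≤ b → (∀ c, a ≤ c → c ≤ b → ‖∑ n ∈ Finset.Ioc a c, z n‖ ≤ M) →
      ∃ R : ℂ, ∑ n ∈ Finset.Ioc a b, (g n : ℂ) * z n = (g b : ℂ) * (∑ n ∈ Finset.Ioc a b, z n) + R ∧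
        ‖R‖ ≤ (g b - g (a + 1)) * M := by
    intro b hb
    induction b, hb using Nat.le_induction with
    | base =>
      intro _
      refine ⟨0, ?_, by simp⟩
      rw [Finset.sum_Ioc_succ_top (Nat.le_refl a), Finset.sum_Ioc_succ_top (Nat.le_refl a)]
      simp
    | succ b hb ih =>
      intro hS'
      obtain ⟨R, hR, hR2⟩ := ih fun c h1 h2 => hS' c h1 (by omega)
      refine ⟨R + ((g b - g (b + 1) : ℝ) : ℂ) * ∑ n ∈ Finset.Ioc a b, z n, ?_, ?_⟩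
      · rw [Finset.sum_Ioc_succ_top (by omega), Finset.sum_Ioc_succ_top (by omega), hR]
        push_cast
        ring
      · have h1 := hS' b (by omega) (by omega)
        have h2 := hg b (by omega)
        refine (norm_add_le _ _).trans ?_
        rw [norm_mul, Complex.norm_real, Real.norm_of_nonpos (by linarith)]
        have h3 : -(g b - g (b + 1)) * ‖∑ n ∈ Finset.Ioc a b, z n‖ ≤ -(g b - g (b + 1)) * M :=
          mul_le_mul_of_nonneg_left h1 (by linarith)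
        linarith
  obtain ⟨R, hR, hR2⟩ := key b h hS
  rw [hR]
  refine (norm_add_le _ _).trans ?_
  rw [norm_mul, Complex.norm_real, Real.norm_of_nonneg (h0 b)]
  have h3 : g b * ‖∑ n ∈ Finset.Ioc a b, z n‖ ≤ g b * M :=
    mul_le_mul_of_nonneg_left (hS b hab le_rfl) (h0 b)
  have h4 : 0 ≤ g (a + 1) * M := mul_nonneg (h0 _) hM
  linarith

/-! ### the terms -/

/-- the coefficient -/
noncomputable def fw (x : ℝ) (m d : ℕ) : ℝ :=
  ((m : ℝ) * ((m : ℝ) + d)) ^ (-(1 / 2) : ℝ) * W (2 * Real.pi * ((m : ℝ) * ((m : ℝ) + d)) / x)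

/-- the Gaussian weight -/
noncomputable def gw (L : ℝ) (m d : ℕ) : ℝ := Real.exp (-(L * Real.log (1 + (d : ℝ) / m)) ^ 2 / 2)

/-- the oscillating factor -/
noncomputable def ze (x : ℝ) (m d : ℕ) : ℂ := cexp (((x * Real.log (1 + (d : ℝ) / m) : ℝ) : ℂ) * I)

lemma fw_nonneg (x : ℝ) (m d : ℕ) : 0 ≤ fw x m d :=
  mul_nonneg (Real.rpow_nonneg (by positivity) _) (W_nonneg _)

lemma gw_pos (L : ℝ) (m d : ℕ) : 0 < gw L m d := Real.exp_pos _

lemma gw_le_one (L : ℝ) (m d : ℕ) : gw L m d ≤ 1 := by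
  unfold gw
  rw [Real.exp_le_one_iff]
  have := sq_nonneg (L * Real.log (1 + (d : ℝ) / m))
  linarith

lemma norm_ze (x : ℝ) (m d : ℕ) : ‖ze x m d‖ = 1 := norm_exp_ofReal_mul_I _

lemma fw_anti {x : ℝ} (hx : 0 < x) (d m : ℕ) (hm : 0 < m) : fw x (m + 1) d ≤ fw x m d := by
  unfold fw
  have h1 : (0 : ℝ) < m := by exact_mod_cast hm
  have h2 : (0 : ℝ) ≤ d := Nat.cast_nonneg d
  have h3 : (0 : ℝ) < (m : ℝ) * ((m : ℝ) + d) := by positivity
  have h4 : (m : ℝ) * ((m : ℝ) + d) ≤ ((m + 1 : ℕ) : ℝ) * (((m + 1 : ℕ) : ℝ) + d) := by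
    push_cast
    nlinarith
  apply mul_le_mul
  · exact Real.rpow_le_rpow_of_nonpos h3 h4 (by norm_num)
  · apply W_antitone
    · rw [Set.mem_Ioi]; have := Real.pi_pos; positivity
    · rw [Set.mem_Ioi]; have := Real.pi_pos
      have h5 := h3.trans_le h4
      positivity
    · have := Real.pi_pos
      gcongr
  · exact W_nonneg _
  · exact Real.rpow_nonneg h3.le _

lemma gw_mono (L : ℝ) (d m : ℕ) (hm : 0 < m) : gw L m d ≤ gw L (m + 1) d := by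
  unfold gw
  have h1 : (0 : ℝ) < m := by exact_mod_cast hm
  have h2 : (0 : ℝ) ≤ d := Nat.cast_nonneg d
  apply Real.exp_le_exp.mpr
  have h3 : (d : ℝ) / ((m + 1 : ℕ) : ℝ) ≤ (d : ℝ) / m := by
    push_cast
    gcongr
    linarith
  have h4 : Real.log (1 + (d : ℝ) / ((m + 1 : ℕ) : ℝ)) ≤ Real.log (1 + (d : ℝ) / m) :=
    Real.log_le_log (by positivity) (by linarith)
  have h5 : 0 ≤ Real.log (1 + (d : ℝ) / ((m + 1 : ℕ) : ℝ)) :=
    Real.log_nonneg (by have : 0 ≤ (d : ℝ) / ((m + 1 : ℕ) : ℝ) := by positivity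
                        linarith)
  have h6 : (L * Real.log (1 + (d : ℝ) / ((m + 1 : ℕ) : ℝ))) ^ 2 ≤ (L * Real.log (1 + (d : ℝ) / m)) ^ 2 := by
    rw [mul_pow, mul_pow]
    exact mul_le_mul_of_nonneg_left (pow_le_pow_left₀ h5 h4 2) (sq_nonneg L)
  linarith

lemma fw_le_two_div (x : ℝ) (A d : ℕ) (hA : 1 ≤ A) : fw x (A + 1) d ≤ 2 / A := by
  unfold fw
  have h1 : (0 : ℝ) < A := by exact_mod_cast hA
  have h2 : (0 : ℝ) ≤ d := Nat.cast_nonneg d
  have h3 : (A : ℝ) ^ 2 ≤ ((A + 1 : ℕ) : ℝ) * (((A + 1 : ℕ) : ℝ) + d) := by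
    push_cast
    nlinarith
  have h4 : (((A + 1 : ℕ) : ℝ) * (((A + 1 : ℕ) : ℝ) + d)) ^ (-(1 / 2) : ℝ) ≤ ((A : ℝ) ^ 2) ^ (-(1 / 2) : ℝ) :=
    Real.rpow_le_rpow_of_nonpos (by positivity) h3 (by norm_num)
  have h5 : ((A : ℝ) ^ 2) ^ (-(1 / 2) : ℝ) = (A : ℝ)⁻¹ := by
    rw [Real.rpow_neg (by positivity), ← Real.sqrt_eq_rpow, Real.sqrt_sq h1.le]
  rw [h5] at h4
  calc _ ≤ (A : ℝ)⁻¹ * 2 := mul_le_mul h4 (W_le_two _) (W_nonneg _) (by positivity)
    _ = 2 / A := by rw [div_eq_inv_mul]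

lemma log_ge {y : ℝ} (hy : 0 ≤ y) : y / (1 + y) ≤ Real.log (1 + y) := by
  have h := Real.one_sub_inv_le_log_of_pos (show 0 < 1 + y by linarith)
  have h2 : y / (1 + y) = 1 - (1 + y)⁻¹ := by
    have : (1 + y) ≠ 0 := by linarith
    field_simp
    ring
  rw [h2]
  exact h

lemma gw_le {L : ℝ} (hL : 0 ≤ L) (A d : ℕ) (hA : 1 ≤ A) (hd : d ≤ A) :
    gw L (2 * A) d ≤ Real.exp (-(L * d / A) ^ 2 / 18) := by
  unfold gw
  apply Real.exp_le_exp.mpr
  have h1 : (0 : ℝ) < A := by exact_mod_cast hA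
  have h2 : (0 : ℝ) ≤ d := Nat.cast_nonneg d
  have h2' : (d : ℝ) ≤ A := by exact_mod_cast hd
  have h3 : (d : ℝ) / (3 * A) ≤ Real.log (1 + (d : ℝ) / ((2 * A : ℕ) : ℝ)) := by
    have h4 : 0 ≤ (d : ℝ) / ((2 * A : ℕ) : ℝ) := by positivity
    refine le_trans ?_ (log_ge h4)
    push_cast
    have e : (d : ℝ) / (2 * A) / (1 + d / (2 * A)) = d / (2 * A + d) := by
      field_simp
    rw [e]
    gcongr
    linarith
  have h5 : L * d / A = 3 * (L * (d / (3 * A))) := by field_simp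
  have h6 : (L * (d / (3 * A))) ^ 2 ≤ (L * Real.log (1 + (d : ℝ) / ((2 * A : ℕ) : ℝ))) ^ 2 := by
    apply pow_le_pow_left₀ (by positivity)
    exact mul_le_mul_of_nonneg_left h3 hL
  rw [h5, mul_pow]
  linarith

lemma gw_le_far {L : ℝ} (hL : 0 ≤ L) (m d : ℕ) (hm : 1 ≤ m) (hd : m ≤ 2 * d) :
    gw L m d ≤ Real.exp (-L ^ 2 / 18) := by
  unfold gw
  apply Real.exp_le_exp.mpr
  have h1 : (0 : ℝ) < m := by exact_mod_cast hm
  have h2 : (0 : ℝ) ≤ d := Nat.cast_nonneg d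
  have h2' : (m : ℝ) ≤ 2 * d := by exact_mod_cast hd
  have h3 : (1 : ℝ) / 3 ≤ Real.log (1 + (d : ℝ) / m) := by
    have h4 : 0 ≤ (d : ℝ) / m := by positivity
    refine le_trans ?_ (log_ge h4)
    have e : (d : ℝ) / m / (1 + d / m) = d / (m + d) := by
      field_simp
    rw [e, div_le_div_iff₀ (by norm_num) (by linarith)]
    linarith
  have h6 : (L * (1 / 3)) ^ 2 ≤ (L * Real.log (1 + (d : ℝ) / m)) ^ 2 := by
    apply pow_le_pow_left₀ (by positivity)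
    exact mul_le_mul_of_nonneg_left h3 hL
  rw [mul_pow] at h6
  linarith

lemma exp_pow (s : ℝ) (hs : 0 < s) : ∃ C : ℝ, 0 < C ∧ ∀ y : ℝ, 0 < y →
    Real.exp (-y ^ 2 / 18) ≤ C * y ^ (-s) := by
  refine ⟨(9 * s) ^ (s / 2), by positivity, fun y hy => ?_⟩
  have h1 : y ^ 2 / 18 / (s / 2) ≤ Real.exp (y ^ 2 / 18 / (s / 2)) := by
    have := Real.add_one_le_exp (y ^ 2 / 18 / (s / 2))
    linarith
  have h0 : 0 < y ^ 2 / 18 / (s / 2) := by positivity
  have h2 : (y ^ 2 / 18 / (s / 2)) ^ (s / 2) ≤ Real.exp (y ^ 2 / 18) := by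
    calc (y ^ 2 / 18 / (s / 2)) ^ (s / 2) ≤ (Real.exp (y ^ 2 / 18 / (s / 2))) ^ (s / 2) :=
          Real.rpow_le_rpow h0.le h1 (by positivity)
      _ = _ := by
          rw [← Real.exp_mul]
          congr 1
          field_simp
  have h3 : (y ^ 2 / 18 / (s / 2)) ^ (s / 2) = ((9 * s) ^ (s / 2))⁻¹ * y ^ s := by
    have e1 : y ^ 2 / 18 / (s / 2) = (9 * s)⁻¹ * y ^ 2 := by
      field_simp
      ring
    rw [e1, Real.mul_rpow (by positivity) (by positivity), Real.inv_rpow (by positivity),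
      ← Real.rpow_natCast, ← Real.rpow_mul hy.le]
    congr 2
    push_cast
    ring
  have h4 : 0 < ((9 * s) ^ (s / 2))⁻¹ * y ^ s := by positivity
  rw [h3] at h2
  have h5 : -y ^ 2 / 18 = -(y ^ 2 / 18) := by ring
  rw [h5, Real.exp_neg, Real.rpow_neg hy.le]
  calc (Real.exp (y ^ 2 / 18))⁻¹ ≤ (((9 * s) ^ (s / 2))⁻¹ * y ^ s)⁻¹ := inv_anti₀ h4 h2
    _ = _ := by rw [mul_inv, inv_inv]

/-! ### one block -/

lemma inner {C0 : ℝ} (hC0 : 0 < C0)
    (hE : ∀ (x : ℝ) (A d a b : ℕ), 1 ≤ x → 1 ≤ A → 1 ≤ d → d ≤ A → A ≤ a → a ≤ b → b ≤ 2 * A →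
      ‖∑ n ∈ Finset.Ioc a b, cexp (((x * Real.log (1 + (d : ℝ) / n) : ℝ) : ℂ) * I)‖ ≤
        C0 * ((x * d / A) ^ (1 / 2 : ℝ) + ((A : ℝ) ^ 3 / (x * d)) ^ (1 / 2 : ℝ) + (A : ℝ) ^ (1 / 2 : ℝ)))
    {x L : ℝ} (hx : 1 ≤ x) (hL : 0 ≤ L) {A d : ℕ} (hA : 1 ≤ A) (hd : 1 ≤ d) (hdA : d ≤ A) :
    ‖∑ n ∈ Finset.Ioc A (2 * A), (fw x n d : ℂ) * ze x n d * (gw L n d : ℂ)‖ ≤
      4 * C0 * (Real.exp (-(L * d / A) ^ 2 / 18) * ((x * d / A) ^ (1 / 2 : ℝ) / A) +
        Real.exp (-(L * d / A) ^ 2 / 18) * (((A : ℝ) ^ 3 / (x * d)) ^ (1 / 2 : ℝ) / A) +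
        Real.exp (-(L * d / A) ^ 2 / 18) * ((A : ℝ) ^ (1 / 2 : ℝ) / A)) := by
  have h1 : (0 : ℝ) < A := by exact_mod_cast hA
  set M : ℝ := C0 * ((x * d / A) ^ (1 / 2 : ℝ) + ((A : ℝ) ^ 3 / (x * d)) ^ (1 / 2 : ℝ) +
    (A : ℝ) ^ (1 / 2 : ℝ)) with hM
  have hM0 : 0 ≤ M := by
    have hx0 : 0 ≤ x := by linarith
    positivity
  have s1 : ∀ c, A ≤ c → c ≤ 2 * A → ‖∑ n ∈ Finset.Ioc A c, (fw x n d : ℂ) * ze x n d‖ ≤ fw x (A + 1) d * M := by
    intro c hc1 hc2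
    refine abel_anti (fun n => fw x n d) (fun n => ze x n d) M hM0 A (fun n => fw_nonneg _ _ _)
      (fun n hn => fw_anti (by linarith) d n (by omega)) c ?_ hc1
    intro c' h1 h2
    exact hE x A d A c' hx hA hd hdA le_rfl h1 (by omega)
  have hfM : 0 ≤ fw x (A + 1) d * M := mul_nonneg (fw_nonneg _ _ _) hM0
  have s2 := abel_mono (fun n => gw L n d) (fun n => (fw x n d : ℂ) * ze x n d) (fw x (A + 1) d * M) hfM A
    (fun n => (gw_pos _ _ _).le) (fun n hn => gw_mono L d n (by omega)) (2 * A) s1 (by omega)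
  have e1 : ∑ n ∈ Finset.Ioc A (2 * A), (fw x n d : ℂ) * ze x n d * (gw L n d : ℂ) =
      ∑ n ∈ Finset.Ioc A (2 * A), (gw L n d : ℂ) * ((fw x n d : ℂ) * ze x n d) := by
    apply Finset.sum_congr rfl
    intro n _
    ring
  rw [e1]
  refine s2.trans ?_
  have h2 := gw_le hL A d hA hdA
  have h3 := fw_le_two_div x A d hA
  have h4 : 2 * gw L (2 * A) d * (fw x (A + 1) d * M) ≤
      2 * Real.exp (-(L * d / A) ^ 2 / 18) * (2 / A * M) := by
    apply mul_le_mul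
    · linarith
    · exact mul_le_mul_of_nonneg_right h3 hM0
    · exact hfM
    · positivity
  refine h4.trans (le_of_eq ?_)
  rw [hM]
  ring


section logs

variable {e U x L a k : ℝ}

lemma E_log {y s : ℝ} (hy : 0 < y) : y ^ s = Real.exp (s * Real.log y) := by
  rw [Real.rpow_def_of_pos hy, mul_comm]

lemma log_facts (he : 0 < e) (he1 : e ≤ 1) (hU : 1 ≤ U) (hUx : U ≤ x) (hx : x ≤ 16 * U)
    (hL : U ^ (1 / 3 : ℝ) ≤ L) (ha : 1 ≤ a) (ha2 : a ≤ U ^ ((1 + e) / 2)) :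
    0 ≤ Real.log U ∧ Real.log U ≤ Real.log x ∧ Real.log x ≤ 2 * Real.log 4 + Real.log U ∧
      Real.log U / 3 ≤ Real.log L ∧ 0 ≤ Real.log a ∧ Real.log a ≤ (1 + e) / 2 * Real.log U ∧
      e * Real.log a ≤ e * Real.log U ∧ 0 ≤ e * Real.log L := by
  have h0 : 0 ≤ Real.log U := Real.log_nonneg hU
  have hU0 : 0 < U := by linarith
  have h1 : Real.log U ≤ Real.log x := Real.log_le_log hU0 hUx
  have h2 : Real.log x ≤ 2 * Real.log 4 + Real.log U := by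
    have h := Real.log_le_log (by linarith) hx
    rw [Real.log_mul (by norm_num) (by linarith)] at h
    have h16 : Real.log 16 = 2 * Real.log 4 := by
      rw [show (16 : ℝ) = 4 ^ 2 by norm_num, Real.log_pow]
      norm_num
    linarith
  have h3 : Real.log U / 3 ≤ Real.log L := by
    have h := Real.log_le_log (Real.rpow_pos_of_pos hU0 _) hL
    rw [Real.log_rpow hU0] at h
    linarith
  have h4 : 0 ≤ Real.log a := Real.log_nonneg ha
  have h5 : Real.log a ≤ (1 + e) / 2 * Real.log U := by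
    have h := Real.log_le_log (by linarith) ha2
    rwa [Real.log_rpow hU0] at h
  refine ⟨h0, h1, h2, h3, h4, h5, ?_, mul_nonneg he.le (by linarith)⟩
  apply mul_le_mul_of_nonneg_left _ he.le
  nlinarith

lemma term1 {C : ℝ} (hC : 0 < C) (he : 0 < e) (he1 : e ≤ 1)
    (hE : ∀ y : ℝ, 0 < y → Real.exp (-y ^ 2 / 18) ≤ C * y ^ (-(3 / 2 + e)))
    (hU : 1 ≤ U) (hUx : U ≤ x) (hx : x ≤ 16 * U)
    (hL : U ^ (1 / 3 : ℝ) ≤ L) (ha : 1 ≤ a) (ha2 : a ≤ U ^ ((1 + e) / 2)) (hk : 1 ≤ k) :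
    Real.exp (-(L * k / a) ^ 2 / 18) * ((x * k / a) ^ (1 / 2 : ℝ) / a) ≤
      4 * C * (U ^ (3 * e / 2) * k ^ (-(1 + e))) := by
  obtain ⟨h0, h1, h2, h3, h4, h5, h6, h7⟩ := log_facts he he1 hU hUx hx hL ha ha2
  have hU0 : 0 < U := by linarith
  have hL0 : 0 < L := (Real.rpow_pos_of_pos hU0 _).trans_le hL
  have ha0 : 0 < a := by linarith
  have hk0 : 0 < k := by linarith
  have hx0 : 0 < x := by linarith
  have hy : 0 < L * k / a := by positivity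
  have hE' := hE _ hy
  have r1 : (x * k / a) ^ (1 / 2 : ℝ) / a = Real.exp (1 / 2 * (Real.log x + Real.log k - Real.log a) - Real.log a) := by
    rw [Real.exp_sub, Real.exp_log ha0, E_log (by positivity), Real.log_div (by positivity) (by positivity),
      Real.log_mul (by positivity) (by positivity)]
  have r2 : (L * k / a) ^ (-(3 / 2 + e)) = Real.exp (-(3 / 2 + e) * (Real.log L + Real.log k - Real.log a)) := by
    rw [E_log (by positivity), Real.log_div (by positivity) (by positivity),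
      Real.log_mul (by positivity) (by positivity)]
  have r3 : U ^ (3 * e / 2) * k ^ (-(1 + e)) = Real.exp (3 * e / 2 * Real.log U + -(1 + e) * Real.log k) := by
    rw [Real.exp_add, E_log hU0, E_log hk0]
  rw [r2] at hE'
  rw [r1, r3]
  calc _ ≤ C * Real.exp (-(3 / 2 + e) * (Real.log L + Real.log k - Real.log a)) *
        Real.exp (1 / 2 * (Real.log x + Real.log k - Real.log a) - Real.log a) :=
        mul_le_mul_of_nonneg_right hE' (Real.exp_pos _).le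
    _ = C * Real.exp (-(3 / 2 + e) * (Real.log L + Real.log k - Real.log a) +
        (1 / 2 * (Real.log x + Real.log k - Real.log a) - Real.log a)) := by
        rw [mul_assoc, ← Real.exp_add]
    _ ≤ C * Real.exp (Real.log 4 + (3 * e / 2 * Real.log U + -(1 + e) * Real.log k)) := by
        apply mul_le_mul_of_nonneg_left _ hC.le
        apply Real.exp_le_exp.mpr
        nlinarith
    _ = _ := by
        rw [Real.exp_add, Real.exp_log (by norm_num)]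
        ring

lemma term2 {C : ℝ} (hC : 0 < C) (he : 0 < e) (he1 : e ≤ 1)
    (hE : ∀ y : ℝ, 0 < y → Real.exp (-y ^ 2 / 18) ≤ C * y ^ (-(1 / 2 + e)))
    (hU : 1 ≤ U) (hUx : U ≤ x) (hx : x ≤ 16 * U)
    (hL : U ^ (1 / 3 : ℝ) ≤ L) (ha : 1 ≤ a) (ha2 : a ≤ U ^ ((1 + e) / 2)) (hk : 1 ≤ k) :
    Real.exp (-(L * k / a) ^ 2 / 18) * ((a ^ 3 / (x * k)) ^ (1 / 2 : ℝ) / a) ≤
      C * (U ^ (3 * e / 2) * k ^ (-(1 + e))) := by
  obtain ⟨h0, h1, h2, h3, h4, h5, h6, h7⟩ := log_facts he he1 hU hUx hx hL ha ha2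
  have hU0 : 0 < U := by linarith
  have hL0 : 0 < L := (Real.rpow_pos_of_pos hU0 _).trans_le hL
  have ha0 : 0 < a := by linarith
  have hk0 : 0 < k := by linarith
  have hx0 : 0 < x := by linarith
  have hy : 0 < L * k / a := by positivity
  have hE' := hE _ hy
  have r1 : (a ^ 3 / (x * k)) ^ (1 / 2 : ℝ) / a = Real.exp (1 / 2 * (3 * Real.log a - (Real.log x + Real.log k)) - Real.log a) := by
    rw [Real.exp_sub, Real.exp_log ha0, E_log (by positivity), Real.log_div (by positivity) (by positivity),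
      Real.log_mul (by positivity) (by positivity), Real.log_pow]
    norm_num
  have r2 : (L * k / a) ^ (-(1 / 2 + e)) = Real.exp (-(1 / 2 + e) * (Real.log L + Real.log k - Real.log a)) := by
    rw [E_log (by positivity), Real.log_div (by positivity) (by positivity),
      Real.log_mul (by positivity) (by positivity)]
  have r3 : U ^ (3 * e / 2) * k ^ (-(1 + e)) = Real.exp (3 * e / 2 * Real.log U + -(1 + e) * Real.log k) := by
    rw [Real.exp_add, E_log hU0, E_log hk0]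
  rw [r2] at hE'
  rw [r1, r3]
  calc _ ≤ C * Real.exp (-(1 / 2 + e) * (Real.log L + Real.log k - Real.log a)) *
        Real.exp (1 / 2 * (3 * Real.log a - (Real.log x + Real.log k)) - Real.log a) :=
        mul_le_mul_of_nonneg_right hE' (Real.exp_pos _).le
    _ = C * Real.exp (-(1 / 2 + e) * (Real.log L + Real.log k - Real.log a) +
        (1 / 2 * (3 * Real.log a - (Real.log x + Real.log k)) - Real.log a)) := by
        rw [mul_assoc, ← Real.exp_add]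
    _ ≤ C * Real.exp (3 * e / 2 * Real.log U + -(1 + e) * Real.log k) := by
        apply mul_le_mul_of_nonneg_left _ hC.le
        apply Real.exp_le_exp.mpr
        nlinarith

lemma term3 {C : ℝ} (hC : 0 < C) (he : 0 < e) (he1 : e ≤ 1)
    (hE : ∀ y : ℝ, 0 < y → Real.exp (-y ^ 2 / 18) ≤ C * y ^ (-(1 + e)))
    (hU : 1 ≤ U) (hUx : U ≤ x) (hx : x ≤ 16 * U)
    (hL : U ^ (1 / 3 : ℝ) ≤ L) (ha : 1 ≤ a) (ha2 : a ≤ U ^ ((1 + e) / 2)) (hk : 1 ≤ k) :
    Real.exp (-(L * k / a) ^ 2 / 18) * (a ^ (1 / 2 : ℝ) / a) ≤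
      C * (U ^ (3 * e / 2) * k ^ (-(1 + e))) := by
  obtain ⟨h0, h1, h2, h3, h4, h5, h6, h7⟩ := log_facts he he1 hU hUx hx hL ha ha2
  have hU0 : 0 < U := by linarith
  have hL0 : 0 < L := (Real.rpow_pos_of_pos hU0 _).trans_le hL
  have ha0 : 0 < a := by linarith
  have hk0 : 0 < k := by linarith
  have hx0 : 0 < x := by linarith
  have hy : 0 < L * k / a := by positivity
  have hE' := hE _ hy
  have r1 : a ^ (1 / 2 : ℝ) / a = Real.exp (1 / 2 * Real.log a - Real.log a) := by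
    rw [Real.exp_sub, Real.exp_log ha0, E_log (by positivity)]
  have r2 : (L * k / a) ^ (-(1 + e)) = Real.exp (-(1 + e) * (Real.log L + Real.log k - Real.log a)) := by
    rw [E_log (by positivity), Real.log_div (by positivity) (by positivity),
      Real.log_mul (by positivity) (by positivity)]
  have r3 : U ^ (3 * e / 2) * k ^ (-(1 + e)) = Real.exp (3 * e / 2 * Real.log U + -(1 + e) * Real.log k) := by
    rw [Real.exp_add, E_log hU0, E_log hk0]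
  rw [r2] at hE'
  rw [r1, r3]
  calc _ ≤ C * Real.exp (-(1 + e) * (Real.log L + Real.log k - Real.log a)) *
        Real.exp (1 / 2 * Real.log a - Real.log a) :=
        mul_le_mul_of_nonneg_right hE' (Real.exp_pos _).le
    _ = C * Real.exp (-(1 + e) * (Real.log L + Real.log k - Real.log a) +
        (1 / 2 * Real.log a - Real.log a)) := by
        rw [mul_assoc, ← Real.exp_add]
    _ ≤ C * Real.exp (3 * e / 2 * Real.log U + -(1 + e) * Real.log k) := by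
        apply mul_le_mul_of_nonneg_left _ hC.le
        apply Real.exp_le_exp.mpr
        nlinarith

end logs

lemma block (e : ℝ) (he : 0 < e) (he1 : e ≤ 1) : ∃ C : ℝ, 0 < C ∧ ∀ (U x L : ℝ) (A : ℕ), 1 ≤ U → U ≤ x →
    x ≤ 16 * U → U ^ (1 / 3 : ℝ) ≤ L → 1 ≤ A → (A : ℝ) ≤ U ^ ((1 + e) / 2) →
    ∑ d ∈ Finset.range A, ‖∑ n ∈ Finset.Ioc A (2 * A), (fw x n (d + 1) : ℂ) * ze x n (d + 1) * (gw L n (d + 1) : ℂ)‖ ≤
      C * U ^ (3 * e / 2) := by
  obtain ⟨C0, hC0, hE⟩ := exp_log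
  obtain ⟨C1, hC1, hE1⟩ := exp_pow (3 / 2 + e) (by positivity)
  obtain ⟨C2, hC2, hE2⟩ := exp_pow (1 / 2 + e) (by positivity)
  obtain ⟨C3, hC3, hE3⟩ := exp_pow (1 + e) (by positivity)
  have hs : Summable (fun n : ℕ => ((n + 1 : ℕ) : ℝ) ^ (-(1 + e))) := by
    have h : Summable (fun n : ℕ => (n : ℝ) ^ (-(1 + e))) := Real.summable_nat_rpow.2 (by linarith)
    exact (summable_nat_add_iff 1).2 h
  set S : ℝ := ∑' n : ℕ, ((n + 1 : ℕ) : ℝ) ^ (-(1 + e)) with hS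
  have hS0 : 0 ≤ S := tsum_nonneg fun n => Real.rpow_nonneg (Nat.cast_nonneg _) _
  refine ⟨4 * C0 * (4 * C1 + C2 + C3) * (S + 1), by positivity, ?_⟩
  intro U x L A hU hUx hx hL hA hA2
  have hU0 : 0 < U := by linarith
  have hL0 : 0 ≤ L := (Real.rpow_pos_of_pos hU0 _).le.trans hL
  have h1 : ∀ d ∈ Finset.range A,
      ‖∑ n ∈ Finset.Ioc A (2 * A), (fw x n (d + 1) : ℂ) * ze x n (d + 1) * (gw L n (d + 1) : ℂ)‖ ≤
        4 * C0 * (4 * C1 + C2 + C3) * U ^ (3 * e / 2) * ((d + 1 : ℕ) : ℝ) ^ (-(1 + e)) := by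
    intro d hd
    rw [Finset.mem_range] at hd
    have hA' : (1 : ℝ) ≤ A := by exact_mod_cast hA
    have hk : (1 : ℝ) ≤ ((d + 1 : ℕ) : ℝ) := by exact_mod_cast Nat.le_add_left 1 d
    refine (inner hC0 hE (by linarith) hL0 hA (by omega) (by omega)).trans ?_
    have t1 := term1 (e := e) (U := U) (x := x) (L := L) (a := A) (k := ((d + 1 : ℕ) : ℝ)) hC1 he he1 hE1 hU hUx hx hL hA' hA2 hk
    have t2 := term2 (e := e) (U := U) (x := x) (L := L) (a := A) (k := ((d + 1 : ℕ) : ℝ)) hC2 he he1 hE2 hU hUx hx hL hA' hA2 hk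
    have t3 := term3 (e := e) (U := U) (x := x) (L := L) (a := A) (k := ((d + 1 : ℕ) : ℝ)) hC3 he he1 hE3 hU hUx hx hL hA' hA2 hk
    calc _ ≤ 4 * C0 * (4 * C1 * (U ^ (3 * e / 2) * ((d + 1 : ℕ) : ℝ) ^ (-(1 + e))) +
          C2 * (U ^ (3 * e / 2) * ((d + 1 : ℕ) : ℝ) ^ (-(1 + e))) +
          C3 * (U ^ (3 * e / 2) * ((d + 1 : ℕ) : ℝ) ^ (-(1 + e)))) := by
          apply mul_le_mul_of_nonneg_left _ (by positivity)
          exact add_le_add (add_le_add t1 t2) t3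
      _ = _ := by ring
  refine (Finset.sum_le_sum h1).trans ?_
  rw [← Finset.mul_sum]
  have h2 : ∑ d ∈ Finset.range A, ((d + 1 : ℕ) : ℝ) ^ (-(1 + e)) ≤ S :=
    hs.sum_le_tsum _ fun n _ => Real.rpow_nonneg (Nat.cast_nonneg _) _
  have h3 : 0 ≤ 4 * C0 * (4 * C1 + C2 + C3) * U ^ (3 * e / 2) := by positivity
  calc _ ≤ 4 * C0 * (4 * C1 + C2 + C3) * U ^ (3 * e / 2) * (S + 1) :=
        mul_le_mul_of_nonneg_left (by linarith) h3
    _ = _ := by ring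


/-! ### far terms -/

/-- the product in the height -/
lemma fw_le (B : ℝ) (hB : 0 < B) : ∃ C : ℝ, 0 < C ∧ ∀ (x : ℝ) (m d : ℕ), 0 < x → 0 < m →
    fw x m d ≤ C * (x ^ B * ((m : ℝ) * ((m : ℝ) + d)) ^ (-(1 / 2 + B))) := by
  obtain ⟨C, hC, hW⟩ := W_le_rpow B hB
  refine ⟨C, hC, fun x m d hx hm => ?_⟩
  have h1 : (0 : ℝ) < m := by exact_mod_cast hm
  have h2 : (0 : ℝ) ≤ d := Nat.cast_nonneg d
  have h3 : (0 : ℝ) < (m : ℝ) * ((m : ℝ) + d) := by positivity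
  have hpi := Real.pi_gt_three
  unfold fw
  set h : ℝ := (m : ℝ) * ((m : ℝ) + d) with hh
  have h4 : 0 < 2 * Real.pi * h / x := by positivity
  have h5 := hW _ h4
  have h6 : (2 * Real.pi * h / x) ^ (-B) ≤ (h / x) ^ (-B) := by
    apply Real.rpow_le_rpow_of_nonpos (by positivity)
    · gcongr
      nlinarith
    · linarith
  have h7 : (h / x) ^ (-B) = x ^ B * h ^ (-B) := by
    rw [Real.div_rpow h3.le hx.le, Real.rpow_neg hx.le, div_inv_eq_mul, mul_comm]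
  have h8 : h ^ (-(1 / 2 + B)) = h ^ (-(1 / 2) : ℝ) * h ^ (-B) := by
    rw [← Real.rpow_add h3]
    congr 1
    ring
  calc h ^ (-(1 / 2) : ℝ) * W (2 * Real.pi * h / x) ≤ h ^ (-(1 / 2) : ℝ) * (C * (x ^ B * h ^ (-B))) := by
        apply mul_le_mul_of_nonneg_left _ (Real.rpow_nonneg h3.le _)
        refine h5.trans ?_
        apply mul_le_mul_of_nonneg_left _ hC.le
        rw [← h7]
        exact h6
    _ = _ := by
        rw [h8]
        ring

lemma hh_le {m d : ℕ} (hm : 0 < m) (hd : 0 < d) : ((m : ℝ) * ((m : ℝ) + d)) ^ (-(3 / 2) : ℝ) ≤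
    (m : ℝ) ^ (-(3 / 2) : ℝ) * (d : ℝ) ^ (-(3 / 2) : ℝ) := by
  have h1 : (0 : ℝ) < m := by exact_mod_cast hm
  have h2 : (0 : ℝ) < d := by exact_mod_cast hd
  rw [← Real.mul_rpow h1.le h2.le]
  apply Real.rpow_le_rpow_of_nonpos (by positivity) _ (by norm_num)
  nlinarith [mul_pos h1 h1]

lemma far1 : ∃ C : ℝ, 0 < C ∧ ∀ (U x L : ℝ) (m d : ℕ), 1 ≤ U → U ≤ x → x ≤ 16 * U → U ^ (1 / 3 : ℝ) ≤ L →
    0 < m → 0 < d → m ≤ 2 * d →
    fw x m d * gw L m d ≤ C * ((m : ℝ) ^ (-(3 / 2) : ℝ) * (d : ℝ) ^ (-(3 / 2) : ℝ)) := by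
  obtain ⟨C1, hC1, h1⟩ := fw_le 1 one_pos
  obtain ⟨C3, hC3, h3⟩ := exp_pow 3 (by norm_num)
  refine ⟨16 * C1 * C3, by positivity, ?_⟩
  intro U x L m d hU hUx hx hL hm hd hmd
  have hU0 : 0 < U := by linarith
  have hL0 : 0 < L := (Real.rpow_pos_of_pos hU0 _).trans_le hL
  have a1 := h1 x m d (by linarith) hm
  have a2 := (gw_le_far hL0.le m d hm hmd).trans (h3 L hL0)
  have a3 : L ^ (-3 : ℝ) ≤ U⁻¹ := by
    have b1 : L ^ (-3 : ℝ) ≤ (U ^ (1 / 3 : ℝ)) ^ (-3 : ℝ) :=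
      Real.rpow_le_rpow_of_nonpos (Real.rpow_pos_of_pos hU0 _) hL (by norm_num)
    have e : (1 / 3 : ℝ) * (-3) = -1 := by norm_num
    rw [← Real.rpow_mul hU0.le, e, Real.rpow_neg_one] at b1
    exact b1
  have a4 : gw L m d ≤ C3 * U⁻¹ := a2.trans (mul_le_mul_of_nonneg_left a3 hC3.le)
  have a5 : ((m : ℝ) * ((m : ℝ) + d)) ^ (-(1 / 2 + 1) : ℝ) ≤ (m : ℝ) ^ (-(3 / 2) : ℝ) * (d : ℝ) ^ (-(3 / 2) : ℝ) := by
    have e : (-(1 / 2 + 1) : ℝ) = -(3 / 2) := by norm_num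
    rw [e]
    exact hh_le hm hd
  have a6 : fw x m d ≤ C1 * (16 * U * ((m : ℝ) ^ (-(3 / 2) : ℝ) * (d : ℝ) ^ (-(3 / 2) : ℝ))) := by
    refine a1.trans ?_
    apply mul_le_mul_of_nonneg_left _ hC1.le
    rw [Real.rpow_one]
    apply mul_le_mul hx a5 (Real.rpow_nonneg (by positivity) _) (by positivity)
  calc fw x m d * gw L m d ≤ C1 * (16 * U * ((m : ℝ) ^ (-(3 / 2) : ℝ) * (d : ℝ) ^ (-(3 / 2) : ℝ))) * (C3 * U⁻¹) :=
        mul_le_mul a6 a4 (gw_pos _ _ _).le (by positivity)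
    _ = _ := by
        field_simp

lemma far2 (e : ℝ) (he : 0 < e) : ∃ C : ℝ, 0 < C ∧ ∀ (U x L : ℝ) (m d J : ℕ), 1 ≤ U → U ≤ x → x ≤ 16 * U →
    0 < m → 0 < d → 2 ^ J ≤ m → U ^ (1 + e) ≤ (4 : ℝ) ^ J →
    fw x m d * gw L m d ≤ C * ((m : ℝ) ^ (-(3 / 2) : ℝ) * (d : ℝ) ^ (-(3 / 2) : ℝ)) := by
  obtain ⟨C1, hC1, h1⟩ := fw_le (1 + 1 / e) (by positivity)
  refine ⟨C1 * 16 ^ (1 + 1 / e), by positivity, ?_⟩
  intro U x L m d J hU hUx hx hm hd hmJ hUJ
  have hU0 : 0 < U := by linarith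
  have hx0 : 0 < x := by linarith
  have hm0 : (0 : ℝ) < m := by exact_mod_cast hm
  have hd0 : (0 : ℝ) < d := by exact_mod_cast hd
  have hmJ' : ((2 : ℝ) ^ J) ≤ m := by exact_mod_cast hmJ
  have a1 := h1 x m d hx0 hm
  set h : ℝ := (m : ℝ) * ((m : ℝ) + d) with hh
  have hpos : 0 < h := by positivity
  have b1 : U ^ (1 + e) ≤ h := by
    refine hUJ.trans ?_
    have : (4 : ℝ) ^ J = (2 ^ J) * (2 ^ J) := by
      rw [← mul_pow]
      norm_num
    rw [this, hh]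
    apply mul_le_mul hmJ' (by linarith) (by positivity) hm0.le
  have b2 : h ^ (-(1 / 2 + (1 + 1 / e))) = h ^ (-(3 / 2) : ℝ) * h ^ (-(1 / e)) := by
    rw [← Real.rpow_add hpos]
    congr 1
    ring
  have b3 : h ^ (-(1 / e)) ≤ (U ^ (1 + 1 / e))⁻¹ := by
    have c1 : h ^ (-(1 / e)) ≤ (U ^ (1 + e)) ^ (-(1 / e)) :=
      Real.rpow_le_rpow_of_nonpos (Real.rpow_pos_of_pos hU0 _) b1 (by
        have : 0 < 1 / e := by positivity
        linarith)
    rw [← Real.rpow_mul hU0.le] at c1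
    have c2 : (1 + e) * -(1 / e) = -(1 + 1 / e) := by
      field_simp
      ring
    rwa [c2, Real.rpow_neg hU0.le] at c1
  have b4 : x ^ (1 + 1 / e) ≤ 16 ^ (1 + 1 / e) * U ^ (1 + 1 / e) := by
    rw [← Real.mul_rpow (by norm_num) hU0.le]
    exact Real.rpow_le_rpow hx0.le hx (by positivity)
  have b5 : fw x m d ≤ C1 * (16 ^ (1 + 1 / e) * ((m : ℝ) ^ (-(3 / 2) : ℝ) * (d : ℝ) ^ (-(3 / 2) : ℝ))) := by
    refine a1.trans ?_
    apply mul_le_mul_of_nonneg_left _ hC1.le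
    rw [b2]
    have hUp : 0 < U ^ (1 + 1 / e) := Real.rpow_pos_of_pos hU0 _
    calc x ^ (1 + 1 / e) * (h ^ (-(3 / 2) : ℝ) * h ^ (-(1 / e))) ≤
          16 ^ (1 + 1 / e) * U ^ (1 + 1 / e) * ((m : ℝ) ^ (-(3 / 2) : ℝ) * (d : ℝ) ^ (-(3 / 2) : ℝ) * (U ^ (1 + 1 / e))⁻¹) := by
          apply mul_le_mul b4 _ (by positivity) (by positivity)
          exact mul_le_mul (hh_le hm hd) b3 (Real.rpow_nonneg hpos.le _) (by positivity)
      _ = _ := by
          field_simp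
  calc fw x m d * gw L m d ≤ fw x m d * 1 := mul_le_mul_of_nonneg_left (gw_le_one _ _ _) (fw_nonneg _ _ _)
    _ ≤ _ := by
        rw [mul_one, mul_assoc]
        exact b5

/-! ### the series -/

/-- the terms of the series, shifted -/
noncomputable def GG (x L : ℝ) (q : ℕ × ℕ) : ℂ :=
  (fw x (q.1 + 1) (q.2 + 1) : ℂ) * ze x (q.1 + 1) (q.2 + 1) * (gw L (q.1 + 1) (q.2 + 1) : ℂ)

lemma norm_GG (x L : ℝ) (q : ℕ × ℕ) : ‖GG x L q‖ = fw x (q.1 + 1) (q.2 + 1) * gw L (q.1 + 1) (q.2 + 1) := by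
  unfold GG
  rw [norm_mul, norm_mul, norm_ze, Complex.norm_real, Complex.norm_real,
    Real.norm_of_nonneg (fw_nonneg _ _ _), Real.norm_of_nonneg (gw_pos _ _ _).le, mul_one]

/-- the majorant -/
noncomputable def mj (q : ℕ × ℕ) : ℝ :=
  ((q.1 + 1 : ℕ) : ℝ) ^ (-(3 / 2) : ℝ) * ((q.2 + 1 : ℕ) : ℝ) ^ (-(3 / 2) : ℝ)

lemma mj_nonneg (q : ℕ × ℕ) : 0 ≤ mj q :=
  mul_nonneg (Real.rpow_nonneg (Nat.cast_nonneg _) _) (Real.rpow_nonneg (Nat.cast_nonneg _) _)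

lemma mj_summable : Summable mj := by
  have h0 : Summable (fun n : ℕ => ((n + 1 : ℕ) : ℝ) ^ (-(3 / 2) : ℝ)) := by
    have h : Summable (fun n : ℕ => (n : ℝ) ^ (-(3 / 2) : ℝ)) := Real.summable_nat_rpow.2 (by norm_num)
    exact (summable_nat_add_iff 1).2 h
  exact Summable.mul_of_nonneg h0 h0 (fun n => Real.rpow_nonneg (Nat.cast_nonneg _) _)
    (fun n => Real.rpow_nonneg (Nat.cast_nonneg _) _)

lemma GG_summable {x : ℝ} (hx : 0 < x) (L : ℝ) : Summable (fun q => GG x L q) := by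
  obtain ⟨C1, hC1, h1⟩ := fw_le 1 one_pos
  refine Summable.of_norm_bounded (g := fun q => C1 * x * mj q) (mj_summable.mul_left _) fun q => ?_
  rw [norm_GG]
  have a1 := h1 x (q.1 + 1) (q.2 + 1) hx (by omega)
  have e : (-(1 / 2 + 1) : ℝ) = -(3 / 2) := by norm_num
  rw [e, Real.rpow_one] at a1
  calc _ ≤ fw x (q.1 + 1) (q.2 + 1) * 1 := mul_le_mul_of_nonneg_left (gw_le_one _ _ _) (fw_nonneg _ _ _)
    _ ≤ C1 * (x * mj q) := by
        rw [mul_one]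
        refine a1.trans ?_
        apply mul_le_mul_of_nonneg_left _ hC1.le
        exact mul_le_mul_of_nonneg_left (hh_le (by omega) (by omega)) hx.le
    _ = _ := by ring

/-- the near pairs -/
def Hs (J : ℕ) : Finset (ℕ × ℕ) :=
  (Finset.range J).biUnion fun j => Finset.Ico (2 ^ j) (2 ^ (j + 1)) ×ˢ Finset.range (2 ^ j)

lemma mem_Hs {J : ℕ} {q : ℕ × ℕ} : q ∈ Hs J ↔ q.1 ≠ 0 ∧ Nat.log 2 q.1 < J ∧ q.2 < 2 ^ (Nat.log 2 q.1) := by
  unfold Hs
  rw [Finset.mem_biUnion]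
  constructor
  · rintro ⟨j, hj, hq⟩
    rw [Finset.mem_product, Finset.mem_Ico, Finset.mem_range] at hq
    rw [Finset.mem_range] at hj
    obtain ⟨⟨h1, h2⟩, h3⟩ := hq
    have h4 : q.1 ≠ 0 := by
      have := Nat.two_pow_pos j
      omega
    have h5 : Nat.log 2 q.1 = j := by
      rw [Nat.log_eq_iff (Or.inr ⟨by norm_num, h4⟩)]
      exact ⟨h1, h2⟩
    rw [h5]
    exact ⟨h4, hj, h3⟩
  · rintro ⟨h1, h2, h3⟩
    refine ⟨Nat.log 2 q.1, Finset.mem_range.mpr h2, ?_⟩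
    rw [Finset.mem_product, Finset.mem_Ico, Finset.mem_range]
    exact ⟨⟨Nat.pow_log_le_self 2 h1, Nat.lt_pow_succ_log_self (by norm_num) q.1⟩, h3⟩

lemma not_mem_Hs {J : ℕ} {q : ℕ × ℕ} (h : q ∉ Hs J) : q.1 + 1 ≤ 2 * (q.2 + 1) ∨ 2 ^ J ≤ q.1 + 1 := by
  rw [mem_Hs] at h
  by_cases h1 : q.1 = 0
  · left
    omega
  have h2 : Nat.log 2 q.1 < J → 2 ^ (Nat.log 2 q.1) ≤ q.2 := by
    intro h3
    by_contra h4
    exact h ⟨h1, h3, not_le.mp h4⟩
  by_cases h3 : Nat.log 2 q.1 < J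
  · left
    have h4 := h2 h3
    have h5 : q.1 < 2 ^ (Nat.log 2 q.1 + 1) := Nat.lt_pow_succ_log_self (by norm_num) q.1
    rw [pow_succ] at h5
    omega
  · right
    have h4 : 2 ^ J ≤ 2 ^ (Nat.log 2 q.1) := Nat.pow_le_pow_right (by norm_num) (not_lt.mp h3)
    have h5 : 2 ^ (Nat.log 2 q.1) ≤ q.1 := Nat.pow_log_le_self 2 h1
    omega

lemma sum_Hs (J : ℕ) (f : ℕ × ℕ → ℂ) : ∑ q ∈ Hs J, f q =
    ∑ j ∈ Finset.range J, ∑ d ∈ Finset.range (2 ^ j), ∑ m ∈ Finset.Ico (2 ^ j) (2 ^ (j + 1)), f (m, d) := by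
  unfold Hs
  rw [Finset.sum_biUnion]
  · apply Finset.sum_congr rfl
    intro j _
    rw [Finset.sum_product_right]
  · intro i _ j _ hij
    rw [Function.onFun, Finset.disjoint_left]
    intro q h1 h2
    rw [Finset.mem_product, Finset.mem_Ico, Finset.mem_range] at h1 h2
    apply hij
    have h4 : q.1 ≠ 0 := by
      have := Nat.two_pow_pos j
      omega
    have h5 : Nat.log 2 q.1 = j := by
      rw [Nat.log_eq_iff (Or.inr ⟨by norm_num, h4⟩)]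
      exact h2.1
    have h6 : Nat.log 2 q.1 = i := by
      rw [Nat.log_eq_iff (Or.inr ⟨by norm_num, h4⟩)]
      exact h1.1
    rw [← h5, ← h6]

lemma sum_shift (x L : ℝ) (j d : ℕ) : ∑ m ∈ Finset.Ico (2 ^ j) (2 ^ (j + 1)), GG x L (m, d) =
    ∑ n ∈ Finset.Ioc (2 ^ j) (2 * 2 ^ j), (fw x n (d + 1) : ℂ) * ze x n (d + 1) * (gw L n (d + 1) : ℂ) := by
  have e1 : Finset.Ioc (2 ^ j) (2 * 2 ^ j) = Finset.Ico (2 ^ j + 1) (2 ^ (j + 1) + 1) := by
    ext n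
    rw [Finset.mem_Ioc, Finset.mem_Ico, pow_succ]
    omega
  rw [e1, ← Finset.sum_Ico_add' (fun n => (fw x n (d + 1) : ℂ) * ze x n (d + 1) * (gw L n (d + 1) : ℂ))
    (2 ^ j) (2 ^ (j + 1)) 1]
  rfl

lemma choose_J {e U : ℝ} (he : 0 < e) (he1 : e ≤ 1) (hU : 1 ≤ U) : ∃ J : ℕ, U ^ (1 + e) ≤ (4 : ℝ) ^ J ∧
    (J : ℝ) ≤ (2 / e + 1) * U ^ e ∧ ∀ j < J, ((2 ^ j : ℕ) : ℝ) ≤ U ^ ((1 + e) / 2) := by
  have hU0 : 0 < U := by linarith
  have hl4 : 1 < Real.log 4 := by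
    have h : Real.exp 1 < 4 := by
      have := Real.exp_one_lt_d9
      linarith
    rw [Real.lt_log_iff_exp_lt (by norm_num)]
    exact h
  have hlU : 0 ≤ Real.log U := Real.log_nonneg hU
  refine ⟨⌈(1 + e) * Real.log U / Real.log 4⌉₊, ?_, ?_, ?_⟩
  · have h1 := Nat.le_ceil ((1 + e) * Real.log U / Real.log 4)
    rw [← Real.rpow_natCast, Real.rpow_def_of_pos hU0, Real.rpow_def_of_pos (by norm_num)]
    apply Real.exp_le_exp.mpr
    rw [div_le_iff₀ (by linarith)] at h1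
    linarith
  · have h1 := (Nat.ceil_lt_add_one (a := (1 + e) * Real.log U / Real.log 4) (by positivity)).le
    have h2 : (1 + e) * Real.log U / Real.log 4 ≤ 2 * Real.log U := by
      rw [div_le_iff₀ (by linarith)]
      nlinarith [mul_nonneg hlU he.le, mul_nonneg hlU (show 0 ≤ Real.log 4 - 1 by linarith)]
    have h3 : Real.log U ≤ U ^ e / e := Real.log_le_rpow_div hU0.le he
    have h4 : 1 ≤ U ^ e := Real.one_le_rpow hU he.le
    calc _ ≤ 2 * (U ^ e / e) + U ^ e := by linarith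
      _ = _ := by ring
  · intro j hj
    rw [Nat.lt_ceil, lt_div_iff₀ (by linarith)] at hj
    have h4 : Real.log 4 = 2 * Real.log 2 := by
      rw [show (4 : ℝ) = 2 ^ 2 by norm_num, Real.log_pow]
      norm_num
    push_cast
    rw [← Real.rpow_natCast, Real.rpow_def_of_pos hU0, Real.rpow_def_of_pos (by norm_num)]
    apply Real.exp_le_exp.mpr
    rw [h4] at hj
    linarith

lemma main_bd (ε : ℝ) (hε : 0 < ε) : ∃ C : ℝ, 0 < C ∧ ∀ U x L : ℝ, 1 ≤ U → U ≤ x → x ≤ 16 * U →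
    U ^ (1 / 3 : ℝ) ≤ L → ‖∑' q : ℕ × ℕ, GG x L q‖ ≤ C * U ^ ε := by
  set e : ℝ := min ε 1 / 4 with he
  have hm0 : 0 < min ε 1 := lt_min hε one_pos
  have hm1 : min ε 1 ≤ 1 := min_le_right _ _
  have hm2 : min ε 1 ≤ ε := min_le_left _ _
  have he0 : 0 < e := by rw [he]; positivity
  have he1 : e ≤ 1 := by rw [he]; linarith
  obtain ⟨Cb, hCb, hb⟩ := block e he0 he1
  obtain ⟨C1, hC1, h1⟩ := far1
  obtain ⟨C2, hC2, h2⟩ := far2 e he0
  have hS0 : 0 ≤ ∑' q, mj q := tsum_nonneg mj_nonneg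
  refine ⟨(2 / e + 1) * Cb + (C1 + C2) * ∑' q, mj q, by positivity, ?_⟩
  intro U x L hU hUx hx hL
  have hU0 : 0 < U := by linarith
  have hx0 : 0 < x := by linarith
  obtain ⟨J, hJ1, hJ2, hJ3⟩ := choose_J he0 he1 hU
  have hsum := GG_summable hx0 L
  have e1 : (fun q => GG x L q) = fun q => (if q ∈ Hs J then GG x L q else 0) + (if q ∈ Hs J then 0 else GG x L q) := by
    funext q
    split_ifs <;> simp
  have s1 : Summable (fun q => if q ∈ Hs J then GG x L q else 0) := by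
    refine Summable.of_norm_bounded (g := fun q => ‖GG x L q‖) hsum.norm fun q => ?_
    split_ifs
    · exact le_rfl
    · rw [norm_zero]; exact norm_nonneg _
  have s2 : Summable (fun q => if q ∈ Hs J then 0 else GG x L q) := by
    refine Summable.of_norm_bounded (g := fun q => ‖GG x L q‖) hsum.norm fun q => ?_
    split_ifs
    · rw [norm_zero]; exact norm_nonneg _
    · exact le_rfl
  have e2 : ∑' q : ℕ × ℕ, GG x L q = (∑' q : ℕ × ℕ, if q ∈ Hs J then GG x L q else 0) +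
      ∑' q : ℕ × ℕ, if q ∈ Hs J then 0 else GG x L q := by
    rw [← s1.tsum_add s2]
    exact congrArg tsum e1
  have e3 : (∑' q : ℕ × ℕ, if q ∈ Hs J then GG x L q else 0) = ∑ q ∈ Hs J, GG x L q := by
    rw [tsum_eq_sum (s := Hs J)]
    · exact Finset.sum_congr rfl fun q hq => by rw [if_pos hq]
    · intro q hq
      rw [if_neg hq]
  have b1 : ‖∑ q ∈ Hs J, GG x L q‖ ≤ (2 / e + 1) * Cb * U ^ ε := by
    rw [sum_Hs]
    have c1 : ∀ j ∈ Finset.range J, ‖∑ d ∈ Finset.range (2 ^ j), ∑ m ∈ Finset.Ico (2 ^ j) (2 ^ (j + 1)), GG x L (m, d)‖ ≤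
        Cb * U ^ (3 * e / 2) := by
      intro j hj
      rw [Finset.mem_range] at hj
      refine (norm_sum_le _ _).trans ?_
      have c2 := hb U x L (2 ^ j) hU hUx hx hL (Nat.one_le_two_pow) (hJ3 j hj)
      refine le_trans (le_of_eq ?_) c2
      apply Finset.sum_congr rfl
      intro d _
      rw [sum_shift]
    refine (norm_sum_le _ _).trans ((Finset.sum_le_sum c1).trans ?_)
    rw [Finset.sum_const, Finset.card_range, nsmul_eq_mul]
    have c3 : U ^ e * U ^ (3 * e / 2) ≤ U ^ ε := by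
      rw [← Real.rpow_add hU0]
      apply Real.rpow_le_rpow_of_exponent_le hU
      rw [he]
      linarith
    calc (J : ℝ) * (Cb * U ^ (3 * e / 2)) ≤ (2 / e + 1) * U ^ e * (Cb * U ^ (3 * e / 2)) :=
          mul_le_mul_of_nonneg_right hJ2 (by positivity)
      _ = (2 / e + 1) * Cb * (U ^ e * U ^ (3 * e / 2)) := by ring
      _ ≤ _ := mul_le_mul_of_nonneg_left c3 (by positivity)
  have b2 : ‖∑' q : ℕ × ℕ, if q ∈ Hs J then 0 else GG x L q‖ ≤ (C1 + C2) * ∑' q, mj q := by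
    have c1 : ∀ q : ℕ × ℕ, ‖if q ∈ Hs J then 0 else GG x L q‖ ≤ (C1 + C2) * mj q := by
      intro q
      have hq0 := mj_nonneg q
      split_ifs with hq
      · rw [norm_zero]; positivity
      · rw [norm_GG]
        rcases not_mem_Hs hq with h | h
        · have := h1 U x L (q.1 + 1) (q.2 + 1) hU hUx hx hL (by omega) (by omega) h
          refine this.trans ?_
          have h' : C1 * mj q ≤ (C1 + C2) * mj q := mul_le_mul_of_nonneg_right (by linarith) hq0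
          exact h'
        · have := h2 U x L (q.1 + 1) (q.2 + 1) J hU hUx hx (by omega) (by omega) h hJ1
          refine this.trans ?_
          have h' : C2 * mj q ≤ (C1 + C2) * mj q := mul_le_mul_of_nonneg_right (by linarith) hq0
          exact h'
    have c2 : Summable (fun q => (C1 + C2) * mj q) := mj_summable.mul_left _
    rw [← tsum_mul_left]
    exact tsum_of_norm_bounded c2.hasSum c1
  have hUe : 1 ≤ U ^ ε := Real.one_le_rpow hU hε.le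
  rw [e2, e3]
  refine (norm_add_le _ _).trans ?_
  have b3 : (C1 + C2) * ∑' q, mj q ≤ (C1 + C2) * (∑' q, mj q) * U ^ ε :=
    le_mul_of_one_le_right (by positivity) hUe
  calc _ ≤ (2 / e + 1) * Cb * U ^ ε + (C1 + C2) * (∑' q, mj q) * U ^ ε := by linarith
    _ = _ := by ring

/-! ### from pairs of positive integers to the series -/

/-- `(m + 1, m + d + 2)` -/
def io (q : ℕ × ℕ) : ℕ+ × ℕ+ := (q.1.succPNat, (q.1 + 1 + q.2).succPNat)

lemma io_inj : Function.Injective io := by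
  intro q q' h
  unfold io at h
  rw [Prod.mk.injEq] at h
  have h1 : q.1 = q'.1 := Nat.succPNat_injective h.1
  have h2 : q.1 + 1 + q.2 = q'.1 + 1 + q'.2 := Nat.succPNat_injective h.2
  ext
  · exact h1
  · omega

/-- the terms -/
noncomputable def tt (x L : ℝ) (p : ℕ+ × ℕ+) : ℂ :=
  (cf x p : ℂ) * ex x p * ((Real.exp (-(L ^ 2 * (lgr p) ^ 2 / 2)) : ℝ) : ℂ)

lemma tt_io (x L : ℝ) (q : ℕ × ℕ) : tt x L (io q) = GG x L q := by
  have h1 : ((io q).1 : ℕ) = q.1 + 1 := rfl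
  have h2 : ((io q).2 : ℕ) = q.1 + 1 + q.2 + 1 := rfl
  have e1 : hgt (io q) = ((q.1 + 1 : ℕ) : ℝ) * (((q.1 + 1 : ℕ) : ℝ) + ((q.2 + 1 : ℕ) : ℝ)) := by
    unfold hgt
    rw [h1, h2]
    push_cast
    ring
  have hm : (0 : ℝ) < ((q.1 + 1 : ℕ) : ℝ) := by positivity
  have e2 : lgr (io q) = -Real.log (1 + ((q.2 + 1 : ℕ) : ℝ) / ((q.1 + 1 : ℕ) : ℝ)) := by
    unfold lgr
    rw [h1, h2]
    have h3 : 1 + ((q.2 + 1 : ℕ) : ℝ) / ((q.1 + 1 : ℕ) : ℝ) = ((q.1 + 1 + q.2 + 1 : ℕ) : ℝ) / ((q.1 + 1 : ℕ) : ℝ) := by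
      field_simp
      push_cast
      ring
    rw [h3, Real.log_div (by positivity) (by positivity)]
    ring
  unfold tt GG cf ex fw ze gw
  rw [e1, e2]
  congr 1
  · congr 1
    congr 2
    push_cast
    ring
  · congr 2
    ring

lemma norm_tt_le (x L : ℝ) (p : ℕ+ × ℕ+) : ‖tt x L p‖ ≤ cf x p := by
  unfold tt
  rw [norm_mul, norm_mul, norm_ex, Complex.norm_real, Complex.norm_real, mul_one,
    Real.norm_of_nonneg (cf_nonneg p), Real.norm_of_nonneg (Real.exp_pos _).le]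
  apply mul_le_of_le_one_right (cf_nonneg p)
  rw [Real.exp_le_one_iff]
  have : 0 ≤ L ^ 2 * (lgr p) ^ 2 / 2 := by positivity
  linarith

lemma lgr_swap (p : ℕ+ × ℕ+) : lgr p.swap = -lgr p := by
  unfold lgr
  simp

lemma cf_swap (x : ℝ) (p : ℕ+ × ℕ+) : cf x p.swap = cf x p := by
  unfold cf hgt
  simp only [Prod.fst_swap, Prod.snd_swap]
  rw [mul_comm ((p.2 : ℕ) : ℝ) ((p.1 : ℕ) : ℝ)]

lemma tt_swap (x L : ℝ) (p : ℕ+ × ℕ+) : tt x L p.swap = (starRingEnd ℂ) (tt x L p) := by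
  unfold tt ex
  rw [cf_swap, lgr_swap, map_mul, map_mul, Complex.conj_ofReal, Complex.conj_ofReal, ← Complex.exp_conj,
    map_mul, Complex.conj_ofReal, Complex.conj_I, neg_sq]
  congr 3
  push_cast
  ring

lemma tsum_lt (x L : ℝ) : (∑' p : ℕ+ × ℕ+, if p.1 < p.2 then tt x L p else 0) = ∑' q : ℕ × ℕ, GG x L q := by
  have h := io_inj.tsum_eq (f := fun p : ℕ+ × ℕ+ => if p.1 < p.2 then tt x L p else 0) (by
    intro p hp
    rw [Function.mem_support] at hp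
    have hlt : p.1 < p.2 := by
      by_contra h
      exact hp (if_neg h)
    have hlt' : (p.1 : ℕ) < p.2 := hlt
    have hp1 := p.1.pos
    refine ⟨((p.1 : ℕ) - 1, (p.2 : ℕ) - p.1 - 1), ?_⟩
    refine Prod.ext (PNat.eq ?_) (PNat.eq ?_)
    · change ((p.1 : ℕ) - 1) + 1 = (p.1 : ℕ)
      omega
    · change ((p.1 : ℕ) - 1) + 1 + ((p.2 : ℕ) - p.1 - 1) + 1 = (p.2 : ℕ)
      omega)
  rw [← h]
  apply tsum_congr
  intro q
  have hlt : (io q).1 < (io q).2 := by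
    change ((io q).1 : ℕ) < (io q).2
    change q.1 + 1 < q.1 + 1 + q.2 + 1
    omega
  rw [if_pos hlt, tt_io]

lemma tsum_gt (x L : ℝ) : (∑' p : ℕ+ × ℕ+, if p.2 < p.1 then tt x L p else 0) =
    (starRingEnd ℂ) (∑' q : ℕ × ℕ, GG x L q) := by
  rw [← tsum_lt, Complex.conj_tsum, ← (Equiv.prodComm ℕ+ ℕ+).tsum_eq]
  apply tsum_congr
  intro p
  change (if p.1 < p.2 then tt x L p.swap else 0) = (starRingEnd ℂ) (if p.1 < p.2 then tt x L p else 0)
  by_cases h : p.1 < p.2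
  · rw [if_pos h, if_pos h]
    exact tt_swap x L p
  · rw [if_neg h, if_neg h, map_zero]

end OffGAux

open OffGAux

theorem off_g (ε : ℝ) (hε : 0 < ε) : ∃ C : ℝ, 0 < C ∧ ∀ U x L : ℝ, 1 ≤ U → U ≤ x → x ≤ 16 * U →
    U ^ (1 / 3 : ℝ) ≤ L →
    ‖∑' p : ℕ+ × ℕ+, if p.1 = p.2 then 0 else
      (cf x p : ℂ) * ex x p * ((Real.exp (-(L ^ 2 * (lgr p) ^ 2 / 2)) : ℝ) : ℂ)‖ ≤ C * U ^ ε := by
  obtain ⟨C, hC, h⟩ := main_bd ε hε
  refine ⟨2 * C, by positivity, ?_⟩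
  intro U x L hU hUx hx hL
  have hx0 : 0 < x := by linarith
  have e1 : (fun p : ℕ+ × ℕ+ => if p.1 = p.2 then 0 else
      (cf x p : ℂ) * ex x p * ((Real.exp (-(L ^ 2 * (lgr p) ^ 2 / 2)) : ℝ) : ℂ)) =
      fun p => (if p.1 < p.2 then tt x L p else 0) + (if p.2 < p.1 then tt x L p else 0) := by
    funext p
    rcases lt_trichotomy p.1 p.2 with h1 | h1 | h1
    · rw [if_neg h1.ne, if_pos h1, if_neg h1.le.not_gt, add_zero]
      rfl
    · rw [if_pos h1, if_neg (by rw [h1]; exact lt_irrefl _), if_neg (by rw [h1]; exact lt_irrefl _), add_zero]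
    · rw [if_neg h1.ne', if_neg h1.le.not_gt, if_pos h1, zero_add]
      rfl
  have s1 : Summable (fun p : ℕ+ × ℕ+ => if p.1 < p.2 then tt x L p else 0) := by
    refine Summable.of_norm_bounded (g := fun p => cf x p) (cf_summable hx0) fun p => ?_
    split_ifs
    · exact norm_tt_le x L p
    · rw [norm_zero]; exact cf_nonneg p
  have s2 : Summable (fun p : ℕ+ × ℕ+ => if p.2 < p.1 then tt x L p else 0) := by
    refine Summable.of_norm_bounded (g := fun p => cf x p) (cf_summable hx0) fun p => ?_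
    split_ifs
    · exact norm_tt_le x L p
    · rw [norm_zero]; exact cf_nonneg p
  rw [e1, s1.tsum_add s2, tsum_lt, tsum_gt]
  refine (norm_add_le _ _).trans ?_
  rw [RCLike.norm_conj]
  have := h U x L hU hUx hx hL
  linarith

end Pool.Agent.P07318h
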