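import Pool.Agent.Lib.P07318h.Wls
import Pool.Agent.Lib.P07318h.DualB
import Pool.Agent.Lib.P07318f.FourSep

/-!
# The large heights against a bounded function, in mean square over a short window of shifts

PROOF. (Compare `long_part` in P07318f/LongPart.lean, from which the interchange of sums and integrals can be copied.) `t + h ∈ [2U, 8U]` for `t ∈ [0, V]`, `h ∈ [b, b+H]`. By `four_sep` (`P07318f/FourSep.lean`)
`Om (hgt q) (t+h) = ∑_k ω_k(hgt q) ek U k t ek U k h`, `‖ω_k(h)‖ ≤ C pk k · kap δ U h`, so with `Φt_k(q) = ∫ Φ t ek U k t ex t q dt` (`|Φt_k| ≤ 2UM`)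
`∫ Φ t fB Y (t+h) dt = ∑_k ek U k h ∑_{hgt q > Y} ω_k(hgt q) hgt^(-1/2) ex h q Φt_k(q)` (absolute convergence: `cfQ`-type bound `LongPartAux.ww`/`ww_summable`, `kap_le_div` of P07318s/KapSum).
Cauchy-Schwarz over `k` with the weights `pk k`: `‖..‖² ≤ (∑ pk) ∑_k (pk k)⁻¹ ‖∑_q ..‖²`. `wls` with `B q = C pk k ‖Φt_k(q)‖` if `Y < hgt q`, `0` otherwise: the integral over `h` is
`≤ C U^(4δ) ∑_k pk k ∑_{hgt q > Y} kap (H/h + 1) ‖Φt_k(q)‖²`, and `dual_ls` with `L = V ≤ 2U`, the function `Φ · ek U k`: `≤ C U^(1+4δ) (H/Y + 1) ∫ |Φ|²`, `∫ |Φ|² ≤ 2U M²`.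
-/

set_option autoImplicit false

namespace Pool.Agent.P07318h

open MeasureTheory Complex Pool.Agent.P07318s Pool.Agent.P07318f

namespace WinBigAux

lemma integrable_of_bdd {V M : ℝ} {Φ : ℝ → ℂ} (hm : Measurable Φ)
    (h0 : ∀ t, t ∉ Set.Icc 0 V → Φ t = 0) (hM : ∀ t, ‖Φ t‖ ≤ M) : Integrable Φ := by
  have h1 : Function.support Φ ⊆ Set.Icc 0 V := by
    intro t ht
    by_contra h
    exact ht (h0 t h)
  rw [← integrableOn_iff_integrable_of_support_subset h1]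
  refine Measure.integrableOn_of_bounded (M := M) ?_ hm.aestronglyMeasurable ?_
  · rw [Real.volume_Icc]
    exact ENNReal.ofReal_ne_top
  · exact Filter.Eventually.of_forall fun t => hM t

lemma lint_sq {U V M : ℝ} {Φ : ℝ → ℂ} (hM0 : 0 ≤ M) (hV : V ≤ 2 * U)
    (h0 : ∀ t, t ∉ Set.Icc 0 V → Φ t = 0) (hM : ∀ t, ‖Φ t‖ ≤ M) :
    ∫⁻ t, ‖Φ t‖ₑ ^ 2 ≤ ENNReal.ofReal (M ^ 2 * (2 * U)) := by
  have h1 : ∫⁻ t, ‖Φ t‖ₑ ^ 2 ≤ ∫⁻ t, (Set.Icc 0 V).indicator (fun _ => ENNReal.ofReal (M ^ 2)) t := by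
    refine lintegral_mono fun t => ?_
    by_cases ht : t ∈ Set.Icc 0 V
    · rw [Set.indicator_of_mem ht]
      have h2 : ‖Φ t‖ₑ ≤ ENNReal.ofReal M := by
        rw [← ofReal_norm]
        exact ENNReal.ofReal_le_ofReal (hM t)
      calc ‖Φ t‖ₑ ^ 2 ≤ ENNReal.ofReal M ^ 2 := by gcongr
        _ = ENNReal.ofReal (M ^ 2) := (ENNReal.ofReal_pow hM0 2).symm
    · rw [Set.indicator_of_notMem ht, h0 t ht]
      simp
  refine h1.trans ?_
  rw [lintegral_indicator measurableSet_Icc, setLIntegral_const, Real.volume_Icc,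
    ← ENNReal.ofReal_mul (by positivity)]
  exact ENNReal.ofReal_le_ofReal (mul_le_mul_of_nonneg_left (by linarith) (by positivity))

end WinBigAux

open WinBigAux in
theorem win_big (δ : ℝ) (hδ : 0 < δ) (hδ2 : δ ≤ 1 / 4) : ∃ C : ℝ, 0 < C ∧ ∀ (U Y H b V M : ℝ) (Φ : ℝ → ℂ),
    1 ≤ U → 1 ≤ Y → 0 ≤ H → H ≤ U → 2 * U ≤ b → b ≤ 5 * U → 0 ≤ V → V ≤ 2 * U → 0 ≤ M → Measurable Φ →
    (∀ t, t ∉ Set.Icc 0 V → Φ t = 0) → (∀ t, ‖Φ t‖ ≤ M) →
    ∫⁻ h in Set.Icc b (b + H), ‖∫ t, Φ t * fB Y (t + h)‖ₑ ^ 2 ≤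
      ENNReal.ofReal (C * U ^ (2 + 8 * δ) * M ^ 2 * (H / Y + 1)) := by
  have hδ3 : δ ≤ 1 / 2 := by linarith
  obtain ⟨Cω, hCω, hsep⟩ := four_sep δ hδ hδ3
  obtain ⟨Cl, hCl, hls⟩ := wls δ hδ hδ3
  obtain ⟨Cd, hCd, hdl⟩ := dual_ls δ hδ hδ2
  set P : ℝ := ∑' k, LongPartAux.pk k with hP
  have hP0 : 0 ≤ P := tsum_nonneg fun k => (LongPartAux.pk_pos k).le
  refine ⟨P * (P * (Cω ^ 2 * (Cl * (Cd * 2)))) + 1, by positivity, ?_⟩
  intro U Y H b V M Φ hU hY hH hHU hb1 hb2 hV0 hV hM0 hΦm hΦ0 hΦM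
  have hU0 : 0 < U := by linarith
  have hY0 : 0 < Y := by linarith
  have hΦi : Integrable Φ := integrable_of_bdd hΦm hΦ0 hΦM
  have hHY : 0 ≤ H / Y + 1 := by positivity
  have hrange : ∀ t, Φ t ≠ 0 → 0 ≤ t ∧ t ≤ V := by
    intro t ht
    by_contra h
    exact ht (hΦ0 t h)
  -- the square integral, after the separation
  have hdual : ∀ k : ℤ, ∑' q : Q, ENNReal.ofReal
      (if Y < hgt q.1 then kap δ U (hgt q.1) * (H * (hgt q.1)⁻¹ + 1) else 0) *
        ‖LongPartAux.Gt U Φ k q‖ₑ ^ 2 ≤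
      ENNReal.ofReal (Cd * U ^ (1 + 4 * δ) * (H / Y + 1)) * ENNReal.ofReal (M ^ 2 * (2 * U)) := by
    intro k
    have h1 := hdl U Y H V 0 M (fun t => Φ t * LongPartAux.ek U k t) hU hY hH hV0 (by linarith)
      (hΦm.mul (LongPartAux.ek_cont U k).measurable)
      (fun t ht => by
        rw [zero_add] at ht
        simp only [hΦ0 t ht, zero_mul])
      (fun t => by
        rw [norm_mul, LongPartAux.norm_ek, mul_one]
        exact hΦM t)
    have h2 : ∀ q : Q, LongPartAux.Gt U Φ k q = ∫ t, Φ t * LongPartAux.ek U k t * ex t q.1 := by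
      intro q
      unfold LongPartAux.Gt
      refine integral_congr_ae (Filter.Eventually.of_forall fun t => ?_)
      simp only
      ring
    simp only [h2]
    refine h1.trans ?_
    refine mul_le_mul_right ?_ _
    have h3 : ∫⁻ t, ‖Φ t * LongPartAux.ek U k t‖ₑ ^ 2 = ∫⁻ t, ‖Φ t‖ₑ ^ 2 := by
      refine lintegral_congr fun t => ?_
      have h6 : ‖LongPartAux.ek U k t‖ₑ = 1 := by
        rw [← ofReal_norm, LongPartAux.norm_ek, ENNReal.ofReal_one]
      rw [enorm_mul, h6, mul_one]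
    rw [h3]
    exact lint_sq hM0 hV hΦ0 hΦM
  set W : ENNReal := ENNReal.ofReal (Cd * U ^ (1 + 4 * δ) * (H / Y + 1)) *
    ENNReal.ofReal (M ^ 2 * (2 * U)) with hW
  -- separation
  obtain ⟨ω, hω1, hω2⟩ := hsep U hU
  have hpt : ∀ h ∈ Set.Icc b (b + H), ‖∫ t, Φ t * fB Y (t + h)‖ₑ ^ 2 ≤
      (∑' k, ENNReal.ofReal (LongPartAux.pk k)) *
        ∑' k, (ENNReal.ofReal (LongPartAux.pk k))⁻¹ * ‖LongPartAux.Ak Y U ω Φ k h‖ₑ ^ 2 := by
    intro h hh
    have h0 : ∫ t, Φ t * fB Y (t + h) = ∫ t, Φ t * FdBig Y (t + h) := by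
      refine integral_congr_ae (Filter.Eventually.of_forall fun t => ?_)
      simp only
      by_cases ht : Φ t = 0
      · rw [ht, zero_mul, zero_mul]
      · rw [fB_eq]
        linarith [(hrange t ht).1, hh.1]
    rw [h0]
    have h1 := LongPartAux.int_bound (Y := Y) (h := h) hδ hδ3 hU hCω.le hω1 hΦi (by
      intro t ht h' hh'
      have h2 := hrange t ht
      exact hω2 h' hh' (t + h) (by linarith [hh.1]) (by linarith [hh.2]))
    refine le_trans ?_ (LongPartAux.cs (fun k => ENNReal.ofReal (LongPartAux.pk k))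
      (fun k => ‖LongPartAux.Ak Y U ω Φ k h‖ₑ)
      (fun k => by
        rw [ne_eq, ENNReal.ofReal_eq_zero, not_le]
        exact LongPartAux.pk_pos k) (fun k => ENNReal.ofReal_ne_top))
    gcongr
  have hPe : ∑' k, ENNReal.ofReal (LongPartAux.pk k) = ENNReal.ofReal P := by
    rw [hP, ENNReal.ofReal_tsum_of_nonneg (fun k => (LongPartAux.pk_pos k).le) LongPartAux.pk_summable]
  have hAk : ∀ k : ℤ, ∫⁻ h in Set.Icc b (b + H), ‖LongPartAux.Ak Y U ω Φ k h‖ₑ ^ 2 ≤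
      ENNReal.ofReal (Cl * U ^ (4 * δ)) * (ENNReal.ofReal ((Cω * LongPartAux.pk k) ^ 2) * W) := by
    intro k
    set Bq : Q → ℝ := fun q => if Y < hgt q.1 then Cω * LongPartAux.pk k * ‖LongPartAux.Gt U Φ k q‖ else 0
      with hBq
    have hB1 : ∀ q, 0 ≤ Bq q := by
      intro q
      rw [hBq]
      simp only
      split_ifs
      · exact mul_nonneg (mul_nonneg hCω.le (LongPartAux.pk_pos k).le) (norm_nonneg _)
      · exact le_rfl
    have hB2 : ∀ q, Bq q ≤ Cω * LongPartAux.pk k * ∫ t, ‖Φ t‖ := by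
      intro q
      rw [hBq]
      simp only
      split_ifs
      · exact mul_le_mul_of_nonneg_left (LongPartAux.Gt_norm k q)
          (mul_nonneg hCω.le (LongPartAux.pk_pos k).le)
      · exact mul_nonneg (mul_nonneg hCω.le (LongPartAux.pk_pos k).le)
          (integral_nonneg fun t => norm_nonneg _)
    have hB3 : ∀ q, ‖LongPartAux.co Y ω k q * LongPartAux.Gt U Φ k q‖ ≤
        kap δ U (hgt q.1) * (hgt q.1) ^ (-(1 / 2) : ℝ) * Bq q := by
      intro q
      rw [hBq]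
      simp only
      split_ifs with hq
      · rw [norm_mul]
        have h1 := LongPartAux.co_norm (Y := Y) hCω.le hU0.le hω1 k q
        calc ‖LongPartAux.co Y ω k q‖ * ‖LongPartAux.Gt U Φ k q‖ ≤
              Cω * LongPartAux.pk k * ww δ U q * ‖LongPartAux.Gt U Φ k q‖ :=
              mul_le_mul_of_nonneg_right h1 (norm_nonneg _)
          _ = _ := by unfold ww; ring
      · unfold LongPartAux.co
        rw [if_neg hq]
        simp
    obtain ⟨_, hls2⟩ := hls U H b hU hH (by linarith)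
      (fun q => LongPartAux.co Y ω k q * LongPartAux.Gt U Φ k q) Bq _ hB1 hB2 hB3
    refine hls2.trans ?_
    refine mul_le_mul_right ?_ _
    have h2 : ∀ q : Q, ENNReal.ofReal (kap δ U (hgt q.1) * (H * (hgt q.1)⁻¹ + 1) * Bq q ^ 2) =
        ENNReal.ofReal ((Cω * LongPartAux.pk k) ^ 2) * (ENNReal.ofReal
          (if Y < hgt q.1 then kap δ U (hgt q.1) * (H * (hgt q.1)⁻¹ + 1) else 0) *
            ‖LongPartAux.Gt U Φ k q‖ₑ ^ 2) := by
      intro q
      have hk0 : 0 ≤ kap δ U (hgt q.1) * (H * (hgt q.1)⁻¹ + 1) := by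
        have h3 := kap_nonneg (δ := δ) hU0.le (hgt_pos q.1).le
        have h4 := hgt_pos q.1
        positivity
      rw [← ofReal_norm, ← ENNReal.ofReal_pow (norm_nonneg _)]
      rw [hBq]
      simp only
      split_ifs
      · rw [← ENNReal.ofReal_mul hk0, ← ENNReal.ofReal_mul (by positivity)]
        congr 1
        ring
      · simp
    rw [tsum_congr h2, ENNReal.tsum_mul_left]
    exact mul_le_mul_right (hdual k) _
  -- assembly
  have hmain : ∫⁻ h in Set.Icc b (b + H), ‖∫ t, Φ t * fB Y (t + h)‖ₑ ^ 2 ≤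
      ENNReal.ofReal P * (ENNReal.ofReal P * (ENNReal.ofReal (Cω ^ 2) *
        (ENNReal.ofReal (Cl * U ^ (4 * δ)) * W))) := by
    have h1 : ∫⁻ h in Set.Icc b (b + H), ‖∫ t, Φ t * fB Y (t + h)‖ₑ ^ 2 ≤
        ∫⁻ h in Set.Icc b (b + H), ENNReal.ofReal P *
          ∑' k, (ENNReal.ofReal (LongPartAux.pk k))⁻¹ * ‖LongPartAux.Ak Y U ω Φ k h‖ₑ ^ 2 := by
      refine setLIntegral_mono' measurableSet_Icc (fun h hh => ?_)
      rw [← hPe]
      exact hpt h hh
    refine h1.trans ?_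
    have hmeas : ∀ k : ℤ, Measurable (fun h => (ENNReal.ofReal (LongPartAux.pk k))⁻¹ *
        ‖LongPartAux.Ak Y U ω Φ k h‖ₑ ^ 2) := by
      intro k
      exact ((LongPartAux.Ak_cont (Y := Y) (G := Φ) hδ hδ3 hU hCω.le hω1 k).measurable.enorm.pow_const
        2).const_mul _
    rw [lintegral_const_mul _ (Measurable.ennreal_tsum hmeas)]
    refine mul_le_mul_right ?_ _
    rw [lintegral_tsum (fun k => (hmeas k).aemeasurable)]
    have h2 : ∀ k : ℤ, ∫⁻ h in Set.Icc b (b + H), (ENNReal.ofReal (LongPartAux.pk k))⁻¹ *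
        ‖LongPartAux.Ak Y U ω Φ k h‖ₑ ^ 2 ≤
        ENNReal.ofReal (LongPartAux.pk k) * (ENNReal.ofReal (Cω ^ 2) *
          (ENNReal.ofReal (Cl * U ^ (4 * δ)) * W)) := by
      intro k
      have hp0 : ENNReal.ofReal (LongPartAux.pk k) ≠ 0 := by
        rw [ne_eq, ENNReal.ofReal_eq_zero, not_le]
        exact LongPartAux.pk_pos k
      have hp1 : ENNReal.ofReal (LongPartAux.pk k) ≠ ⊤ := ENNReal.ofReal_ne_top
      rw [lintegral_const_mul _
        ((LongPartAux.Ak_cont (Y := Y) (G := Φ) hδ hδ3 hU hCω.le hω1 k).measurable.enorm.pow_const 2)]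
      refine (mul_le_mul_right (hAk k) _).trans (le_of_eq ?_)
      have e : ENNReal.ofReal ((Cω * LongPartAux.pk k) ^ 2) =
          ENNReal.ofReal (Cω ^ 2) * (ENNReal.ofReal (LongPartAux.pk k) *
            ENNReal.ofReal (LongPartAux.pk k)) := by
        rw [← ENNReal.ofReal_mul (LongPartAux.pk_pos k).le, ← ENNReal.ofReal_mul (by positivity)]
        congr 1
        ring
      rw [e]
      calc (ENNReal.ofReal (LongPartAux.pk k))⁻¹ * (ENNReal.ofReal (Cl * U ^ (4 * δ)) *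
            (ENNReal.ofReal (Cω ^ 2) * (ENNReal.ofReal (LongPartAux.pk k) *
              ENNReal.ofReal (LongPartAux.pk k)) * W)) =
            ((ENNReal.ofReal (LongPartAux.pk k))⁻¹ * ENNReal.ofReal (LongPartAux.pk k)) *
              (ENNReal.ofReal (LongPartAux.pk k) *
              (ENNReal.ofReal (Cω ^ 2) * (ENNReal.ofReal (Cl * U ^ (4 * δ)) * W))) := by ring
        _ = _ := by rw [ENNReal.inv_mul_cancel hp0 hp1, one_mul]
    refine (ENNReal.tsum_le_tsum h2).trans (le_of_eq ?_)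
    rw [ENNReal.tsum_mul_right, hPe]
  refine hmain.trans ?_
  rw [hW, ← ENNReal.ofReal_mul (by positivity), ← ENNReal.ofReal_mul (by positivity),
    ← ENNReal.ofReal_mul (by positivity), ← ENNReal.ofReal_mul hP0, ← ENNReal.ofReal_mul hP0]
  refine ENNReal.ofReal_le_ofReal ?_
  have e : U ^ (2 + 8 * δ) = U ^ (4 * δ) * (U ^ (1 + 4 * δ) * U) := by
    rw [← Real.rpow_add_one hU0.ne', ← Real.rpow_add hU0]
    congr 1
    ring
  rw [e]
  have hpos : 0 ≤ U ^ (4 * δ) * (U ^ (1 + 4 * δ) * U) * M ^ 2 * (H / Y + 1) := by positivity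
  calc P * (P * (Cω ^ 2 * (Cl * U ^ (4 * δ) * (Cd * U ^ (1 + 4 * δ) * (H / Y + 1) * (M ^ 2 * (2 * U)))))) =
        P * (P * (Cω ^ 2 * (Cl * (Cd * 2)))) *
          (U ^ (4 * δ) * (U ^ (1 + 4 * δ) * U) * M ^ 2 * (H / Y + 1)) := by ring
    _ ≤ (P * (P * (Cω ^ 2 * (Cl * (Cd * 2)))) + 1) *
          (U ^ (4 * δ) * (U ^ (1 + 4 * δ) * U) * M ^ 2 * (H / Y + 1)) :=
        mul_le_mul_of_nonneg_right (by linarith) hpos
    _ = _ := by ring

end Pool.Agent.P07318h
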