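import Pool.Agent.Lib.P07318h.WinVar
import Pool.Agent.Lib.P07318s.AFE
import Pool.Agent.Lib.P07318s.Twist

/-!
# Windows with a large mean square

PROOF. `gz y = Re Fd y + O(y^(-1/2+ε'))` (`afe`, P07318s/AFE.lean, `y ≥ 1`), `0 ≤ Om 1 y ≤ C₁ U^ε` for `U ≤ y ≤ 16U` (`Om_le_kap` of P07318s/Twist.lean, used for `U` and `4U`; `kap δ U 1 = U^δ`). So for `x ∈ [U, 8U]`, with
`R(x) = ∫_x^(x+K) (Fd y - Om 1 y) dy`: `∫_x^(x+K) gz ≤ ‖R(x)‖ + C₂ U^ε K`. If `∫_x^(x+K) gz > 2 C₂ U^ε K` then `∫_x^(x+K) gz ≤ 2 ‖R(x)‖`, so the integrand on the left is `≤ 4 ‖R(x)‖²`: `win_var`.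
-/

set_option autoImplicit false

namespace Pool.Agent.P07318h

open MeasureTheory Complex Pool.Agent.P07318s Pool.Agent.P07318f

theorem win_large (ε : ℝ) (hε : 0 < ε) : ∃ C : ℝ, 0 < C ∧ ∀ U K : ℝ, 1 ≤ U → 1 ≤ K → K ≤ 3 * U →
    ∫⁻ x in Set.Icc U (8 * U), ENNReal.ofReal (if C * U ^ ε * K < ∫ y in x..(x + K), gz y then
      (∫ y in x..(x + K), gz y) ^ 2 else 0) ≤ ENNReal.ofReal (C * U ^ (1 + ε) * K) := by
  obtain ⟨C0, hC0, hvar⟩ := win_var ε hε
  obtain ⟨Ca, hCa, hafe⟩ := afe (1 / 2) (by norm_num)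
  obtain ⟨δ, hδ, hδε, hδ2⟩ : ∃ δ : ℝ, 0 < δ ∧ δ ≤ ε ∧ δ ≤ 1 / 2 :=
    ⟨min ε (1 / 2), by positivity, min_le_left _ _, min_le_right _ _⟩
  obtain ⟨C1, hC1, hOm⟩ := Om_le_kap δ hδ hδ2
  set C2 : ℝ := 2 * C1 + max Ca 0 with hC2
  have hmax : 0 ≤ max Ca 0 := le_max_right _ _
  have hC2pos : 0 < C2 := by positivity
  refine ⟨2 * C2 + 4 * C0, by positivity, fun U K hU hK hKU => ?_⟩
  have hU0 : 0 < U := by linarith
  have hUe : 1 ≤ U ^ ε := Real.one_le_rpow hU hε.le
  have hUd : U ^ δ ≤ U ^ ε := Real.rpow_le_rpow_of_exponent_le hU hδε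
  have hUd0 : 0 < U ^ δ := by positivity
  -- the bound for the main term
  have hOmb : ∀ y : ℝ, U ≤ y → y ≤ 16 * U → Om 1 y ≤ 2 * C1 * U ^ ε := by
    intro y h1 h2
    rcases le_total y (4 * U) with h3 | h3
    · have h4 := hOm U 1 y hU le_rfl h1 h3
      unfold kap at h4
      rw [if_pos hU, div_one] at h4
      nlinarith
    · have h4 := hOm (4 * U) 1 y (by linarith) le_rfl h3 (by linarith)
      unfold kap at h4
      rw [if_pos (by linarith), div_one, Real.mul_rpow (by norm_num) hU0.le] at h4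
      have h5 : (4 : ℝ) ^ δ ≤ 2 := by
        calc (4 : ℝ) ^ δ ≤ (4 : ℝ) ^ (1 / 2 : ℝ) :=
              Real.rpow_le_rpow_of_exponent_le (by norm_num) hδ2
          _ = 2 := by
              rw [← Real.sqrt_eq_rpow, show (4 : ℝ) = 2 ^ 2 by norm_num, Real.sqrt_sq (by norm_num)]
      calc Om 1 y ≤ C1 * (4 ^ δ * U ^ δ) := h4
        _ ≤ C1 * (2 * U ^ ε) := by gcongr
        _ = 2 * C1 * U ^ ε := by ring
  -- pointwise bound
  have hpt : ∀ y : ℝ, U ≤ y → y ≤ 16 * U → gz y ≤ (Fd y - (Om 1 y : ℂ)).re + C2 * U ^ ε := by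
    intro y h1 h2
    have h3 := hafe y (by linarith)
    have h4 : (-(1 / 2) + 1 / 2 : ℝ) = 0 := by norm_num
    rw [h4, Real.rpow_zero, mul_one] at h3
    have h5 := (Complex.abs_re_le_norm _).trans h3
    have h6 : ((((‖riemannZeta (1 / 2 + y * I)‖ ^ 2 : ℝ) : ℂ)) - Fd y).re = gz y - (Fd y).re := by
      rw [Complex.sub_re, Complex.ofReal_re]
      rfl
    rw [h6] at h5
    have h7 := (abs_le.1 h5).2
    have h8 := hOmb y h1 h2
    have h9 : Ca ≤ max Ca 0 * U ^ ε := by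
      calc Ca ≤ max Ca 0 := le_max_left _ _
        _ ≤ max Ca 0 * U ^ ε := le_mul_of_one_le_right hmax hUe
    rw [Complex.sub_re, Complex.ofReal_re, hC2]
    nlinarith
  have hbd : ∀ x ∈ Set.Icc U (8 * U), ENNReal.ofReal (if (2 * C2 + 4 * C0) * U ^ ε * K <
      ∫ y in x..(x + K), gz y then (∫ y in x..(x + K), gz y) ^ 2 else 0) ≤
      4 * ‖∫ y in x..(x + K), (Fd y - (Om 1 y : ℂ))‖ₑ ^ 2 := by
    intro x hx
    split_ifs with hlt
    · have hsub : ∀ y ∈ Set.uIcc x (x + K), U ≤ y ∧ y ≤ 16 * U := by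
        intro y hy
        rw [Set.uIcc_of_le (by linarith)] at hy
        exact ⟨hx.1.trans hy.1, by linarith [hy.2, hx.2]⟩
      have hcont : ContinuousOn (fun y : ℝ => Fd y - (Om 1 y : ℂ)) (Set.uIcc x (x + K)) := by
        refine ContinuousOn.sub (Fd_continuousOn.mono fun y hy => ?_)
          (Complex.continuous_ofReal.comp_continuousOn ((LongPartAux.Om_cont le_rfl).mono fun y hy => ?_))
        · exact lt_of_lt_of_le hU0 (hsub y hy).1
        · exact lt_of_lt_of_le hU0 (hsub y hy).1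
      have hint : IntervalIntegrable (fun y : ℝ => Fd y - (Om 1 y : ℂ)) volume x (x + K) :=
        hcont.intervalIntegrable
      have hintre : IntervalIntegrable (fun y : ℝ => (Fd y - (Om 1 y : ℂ)).re) volume x (x + K) :=
        (Complex.continuous_re.comp_continuousOn hcont).intervalIntegrable
      have hI : ∫ y in x..(x + K), gz y ≤
          ‖∫ y in x..(x + K), (Fd y - (Om 1 y : ℂ))‖ + C2 * U ^ ε * K := by
        have h1 : ∫ y in x..(x + K), gz y ≤
            ∫ y in x..(x + K), ((Fd y - (Om 1 y : ℂ)).re + C2 * U ^ ε) := by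
          apply intervalIntegral.integral_mono_on (by linarith) (gz_cont.intervalIntegrable _ _)
            (hintre.add intervalIntegrable_const)
          intro y hy
          have := hsub y (by rw [Set.uIcc_of_le (by linarith)]; exact hy)
          exact hpt y this.1 this.2
        rw [intervalIntegral.integral_add hintre intervalIntegrable_const,
          intervalIntegral.integral_const] at h1
        have h2 : ∫ y in x..(x + K), (Fd y - (Om 1 y : ℂ)).re =
            (∫ y in x..(x + K), (Fd y - (Om 1 y : ℂ))).re := by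
          have := Complex.reCLM.intervalIntegral_comp_comm hint
          simpa using this
        rw [h2, smul_eq_mul] at h1
        have h3 := (le_abs_self _).trans (Complex.abs_re_le_norm
          (∫ y in x..(x + K), (Fd y - (Om 1 y : ℂ))))
        have h4 : (x + K - x) * (C2 * U ^ ε) = C2 * U ^ ε * K := by ring
        rw [h4] at h1
        linarith
      set I0 : ℝ := ∫ y in x..(x + K), gz y with hI0
      set R0 : ℝ := ‖∫ y in x..(x + K), (Fd y - (Om 1 y : ℂ))‖ with hR0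
      have hI0n : 0 ≤ I0 := intervalIntegral.integral_nonneg (by linarith) fun y _ => gz_nonneg y
      have hUK : 0 ≤ U ^ ε * K := by positivity
      have h5 : I0 ≤ 2 * R0 := by nlinarith
      have h6 : I0 ^ 2 ≤ 4 * R0 ^ 2 := by nlinarith [norm_nonneg (∫ y in x..(x + K), (Fd y - (Om 1 y : ℂ)))]
      calc ENNReal.ofReal (I0 ^ 2) ≤ ENNReal.ofReal (4 * R0 ^ 2) := ENNReal.ofReal_le_ofReal h6
        _ = 4 * ‖∫ y in x..(x + K), (Fd y - (Om 1 y : ℂ))‖ₑ ^ 2 := by
            rw [ENNReal.ofReal_mul (by norm_num), ENNReal.ofReal_pow (norm_nonneg _),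
              ofReal_norm_eq_enorm]
            norm_num
    · rw [ENNReal.ofReal_zero]
      exact zero_le
  calc ∫⁻ x in Set.Icc U (8 * U), ENNReal.ofReal (if (2 * C2 + 4 * C0) * U ^ ε * K <
        ∫ y in x..(x + K), gz y then (∫ y in x..(x + K), gz y) ^ 2 else 0)
      ≤ ∫⁻ x in Set.Icc U (8 * U), 4 * ‖∫ y in x..(x + K), (Fd y - (Om 1 y : ℂ))‖ₑ ^ 2 :=
        setLIntegral_mono' measurableSet_Icc hbd
    _ = 4 * ∫⁻ x in Set.Icc U (8 * U), ‖∫ y in x..(x + K), (Fd y - (Om 1 y : ℂ))‖ₑ ^ 2 :=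
        lintegral_const_mul' _ _ (by norm_num)
    _ ≤ 4 * ENNReal.ofReal (C0 * U ^ (1 + ε) * K) := by gcongr; exact hvar U K hU hK hKU
    _ = ENNReal.ofReal (4 * (C0 * U ^ (1 + ε) * K)) := by
        rw [ENNReal.ofReal_mul (p := 4) (by norm_num)]
        norm_num
    _ ≤ ENNReal.ofReal ((2 * C2 + 4 * C0) * U ^ (1 + ε) * K) := by
        apply ENNReal.ofReal_le_ofReal
        have : 0 ≤ U ^ (1 + ε) * K := by positivity
        nlinarith

end Pool.Agent.P07318h
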