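import Pool.Agent.Lib.P07318h.Wls
import Pool.Agent.Lib.P07318f.FourSep
import Pool.Agent.Lib.P07318s.Outer

/-!
# Variance of the mean square of zeta in short windows

PROOF. Put `y = x + u`, `0 ≤ u ≤ K`, `x ∈ [U, 8U]`, so `y ∈ [U, 16U]`. `Fd_eq` (P07318s/Regroup.lean): `Fd y - Om 1 y = ∑_{q ≠ 1} hgt^(-1/2) Om (hgt q) y ex y q` (the term of `q = 1`, the pair `(1,1)`,
`hgt = 1`, `lgr = 0`, is `Om 1 y`). By `four_sep` `Om (hgt q) y = ∑_k ω_k(hgt q) ek U k x ek U k u`, `‖ω_k(h)‖ ≤ C pk k kap δ U h`; everything converges absolutely, so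
`∫_x^(x+K) (Fd - Om 1) = ∑_k ek U k x ∑_{q ≠ 1} ω_k(hgt q) hgt^(-1/2) O_k(q) ex x q`, `O_k(q) = ∫_0^K ek U k u ex u q du`.
`‖O_k(q)‖ ≤ K`, and `‖O_k(q)‖ ≤ 4 (1+|k|)/|lgr q|`: the frequency is `lgr q - μ`, `μ = 2πk/(32U)`; if `|μ| ≤ |lgr q|/2` then `‖O_k‖ ≤ 2/(|lgr q|/2)`, otherwise `1 < 2|μ|/|lgr q| ≤ |k|/(2U |lgr q|)·(4/5)`
and `‖O_k‖ ≤ K ≤ 3U ≤ 4 |k|/|lgr q|`. Hence `‖O_k(q)‖² ≤ K^(1+δ) (4(1+|k|)/|lgr q|)^(1-δ)`.
Cauchy-Schwarz over `k` with the weights `pk k`, `wls` with `H := 7U`, `B q = C pk k ‖O_k(q)‖` (`q ≠ 1`): the left hand side is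
`≤ C U^(4δ) ∑_k pk k ∑_{q ≠ 1} kap (7U/h + 1) ‖O_k(q)‖²`, `kap (7U/h + 1) ≤ 8 (U/h)^(1+δ)` (for `h > U`: `kap = (U/h)² ≤ (U/h)^(1+δ)`), so it is
`≤ C U^(1+5δ) K^(1+δ) ∑_k pk k (1+|k|)^(1-δ) ∑_{q ≠ 1} h^(-1-δ) |lgr q|^(-(1-δ))`; the sum over `k` converges, `|l|^(-(1-δ)) ≤ 1 + |l|^(-1)`, `∑ h^(-1-δ) < ∞` and
`∑_{q ≠ 1} h^(-1-δ)/|lgr q| < ∞` (`outer_sum` of P07318s/Outer.lean with `k = 1`, `lam` of the one-tuple is `lgr q`; division by zero gives `0` for `q = 1`). `K^δ ≤ (3U)^δ`. Take `δ = min(ε/6, 1/4)`.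
-/

set_option autoImplicit false

namespace Pool.Agent.P07318h

open MeasureTheory Complex Pool.Agent.P07318s Pool.Agent.P07318f

namespace WinVarAux

/-- the fraction `1 / 1` -/
def q0 : Q := ⟨(1, 1), Nat.coprime_one_left _⟩

lemma one_lt_hgt {q : Q} (h : q ≠ q0) : 1 < hgt q.1 := by
  obtain ⟨⟨a, b⟩, hab⟩ := q
  have ha : 1 ≤ (a : ℕ) := a.pos
  have hb : 1 ≤ (b : ℕ) := b.pos
  by_contra hcon
  push Not at hcon
  have h1 : ((a : ℕ) : ℝ) * ((b : ℕ) : ℝ) ≤ 1 := hcon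
  have h2 : (a : ℕ) * (b : ℕ) ≤ 1 := by exact_mod_cast h1
  have ha1 : (a : ℕ) = 1 := by nlinarith
  have hb1 : (b : ℕ) = 1 := by nlinarith
  apply h
  have ha2 : a = 1 := PNat.eq ha1
  have hb2 : b = 1 := PNat.eq hb1
  subst ha2
  subst hb2
  rfl

lemma lgr_ne {q : Q} (h : 1 < hgt q.1) : lgr q.1 ≠ 0 := by
  obtain ⟨⟨a, b⟩, hab⟩ := q
  intro h0
  have h1 : Real.log ((a : ℕ) : ℝ) = Real.log ((b : ℕ) : ℝ) := sub_eq_zero.1 h0
  have ha : (0 : ℝ) < ((a : ℕ) : ℝ) := by exact_mod_cast a.pos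
  have hb : (0 : ℝ) < ((b : ℕ) : ℝ) := by exact_mod_cast b.pos
  have h2 : ((a : ℕ) : ℝ) = ((b : ℕ) : ℝ) := Real.log_injOn_pos ha hb h1
  have h3 : (a : ℕ) = (b : ℕ) := by exact_mod_cast h2
  have h4 : Nat.Coprime (a : ℕ) (b : ℕ) := hab
  rw [h3, Nat.coprime_self] at h4
  have h5 : hgt ((a, b) : ℕ+ × ℕ+) = 1 := by
    unfold hgt
    simp only
    rw [h3, h4]
    norm_num
  rw [h5] at h
  exact lt_irrefl _ h

lemma small_one (x : ℝ) : FdSmall 1 x = (Om 1 x : ℂ) := by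
  unfold FdSmall
  have h0 : hgt q0.1 = 1 := by unfold hgt q0; norm_num
  have h1 : lgr q0.1 = 0 := by unfold lgr q0; norm_num
  rw [tsum_eq_single q0]
  · rw [h0, if_neg (lt_irrefl _)]
    unfold ex
    rw [h1]
    simp
  · intro q hq
    rw [if_pos (one_lt_hgt hq)]

/-- the indicator function of `(0, K]` -/
noncomputable def GK (K : ℝ) : ℝ → ℂ := (Set.Ioc 0 K).indicator fun _ => 1

lemma GK_int (K : ℝ) : Integrable (GK K) := by
  unfold GK
  rw [integrable_indicator_iff measurableSet_Ioc]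
  exact integrableOn_const (by simp)

lemma GK_mul (K : ℝ) (F : ℝ → ℂ) (hK : 0 ≤ K) : ∫ t, GK K t * F t = ∫ t in (0 : ℝ)..K, F t := by
  rw [intervalIntegral.integral_of_le hK, ← integral_indicator measurableSet_Ioc]
  refine integral_congr_ae (Filter.Eventually.of_forall fun t => ?_)
  simp only [GK]
  by_cases ht : t ∈ Set.Ioc 0 K
  · rw [Set.indicator_of_mem ht, Set.indicator_of_mem ht, one_mul]
  · rw [Set.indicator_of_notMem ht, Set.indicator_of_notMem ht, zero_mul]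

lemma GK_norm {K : ℝ} (hK : 0 ≤ K) : ∫ t, ‖GK K t‖ = K := by
  have h1 : (fun t => ‖GK K t‖) = (Set.Ioc 0 K).indicator fun _ => (1 : ℝ) := by
    funext t
    simp only [GK]
    by_cases ht : t ∈ Set.Ioc 0 K
    · rw [Set.indicator_of_mem ht, Set.indicator_of_mem ht, norm_one]
    · rw [Set.indicator_of_notMem ht, Set.indicator_of_notMem ht, norm_zero]
  rw [h1, integral_indicator measurableSet_Ioc, setIntegral_const, smul_eq_mul, mul_one,
    Measure.real, Real.volume_Ioc, sub_zero, ENNReal.toReal_ofReal hK]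

lemma Gt_eq {U K : ℝ} (hK : 0 ≤ K) (k : ℤ) (q : Q) :
    LongPartAux.Gt U (GK K) k q = osc K (lgr q.1 - 2 * Real.pi * k / (32 * U)) := by
  unfold LongPartAux.Gt osc
  rw [GK_mul K _ hK]
  refine intervalIntegral.integral_congr fun t _ => ?_
  simp only [LongPartAux.ek, ex]
  rw [← Complex.exp_add]
  congr 1
  push_cast
  ring

lemma Gt_le {U K : ℝ} (hK : 0 ≤ K) (k : ℤ) (q : Q) : ‖LongPartAux.Gt U (GK K) k q‖ ≤ K := by
  refine (LongPartAux.Gt_norm k q).trans ?_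
  rw [GK_norm hK]

lemma Gt_le' {U K : ℝ} (hU : 1 ≤ U) (hK : 1 ≤ K) (hKU : K ≤ 3 * U) (k : ℤ) {q : Q}
    (hq : 1 < hgt q.1) :
    ‖LongPartAux.Gt U (GK K) k q‖ ≤ 8 * (1 + |(k : ℝ)|) / |lgr q.1| := by
  have hl : 0 < |lgr q.1| := abs_pos.2 (lgr_ne hq)
  set μ : ℝ := 2 * Real.pi * k / (32 * U) with hμ
  by_cases hc : |μ| ≤ |lgr q.1| / 2
  · rw [Gt_eq (by linarith)]
    have h1 : |lgr q.1| / 2 ≤ |lgr q.1 - μ| := by
      have := abs_sub_abs_le_abs_sub (lgr q.1) μ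
      linarith
    have h2 : lgr q.1 - μ ≠ 0 := by
      intro h
      rw [h, abs_zero] at h1
      linarith
    refine ((norm_osc_le (by linarith) _).trans (bb_le_inv (by linarith) h2)).trans ?_
    calc 4 / |lgr q.1 - μ| ≤ 4 / (|lgr q.1| / 2) :=
          div_le_div_of_nonneg_left (by norm_num) (by linarith) h1
      _ = 8 * 1 / |lgr q.1| := by field_simp; norm_num
      _ ≤ 8 * (1 + |(k : ℝ)|) / |lgr q.1| := by
          refine div_le_div_of_nonneg_right ?_ hl.le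
          have := abs_nonneg (k : ℝ)
          linarith
  · push Not at hc
    refine (Gt_le (by linarith) k q).trans (hKU.trans ?_)
    rw [le_div_iff₀ hl]
    have h1 : |μ| = Real.pi * |(k : ℝ)| / (16 * U) := by
      rw [hμ, abs_div, abs_mul, abs_mul, abs_of_pos Real.pi_pos, abs_of_pos (show (0 : ℝ) < 2 by norm_num),
        abs_of_pos (show (0 : ℝ) < 32 * U by linarith)]
      field_simp
      ring
    have hpi := Real.pi_lt_four
    have hk := abs_nonneg (k : ℝ)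
    have h2 : |lgr q.1| ≤ 2 * (Real.pi * |(k : ℝ)| / (16 * U)) := by linarith
    calc 3 * U * |lgr q.1| ≤ 3 * U * (2 * (Real.pi * |(k : ℝ)| / (16 * U))) :=
          mul_le_mul_of_nonneg_left h2 (by linarith)
      _ = (3 / 8) * (Real.pi * |(k : ℝ)|) := by field_simp; ring
      _ ≤ (3 / 8) * (4 * |(k : ℝ)|) := by
          have : Real.pi * |(k : ℝ)| ≤ 4 * |(k : ℝ)| := mul_le_mul_of_nonneg_right hpi.le hk
          linarith
      _ ≤ 8 * (1 + |(k : ℝ)|) := by linarith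

lemma rpow_one_sub_le {x δ : ℝ} (hx : 0 ≤ x) (h0 : 0 ≤ δ) (h1 : δ ≤ 1) : x ^ (1 - δ) ≤ 1 + x := by
  rcases le_total x 1 with h | h
  · have := Real.rpow_le_one hx h (show 0 ≤ 1 - δ by linarith)
    linarith
  · have h2 := Real.rpow_le_rpow_of_exponent_le h (show 1 - δ ≤ 1 by linarith)
    rw [Real.rpow_one] at h2
    linarith

lemma sq_le {a K X δ : ℝ} (ha : 0 ≤ a) (hK : a ≤ K) (hX : a ≤ X) (h0 : 0 ≤ δ) (h1 : δ ≤ 1) :
    a ^ 2 ≤ K ^ (1 + δ) * X ^ (1 - δ) := by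
  have h2 : a ^ 2 = a ^ (1 + δ) * a ^ (1 - δ) := by
    rw [← Real.rpow_add_of_nonneg ha (by linarith) (by linarith)]
    rw [show (1 + δ + (1 - δ)) = ((2 : ℕ) : ℝ) by push_cast; ring, Real.rpow_natCast]
  rw [h2]
  exact mul_le_mul (Real.rpow_le_rpow ha hK (by linarith)) (Real.rpow_le_rpow ha hX (by linarith))
    (Real.rpow_nonneg ha _) (Real.rpow_nonneg (ha.trans hK) _)

lemma kap_mul {δ U h : ℝ} (h1 : δ ≤ 1) (hU : 1 ≤ U) (hh : 1 ≤ h) :
    kap δ U h * (7 * U * h⁻¹ + 1) ≤ 8 * (U ^ (1 + δ) * h ^ (-1 - δ)) := by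
  have hU0 : 0 < U := by linarith
  have hh0 : 0 < h := by linarith
  have e : U ^ (1 + δ) * h ^ (-1 - δ) = (U / h) ^ (1 + δ) := by
    rw [Real.div_rpow hU0.le hh0.le, div_eq_mul_inv, ← Real.rpow_neg hh0.le]
    congr 2
    ring
  rw [e]
  have hr : 0 < U / h := by positivity
  unfold kap
  split_ifs with hc
  · have h2 : 1 ≤ U / h := (one_le_div hh0).2 hc
    have h3 : 7 * U * h⁻¹ + 1 ≤ 8 * (U / h) := by
      have : 7 * U * h⁻¹ = 7 * (U / h) := by rw [div_eq_mul_inv]; ring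
      linarith
    calc (U / h) ^ δ * (7 * U * h⁻¹ + 1) ≤ (U / h) ^ δ * (8 * (U / h)) :=
          mul_le_mul_of_nonneg_left h3 (Real.rpow_nonneg hr.le _)
      _ = 8 * (U / h) ^ (1 + δ) := by
          rw [Real.rpow_add hr, Real.rpow_one]
          ring
  · push Not at hc
    have h2 : U / h ≤ 1 := (div_le_one hh0).2 hc.le
    have h3 : 7 * U * h⁻¹ + 1 ≤ 8 := by
      have : 7 * U * h⁻¹ = 7 * (U / h) := by rw [div_eq_mul_inv]; ring
      linarith
    have h4 : (U / h) ^ (2 : ℝ) ≤ (U / h) ^ (1 + δ) :=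
      Real.rpow_le_rpow_of_exponent_ge hr h2 (by linarith)
    have h5 : 0 ≤ (U / h) ^ (1 + δ) := Real.rpow_nonneg hr.le _
    calc (U / h) ^ (2 : ℝ) * (7 * U * h⁻¹ + 1) ≤ (U / h) ^ (1 + δ) * 8 :=
          mul_le_mul h4 h3 (by positivity) h5
      _ = 8 * (U / h) ^ (1 + δ) := by ring

lemma sumk {δ : ℝ} (hδ : 0 < δ) (h1 : δ ≤ 1) :
    Summable fun k : ℤ => LongPartAux.pk k * (1 + |(k : ℝ)|) ^ (1 - δ) := by
  have hs : Summable fun k : ℤ => 2 * |(k : ℝ)| ^ (-(1 + δ)) :=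
    (Real.summable_abs_int_rpow (by linarith)).mul_left 2
  refine Summable.of_norm_bounded_eventually hs ?_
  have hev : ∀ᶠ k : ℤ in Filter.cofinite, k ≠ 0 := by
    rw [Filter.eventually_cofinite]
    simp
  filter_upwards [hev] with k hk
  have hk' : (1 : ℝ) ≤ |(k : ℝ)| := by
    have : (1 : ℤ) ≤ |k| := Int.one_le_abs hk
    exact_mod_cast this
  have hk0 : 0 < |(k : ℝ)| := by linarith
  have hn : 0 ≤ LongPartAux.pk k * (1 + |(k : ℝ)|) ^ (1 - δ) :=
    mul_nonneg (LongPartAux.pk_pos k).le (Real.rpow_nonneg (by linarith) _)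
  rw [Real.norm_of_nonneg hn]
  have h2 : (1 + |(k : ℝ)|) ^ (1 - δ) ≤ 2 * |(k : ℝ)| ^ (1 - δ) := by
    calc (1 + |(k : ℝ)|) ^ (1 - δ) ≤ (2 * |(k : ℝ)|) ^ (1 - δ) :=
          Real.rpow_le_rpow (by linarith) (by linarith) (by linarith)
      _ = 2 ^ (1 - δ) * |(k : ℝ)| ^ (1 - δ) := Real.mul_rpow (by norm_num) hk0.le
      _ ≤ 2 * |(k : ℝ)| ^ (1 - δ) := by
          refine mul_le_mul_of_nonneg_right ?_ (Real.rpow_nonneg hk0.le _)
          calc (2 : ℝ) ^ (1 - δ) ≤ 2 ^ (1 : ℝ) :=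
                Real.rpow_le_rpow_of_exponent_le (by norm_num) (by linarith)
            _ = 2 := Real.rpow_one _
  have h3 : LongPartAux.pk k ≤ |(k : ℝ)| ^ (-2 : ℝ) := by
    unfold LongPartAux.pk
    rw [Real.rpow_neg hk0.le, show (2 : ℝ) = ((2 : ℕ) : ℝ) by norm_num, Real.rpow_natCast,
      one_div, sq_abs]
    refine inv_anti₀ (by rw [← sq_abs]; positivity) ?_
    linarith
  calc LongPartAux.pk k * (1 + |(k : ℝ)|) ^ (1 - δ)
      ≤ |(k : ℝ)| ^ (-2 : ℝ) * (2 * |(k : ℝ)| ^ (1 - δ)) :=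
        mul_le_mul h3 h2 (Real.rpow_nonneg (by linarith) _) (Real.rpow_nonneg hk0.le _)
    _ = 2 * |(k : ℝ)| ^ (-(1 + δ)) := by
        rw [mul_left_comm, ← Real.rpow_add hk0]
        congr 2
        ring

lemma summableQ {δ : ℝ} (hδ : 0 < δ) : Summable fun q : Q => (hgt q.1) ^ (-1 - δ) := by
  have h1 : Summable fun n : ℕ+ => (((n : ℕ) : ℝ)) ^ (-1 - δ) := by
    have h4 : Summable fun n : ℕ => ((n : ℝ)) ^ (-1 - δ) :=
      Real.summable_nat_rpow.2 (by linarith)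
    exact h4.comp_injective PNat.coe_injective
  have h2 := h1.mul_of_nonneg h1 (fun i => Real.rpow_nonneg (Nat.cast_nonneg _) _)
    (fun i => Real.rpow_nonneg (Nat.cast_nonneg _) _)
  have h3 : Summable fun p : ℕ+ × ℕ+ => (hgt p) ^ (-1 - δ) := by
    refine h2.congr ?_
    intro p
    unfold hgt
    rw [Real.mul_rpow (Nat.cast_nonneg _) (Nat.cast_nonneg _)]
  exact h3.comp_injective (f := fun p : ℕ+ × ℕ+ => (hgt p) ^ (-1 - δ)) (i := fun q : Q => q.1)
    Subtype.val_injective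

/-- the sum over the fractions -/
lemma sumq {δ : ℝ} (hδ : 0 < δ) : ∃ S : ℝ, 0 < S ∧
    ∑' q : Q, ENNReal.ofReal ((hgt q.1) ^ (-1 - δ) * (1 + 1 / |lgr q.1|)) ≤ ENNReal.ofReal S := by
  obtain ⟨C, hC, hO⟩ := outer_sum 1 δ hδ
  have hs := summableQ hδ
  have hn : ∀ q : Q, 0 ≤ (hgt q.1) ^ (-1 - δ) := fun q => Real.rpow_nonneg (hgt_pos q.1).le _
  refine ⟨(∑' q : Q, (hgt q.1) ^ (-1 - δ)) + C, add_pos_of_nonneg_of_pos (tsum_nonneg hn) hC, ?_⟩
  have h1 : ∀ q : Q, ENNReal.ofReal ((hgt q.1) ^ (-1 - δ) * (1 + 1 / |lgr q.1|)) =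
      ENNReal.ofReal ((hgt q.1) ^ (-1 - δ)) + ENNReal.ofReal ((hgt q.1) ^ (-1 - δ) / |lgr q.1|) := by
    intro q
    rw [← ENNReal.ofReal_add (hn q) (div_nonneg (hn q) (abs_nonneg _))]
    congr 1
    ring
  simp_rw [h1]
  rw [ENNReal.tsum_add, ENNReal.ofReal_add (tsum_nonneg hn) hC.le]
  refine add_le_add (le_of_eq (ENNReal.ofReal_tsum_of_nonneg hn hs).symm) ?_
  refine le_trans (le_of_eq ?_) hO
  rw [← (Equiv.funUnique (Fin 1) Q).symm.tsum_eq]
  refine tsum_congr fun q => ?_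
  simp [lam]

end WinVarAux

open WinVarAux

theorem win_var (ε : ℝ) (hε : 0 < ε) : ∃ C : ℝ, 0 < C ∧ ∀ U K : ℝ, 1 ≤ U → 1 ≤ K → K ≤ 3 * U →
    ∫⁻ x in Set.Icc U (8 * U), ‖∫ y in x..(x + K), (Fd y - (Om 1 y : ℂ))‖ₑ ^ 2 ≤
      ENNReal.ofReal (C * U ^ (1 + ε) * K) := by
  set δ : ℝ := min (ε / 6) (1 / 4) with hδdef
  have hδ : 0 < δ := by rw [hδdef]; exact lt_min (by linarith) (by norm_num)
  have hδ4 : δ ≤ 1 / 4 := min_le_right _ _
  have hδε : 6 * δ ≤ ε := by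
    have : δ ≤ ε / 6 := min_le_left _ _
    linarith
  have hδ2 : δ ≤ 1 / 2 := by linarith
  obtain ⟨C₁, hC₁, hsep⟩ := four_sep δ hδ hδ2
  obtain ⟨C₂, hC₂, hwls⟩ := wls δ hδ hδ2
  obtain ⟨S, hS, hSq⟩ := sumq hδ
  have hP := LongPartAux.pk_summable
  have hR := sumk hδ (show δ ≤ 1 by linarith)
  have hRn : ∀ k : ℤ, 0 ≤ LongPartAux.pk k * (1 + |(k : ℝ)|) ^ (1 - δ) := fun k =>
    mul_nonneg (LongPartAux.pk_pos k).le (Real.rpow_nonneg (by positivity) _)
  set P : ℝ := ∑' k : ℤ, LongPartAux.pk k with hPdef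
  set R : ℝ := ∑' k : ℤ, LongPartAux.pk k * (1 + |(k : ℝ)|) ^ (1 - δ) with hRdef
  have hP0 : 0 ≤ P := tsum_nonneg fun k => (LongPartAux.pk_pos k).le
  have hR0 : 0 ≤ R := tsum_nonneg hRn
  refine ⟨P * (C₂ * (64 * C₁ ^ 2) * (R * S)) * 3 + 1, by positivity, ?_⟩
  intro U K hU hK hKU
  have hU0 : 0 < U := by linarith
  have hK0 : 0 < K := by linarith
  obtain ⟨ω, hω, hsum⟩ := hsep U hU
  -- the integral as a sum
  have hJ : ∀ x ∈ Set.Icc U (8 * U), ‖∫ y in x..(x + K), (Fd y - (Om 1 y : ℂ))‖ₑ ≤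
      ∑' k : ℤ, ‖LongPartAux.Ak 1 U ω (GK K) k x‖ₑ := by
    intro x hx
    have h1 : ∫ y in x..(x + K), (Fd y - (Om 1 y : ℂ)) = ∫ t, GK K t * FdBig 1 (t + x) := by
      rw [GK_mul K _ hK0.le]
      have h2 := intervalIntegral.integral_comp_add_right (a := 0) (b := K) (FdBig 1) x
      rw [h2, zero_add, add_comm K x]
      refine intervalIntegral.integral_congr fun y hy => ?_
      rw [Set.uIcc_of_le (by linarith)] at hy
      have hy0 : 0 < y := by linarith [hy.1, hx.1]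
      rw [Fd_split 1 y hy0, small_one]
      ring
    rw [h1]
    refine LongPartAux.int_bound (Y := 1) hδ hδ2 hU hC₁.le hω (GK_int K) ?_
    intro t ht h' hh'
    have ht1 : t ∈ Set.Ioc 0 K := by
      by_contra hcon
      exact ht (Set.indicator_of_notMem hcon _)
    exact hsum h' hh' (t + x) (by linarith [ht1.1, hx.1]) (by linarith [ht1.2, hx.2])
  -- Cauchy-Schwarz
  have hpk0 : ∀ k : ℤ, ENNReal.ofReal (LongPartAux.pk k) ≠ 0 := fun k => by
    rw [Ne, ENNReal.ofReal_eq_zero, not_le]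
    exact LongPartAux.pk_pos k
  have hcs : ∀ x ∈ Set.Icc U (8 * U), ‖∫ y in x..(x + K), (Fd y - (Om 1 y : ℂ))‖ₑ ^ 2 ≤
      ENNReal.ofReal P * ∑' k : ℤ, (ENNReal.ofReal (LongPartAux.pk k))⁻¹ *
        ‖LongPartAux.Ak 1 U ω (GK K) k x‖ₑ ^ 2 := by
    intro x hx
    have h1 := LongPartAux.cs (fun k => ENNReal.ofReal (LongPartAux.pk k))
      (fun k => ‖LongPartAux.Ak 1 U ω (GK K) k x‖ₑ) hpk0 (fun k => ENNReal.ofReal_ne_top)
    have h2 : ∑' k : ℤ, ENNReal.ofReal (LongPartAux.pk k) = ENNReal.ofReal P :=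
      (ENNReal.ofReal_tsum_of_nonneg (fun k => (LongPartAux.pk_pos k).le) hP).symm
    rw [h2] at h1
    exact (pow_le_pow_left' (hJ x hx) 2).trans h1
  -- one value of `k`
  have hone : ∀ k : ℤ, ∫⁻ x in Set.Icc U (8 * U), ‖LongPartAux.Ak 1 U ω (GK K) k x‖ₑ ^ 2 ≤
      ENNReal.ofReal (C₂ * U ^ (4 * δ)) * (ENNReal.ofReal (64 * C₁ ^ 2 * (U ^ (1 + δ) * K ^ (1 + δ)) *
        (LongPartAux.pk k * (LongPartAux.pk k * (1 + |(k : ℝ)|) ^ (1 - δ)))) * ENNReal.ofReal S) := by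
    intro k
    have hpk := LongPartAux.pk_pos k
    set B : Q → ℝ := fun q => C₁ * LongPartAux.pk k *
      (if 1 < hgt q.1 then ‖LongPartAux.Gt U (GK K) k q‖ else 0) with hB
    have hw := hwls U (7 * U) U hU (by linarith) (by linarith)
      (fun q => LongPartAux.co 1 ω k q * LongPartAux.Gt U (GK K) k q) B (C₁ * LongPartAux.pk k * K) ?_ ?_ ?_
    · have h1 := hw.2
      rw [show U + 7 * U = 8 * U by ring] at h1
      refine h1.trans ?_
      refine mul_le_mul_right ?_ _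
      refine le_trans (ENNReal.tsum_le_tsum (g := fun q : Q =>
        ENNReal.ofReal (64 * C₁ ^ 2 * (U ^ (1 + δ) * K ^ (1 + δ)) *
        (LongPartAux.pk k * (LongPartAux.pk k * (1 + |(k : ℝ)|) ^ (1 - δ)))) *
          ENNReal.ofReal ((hgt q.1) ^ (-1 - δ) * (1 + 1 / |lgr q.1|))) fun q => ?_) ?_
      · rw [← ENNReal.ofReal_mul (mul_nonneg (by positivity) (mul_nonneg hpk.le (hRn k)))]
        refine ENNReal.ofReal_le_ofReal ?_
        have hh1 := one_le_hgt q.1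
        have hn1 : 0 ≤ (hgt q.1) ^ (-1 - δ) := Real.rpow_nonneg (hgt_pos q.1).le _
        have hU1 : 0 ≤ U ^ (1 + δ) := Real.rpow_nonneg hU0.le _
        have hK1 : 0 ≤ K ^ (1 + δ) := Real.rpow_nonneg hK0.le _
        have hkk : 0 ≤ (1 + |(k : ℝ)|) ^ (1 - δ) := Real.rpow_nonneg (by positivity) _
        rw [hB]
        simp only
        split_ifs with hc
        · have hl : 0 < |lgr q.1| := abs_pos.2 (lgr_ne hc)
          have h2 := kap_mul (δ := δ) (by linarith) hU hh1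
          have h3 := sq_le (norm_nonneg _) (Gt_le (U := U) hK0.le k q) (Gt_le' hU hK hKU k hc) hδ.le
            (show δ ≤ 1 by linarith)
          have h4 : (8 * (1 + |(k : ℝ)|) / |lgr q.1|) ^ (1 - δ) ≤
              8 * (1 + |(k : ℝ)|) ^ (1 - δ) * (1 + 1 / |lgr q.1|) := by
            have e : 8 * (1 + |(k : ℝ)|) / |lgr q.1| = 8 * (1 + |(k : ℝ)|) * (1 / |lgr q.1|) := by ring
            rw [e, Real.mul_rpow (by positivity) (by positivity),
              Real.mul_rpow (by norm_num) (by positivity)]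
            refine mul_le_mul (mul_le_mul_of_nonneg_right ?_ hkk)
              (rpow_one_sub_le (by positivity) hδ.le (by linarith)) (Real.rpow_nonneg (by positivity) _)
              (by positivity)
            calc (8 : ℝ) ^ (1 - δ) ≤ 8 ^ (1 : ℝ) :=
                  Real.rpow_le_rpow_of_exponent_le (by norm_num) (by linarith)
              _ = 8 := Real.rpow_one _
          have h5 : ‖LongPartAux.Gt U (GK K) k q‖ ^ 2 ≤
              K ^ (1 + δ) * (8 * (1 + |(k : ℝ)|) ^ (1 - δ) * (1 + 1 / |lgr q.1|)) :=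
            h3.trans (mul_le_mul_of_nonneg_left h4 hK1)
          have hkap : 0 ≤ kap δ U (hgt q.1) * (7 * U * (hgt q.1)⁻¹ + 1) :=
            mul_nonneg (kap_nonneg hU0.le (hgt_pos q.1).le) (by
              have := hgt_pos q.1
              positivity)
          calc kap δ U (hgt q.1) * (7 * U * (hgt q.1)⁻¹ + 1) *
                (C₁ * LongPartAux.pk k * ‖LongPartAux.Gt U (GK K) k q‖) ^ 2
              = (kap δ U (hgt q.1) * (7 * U * (hgt q.1)⁻¹ + 1) * ‖LongPartAux.Gt U (GK K) k q‖ ^ 2) *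
                (C₁ * LongPartAux.pk k) ^ 2 := by ring
            _ ≤ ((8 * (U ^ (1 + δ) * (hgt q.1) ^ (-1 - δ))) *
                (K ^ (1 + δ) * (8 * (1 + |(k : ℝ)|) ^ (1 - δ) * (1 + 1 / |lgr q.1|)))) *
                (C₁ * LongPartAux.pk k) ^ 2 := by
                refine mul_le_mul_of_nonneg_right ?_ (sq_nonneg _)
                exact mul_le_mul h2 h5 (sq_nonneg _) (by positivity)
            _ = _ := by ring
        · simp only [mul_zero, ne_eq, OfNat.ofNat_ne_zero, not_false_eq_true, zero_pow]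
          positivity
      · rw [ENNReal.tsum_mul_left]
        exact mul_le_mul_right hSq _
    · intro q
      rw [hB]
      simp only
      split_ifs <;> positivity
    · intro q
      rw [hB]
      simp only
      refine mul_le_mul_of_nonneg_left ?_ (by positivity)
      split_ifs
      · exact Gt_le hK0.le k q
      · exact hK0.le
    · intro q
      rw [hB]
      simp only
      split_ifs with hc
      · rw [norm_mul]
        have h1 := LongPartAux.co_norm (Y := 1) hC₁.le hU0.le hω k q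
        calc ‖LongPartAux.co 1 ω k q‖ * ‖LongPartAux.Gt U (GK K) k q‖
            ≤ (C₁ * LongPartAux.pk k * ww δ U q) * ‖LongPartAux.Gt U (GK K) k q‖ :=
              mul_le_mul_of_nonneg_right h1 (norm_nonneg _)
          _ = _ := by unfold ww; ring
      · unfold LongPartAux.co
        rw [if_neg hc]
        simp
  have hmeas : ∀ k : ℤ, Measurable fun x => (ENNReal.ofReal (LongPartAux.pk k))⁻¹ *
      ‖LongPartAux.Ak 1 U ω (GK K) k x‖ₑ ^ 2 := by
    intro k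
    have h1 : Measurable (LongPartAux.Ak 1 U ω (GK K) k) :=
      (LongPartAux.Ak_cont hδ hδ2 hU hC₁.le hω k).measurable
    exact (h1.enorm.pow_const 2).const_mul _
  have hDn : 0 ≤ 64 * C₁ ^ 2 * (U ^ (1 + δ) * K ^ (1 + δ)) := by positivity
  calc ∫⁻ x in Set.Icc U (8 * U), ‖∫ y in x..(x + K), (Fd y - (Om 1 y : ℂ))‖ₑ ^ 2
      ≤ ∫⁻ x in Set.Icc U (8 * U), ENNReal.ofReal P * ∑' k : ℤ, (ENNReal.ofReal (LongPartAux.pk k))⁻¹ *
        ‖LongPartAux.Ak 1 U ω (GK K) k x‖ₑ ^ 2 := setLIntegral_mono' measurableSet_Icc hcs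
    _ = ENNReal.ofReal P * ∑' k : ℤ, (ENNReal.ofReal (LongPartAux.pk k))⁻¹ *
        ∫⁻ x in Set.Icc U (8 * U), ‖LongPartAux.Ak 1 U ω (GK K) k x‖ₑ ^ 2 := by
        rw [lintegral_const_mul' _ _ ENNReal.ofReal_ne_top]
        congr 1
        rw [lintegral_tsum fun k => (hmeas k).aemeasurable]
        refine tsum_congr fun k => ?_
        rw [lintegral_const_mul']
        exact ENNReal.inv_ne_top.2 (hpk0 k)
    _ ≤ ENNReal.ofReal P * ∑' k : ℤ, (ENNReal.ofReal (C₂ * U ^ (4 * δ)) *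
        ENNReal.ofReal (64 * C₁ ^ 2 * (U ^ (1 + δ) * K ^ (1 + δ))) * ENNReal.ofReal S) *
          ENNReal.ofReal (LongPartAux.pk k * (1 + |(k : ℝ)|) ^ (1 - δ)) := by
        refine mul_le_mul_right (ENNReal.tsum_le_tsum fun k => ?_) _
        refine (mul_le_mul_right (hone k) _).trans (le_of_eq ?_)
        have hpk := LongPartAux.pk_pos k
        rw [ENNReal.ofReal_mul hDn, ENNReal.ofReal_mul hpk.le]
        have h1 : (ENNReal.ofReal (LongPartAux.pk k))⁻¹ * ENNReal.ofReal (LongPartAux.pk k) = 1 :=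
          ENNReal.inv_mul_cancel (hpk0 k) ENNReal.ofReal_ne_top
        calc (ENNReal.ofReal (LongPartAux.pk k))⁻¹ * (ENNReal.ofReal (C₂ * U ^ (4 * δ)) *
              (ENNReal.ofReal (64 * C₁ ^ 2 * (U ^ (1 + δ) * K ^ (1 + δ))) *
              (ENNReal.ofReal (LongPartAux.pk k) *
                ENNReal.ofReal (LongPartAux.pk k * (1 + |(k : ℝ)|) ^ (1 - δ))) * ENNReal.ofReal S))
            = ((ENNReal.ofReal (LongPartAux.pk k))⁻¹ * ENNReal.ofReal (LongPartAux.pk k)) *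
              ((ENNReal.ofReal (C₂ * U ^ (4 * δ)) *
              ENNReal.ofReal (64 * C₁ ^ 2 * (U ^ (1 + δ) * K ^ (1 + δ))) * ENNReal.ofReal S) *
              ENNReal.ofReal (LongPartAux.pk k * (1 + |(k : ℝ)|) ^ (1 - δ))) := by ring
          _ = _ := by rw [h1, one_mul]
    _ = ENNReal.ofReal (P * (C₂ * U ^ (4 * δ) * (64 * C₁ ^ 2 * (U ^ (1 + δ) * K ^ (1 + δ))) * S * R)) := by
        rw [ENNReal.tsum_mul_left, ← ENNReal.ofReal_tsum_of_nonneg hRn hR,
          ← ENNReal.ofReal_mul (by positivity), ← ENNReal.ofReal_mul (by positivity),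
          ← ENNReal.ofReal_mul (by positivity), ← ENNReal.ofReal_mul hP0]
    _ ≤ ENNReal.ofReal ((P * (C₂ * (64 * C₁ ^ 2) * (R * S)) * 3 + 1) * U ^ (1 + ε) * K) := by
        refine ENNReal.ofReal_le_ofReal ?_
        have e1 : K ^ (1 + δ) ≤ K * (3 * U ^ δ) := by
          rw [Real.rpow_add hK0, Real.rpow_one]
          refine mul_le_mul_of_nonneg_left ?_ hK0.le
          calc K ^ δ ≤ (3 * U) ^ δ := Real.rpow_le_rpow hK0.le hKU hδ.le
            _ = 3 ^ δ * U ^ δ := Real.mul_rpow (by norm_num) hU0.le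
            _ ≤ 3 * U ^ δ := by
                refine mul_le_mul_of_nonneg_right ?_ (Real.rpow_nonneg hU0.le _)
                calc (3 : ℝ) ^ δ ≤ 3 ^ (1 : ℝ) :=
                      Real.rpow_le_rpow_of_exponent_le (by norm_num) (by linarith)
                  _ = 3 := Real.rpow_one _
        have e2 : U ^ (4 * δ) * U ^ (1 + δ) * U ^ δ ≤ U ^ (1 + ε) := by
          rw [← Real.rpow_add hU0, ← Real.rpow_add hU0]
          exact Real.rpow_le_rpow_of_exponent_le hU (by linarith)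
        have hUe : 0 ≤ U ^ (1 + ε) := Real.rpow_nonneg hU0.le _
        have hA : 0 ≤ P * (C₂ * (64 * C₁ ^ 2) * (R * S)) := by positivity
        calc P * (C₂ * U ^ (4 * δ) * (64 * C₁ ^ 2 * (U ^ (1 + δ) * K ^ (1 + δ))) * S * R)
            = (P * (C₂ * (64 * C₁ ^ 2) * (R * S))) * (U ^ (4 * δ) * U ^ (1 + δ) * K ^ (1 + δ)) := by ring
          _ ≤ (P * (C₂ * (64 * C₁ ^ 2) * (R * S))) * (U ^ (4 * δ) * U ^ (1 + δ) * (K * (3 * U ^ δ))) := by
              refine mul_le_mul_of_nonneg_left (mul_le_mul_of_nonneg_left e1 ?_) hA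
              positivity
          _ = (P * (C₂ * (64 * C₁ ^ 2) * (R * S)) * 3) * (U ^ (4 * δ) * U ^ (1 + δ) * U ^ δ) * K := by ring
          _ ≤ (P * (C₂ * (64 * C₁ ^ 2) * (R * S)) * 3) * U ^ (1 + ε) * K := by
              refine mul_le_mul_of_nonneg_right (mul_le_mul_of_nonneg_left e2 (by positivity)) hK0.le
          _ ≤ (P * (C₂ * (64 * C₁ ^ 2) * (R * S)) * 3 + 1) * U ^ (1 + ε) * K := by
              refine mul_le_mul_of_nonneg_right (mul_le_mul_of_nonneg_right ?_ hUe) hK0.le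
              linarith

end Pool.Agent.P07318h
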