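import Pool.Agent.Lib.P07318h.Blk

/-!
# Weighted large sieve in short windows

PROOF. Summability of `‖c q‖`: as in `large_sieve` (P07318f/LargeS.lean). Blocks `D_j = {q : 2^j ≤ h < 2^(j+1)}` (finite sets; see `Spaced.di` etc. in P07318s/Spaced.lean). By Cauchy-Schwarz with the weights
`2^(-jδ)`: `‖∑_q c q ex‖² = ‖∑_j ∑_{q ∈ D_j}‖² ≤ (∑_j 2^(-jδ)) ∑_j 2^(jδ) ‖∑_{q ∈ D_j} c q ex‖²`, integrate, `blk` with `A = 2^j`: `≤ C ∑_j 2^(jδ) (H + 2^j)^(1+2δ) ∑_{q ∈ D_j} ‖c q‖²`, and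
`‖c q‖² ≤ kap² h⁻¹ B²`. It remains to see that for `2^j ≤ h < 2^(j+1)`, `0 ≤ H ≤ 8U`: `2^(jδ) (H + 2^j)^(1+2δ) kap² h⁻¹ ≤ 9 U^(4δ) kap (H h⁻¹ + 1)`.
(i) `h ≤ U`: `(H + 2^j)^(2δ) ≤ (9U)^(2δ) ≤ 9 U^(2δ)`, `(H + 2^j) h⁻¹ ≤ H h⁻¹ + 1`, `2^(jδ) ≤ U^δ`, `kap ≤ U^δ`.
(ii) `h > U`: `(H + 2^j)^(2δ) ≤ (9h)^(2δ) ≤ 9 h^(2δ)`, `2^(jδ) ≤ h^δ`, `kap h^(3δ) = (U/h)² h^(3δ) ≤ U^(3δ)` (as `3δ ≤ 2`, `U/h < 1`).
-/

set_option autoImplicit false

namespace Pool.Agent.P07318h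

open MeasureTheory Complex Pool.Agent.P07318s Pool.Agent.P07318f

namespace WlsAux

open Spaced

theorem fin_di (j : ℕ) : (di ⁻¹' {j}).Finite := by
  have h1 : Set.Finite ((fun q : Q => (((q.1.1 : ℕ), (q.1.2 : ℕ)) : ℕ × ℕ)) '' (di ⁻¹' {j})) := by
    refine ((Set.finite_Iic (2 * 2 ^ j)).prod (Set.finite_Iic (2 * 2 ^ j))).subset ?_
    rintro _ ⟨q, hq, rfl⟩
    have hq' : di q = j := hq
    have h2 := lt_di q
    rw [hq'] at h2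
    unfold hgt at h2
    have h3 : (q.1.1 : ℕ) * (q.1.2 : ℕ) < 2 * 2 ^ j := by exact_mod_cast h2
    have h4 : 1 ≤ (q.1.1 : ℕ) := q.1.1.2
    have h5 : 1 ≤ (q.1.2 : ℕ) := q.1.2.2
    constructor
    · show (q.1.1 : ℕ) ≤ 2 * 2 ^ j
      nlinarith
    · show (q.1.2 : ℕ) ≤ 2 * 2 ^ j
      nlinarith
  refine h1.of_finite_image ?_
  intro q _ q' _ h
  simp only [Prod.mk.injEq] at h
  apply Subtype.ext
  exact Prod.ext (PNat.coe_injective h.1) (PNat.coe_injective h.2)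

/-- the dyadic blocks -/
noncomputable def D (j : ℕ) : Finset Q := (fin_di j).toFinset

theorem mem_D {j : ℕ} {q : Q} : q ∈ D j ↔ di q = j := by
  unfold D
  rw [Set.Finite.mem_toFinset]
  rfl

theorem coe_D (j : ℕ) : ((D j : Finset Q) : Set Q) = di ⁻¹' {j} := by
  ext q
  exact mem_D

theorem tsum_D (f : Q → ENNReal) : ∑' j, ∑ q ∈ D j, f q = ∑' q, f q := by
  rw [← (Equiv.sigmaFiberEquiv di).tsum_eq, ENNReal.tsum_sigma']
  refine tsum_congr fun j => ?_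
  rw [← Finset.tsum_subtype']
  have h := coe_D j
  have h2 : ∀ s : Set Q, s = di ⁻¹' {j} → ∑' x : s, f x = ∑' x : {x // di x = j}, f x := by
    rintro _ rfl
    rfl
  exact h2 _ h

theorem tsum_D' {f : Q → ℂ} (hf : Summable f) :
    (∑' q, f q) = ∑' j, ∑ q ∈ D j, f q := by
  rw [← (Equiv.sigmaFiberEquiv di).tsum_eq]
  have h3 : Summable fun c => f ((Equiv.sigmaFiberEquiv di) c) :=
    (Equiv.sigmaFiberEquiv di).summable_iff.2 hf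
  rw [h3.tsum_sigma]
  refine tsum_congr fun j => ?_
  rw [← Finset.tsum_subtype']
  have h := coe_D j
  have h2 : ∀ s : Set Q, s = di ⁻¹' {j} → ∑' x : {x // di x = j}, f x = ∑' x : s, f x := by
    rintro _ rfl
    rfl
  exact h2 _ h

theorem num1 {δ U H h A : ℝ} (hδ : 0 < δ) (hδ2 : δ ≤ 1 / 2) (hU : 1 ≤ U) (hH : 0 ≤ H)
    (hHU : H ≤ 8 * U) (hA : 1 ≤ A) (hAh : A ≤ h) :
    A ^ δ * (H + A) ^ (2 * δ) * kap δ U h ≤ 9 * U ^ (4 * δ) := by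
  have hU0 : 0 < U := by linarith
  have hA0 : 0 < A := by linarith
  have hh0 : 0 < h := by linarith
  have h9 : (9 : ℝ) ^ (2 * δ) ≤ 9 := by
    calc (9 : ℝ) ^ (2 * δ) ≤ (9 : ℝ) ^ (1 : ℝ) :=
          Real.rpow_le_rpow_of_exponent_le (by norm_num) (by linarith)
      _ = 9 := Real.rpow_one 9
  have hk := kap_nonneg (δ := δ) hU0.le hh0.le
  have hAd : A ^ δ ≤ h ^ δ := Real.rpow_le_rpow hA0.le hAh hδ.le
  have hU34 : U ^ (3 * δ) ≤ U ^ (4 * δ) :=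
    Real.rpow_le_rpow_of_exponent_le hU (by linarith)
  rcases le_or_gt h U with hc | hc
  · have hkap : kap δ U h = (U / h) ^ δ := by unfold kap; rw [if_pos hc]
    have h1 : (H + A) ^ (2 * δ) ≤ 9 * U ^ (2 * δ) := by
      calc (H + A) ^ (2 * δ) ≤ (9 * U) ^ (2 * δ) :=
            Real.rpow_le_rpow (by linarith) (by linarith) (by linarith)
        _ = 9 ^ (2 * δ) * U ^ (2 * δ) := Real.mul_rpow (by norm_num) hU0.le
        _ ≤ 9 * U ^ (2 * δ) := mul_le_mul_of_nonneg_right h9 (by positivity)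
    have h2 : A ^ δ * kap δ U h ≤ U ^ δ := by
      rw [hkap]
      calc A ^ δ * (U / h) ^ δ ≤ h ^ δ * (U / h) ^ δ := mul_le_mul_of_nonneg_right hAd (by positivity)
        _ = U ^ δ := by rw [← Real.mul_rpow hh0.le (by positivity), mul_div_cancel₀ _ hh0.ne']
    calc A ^ δ * (H + A) ^ (2 * δ) * kap δ U h = (A ^ δ * kap δ U h) * (H + A) ^ (2 * δ) := by ring
      _ ≤ U ^ δ * (9 * U ^ (2 * δ)) := mul_le_mul h2 h1 (by positivity) (by positivity)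
      _ = 9 * (U ^ δ * U ^ (2 * δ)) := by ring
      _ = 9 * U ^ (3 * δ) := by rw [← Real.rpow_add hU0]; congr 2; ring
      _ ≤ 9 * U ^ (4 * δ) := by linarith
  · have h1 : (H + A) ^ (2 * δ) ≤ 9 * h ^ (2 * δ) := by
      calc (H + A) ^ (2 * δ) ≤ (9 * h) ^ (2 * δ) :=
            Real.rpow_le_rpow (by linarith) (by linarith) (by linarith)
        _ = 9 ^ (2 * δ) * h ^ (2 * δ) := Real.mul_rpow (by norm_num) hh0.le
        _ ≤ 9 * h ^ (2 * δ) := mul_le_mul_of_nonneg_right h9 (by positivity)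
    have h2 : kap δ U h ≤ (U / h) ^ (3 * δ) := kap_le' (by linarith) (by linarith) hU0 hh0
    calc A ^ δ * (H + A) ^ (2 * δ) * kap δ U h ≤ h ^ δ * (9 * h ^ (2 * δ)) * (U / h) ^ (3 * δ) := by
          gcongr
      _ = 9 * ((h ^ δ * h ^ (2 * δ)) * (U / h) ^ (3 * δ)) := by ring
      _ = 9 * (h ^ (3 * δ) * (U / h) ^ (3 * δ)) := by
          rw [← Real.rpow_add hh0]; congr 4; ring
      _ = 9 * U ^ (3 * δ) := by rw [← Real.mul_rpow hh0.le (by positivity), mul_div_cancel₀ _ hh0.ne']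
      _ ≤ 9 * U ^ (4 * δ) := by linarith

theorem num2 {δ U H h A : ℝ} (hδ : 0 < δ) (hδ2 : δ ≤ 1 / 2) (hU : 1 ≤ U) (hH : 0 ≤ H)
    (hHU : H ≤ 8 * U) (hA : 1 ≤ A) (hAh : A ≤ h) :
    A ^ δ * (H + A) ^ (1 + 2 * δ) * (kap δ U h ^ 2 * h⁻¹) ≤
      9 * U ^ (4 * δ) * (kap δ U h * (H * h⁻¹ + 1)) := by
  have hU0 : 0 < U := by linarith
  have hA0 : 0 < A := by linarith
  have hh0 : 0 < h := by linarith
  have hk := kap_nonneg (δ := δ) hU0.le hh0.le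
  have hHA : 0 < H + A := by linarith
  have h1 := num1 hδ hδ2 hU hH hHU hA hAh
  have h2 : (H + A) * h⁻¹ ≤ H * h⁻¹ + 1 := by
    rw [add_mul]
    have : A * h⁻¹ ≤ 1 := by
      rw [← div_eq_mul_inv, div_le_one hh0]
      exact hAh
    linarith
  rw [Real.rpow_add hHA, Real.rpow_one]
  calc A ^ δ * ((H + A) * (H + A) ^ (2 * δ)) * (kap δ U h ^ 2 * h⁻¹)
      = (A ^ δ * (H + A) ^ (2 * δ) * kap δ U h) * (kap δ U h * ((H + A) * h⁻¹)) := by ring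
    _ ≤ 9 * U ^ (4 * δ) * (kap δ U h * (H * h⁻¹ + 1)) := by
        refine mul_le_mul h1 (mul_le_mul_of_nonneg_left h2 hk) (by positivity) (by positivity)

theorem geo {δ : ℝ} (hδ : 0 < δ) : ∃ V : ℝ, 0 < V ∧
    ∑' j : ℕ, ENNReal.ofReal (((2 : ℝ) ^ j) ^ (-δ)) ≤ ENNReal.ofReal V := by
  have h1 : ∀ j : ℕ, ((2 : ℝ) ^ j) ^ (-δ) = ((2 : ℝ) ^ (-δ)) ^ j := by
    intro j
    rw [← Real.rpow_natCast, ← Real.rpow_natCast, ← Real.rpow_mul (by norm_num),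
      ← Real.rpow_mul (by norm_num), mul_comm]
  have h2 : (2 : ℝ) ^ (-δ) < 1 := Real.rpow_lt_one_of_one_lt_of_neg (by norm_num) (by linarith)
  have h0 : (0 : ℝ) ≤ (2 : ℝ) ^ (-δ) := by positivity
  have h3 : Summable fun j : ℕ => ((2 : ℝ) ^ (-δ)) ^ j := summable_geometric_of_lt_one h0 h2
  refine ⟨(1 - (2 : ℝ) ^ (-δ))⁻¹, inv_pos.2 (by linarith), ?_⟩
  rw [← tsum_geometric_of_lt_one h0 h2, ENNReal.ofReal_tsum_of_nonneg (fun j => by positivity) h3]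
  exact le_of_eq (tsum_congr fun j => by rw [h1])

theorem cs_D {δ : ℝ} (a : ℕ → ENNReal) : (∑' j, a j) ^ 2 ≤
    (∑' j : ℕ, ENNReal.ofReal (((2 : ℝ) ^ j) ^ (-δ))) *
      ∑' j : ℕ, ENNReal.ofReal (((2 : ℝ) ^ j) ^ δ) * a j ^ 2 := by
  have h := cs_tsum (fun j : ℕ => ENNReal.ofReal (√(((2 : ℝ) ^ j) ^ (-δ))))
    (fun j : ℕ => ENNReal.ofReal (√(((2 : ℝ) ^ j) ^ δ)) * a j)
  have h1 : ∀ j : ℕ, ENNReal.ofReal (√(((2 : ℝ) ^ j) ^ (-δ))) *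
      (ENNReal.ofReal (√(((2 : ℝ) ^ j) ^ δ)) * a j) = a j := by
    intro j
    rw [← mul_assoc, ← ENNReal.ofReal_mul (Real.sqrt_nonneg _), ← Real.sqrt_mul (by positivity),
      ← Real.rpow_add (by positivity), neg_add_cancel, Real.rpow_zero, Real.sqrt_one,
      ENNReal.ofReal_one, one_mul]
  have h2 : ∀ j : ℕ, ENNReal.ofReal (√(((2 : ℝ) ^ j) ^ (-δ))) ^ 2 =
      ENNReal.ofReal (((2 : ℝ) ^ j) ^ (-δ)) := by
    intro j
    rw [← ENNReal.ofReal_pow (Real.sqrt_nonneg _), Real.sq_sqrt (by positivity)]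
  have h3 : ∀ j : ℕ, (ENNReal.ofReal (√(((2 : ℝ) ^ j) ^ δ)) * a j) ^ 2 =
      ENNReal.ofReal (((2 : ℝ) ^ j) ^ δ) * a j ^ 2 := by
    intro j
    rw [mul_pow, ← ENNReal.ofReal_pow (Real.sqrt_nonneg _), Real.sq_sqrt (by positivity)]
  simp only [h1, h2, h3] at h
  exact h

theorem ex_continuous (p : ℕ+ × ℕ+) : Continuous fun x : ℝ => ex x p := by
  unfold ex
  fun_prop

end WlsAux

open WlsAux Spaced in
theorem wls (δ : ℝ) (hδ : 0 < δ) (hδ2 : δ ≤ 1 / 2) : ∃ C : ℝ, 0 < C ∧ ∀ U H β : ℝ, 1 ≤ U → 0 ≤ H → H ≤ 8 * U →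
    ∀ (c : Q → ℂ) (B : Q → ℝ) (B₀ : ℝ), (∀ q, 0 ≤ B q) → (∀ q, B q ≤ B₀) →
    (∀ q, ‖c q‖ ≤ kap δ U (hgt q.1) * (hgt q.1) ^ (-(1 / 2) : ℝ) * B q) →
    (Summable fun q : Q => ‖c q‖) ∧
    ∫⁻ h in Set.Icc β (β + H), ‖∑' q : Q, c q * ex h q.1‖ₑ ^ 2 ≤
      ENNReal.ofReal (C * U ^ (4 * δ)) *
        ∑' q : Q, ENNReal.ofReal (kap δ U (hgt q.1) * (H * (hgt q.1)⁻¹ + 1) * B q ^ 2) := by
  obtain ⟨C₀, hC₀, hblk⟩ := blk δ hδ hδ2
  obtain ⟨V, hV, hgeo⟩ := geo hδ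
  refine ⟨V * (C₀ * 9), by positivity, fun U H β hU hH hHU c B B₀ hB0 hB hc => ?_⟩
  have hsum : Summable fun q : Q => ‖c q‖ := by
    refine Summable.of_nonneg_of_le (fun q => norm_nonneg _) (fun q => ?_)
      ((ww_summable hδ hδ2 hU).mul_right B₀)
    refine (hc q).trans ?_
    have : 0 ≤ ww δ U q := ww_nonneg (by linarith) q
    exact mul_le_mul_of_nonneg_left (hB q) this
  refine ⟨hsum, ?_⟩
  have hU0 : 0 < U := by linarith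
  have hpt : ∀ h : ℝ, ‖∑' q : Q, c q * ex h q.1‖ₑ ^ 2 ≤ ENNReal.ofReal V *
      ∑' j : ℕ, ENNReal.ofReal (((2 : ℝ) ^ j) ^ δ) * ‖∑ q ∈ D j, c q * ex h q.1‖ₑ ^ 2 := by
    intro h
    have hf : Summable fun q : Q => c q * ex h q.1 := by
      refine Summable.of_norm ?_
      refine hsum.congr fun q => ?_
      rw [norm_mul, norm_ex, mul_one]
    rw [tsum_D' hf]
    refine (pow_le_pow_left' enorm_tsum_le_tsum_enorm 2).trans ((cs_D (δ := δ) _).trans ?_)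
    exact mul_le_mul_left hgeo _
  refine (lintegral_mono fun h => hpt h).trans ?_
  rw [lintegral_const_mul' _ _ ENNReal.ofReal_ne_top, lintegral_tsum]
  swap
  · intro j
    refine Measurable.aemeasurable ?_
    have h1 : Continuous fun h : ℝ => ∑ q ∈ D j, c q * ex h q.1 :=
      continuous_finsetSum _ fun q _ => continuous_const.mul (ex_continuous q.1)
    exact (h1.measurable.enorm.pow_const 2).const_mul _
  have hj : ∀ j : ℕ, ∫⁻ h in Set.Icc β (β + H), ENNReal.ofReal (((2 : ℝ) ^ j) ^ δ) *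
      ‖∑ q ∈ D j, c q * ex h q.1‖ₑ ^ 2 ≤ ∑ q ∈ D j, ENNReal.ofReal (C₀ * 9 * U ^ (4 * δ)) *
        ENNReal.ofReal (kap δ U (hgt q.1) * (H * (hgt q.1)⁻¹ + 1) * B q ^ 2) := by
    intro j
    rw [lintegral_const_mul' _ _ ENNReal.ofReal_ne_top]
    have hA1 : (1 : ℝ) ≤ 2 ^ j := one_le_pow₀ (by norm_num)
    have h1 := hblk (2 ^ j) H β (D j) c hA1 hH fun q hq => by
      have h2 := lt_di q
      rw [mem_D.1 hq] at h2
      exact h2.le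
    refine (mul_le_mul_right h1 _).trans ?_
    rw [← mul_assoc, ← ENNReal.ofReal_mul (by positivity), Finset.mul_sum]
    refine Finset.sum_le_sum fun q hq => ?_
    have hh0 := hgt_pos q.1
    have hk := kap_nonneg (δ := δ) hU0.le hh0.le
    have hAh : (2 : ℝ) ^ j ≤ hgt q.1 := by
      have h2 := di_le q
      rw [mem_D.1 hq] at h2
      exact h2
    have hn := num2 hδ hδ2 hU hH hHU hA1 hAh
    have hs : ((hgt q.1) ^ (-(1 / 2) : ℝ)) ^ 2 = (hgt q.1)⁻¹ := by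
      rw [← Real.rpow_natCast, ← Real.rpow_mul hh0.le]
      norm_num
      exact Real.rpow_neg_one _
    have hcq : ‖c q‖ ^ 2 ≤ kap δ U (hgt q.1) ^ 2 * (hgt q.1)⁻¹ * B q ^ 2 := by
      calc ‖c q‖ ^ 2 ≤ (kap δ U (hgt q.1) * (hgt q.1) ^ (-(1 / 2) : ℝ) * B q) ^ 2 :=
            pow_le_pow_left₀ (norm_nonneg _) (hc q) 2
        _ = kap δ U (hgt q.1) ^ 2 * (hgt q.1)⁻¹ * B q ^ 2 := by rw [mul_pow, mul_pow, hs]
    rw [← ofReal_norm, ← ENNReal.ofReal_pow (norm_nonneg _), ← ENNReal.ofReal_mul (by positivity),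
      ← ENNReal.ofReal_mul (by positivity)]
    apply ENNReal.ofReal_le_ofReal
    calc ((2 : ℝ) ^ j) ^ δ * (C₀ * (H + 2 ^ j) ^ (1 + 2 * δ)) * ‖c q‖ ^ 2
        ≤ ((2 : ℝ) ^ j) ^ δ * (C₀ * (H + 2 ^ j) ^ (1 + 2 * δ)) *
          (kap δ U (hgt q.1) ^ 2 * (hgt q.1)⁻¹ * B q ^ 2) :=
          mul_le_mul_of_nonneg_left hcq (by positivity)
      _ = C₀ * (((2 : ℝ) ^ j) ^ δ * (H + 2 ^ j) ^ (1 + 2 * δ) *
          (kap δ U (hgt q.1) ^ 2 * (hgt q.1)⁻¹)) * B q ^ 2 := by ring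
      _ ≤ C₀ * (9 * U ^ (4 * δ) * (kap δ U (hgt q.1) * (H * (hgt q.1)⁻¹ + 1))) * B q ^ 2 := by
          gcongr
      _ = C₀ * 9 * U ^ (4 * δ) * (kap δ U (hgt q.1) * (H * (hgt q.1)⁻¹ + 1) * B q ^ 2) := by ring
  refine (mul_le_mul_right (ENNReal.tsum_le_tsum hj) _).trans ?_
  rw [tsum_D, ENNReal.tsum_mul_left, ← mul_assoc, ← ENNReal.ofReal_mul hV.le]
  refine le_of_eq ?_
  congr 2
  ring

end Pool.Agent.P07318h
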